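import Mathlib

/-!
# Lusin's condition (N) for continuous monotone maps in `WL^n log^{-1} L`

Let `f : Ω → ℝⁿ` be continuous and monotone (`osc_B f ≤ osc_{∂B} f` for balls), weakly
differentiable, with `|Df|^n / log (e + |Df|)` locally integrable. Then `f` maps null sets to
null sets. The proof:

* (`osc_bound`) for `n - 1 < p`, `(osc_{B(x,r)} f)^p ≤ C r^{p-n} ∫_{B(x,2r)} |Df|^p`
  (Morrey's inequality on spheres, monotonicity, mollification);
* points where `osc_{B(x,r)} f / r` is bounded as `r → 0` are handled by a Lipschitz argument;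
* at the remaining points, for every large level `L` one stops at the last radius `r` with
  `osc_{B(x,r)} f ≥ L r`; a Vitali covering gives (`level_bound`)
  `|f(A)| ≤ C L^{1/2} ∫_{K ∩ {|Df| > ε L}} |Df|^{n-1/2}`;
* summing over `L = e^s` with the weights `1/s` (`level_sum`) the right-hand sides have a finite
  sum by the integrability of `|Df|^n / log (e + |Df|)`, while `∑ 1/s = ∞`, so `|f(A)| = 0`.
-/

set_option autoImplicit false
set_option linter.all false

open MeasureTheory Metric Set Module Submodule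
open scoped ENNReal NNReal RealInnerProductSpace Topology Convolution

namespace Pool.Agent.Helper795.LusinN


section part1


/-- Jensen / Hölder on a set of finite measure. -/
lemma lintegral_le_rpow {α : Type*} [MeasurableSpace α] (μ : Measure α) {p : ℝ} (hp : 1 < p)
    {h : α → ℝ≥0∞} (hh : AEMeasurable h μ) :
    ∫⁻ a, h a ∂μ ≤ (∫⁻ a, h a ^ p ∂μ) ^ (1 / p) * (μ univ) ^ (1 - 1 / p) := by
  have hpq : p.HolderConjugate (Real.conjExponent p) := Real.HolderConjugate.conjExponent hp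
  have := ENNReal.lintegral_mul_le_Lp_mul_Lq μ hpq hh (g := fun _ => 1) aemeasurable_const
  simp only [Pi.mul_apply, mul_one, ENNReal.one_rpow, lintegral_const, one_mul] at this
  refine this.trans (le_of_eq ?_)
  congr 2
  have := hpq.one_sub_inv
  simp only [one_div]
  exact this.symm

lemma lintegral_homothety {F : Type*} [NormedAddCommGroup F] [NormedSpace ℝ F]
    [FiniteDimensional ℝ F] [MeasurableSpace F] [BorelSpace F] (μ : Measure F) [μ.IsAddHaarMeasure]
    {s : ℝ} (hs : 0 < s) (c : F) {h : F → ℝ≥0∞} (hh : Measurable h) :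
    ∫⁻ y, h (c + s • y) ∂μ = ENNReal.ofReal ((s ^ finrank ℝ F)⁻¹) * ∫⁻ z, h z ∂μ := by
  have h1 : ∫⁻ y, h (c + s • y) ∂μ = ∫⁻ z, h (c + z) ∂(Measure.map (s • ·) μ) := by
    rw [lintegral_map (by fun_prop) (measurable_const_smul s)]
  rw [h1, Measure.map_addHaar_smul μ hs.ne', lintegral_smul_measure,
    abs_of_nonneg (by positivity), lintegral_add_left_eq_self]
  rfl

theorem morrey_abstract {F : Type*} [NormedAddCommGroup F] [NormedSpace ℝ F]
    [FiniteDimensional ℝ F] [MeasurableSpace F] [BorelSpace F] (μ : Measure F) [μ.IsAddHaarMeasure]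
    {p : ℝ} (hp : (finrank ℝ F : ℝ) < p) (hp1 : 1 < p) {ρ : ℝ} (hρ : 0 < ρ) :
    ∃ C : ℝ≥0∞, C ≠ ⊤ ∧ ∀ (h : F → ℝ≥0∞) (w : F → ℝ), Measurable h →
      (∀ x ∈ closedBall (0 : F) ρ, ∀ y ∈ closedBall (0 : F) ρ,
        ‖w x - w y‖ₑ ≤ ∫⁻ s in Ioo (0 : ℝ) 1, h (x + s • (y - x)) * ‖y - x‖ₑ) →
      ∀ x ∈ closedBall (0 : F) ρ, ∀ y ∈ closedBall (0 : F) ρ,
        ‖w x - w y‖ₑ ≤ C * (∫⁻ z in closedBall (0 : F) ρ, h z ^ p ∂μ) ^ (1 / p) := by
  set B : Set F := closedBall (0 : F) ρ with hB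
  have hBm : MeasurableSet B := measurableSet_closedBall
  have hBc : Convex ℝ B := convex_closedBall _ _
  have hB0 : μ B ≠ 0 := (measure_closedBall_pos μ 0 hρ).ne'
  have hBt : μ B ≠ ⊤ := measure_closedBall_lt_top.ne
  set m : ℕ := finrank ℝ F with hm
  have hp0 : 0 < p := by linarith
  set I : ℝ≥0∞ := ∫⁻ s in Ioo (0 : ℝ) 1, ENNReal.ofReal ((s ^ m)⁻¹) ^ (1 / p) with hI
  have hIt : I ≠ ⊤ := by
    have h1 : IntegrableOn (fun s : ℝ => s ^ (-((m : ℝ) / p))) (Ioo 0 1) := by
      rw [intervalIntegral.integrableOn_Ioo_rpow_iff zero_lt_one]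
      have : (m : ℝ) / p < 1 := (div_lt_one hp0).2 hp
      linarith
    have h2 := h1.2
    rw [hasFiniteIntegral_iff_enorm] at h2
    refine ne_of_lt (lt_of_le_of_lt (le_of_eq ?_) h2)
    refine setLIntegral_congr_fun measurableSet_Ioo fun s hs => ?_
    have hs0 : 0 < s := hs.1
    rw [Real.enorm_eq_ofReal (by positivity), ENNReal.ofReal_rpow_of_nonneg (by positivity)
      (by positivity)]
    congr 1
    rw [← Real.rpow_natCast s m, ← Real.rpow_neg hs0.le, ← Real.rpow_mul hs0.le]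
    congr 1
    ring
  refine ⟨2 * (ENNReal.ofReal (2 * ρ) * (I * (μ B) ^ (1 - 1 / p))) * (μ B)⁻¹, ?_, ?_⟩
  · refine ENNReal.mul_ne_top (ENNReal.mul_ne_top (by norm_num) (ENNReal.mul_ne_top
      ENNReal.ofReal_ne_top (ENNReal.mul_ne_top hIt ?_))) (ENNReal.inv_ne_top.2 hB0)
    refine ENNReal.rpow_ne_top_of_nonneg ?_ hBt
    have : 1 / p < 1 := by rw [div_lt_one hp0]; exact hp1
    linarith
  intro h w hh hw
  set J : ℝ≥0∞ := (∫⁻ z in B, h z ^ p ∂μ) ^ (1 / p) with hJ
  -- the averaged bound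
  set H : F → F → ℝ≥0∞ := fun x y => ∫⁻ s in Ioo (0 : ℝ) 1, h (x + s • (y - x)) *
    ENNReal.ofReal (2 * ρ) with hH
  have hHm : ∀ x, Measurable (H x) := by
    intro x
    have : Measurable fun q : F × ℝ => h (x + q.2 • (q.1 - x)) * ENNReal.ofReal (2 * ρ) := by
      refine (hh.comp ?_).mul_const _
      fun_prop
    exact this.lintegral_prod_right' (ν := volume.restrict (Ioo (0 : ℝ) 1))
  have key : ∀ x ∈ B, ∫⁻ y in B, H x y ∂μ ≤ ENNReal.ofReal (2 * ρ) * (I * (μ B) ^ (1 - 1 / p)) * J := by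
    intro x hx
    have hsw : ∫⁻ y in B, H x y ∂μ = ∫⁻ s in Ioo (0 : ℝ) 1, ∫⁻ y in B, h (x + s • (y - x)) *
        ENNReal.ofReal (2 * ρ) ∂μ := by
      rw [hH]
      refine lintegral_lintegral_swap ?_
      refine Measurable.aemeasurable ?_
      refine Measurable.mul_const (hh.comp ?_) _
      fun_prop
    rw [hsw]
    have hin : ∀ s ∈ Ioo (0 : ℝ) 1, ∫⁻ y in B, h (x + s • (y - x)) * ENNReal.ofReal (2 * ρ) ∂μ ≤
        ENNReal.ofReal ((s ^ m)⁻¹) ^ (1 / p) *
          (ENNReal.ofReal (2 * ρ) * (μ B) ^ (1 - 1 / p) * J) := by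
      intro s hs
      have hs0 : 0 < s := hs.1
      have hmeas : Measurable fun y : F => h (x + s • (y - x)) := hh.comp (by fun_prop)
      rw [lintegral_mul_const _ hmeas]
      have h1 := lintegral_le_rpow (μ.restrict B) hp1 (h := fun y => h (x + s • (y - x)))
        hmeas.aemeasurable
      rw [Measure.restrict_apply_univ] at h1
      have h2 : ∫⁻ y in B, h (x + s • (y - x)) ^ p ∂μ ≤ ENNReal.ofReal ((s ^ m)⁻¹) *
          ∫⁻ z in B, h z ^ p ∂μ := by
        have hg : Measurable (B.indicator fun z => h z ^ p) := (hh.pow_const p).indicator hBm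
        have h3 := lintegral_homothety μ hs0 (x - s • x) hg
        rw [lintegral_indicator hBm] at h3
        rw [← h3, ← lintegral_indicator hBm]
        refine lintegral_mono fun y => ?_
        by_cases hy : y ∈ B
        · rw [indicator_of_mem hy]
          have he : x + s • (y - x) = x - s • x + s • y := by rw [smul_sub]; abel
          have hmem : x - s • x + s • y ∈ B := by
            rw [← he]
            exact hBc.add_smul_sub_mem hx hy ⟨hs.1.le, hs.2.le⟩
          rw [indicator_of_mem hmem, he]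
        · rw [indicator_of_notMem hy]; exact zero_le
      have h4 : (∫⁻ y in B, h (x + s • (y - x)) ^ p ∂μ) ^ (1 / p) ≤
          ENNReal.ofReal ((s ^ m)⁻¹) ^ (1 / p) * J := by
        rw [hJ, ← ENNReal.mul_rpow_of_nonneg _ _ (by positivity)]
        exact ENNReal.rpow_le_rpow h2 (by positivity)
      calc (∫⁻ y in B, h (x + s • (y - x)) ∂μ) * ENNReal.ofReal (2 * ρ)
          ≤ ((ENNReal.ofReal ((s ^ m)⁻¹) ^ (1 / p) * J) * μ B ^ (1 - 1 / p)) *
            ENNReal.ofReal (2 * ρ) := by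
            gcongr
            exact h1.trans (by gcongr)
        _ = _ := by ring
    calc ∫⁻ s in Ioo (0 : ℝ) 1, ∫⁻ y in B, h (x + s • (y - x)) * ENNReal.ofReal (2 * ρ) ∂μ
        ≤ ∫⁻ s in Ioo (0 : ℝ) 1, ENNReal.ofReal ((s ^ m)⁻¹) ^ (1 / p) *
          (ENNReal.ofReal (2 * ρ) * (μ B) ^ (1 - 1 / p) * J) :=
          setLIntegral_mono' measurableSet_Ioo hin
      _ = I * (ENNReal.ofReal (2 * ρ) * (μ B) ^ (1 - 1 / p) * J) := by
          rw [lintegral_mul_const, hI]
          refine Measurable.pow_const ?_ _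
          exact ENNReal.measurable_ofReal.comp (by fun_prop)
      _ = _ := by ring
  intro x hx y hy
  have hle : ∀ x ∈ B, ∀ y ∈ B, ‖w x - w y‖ₑ ≤ H x y := by
    intro x hx y hy
    refine (hw x hx y hy).trans ?_
    refine lintegral_mono fun s => ?_
    gcongr
    rw [← ofReal_norm]
    refine ENNReal.ofReal_le_ofReal ?_
    have h1 : ‖x‖ ≤ ρ := by simpa [hB] using hx
    have h2 : ‖y‖ ≤ ρ := by simpa [hB] using hy
    calc ‖y - x‖ ≤ ‖y‖ + ‖x‖ := norm_sub_le _ _
      _ ≤ 2 * ρ := by linarith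
  have htot : ‖w x - w y‖ₑ * μ B ≤ 2 * (ENNReal.ofReal (2 * ρ) * (I * (μ B) ^ (1 - 1 / p)) * J) := by
    calc ‖w x - w y‖ₑ * μ B = ∫⁻ z in B, ‖w x - w y‖ₑ ∂μ := by
          rw [lintegral_const, Measure.restrict_apply_univ]
      _ ≤ ∫⁻ z in B, (H x z + H y z) ∂μ := by
          refine setLIntegral_mono' hBm fun z hz => ?_
          have h1 := hle x hx z hz
          have h2 := hle y hy z hz
          have h3 : ‖w x - w y‖ₑ ≤ ‖w x - w z‖ₑ + ‖w y - w z‖ₑ := by
            have : w x - w y = (w x - w z) - (w y - w z) := by ring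
            rw [this]
            exact enorm_sub_le
          exact h3.trans (add_le_add h1 h2)
      _ = ∫⁻ z in B, H x z ∂μ + ∫⁻ z in B, H y z ∂μ := by
          rw [lintegral_add_left (hHm x)]
      _ ≤ _ := by
          rw [two_mul]
          exact add_le_add (key x hx) (key y hy)
  calc ‖w x - w y‖ₑ = ‖w x - w y‖ₑ * μ B * (μ B)⁻¹ := by
        rw [mul_assoc, ENNReal.mul_inv_cancel hB0 hBt, mul_one]
    _ ≤ 2 * (ENNReal.ofReal (2 * ρ) * (I * (μ B) ^ (1 - 1 / p)) * J) * (μ B)⁻¹ := by gcongr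
    _ = _ := by ring

end part1

section part7


/-- the weights -/
noncomputable def aw (m : ℕ) : ℝ := Real.exp ((m : ℝ) / 2) / m

lemma aw_ratio {m : ℕ} (hm : 4 ≤ m) : 5 * aw m ≤ 4 * aw (m + 1) := by
  unfold aw
  have hm' : (4 : ℝ) ≤ m := by exact_mod_cast hm
  have h0 : (0 : ℝ) < m := by linarith
  have h1 : Real.exp (((m + 1 : ℕ) : ℝ) / 2) = Real.exp ((m : ℝ) / 2) * Real.exp (1 / 2) := by
    rw [← Real.exp_add]; push_cast; ring_nf
  have h2 : (1.6 : ℝ) ≤ Real.exp (1 / 2) := by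
    have h3 : Real.exp (1 / 2) * Real.exp (1 / 2) = Real.exp 1 := by
      rw [← Real.exp_add]; norm_num
    have h4 := Real.exp_one_gt_d9
    have h5 := Real.exp_pos (1 / 2 : ℝ)
    nlinarith
  rw [h1]
  have hE := Real.exp_pos ((m : ℝ) / 2)
  push_cast
  rw [mul_div_assoc', mul_div_assoc', div_le_div_iff₀ h0 (by linarith)]
  have : 5 * ((m : ℝ) + 1) ≤ 4 * 1.6 * m := by nlinarith
  have h6 : 4 * 1.6 * (m : ℝ) ≤ 4 * Real.exp (1 / 2) * m := by nlinarith
  nlinarith

lemma aw_nonneg (m : ℕ) : 0 ≤ aw m := by unfold aw; positivity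

lemma aw_le {m : ℕ} (hm : 4 ≤ m) {ε G : ℝ} (hε : 0 < ε) (hε1 : ε ≤ 1)
    (hG : ε * Real.exp m < G) :
    aw m ≤ 2 / Real.sqrt ε * (Real.sqrt G / Real.log (Real.exp 1 + G)) := by
  have hm' : (4 : ℝ) ≤ m := by exact_mod_cast hm
  have h0 : (0 : ℝ) < m := by linarith
  have hG0 : 0 < G := lt_trans (by positivity) hG
  set T : ℝ := G / ε with hT
  have hT0 : 0 < T := by positivity
  have hTm : Real.exp m < T := by rw [hT, lt_div_iff₀ hε]; linarith
  set x : ℝ := Real.log T with hx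
  have hxm : (m : ℝ) < x := by rw [hx, Real.lt_log_iff_exp_lt hT0]; exact hTm
  have hx0 : 0 < x := by linarith
  have hTx : Real.exp x = T := Real.exp_log hT0
  -- (ii)
  have h1 : aw m ≤ Real.exp (x / 2) / x := by
    unfold aw
    rw [div_le_div_iff₀ h0 hx0]
    have h2 : x / m ≤ Real.exp ((x - m) / 2) := by
      have h3 := Real.add_one_le_exp ((x - m) / 2)
      refine le_trans ?_ h3
      rw [div_le_iff₀ h0]
      nlinarith
    have h4 : Real.exp (x / 2) = Real.exp (m / 2) * Real.exp ((x - m) / 2) := by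
      rw [← Real.exp_add]; ring_nf
    rw [h4]
    rw [div_le_iff₀ h0] at h2
    have := Real.exp_pos ((m : ℝ) / 2)
    nlinarith
  have h5 : Real.exp (x / 2) = Real.sqrt G / Real.sqrt ε := by
    rw [← Real.sqrt_div hG0.le, ← hT, ← hTx, Real.sqrt_eq_rpow, ← Real.exp_mul]
    ring_nf
  have h6 : Real.log (Real.exp 1 + G) ≤ 2 * x := by
    have h7 : Real.exp 1 + G ≤ T ^ 2 := by
      have hGT : G ≤ T := by rw [hT, le_div_iff₀ hε]; nlinarith
      have he : Real.exp 1 ≤ T := (Real.exp_le_exp.2 (by linarith)).trans hTm.le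
      have h2T : 2 ≤ T := by
        have := Real.add_one_le_exp (m : ℝ)
        linarith
      nlinarith
    calc Real.log (Real.exp 1 + G) ≤ Real.log (T ^ 2) := Real.log_le_log (by positivity) h7
      _ = 2 * x := by rw [Real.log_pow]; norm_num [hx]
  have hlog : 1 ≤ Real.log (Real.exp 1 + G) := by
    rw [Real.le_log_iff_exp_le (by positivity)]; linarith
  calc aw m ≤ Real.exp (x / 2) / x := h1
    _ = (Real.sqrt G / Real.sqrt ε) / x := by rw [h5]
    _ ≤ (Real.sqrt G / Real.sqrt ε) / (Real.log (Real.exp 1 + G) / 2) := by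
        apply div_le_div_of_nonneg_left (by positivity) (by positivity)
        linarith
    _ = _ := by field_simp

lemma aw_sum {m₀ : ℕ} (hm : 4 ≤ m₀) {ε G : ℝ} (hε : 0 < ε) (N : ℕ)
    (hG : ε * Real.exp ((N + m₀ : ℕ) : ℝ) < G) :
    ∑ k ∈ Finset.range (N + 1), (if ε * Real.exp ((k + m₀ : ℕ) : ℝ) < G then aw (k + m₀) else 0) ≤
      5 * aw (N + m₀) := by
  induction N with
  | zero =>
    simp only [zero_add, Finset.range_one, Finset.sum_singleton]
    split_ifs
    · linarith [aw_nonneg m₀]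
    · linarith [aw_nonneg m₀]
  | succ N ih =>
    have hlt : ε * Real.exp ((N + m₀ : ℕ) : ℝ) < G := by
      refine lt_of_le_of_lt ?_ hG
      gcongr
      omega
    rw [Finset.sum_range_succ, if_pos hG]
    have h1 := ih hlt
    have h2 := aw_ratio (m := N + m₀) (by omega)
    have h3 : N + m₀ + 1 = N + 1 + m₀ := by ring
    rw [h3] at h2
    linarith

lemma aw_sum' {m₀ : ℕ} (hm : 4 ≤ m₀) {ε G : ℝ} (hε : 0 < ε) (hε1 : ε ≤ 1) (hG0 : 0 ≤ G) (N : ℕ) :
    ∑ k ∈ Finset.range N, (if ε * Real.exp ((k + m₀ : ℕ) : ℝ) < G then aw (k + m₀) else 0) ≤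
      10 / Real.sqrt ε * (Real.sqrt G / Real.log (Real.exp 1 + G)) := by
  have hlog : 1 ≤ Real.log (Real.exp 1 + G) := by
    rw [Real.le_log_iff_exp_le (by positivity)]; linarith
  induction N with
  | zero => simp; positivity
  | succ N ih =>
    by_cases hc : ε * Real.exp ((N + m₀ : ℕ) : ℝ) < G
    · have h1 := aw_sum hm hε N hc
      have h2 := aw_le (m := N + m₀) (by omega) hε hε1 hc
      have h3 : 10 / Real.sqrt ε * (Real.sqrt G / Real.log (Real.exp 1 + G)) =
        5 * (2 / Real.sqrt ε * (Real.sqrt G / Real.log (Real.exp 1 + G))) := by ring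
      linarith
    · rw [Finset.sum_range_succ, if_neg hc, add_zero]
      exact ih

lemma harmonic_top {m₀ : ℕ} (hm : 1 ≤ m₀) : ∑' k : ℕ, ENNReal.ofReal (1 / ((k + m₀ : ℕ) : ℝ)) = ⊤ := by
  by_contra hne
  have h1 := ENNReal.summable_toReal hne
  have h2 : Summable fun k : ℕ => 1 / ((k + m₀ : ℕ) : ℝ) := by
    refine h1.congr fun k => ?_
    rw [ENNReal.toReal_ofReal (by positivity)]
  have h3 : Summable fun k : ℕ => 1 / (k : ℝ) :=
    (summable_nat_add_iff (f := fun k : ℕ => 1 / (k : ℝ)) m₀).1 h2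
  exact Real.not_summable_one_div_natCast h3

theorem level_sum {α : Type*} [MeasurableSpace α] (μ : Measure α) {G : α → ℝ} (hGm : Measurable G)
    (hG0 : ∀ x, 0 ≤ G x) {n : ℕ} (hn : 2 ≤ n) {ε : ℝ} (hε : 0 < ε) (hε1 : ε ≤ 1) {m₀ : ℕ}
    (hm : 4 ≤ m₀) {C c : ℝ≥0∞} (hC : C ≠ ⊤)
    (hfin : ∫⁻ x, ENNReal.ofReal (G x ^ n / Real.log (Real.exp 1 + G x)) ∂μ ≠ ⊤)
    (hc : ∀ k : ℕ, c ≤ C * ENNReal.ofReal (Real.exp (((k + m₀ : ℕ) : ℝ) / 2)) *
      ∫⁻ x in {x | ε * Real.exp ((k + m₀ : ℕ) : ℝ) < G x}, ENNReal.ofReal (G x ^ ((n : ℝ) - 1 / 2)) ∂μ) :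
    c = 0 := by
  by_contra hc0
  have hms : ∀ k : ℕ, MeasurableSet {x | ε * Real.exp ((k + m₀ : ℕ) : ℝ) < G x} := fun k =>
    measurableSet_lt measurable_const hGm
  have hpm : Measurable fun x => ENNReal.ofReal (G x ^ ((n : ℝ) - 1 / 2)) :=
    (hGm.pow_const _).ennreal_ofReal
  have hfm : ∀ k : ℕ, Measurable fun x => ({x | ε * Real.exp ((k + m₀ : ℕ) : ℝ) < G x}).indicator
      (fun x => ENNReal.ofReal (aw (k + m₀)) * ENNReal.ofReal (G x ^ ((n : ℝ) - 1 / 2))) x :=
    fun k => (hpm.const_mul _).indicator (hms k)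
  have h1 : ∑' k : ℕ, ENNReal.ofReal (1 / ((k + m₀ : ℕ) : ℝ)) * c ≤
      C * ∫⁻ x, ENNReal.ofReal (10 / Real.sqrt ε) *
        ENNReal.ofReal (G x ^ n / Real.log (Real.exp 1 + G x)) ∂μ := by
    calc ∑' k : ℕ, ENNReal.ofReal (1 / ((k + m₀ : ℕ) : ℝ)) * c
        ≤ ∑' k : ℕ, C * ∫⁻ x, ({x | ε * Real.exp ((k + m₀ : ℕ) : ℝ) < G x}).indicator
            (fun x => ENNReal.ofReal (aw (k + m₀)) * ENNReal.ofReal (G x ^ ((n : ℝ) - 1 / 2))) x ∂μ := by
          refine ENNReal.tsum_le_tsum fun k => ?_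
          calc ENNReal.ofReal (1 / ((k + m₀ : ℕ) : ℝ)) * c
              ≤ ENNReal.ofReal (1 / ((k + m₀ : ℕ) : ℝ)) * (C * ENNReal.ofReal (Real.exp (((k + m₀ : ℕ) : ℝ) / 2)) *
      ∫⁻ x in {x | ε * Real.exp ((k + m₀ : ℕ) : ℝ) < G x}, ENNReal.ofReal (G x ^ ((n : ℝ) - 1 / 2)) ∂μ) := by
                gcongr
                exact hc k
            _ = C * (ENNReal.ofReal (aw (k + m₀)) *
                ∫⁻ x in {x | ε * Real.exp ((k + m₀ : ℕ) : ℝ) < G x}, ENNReal.ofReal (G x ^ ((n : ℝ) - 1 / 2)) ∂μ) := by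
                have : ENNReal.ofReal (aw (k + m₀)) = ENNReal.ofReal (1 / ((k + m₀ : ℕ) : ℝ)) *
                    ENNReal.ofReal (Real.exp (((k + m₀ : ℕ) : ℝ) / 2)) := by
                  rw [← ENNReal.ofReal_mul (by positivity)]
                  unfold aw
                  congr 1
                  ring
                rw [this]
                ring
            _ = _ := by
                rw [lintegral_indicator (hms k), lintegral_const_mul _ hpm]
      _ = C * ∫⁻ x, ∑' k : ℕ, ({x | ε * Real.exp ((k + m₀ : ℕ) : ℝ) < G x}).indicator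
            (fun x => ENNReal.ofReal (aw (k + m₀)) * ENNReal.ofReal (G x ^ ((n : ℝ) - 1 / 2))) x ∂μ := by
          rw [ENNReal.tsum_mul_left, lintegral_tsum fun k => (hfm k).aemeasurable]
      _ ≤ _ := by
          gcongr with x
          refine ENNReal.tsum_le_of_sum_range_le fun N => ?_
          have h2 : ∀ k : ℕ, ({x | ε * Real.exp ((k + m₀ : ℕ) : ℝ) < G x}).indicator
            (fun x => ENNReal.ofReal (aw (k + m₀)) * ENNReal.ofReal (G x ^ ((n : ℝ) - 1 / 2))) x =
            ENNReal.ofReal (if ε * Real.exp ((k + m₀ : ℕ) : ℝ) < G x then aw (k + m₀) else 0) *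
              ENNReal.ofReal (G x ^ ((n : ℝ) - 1 / 2)) := by
            intro k
            by_cases hk : ε * Real.exp ((k + m₀ : ℕ) : ℝ) < G x
            · rw [indicator_of_mem (by exact hk), if_pos hk]
            · rw [indicator_of_notMem (by exact hk), if_neg hk]; simp
          rw [Finset.sum_congr rfl fun k _ => h2 k, ← Finset.sum_mul,
            ← ENNReal.ofReal_sum_of_nonneg, ← ENNReal.ofReal_mul, ← ENNReal.ofReal_mul (by positivity)]
          · refine ENNReal.ofReal_le_ofReal ?_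
            have h3 := aw_sum' hm hε hε1 (hG0 x) N
            have h4 : 0 ≤ G x ^ ((n : ℝ) - 1 / 2) := Real.rpow_nonneg (hG0 x) _
            have h5 : Real.sqrt (G x) * G x ^ ((n : ℝ) - 1 / 2) = G x ^ n := by
              have hn0 : (2 : ℝ) ≤ n := by exact_mod_cast hn
              rw [Real.sqrt_eq_rpow, ← Real.rpow_add_of_nonneg (hG0 x) (by norm_num) (by linarith),
                ← Real.rpow_natCast]
              congr 1
              ring
            calc _ ≤ (10 / Real.sqrt ε * (Real.sqrt (G x) / Real.log (Real.exp 1 + G x))) *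
                  G x ^ ((n : ℝ) - 1 / 2) := mul_le_mul_of_nonneg_right h3 h4
              _ = 10 / Real.sqrt ε * ((Real.sqrt (G x) * G x ^ ((n : ℝ) - 1 / 2)) /
                  Real.log (Real.exp 1 + G x)) := by ring
              _ = _ := by rw [h5]
          · refine Finset.sum_nonneg fun k _ => ?_
            split_ifs
            · exact aw_nonneg _
            · exact le_rfl
          · intro k _
            split_ifs
            · exact aw_nonneg _
            · exact le_rfl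
  rw [ENNReal.tsum_mul_right, harmonic_top (by omega), ENNReal.top_mul hc0, top_le_iff] at h1
  have hgm : Measurable fun x => ENNReal.ofReal (G x ^ n / Real.log (Real.exp 1 + G x)) := by
    refine Measurable.ennreal_ofReal ?_
    exact (hGm.pow_const n).div (Real.measurable_log.comp (measurable_const.add hGm))
  rw [lintegral_const_mul _ hgm] at h1
  exact ENNReal.mul_ne_top hC (ENNReal.mul_ne_top ENNReal.ofReal_ne_top hfin) h1

end part7

section part2


variable {E : Type*} [NormedAddCommGroup E] [InnerProductSpace ℝ E] [FiniteDimensional ℝ E]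
  [MeasurableSpace E] [BorelSpace E]

/-- graph chart of the upper part of the sphere. -/
noncomputable def chart (e : E) (x : (ℝ ∙ e)ᗮ) : E := (x : E) + Real.sqrt (1 - ‖x‖ ^ 2) • e

lemma chart_continuous (e : E) : Continuous (chart e) := by
  unfold chart
  fun_prop

lemma norm_chart {e : E} (he : ‖e‖ = 1) (x : (ℝ ∙ e)ᗮ) (hx : ‖x‖ ≤ 1) : ‖chart e x‖ = 1 := by
  have h1 : ⟪(x : E), e⟫ = 0 := by
    have := x.2
    rw [mem_orthogonal_singleton_iff_inner_left] at this
    exact this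
  have h2 : ‖chart e x‖ ^ 2 = 1 := by
    unfold chart
    rw [← real_inner_self_eq_norm_sq, inner_add_left, inner_add_right, inner_add_right,
      inner_smul_left, inner_smul_right, inner_smul_left, inner_smul_right, h1, real_inner_comm (x : E) e,
      h1, real_inner_self_eq_norm_sq, real_inner_self_eq_norm_sq, he]
    have h3 : 0 ≤ 1 - ‖x‖ ^ 2 := by nlinarith [norm_nonneg x]
    have h4 := Real.mul_self_sqrt h3
    simp only [mul_zero, add_zero, zero_add, conj_trivial, coe_norm]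
    simp only [coe_norm] at h4
    nlinarith
  have := norm_nonneg (chart e x)
  nlinarith

lemma chart_surj {e : E} (he : ‖e‖ = 1) {κ : ℝ} (hκ0 : 0 ≤ κ) {a : E} (ha : ‖a‖ = 1)
    (hae : κ ≤ ⟪a, e⟫) :
    ∃ x : (ℝ ∙ e)ᗮ, ‖x‖ ≤ Real.sqrt (1 - κ ^ 2) ∧ chart e x = a := by
  have hmem : a - ⟪a, e⟫ • e ∈ (ℝ ∙ e)ᗮ := by
    rw [mem_orthogonal_singleton_iff_inner_left, inner_sub_left, inner_smul_left,
      real_inner_self_eq_norm_sq, he]
    simp
  have hnorm : ‖a - ⟪a, e⟫ • e‖ ^ 2 = 1 - ⟪a, e⟫ ^ 2 := by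
    rw [← real_inner_self_eq_norm_sq, inner_sub_left, inner_sub_right, inner_sub_right,
      inner_smul_left, inner_smul_right, inner_smul_left, inner_smul_right,
      real_inner_self_eq_norm_sq, real_inner_self_eq_norm_sq, he, ha, real_inner_comm e a]
    simp only [conj_trivial]
    ring
  refine ⟨⟨a - ⟪a, e⟫ • e, hmem⟩, ?_, ?_⟩
  · rw [coe_norm]
    apply Real.le_sqrt_of_sq_le
    simp only
    rw [hnorm]
    nlinarith
  · unfold chart
    rw [coe_norm]
    simp only
    rw [hnorm, sub_sub_cancel, Real.sqrt_sq (hκ0.trans hae)]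
    abel

theorem cap_bound (e : E) (he : ‖e‖ = 1) {p : ℝ} (hp : ((finrank ℝ E : ℝ) - 1) < p) (hp1 : 1 < p)
    {κ : ℝ} (hκ0 : 0 < κ) (hκ1 : κ < 1) :
    ∃ C : ℝ≥0∞, C ≠ ⊤ ∧ ∀ (φ : E → ℝ), ContDiff ℝ 1 φ → ∀ (z : E) (t : ℝ), 0 < t →
      ∀ a b : E, ‖a‖ = 1 → ‖b‖ = 1 → κ ≤ ⟪a, e⟫ → κ ≤ ⟪b, e⟫ →
        ‖φ (z + t • a) - φ (z + t • b)‖ₑ ≤ C * ENNReal.ofReal t *
          (∫⁻ x in closedBall (0 : (ℝ ∙ e)ᗮ) (Real.sqrt (1 - κ ^ 2)),
            ‖fderiv ℝ φ (z + t • chart e x)‖ₑ ^ p) ^ (1 / p) := by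
  have he0 : e ≠ 0 := by
    intro h
    rw [h, norm_zero] at he
    exact zero_ne_one he
  have hdim : finrank ℝ (ℝ ∙ e)ᗮ + 1 = finrank ℝ E := by
    have := Submodule.finrank_add_finrank_orthogonal (ℝ ∙ e)
    rw [finrank_span_singleton he0] at this
    omega
  set ρ : ℝ := Real.sqrt (1 - κ ^ 2) with hρ
  have hρ0 : 0 < ρ := by
    apply Real.sqrt_pos.2
    nlinarith
  have hρ2 : ρ ^ 2 = 1 - κ ^ 2 := Real.sq_sqrt (by nlinarith)
  have hp' : (finrank ℝ (ℝ ∙ e)ᗮ : ℝ) < p := by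
    have : (finrank ℝ (ℝ ∙ e)ᗮ : ℝ) + 1 = finrank ℝ E := by exact_mod_cast hdim
    linarith
  have hp0 : 0 < p := by linarith
  obtain ⟨C, hC, hM⟩ := morrey_abstract (volume : Measure (ℝ ∙ e)ᗮ) hp' hp1 hρ0
  set K : ℝ := 1 + ρ / κ with hK
  have hK0 : 0 < K := by positivity
  refine ⟨C * ENNReal.ofReal K, ENNReal.mul_ne_top hC ENNReal.ofReal_ne_top, ?_⟩
  intro φ hφ z t ht a b ha hb hae hbe
  obtain ⟨x, hx, rfl⟩ := chart_surj he hκ0.le ha hae
  obtain ⟨y, hy, rfl⟩ := chart_surj he hκ0.le hb hbe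
  have hDm : Continuous fun x : (ℝ ∙ e)ᗮ => fderiv ℝ φ (z + t • chart e x) := by
    refine (hφ.continuous_fderiv one_ne_zero).comp ?_
    have := chart_continuous e
    fun_prop
  have hmain := hM (fun x => ENNReal.ofReal (K * t) * ‖fderiv ℝ φ (z + t • chart e x)‖ₑ)
    (fun x => φ (z + t • chart e x)) (hDm.measurable.enorm.const_mul _) ?_ x
    (by simpa using hx) y (by simpa using hy)
  · refine hmain.trans (le_of_eq ?_)
    have h1 : ∫⁻ z_1 in closedBall (0 : (ℝ ∙ e)ᗮ) ρ,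
        (ENNReal.ofReal (K * t) * ‖fderiv ℝ φ (z + t • chart e z_1)‖ₑ) ^ p =
        ENNReal.ofReal (K * t) ^ p * ∫⁻ x in closedBall (0 : (ℝ ∙ e)ᗮ) ρ,
            ‖fderiv ℝ φ (z + t • chart e x)‖ₑ ^ p := by
      rw [← lintegral_const_mul _ (hDm.measurable.enorm.pow_const p)]
      refine lintegral_congr fun x => ?_
      rw [ENNReal.mul_rpow_of_nonneg _ _ hp0.le]
    rw [h1, ENNReal.mul_rpow_of_nonneg _ _ (by positivity), ← ENNReal.rpow_mul,
      mul_one_div_cancel hp0.ne', ENNReal.rpow_one, ENNReal.ofReal_mul hK0.le]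
    ring
  · intro x hx y hy
    have hγ : ∀ s ∈ Icc (0 : ℝ) 1, ‖x + s • (y - x)‖ ≤ ρ := by
      intro s hs
      have := (convex_closedBall (0 : (ℝ ∙ e)ᗮ) ρ).add_smul_sub_mem hx hy hs
      simpa using this
    have hpos : ∀ s ∈ Icc (0 : ℝ) 1, κ ^ 2 ≤ 1 - ‖x + s • (y - x)‖ ^ 2 := by
      intro s hs
      have := hγ s hs
      nlinarith [norm_nonneg (x + s • (y - x))]
    -- derivative of the curve
    have hc1 : ContDiffOn ℝ 1 (fun s : ℝ => z + t • chart e (x + s • (y - x))) (Icc 0 1) := by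
      intro s hs
      refine ContDiffAt.contDiffWithinAt ?_
      unfold chart
      have h1 : ContDiffAt ℝ 1 (fun s : ℝ => x + s • (y - x)) s := by fun_prop
      have h2 : ContDiffAt ℝ 1 (fun s : ℝ => ((x + s • (y - x) : (ℝ ∙ e)ᗮ) : E)) s :=
        ((ℝ ∙ e)ᗮ.subtypeL.contDiff.contDiffAt).comp s h1
      have h3 : ContDiffAt ℝ 1 (fun s : ℝ => Real.sqrt (1 - ‖x + s • (y - x)‖ ^ 2)) s := by
        refine ContDiffAt.sqrt ?_ ?_
        · exact contDiffAt_const.sub (h1.norm_sq ℝ)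
        · have := hpos s hs
          have : 0 < κ ^ 2 := by positivity
          linarith
      fun_prop
    have hf1 : ContDiffOn ℝ 1 (fun s : ℝ => φ (z + t • chart e (x + s • (y - x)))) (Icc 0 1) :=
      hφ.comp_contDiffOn hc1
    have h0 := enorm_sub_le_lintegral_deriv_of_contDiffOn_Icc hf1 zero_le_one
    simp only [zero_smul, add_zero, one_smul, add_sub_cancel] at h0
    rw [← enorm_neg, neg_sub]
    refine h0.trans ?_
    rw [← restrict_Ioo_eq_restrict_Icc]
    refine setLIntegral_mono' measurableSet_Ioo fun s hs => ?_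
    have hs' : s ∈ Icc (0 : ℝ) 1 := ⟨hs.1.le, hs.2.le⟩
    set q : (ℝ ∙ e)ᗮ := x + s • (y - x) with hq
    have hd1 : HasDerivAt (fun s : ℝ => x + s • (y - x)) (y - x) s := by
      have := ((hasDerivAt_id s).smul_const (y - x)).const_add x
      simpa using this
    have hd2 : HasDerivAt (fun s : ℝ => ((x + s • (y - x) : (ℝ ∙ e)ᗮ) : E)) ((y - x : (ℝ ∙ e)ᗮ) : E) s := by
      have h1 : HasFDerivAt (fun v : (ℝ ∙ e)ᗮ => (v : E)) ((ℝ ∙ e)ᗮ.subtypeL) q :=
        (ℝ ∙ e)ᗮ.subtypeL.hasFDerivAt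
      exact h1.comp_hasDerivAt s hd1
    have hd3 : HasDerivAt (fun s : ℝ => Real.sqrt (1 - ‖x + s • (y - x)‖ ^ 2))
        ((-(2 * ⟪q, y - x⟫)) / (2 * Real.sqrt (1 - ‖q‖ ^ 2))) s := by
      have h1 : HasDerivAt (fun s : ℝ => 1 - ‖x + s • (y - x)‖ ^ 2) (-(2 * ⟪q, y - x⟫)) s := by
        have := (hd1.norm_sq).const_sub 1
        exact this
      refine h1.sqrt ?_
      have := hpos s hs'
      have : 0 < κ ^ 2 := by positivity
      rw [← hq] at *
      linarith
    have hd4 : HasDerivAt (fun s : ℝ => z + t • chart e (x + s • (y - x)))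
        (t • (((y - x : (ℝ ∙ e)ᗮ) : E) +
          ((-(2 * ⟪q, y - x⟫)) / (2 * Real.sqrt (1 - ‖q‖ ^ 2))) • e)) s := by
      unfold chart
      exact ((hd2.add (hd3.smul_const e)).const_smul t).const_add z
    have hd5 : HasDerivAt (fun s : ℝ => φ (z + t • chart e (x + s • (y - x))))
        (fderiv ℝ φ (z + t • chart e q) (t • (((y - x : (ℝ ∙ e)ᗮ) : E) +
          ((-(2 * ⟪q, y - x⟫)) / (2 * Real.sqrt (1 - ‖q‖ ^ 2))) • e))) s :=
      ((hφ.differentiable one_ne_zero (z + t • chart e q)).hasFDerivAt).comp_hasDerivAt s hd4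
    rw [hd5.deriv]
    rw [← ofReal_norm, ← ofReal_norm, ← ofReal_norm, ← ENNReal.ofReal_mul (by positivity),
      ← ENNReal.ofReal_mul (by positivity)]
    refine ENNReal.ofReal_le_ofReal ?_
    refine (ContinuousLinearMap.le_opNorm _ _).trans ?_
    have hb : ‖t • (((y - x : (ℝ ∙ e)ᗮ) : E) +
          ((-(2 * ⟪q, y - x⟫)) / (2 * Real.sqrt (1 - ‖q‖ ^ 2))) • e)‖ ≤ K * t * ‖y - x‖ := by
      rw [norm_smul, Real.norm_of_nonneg ht.le]
      have h1 : ‖((y - x : (ℝ ∙ e)ᗮ) : E) +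
          ((-(2 * ⟪q, y - x⟫)) / (2 * Real.sqrt (1 - ‖q‖ ^ 2))) • e‖ ≤ K * ‖y - x‖ := by
        refine (norm_add_le _ _).trans ?_
        rw [norm_smul, he, mul_one, hK, one_add_mul]
        refine add_le_add (le_of_eq rfl) ?_
        rw [Real.norm_eq_abs, abs_div, abs_neg, abs_mul, abs_two, abs_mul, abs_two,
          abs_of_nonneg (Real.sqrt_nonneg _), mul_div_mul_left _ _ (two_ne_zero)]
        have h2 : |⟪q, y - x⟫| ≤ ρ * ‖y - x‖ :=
          (abs_real_inner_le_norm _ _).trans (by gcongr; exact hγ s hs')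
        have h3 : κ ≤ Real.sqrt (1 - ‖q‖ ^ 2) := Real.le_sqrt_of_sq_le (hpos s hs')
        calc |⟪q, y - x⟫| / Real.sqrt (1 - ‖q‖ ^ 2) ≤ (ρ * ‖y - x‖) / κ := by gcongr
          _ = ρ / κ * ‖y - x‖ := by ring
      calc t * _ ≤ t * (K * ‖y - x‖) := by gcongr
        _ = _ := by ring
    calc ‖fderiv ℝ φ (z + t • chart e q)‖ * _ ≤ ‖fderiv ℝ φ (z + t • chart e q)‖ * (K * t * ‖y - x‖) := by
          gcongr
      _ = _ := by ring

end part2

section part3


variable {n : ℕ}

/-- the `2n` coordinate directions -/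
noncomputable def dir (i : Fin n × Bool) : EuclideanSpace ℝ (Fin n) :=
  (if i.2 then (1 : ℝ) else -1) • EuclideanSpace.single i.1 1

lemma norm_dir (i : Fin n × Bool) : ‖dir i‖ = 1 := by
  unfold dir
  rw [norm_smul, PiLp.norm_single]
  split_ifs <;> simp

lemma inner_dir (a : EuclideanSpace ℝ (Fin n)) (i : Fin n × Bool) :
    ⟪a, dir i⟫ = (if i.2 then (1 : ℝ) else -1) * a i.1 := by
  unfold dir
  rw [inner_smul_right, EuclideanSpace.inner_single_right]
  simp

lemma exists_dir (hn : 2 ≤ n) {a : EuclideanSpace ℝ (Fin n)} (ha : ‖a‖ = 1) :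
    ∃ i : Fin n × Bool, (1 / n : ℝ) ≤ ⟪a, dir i⟫ := by
  have hn0 : (0 : ℝ) < n := by positivity
  have hn1 : (1 : ℝ) ≤ n := by exact_mod_cast (by omega : 1 ≤ n)
  have h1 : ∃ i : Fin n, (1 / n : ℝ) ≤ |a i| := by
    by_contra hcon
    push Not at hcon
    have h2 : ‖a‖ ^ 2 = ∑ i, ‖a i‖ ^ 2 := EuclideanSpace.norm_sq_eq a
    have h3 : ∑ i, ‖a i‖ ^ 2 < ∑ i : Fin n, (1 / n : ℝ) ^ 2 := by
      refine Finset.sum_lt_sum_of_nonempty ⟨⟨0, by omega⟩, Finset.mem_univ _⟩ fun i _ => ?_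
      have := hcon i
      rw [Real.norm_eq_abs]
      have h4 := abs_nonneg (a i)
      gcongr
    rw [Finset.sum_const, Finset.card_univ, Fintype.card_fin, nsmul_eq_mul, ← h2, ha] at h3
    have h5 : (n : ℝ) * (1 / n) ^ 2 = 1 / n := by field_simp
    rw [h5] at h3
    have h6 : (1 / n : ℝ) ≤ 1 := by rw [div_le_one hn0]; exact hn1
    linarith
  obtain ⟨i, hi⟩ := h1
  rcases le_total 0 (a i) with h | h
  · refine ⟨(i, true), ?_⟩
    rw [inner_dir, abs_of_nonneg h] at *
    simpa using hi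
  · refine ⟨(i, false), ?_⟩
    rw [inner_dir]
    rw [abs_of_nonpos h] at hi
    simpa using hi

lemma inner_dir_dir (i j : Fin n × Bool) (hij : i.1 ≠ j.1) : ⟪dir i, dir j⟫ = 0 := by
  rw [inner_dir]
  unfold dir
  split_ifs <;> simp [hij.symm]

lemma chain_bound (hn : 2 ≤ n) (q : EuclideanSpace ℝ (Fin n) → ℝ) (D : Fin n × Bool → ℝ≥0∞)
    (hD : ∀ i, ∀ a b : EuclideanSpace ℝ (Fin n), ‖a‖ = 1 → ‖b‖ = 1 →
      (1 / n : ℝ) ≤ ⟪a, dir i⟫ → (1 / n : ℝ) ≤ ⟪b, dir i⟫ → ‖q a - q b‖ₑ ≤ D i)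
    (a b : EuclideanSpace ℝ (Fin n)) (ha : ‖a‖ = 1) (hb : ‖b‖ = 1) :
    ‖q a - q b‖ₑ ≤ 4 * ∑ i, D i := by
  have hn0 : (0 : ℝ) < n := by positivity
  have hn2 : (2 : ℝ) ≤ n := by exact_mod_cast hn
  have hle : ∀ i, D i ≤ ∑ i, D i := fun i => Finset.single_le_sum (fun _ _ => zero_le) (Finset.mem_univ i)
  have tri : ∀ x y z : ℝ, ‖x - z‖ₑ ≤ ‖x - y‖ₑ + ‖y - z‖ₑ := by
    intro x y z
    have : x - z = (x - y) + (y - z) := by ring
    rw [this]
    exact enorm_add_le _ _
  have adj : ∀ (i j : Fin n × Bool), i.1 ≠ j.1 → ∀ a b : EuclideanSpace ℝ (Fin n), ‖a‖ = 1 →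
      ‖b‖ = 1 → (1 / n : ℝ) ≤ ⟪a, dir i⟫ → (1 / n : ℝ) ≤ ⟪b, dir j⟫ →
      ‖q a - q b‖ₑ ≤ 2 * ∑ i, D i := by
    intro i j hij a b ha hb hai hbj
    have h2 : (0 : ℝ) < Real.sqrt 2 := by positivity
    have h22 : Real.sqrt 2 * Real.sqrt 2 = 2 := Real.mul_self_sqrt (by norm_num)
    set c : EuclideanSpace ℝ (Fin n) := (Real.sqrt 2)⁻¹ • (dir i + dir j) with hc
    have hii : ∀ i : Fin n × Bool, ⟪dir i, dir i⟫ = (1 : ℝ) := by
      intro i
      rw [real_inner_self_eq_norm_sq, norm_dir]; norm_num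
    have hij0 := inner_dir_dir i j hij
    have hji0 := inner_dir_dir j i hij.symm
    have hcn : ‖c‖ = 1 := by
      have : ‖c‖ ^ 2 = 1 := by
        rw [← real_inner_self_eq_norm_sq, hc, inner_smul_left, inner_smul_right, inner_add_left,
          inner_add_right, inner_add_right, hii, hii, hij0, hji0]
        simp only [conj_trivial]
        field_simp
        nlinarith
      have := norm_nonneg c
      nlinarith
    have hinv : (1 / n : ℝ) ≤ (Real.sqrt 2)⁻¹ := by
      rw [one_div]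
      apply inv_anti₀ h2
      nlinarith
    have hci : (1 / n : ℝ) ≤ ⟪c, dir i⟫ := by
      rw [hc, inner_smul_left, inner_add_left, hii, hji0]
      simpa using hinv
    have hcj : (1 / n : ℝ) ≤ ⟪c, dir j⟫ := by
      rw [hc, inner_smul_left, inner_add_left, hii, hij0]
      simpa using hinv
    calc ‖q a - q b‖ₑ ≤ ‖q a - q c‖ₑ + ‖q c - q b‖ₑ := tri _ _ _
      _ ≤ D i + D j := add_le_add (hD i a c ha hcn hai hci) (hD j c b hcn hb hcj hbj)
      _ ≤ _ := by
          rw [two_mul]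
          exact add_le_add (hle i) (hle j)
  obtain ⟨i, hi⟩ := exists_dir hn ha
  obtain ⟨j, hj⟩ := exists_dir hn hb
  by_cases hij : i.1 = j.1
  · obtain ⟨k, hk⟩ : ∃ k : Fin n, k ≠ i.1 := by
      have : Nontrivial (Fin n) := Fin.nontrivial_iff_two_le.2 hn
      exact exists_ne i.1
    have hself : (1 / n : ℝ) ≤ ⟪dir (k, true), dir (k, true)⟫ := by
      rw [real_inner_self_eq_norm_sq, norm_dir, one_pow, div_le_one hn0]
      linarith
    calc ‖q a - q b‖ₑ ≤ ‖q a - q (dir (k, true))‖ₑ + ‖q (dir (k, true)) - q b‖ₑ := tri _ _ _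
      _ ≤ 2 * ∑ i, D i + 2 * ∑ i, D i :=
          add_le_add (adj i (k, true) hk.symm _ _ ha (norm_dir _) hi hself)
            (adj (k, true) j (by rw [← hij]; exact hk) _ _ (norm_dir _) hb hself hj)
      _ = 4 * ∑ i, D i := by ring
  · refine (adj i j hij a b ha hb hi hj).trans ?_
    gcongr
    norm_num

/-- radius of the parameter ball -/
noncomputable def rad (n : ℕ) : ℝ := Real.sqrt (1 - (1 / n : ℝ) ^ 2)

theorem sphere_bound (hn : 2 ≤ n) {p : ℝ} (hp : (n : ℝ) - 1 < p) :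
    ∃ C : ℝ≥0∞, C ≠ ⊤ ∧ ∀ (φ : EuclideanSpace ℝ (Fin n) → ℝ), ContDiff ℝ 1 φ →
      ∀ (z : EuclideanSpace ℝ (Fin n)) (t : ℝ), 0 < t →
      ∀ a ∈ sphere z t, ∀ b ∈ sphere z t,
        ‖φ a - φ b‖ₑ ≤ C * ENNReal.ofReal t *
          ∑ i, (∫⁻ x in closedBall (0 : (ℝ ∙ (dir i : EuclideanSpace ℝ (Fin n)))ᗮ) (rad n),
            ‖fderiv ℝ φ (z + t • chart (dir i) x)‖ₑ ^ p) ^ (1 / p) := by
  have hn2 : (2 : ℝ) ≤ n := by exact_mod_cast hn
  have hn0 : (0 : ℝ) < n := by linarith
  have hp1 : 1 < p := by linarith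
  have hcap := fun i : Fin n × Bool => cap_bound (dir i : EuclideanSpace ℝ (Fin n)) (norm_dir i)
    (p := p) (by simpa using hp) hp1 (κ := 1 / n) (by positivity)
    (by rw [div_lt_one hn0]; linarith)
  choose C hC hCb using hcap
  refine ⟨4 * ∑ i, C i, ENNReal.mul_ne_top (by norm_num) (ENNReal.sum_ne_top.2 fun i _ => hC i), ?_⟩
  intro φ hφ z t ht a ha b hb
  set J : Fin n × Bool → ℝ≥0∞ := fun i =>
    (∫⁻ x in closedBall (0 : (ℝ ∙ (dir i : EuclideanSpace ℝ (Fin n)))ᗮ) (rad n),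
            ‖fderiv ℝ φ (z + t • chart (dir i) x)‖ₑ ^ p) ^ (1 / p) with hJ
  have key := chain_bound hn (fun a => φ (z + t • a)) (fun i => C i * ENNReal.ofReal t * J i)
    (fun i a b ha hb hai hbi => hCb i φ hφ z t ht a b ha hb hai hbi)
    (t⁻¹ • (a - z)) (t⁻¹ • (b - z))
    (by rw [norm_smul, norm_inv, Real.norm_of_nonneg ht.le, mem_sphere_iff_norm.1 ha,
      inv_mul_cancel₀ ht.ne'])
    (by rw [norm_smul, norm_inv, Real.norm_of_nonneg ht.le, mem_sphere_iff_norm.1 hb,
      inv_mul_cancel₀ ht.ne'])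
  simp only [smul_smul, mul_inv_cancel₀ ht.ne', one_smul, add_sub_cancel] at key
  refine key.trans ?_
  rw [mul_assoc, mul_assoc]
  gcongr
  rw [← mul_assoc, Finset.mul_sum]
  refine Finset.sum_le_sum fun i _ => ?_
  gcongr
  exact Finset.single_le_sum (fun _ _ => zero_le) (Finset.mem_univ i)

end part3

section part4


variable {n : ℕ}

theorem averaged_bound (hn : 2 ≤ n) {p : ℝ} (hp : (n : ℝ) - 1 < p) :
    ∃ C : ℝ≥0∞, C ≠ ⊤ ∧ ∀ (φ : Fin n → EuclideanSpace ℝ (Fin n) → ℝ), (∀ i, ContDiff ℝ 1 (φ i)) →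
      ∀ (x₀ : EuclideanSpace ℝ (Fin n)) (t δ : ℝ), 0 < t → 0 < δ → ∀ M : ℝ≥0∞,
      (∀ z ∈ closedBall x₀ δ, ∃ a ∈ sphere z t, ∃ b ∈ sphere z t, M ≤ ∑ i, ‖φ i a - φ i b‖ₑ) →
      M ^ p * ENNReal.ofReal (δ ^ n) ≤ C * ENNReal.ofReal t ^ p *
        ∑ i, ∫⁻ y in closedBall x₀ (δ + t), ‖fderiv ℝ (φ i) y‖ₑ ^ p := by
  have hn2 : (2 : ℝ) ≤ n := by exact_mod_cast hn
  have hn0 : (0 : ℝ) < n := by linarith
  have hp1 : 1 < p := by linarith
  have hp0 : 0 < p := by linarith
  obtain ⟨C, hC, hCb⟩ := sphere_bound hn hp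
  set V : Fin n × Bool → ℝ≥0∞ := fun e =>
    volume (closedBall (0 : (ℝ ∙ (dir e : EuclideanSpace ℝ (Fin n)))ᗮ) (rad n)) with hV
  have hVt : ∀ e, V e ≠ ⊤ := fun e => measure_closedBall_lt_top.ne
  set W : ℝ≥0∞ := volume (closedBall (0 : EuclideanSpace ℝ (Fin n)) 1) with hW
  have hW0 : W ≠ 0 := (measure_closedBall_pos _ _ one_pos).ne'
  have hWt : W ≠ ⊤ := measure_closedBall_lt_top.ne
  set N : ℝ≥0∞ := ((Finset.univ : Finset (Fin n × (Fin n × Bool))).card : ℝ≥0∞) ^ (p - 1) with hN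
  have hNt : N ≠ ⊤ := ENNReal.rpow_ne_top_of_nonneg (by linarith) (ENNReal.natCast_ne_top _)
  refine ⟨C ^ p * N * (∑ e, V e) * W⁻¹, ENNReal.mul_ne_top (ENNReal.mul_ne_top (ENNReal.mul_ne_top
    (ENNReal.rpow_ne_top_of_nonneg hp0.le hC) hNt) (ENNReal.sum_ne_top.2 fun e _ => hVt e))
    (ENNReal.inv_ne_top.2 hW0), ?_⟩
  intro φ hφ x₀ t δ ht hδ M hM
  set g : Fin n → EuclideanSpace ℝ (Fin n) → ℝ≥0∞ := fun i y => ‖fderiv ℝ (φ i) y‖ₑ ^ p with hg
  have hgm : ∀ i, Measurable (g i) := fun i =>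
    (((hφ i).continuous_fderiv one_ne_zero).measurable.enorm).pow_const p
  set A : Fin n → Fin n × Bool → EuclideanSpace ℝ (Fin n) → ℝ≥0∞ := fun i e z =>
    ∫⁻ x in closedBall (0 : (ℝ ∙ (dir e : EuclideanSpace ℝ (Fin n)))ᗮ) (rad n),
      g i (z + t • chart (dir e) x) with hA
  have hmeas2 : ∀ i e, Measurable fun q : EuclideanSpace ℝ (Fin n) ×
      (ℝ ∙ (dir e : EuclideanSpace ℝ (Fin n)))ᗮ => g i (q.1 + t • chart (dir e) q.2) := by
    intro i e
    refine (hgm i).comp (Continuous.measurable ?_)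
    have := chart_continuous (dir e : EuclideanSpace ℝ (Fin n))
    fun_prop
  have hAm : ∀ i e, Measurable (A i e) := fun i e =>
    (hmeas2 i e).lintegral_prod_right' (ν := volume.restrict _)
  -- pointwise
  have hpt : ∀ z ∈ closedBall x₀ δ, M ^ p ≤ C ^ p * ENNReal.ofReal t ^ p * (N *
      ∑ ie : Fin n × (Fin n × Bool), A ie.1 ie.2 z) := by
    intro z hz
    obtain ⟨a, ha, b, hb, hab⟩ := hM z hz
    have h1 : M ≤ C * ENNReal.ofReal t * ∑ ie : Fin n × (Fin n × Bool), (A ie.1 ie.2 z) ^ (1 / p) := by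
      refine hab.trans ?_
      rw [Fintype.sum_prod_type, Finset.mul_sum]
      exact Finset.sum_le_sum fun i _ => hCb (φ i) (hφ i) z t ht a ha b hb
    calc M ^ p ≤ (C * ENNReal.ofReal t * ∑ ie : Fin n × (Fin n × Bool), (A ie.1 ie.2 z) ^ (1 / p)) ^ p :=
          ENNReal.rpow_le_rpow h1 hp0.le
      _ = C ^ p * ENNReal.ofReal t ^ p * (∑ ie : Fin n × (Fin n × Bool), (A ie.1 ie.2 z) ^ (1 / p)) ^ p := by
          rw [ENNReal.mul_rpow_of_nonneg _ _ hp0.le, ENNReal.mul_rpow_of_nonneg _ _ hp0.le]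
      _ ≤ C ^ p * ENNReal.ofReal t ^ p * (N * ∑ ie : Fin n × (Fin n × Bool), ((A ie.1 ie.2 z) ^ (1 / p)) ^ p) := by
          gcongr
          exact ENNReal.rpow_sum_le_const_mul_sum_rpow _ _ hp1.le
      _ = _ := by
          congr 3
          ext ie
          rw [← ENNReal.rpow_mul, one_div_mul_cancel hp0.ne', ENNReal.rpow_one]
  -- integrate
  have hint : ∀ i e, ∫⁻ z in closedBall x₀ δ, A i e z ≤ V e *
      ∫⁻ y in closedBall x₀ (δ + t), g i y := by
    intro i e
    have hsw : ∫⁻ z in closedBall x₀ δ, A i e z =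
        ∫⁻ x in closedBall (0 : (ℝ ∙ (dir e : EuclideanSpace ℝ (Fin n)))ᗮ) (rad n),
          ∫⁻ z in closedBall x₀ δ, g i (z + t • chart (dir e) x) := by
      rw [hA]
      exact lintegral_lintegral_swap (hmeas2 i e).aemeasurable
    rw [hsw]
    calc ∫⁻ x in closedBall (0 : (ℝ ∙ (dir e : EuclideanSpace ℝ (Fin n)))ᗮ) (rad n),
          ∫⁻ z in closedBall x₀ δ, g i (z + t • chart (dir e) x)
        ≤ ∫⁻ x in closedBall (0 : (ℝ ∙ (dir e : EuclideanSpace ℝ (Fin n)))ᗮ) (rad n),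
          ∫⁻ y in closedBall x₀ (δ + t), g i y := by
          refine setLIntegral_mono' measurableSet_closedBall fun x hx => ?_
          have hx1 : ‖x‖ ≤ 1 := by
            have h1 : ‖x‖ ≤ rad n := by simpa using hx
            refine h1.trans ?_
            unfold rad
            rw [Real.sqrt_le_one]
            have : 0 ≤ (1 / n : ℝ) ^ 2 := by positivity
            linarith
          have hc := norm_chart (norm_dir e) x hx1
          rw [← lintegral_indicator measurableSet_closedBall,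
            ← lintegral_indicator measurableSet_closedBall,
            ← lintegral_add_right_eq_self ((closedBall x₀ (δ + t)).indicator (g i))
              (t • chart (dir e) x)]
          refine lintegral_mono fun z => ?_
          by_cases hz : z ∈ closedBall x₀ δ
          · rw [indicator_of_mem hz]
            have hz' : z + t • chart (dir e) x ∈ closedBall x₀ (δ + t) := by
              rw [mem_closedBall, dist_eq_norm] at *
              have : z + t • chart (dir e) x - x₀ = (z - x₀) + t • chart (dir e) x := by abel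
              rw [this]
              refine (norm_add_le _ _).trans (add_le_add hz ?_)
              rw [norm_smul, hc, Real.norm_of_nonneg ht.le, mul_one]
            rw [indicator_of_mem hz']
          · rw [indicator_of_notMem hz]; exact zero_le
      _ = _ := by
          rw [lintegral_const, Measure.restrict_apply_univ, mul_comm]
  have hvol : volume (closedBall x₀ δ) = ENNReal.ofReal (δ ^ n) * W := by
    rw [Measure.addHaar_closedBall' volume x₀ hδ.le, finrank_euclideanSpace_fin]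
  have hfin : M ^ p * (ENNReal.ofReal (δ ^ n) * W) ≤ C ^ p * ENNReal.ofReal t ^ p * (N *
      ((∑ e, V e) * ∑ i, ∫⁻ y in closedBall x₀ (δ + t), g i y)) := by
    rw [← hvol]
    calc M ^ p * volume (closedBall x₀ δ) = ∫⁻ z in closedBall x₀ δ, M ^ p := by
          rw [lintegral_const, Measure.restrict_apply_univ]
      _ ≤ ∫⁻ z in closedBall x₀ δ, C ^ p * ENNReal.ofReal t ^ p * (N *
            ∑ ie : Fin n × (Fin n × Bool), A ie.1 ie.2 z) :=
          setLIntegral_mono' measurableSet_closedBall hpt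
      _ = C ^ p * ENNReal.ofReal t ^ p * (N *
            ∑ ie : Fin n × (Fin n × Bool), ∫⁻ z in closedBall x₀ δ, A ie.1 ie.2 z) := by
          rw [lintegral_const_mul, lintegral_const_mul, lintegral_finsetSum]
          · exact fun ie _ => hAm _ _
          · exact Finset.measurable_fun_sum _ fun ie _ => hAm _ _
          · exact (Finset.measurable_fun_sum _ fun ie _ => hAm _ _).const_mul _
      _ ≤ C ^ p * ENNReal.ofReal t ^ p * (N *
            ∑ ie : Fin n × (Fin n × Bool), V ie.2 * ∫⁻ y in closedBall x₀ (δ + t), g ie.1 y) := by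
          gcongr with ie
          exact hint _ _
      _ = _ := by
          congr 2
          rw [Fintype.sum_prod_type, Finset.sum_mul_sum, Finset.sum_comm]
  calc M ^ p * ENNReal.ofReal (δ ^ n) = M ^ p * (ENNReal.ofReal (δ ^ n) * W) * W⁻¹ := by
        rw [mul_assoc, mul_assoc, ENNReal.mul_inv_cancel hW0 hWt, mul_one]
    _ ≤ C ^ p * ENNReal.ofReal t ^ p * (N *
      ((∑ e, V e) * ∑ i, ∫⁻ y in closedBall x₀ (δ + t), g i y)) * W⁻¹ := by gcongr
    _ = _ := by ring

end part4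

section part5
open ContinuousLinearMap


variable {n : ℕ}

lemma opNorm_le_sum (L : EuclideanSpace ℝ (Fin n) →L[ℝ] ℝ) :
    ‖L‖ ≤ ∑ j, ‖L (EuclideanSpace.single j 1)‖ := by
  refine ContinuousLinearMap.opNorm_le_bound _ (by positivity) fun v => ?_
  have hv : v = ∑ j, v j • (EuclideanSpace.single j (1 : ℝ) : EuclideanSpace ℝ (Fin n)) := by
    ext k
    simp [Finset.sum_apply, Pi.single_apply]
  conv_lhs => rw [hv]
  rw [map_sum, Finset.sum_mul]
  refine (norm_sum_le _ _).trans (Finset.sum_le_sum fun j _ => ?_)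
  rw [map_smul, norm_smul, mul_comm]
  gcongr
  exact PiLp.norm_apply_le v j

lemma mollify {p : ℝ} (hp1 : 1 < p) {f : EuclideanSpace ℝ (Fin n) → ℝ}
    {g : Fin n → EuclideanSpace ℝ (Fin n) → ℝ} (hgm : ∀ j, Measurable (g j))
    {x₀ : EuclideanSpace ℝ (Fin n)} {R' R : ℝ} (hR : R' < R)
    (hfc : ContinuousOn f (closedBall x₀ R))
    (hw : ∀ (j : Fin n) (φ : EuclideanSpace ℝ (Fin n) → ℝ),
        ContDiff ℝ ((⊤ : ℕ∞) : WithTop ℕ∞) φ → HasCompactSupport φ → tsupport φ ⊆ closedBall x₀ R →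
        ∫ x, f x * fderiv ℝ φ x (EuclideanSpace.single j (1 : ℝ)) = - ∫ x, g j x * φ x)
    {η : ℝ} (hη : 0 < η) :
    ∃ φ : EuclideanSpace ℝ (Fin n) → ℝ, ContDiff ℝ 1 φ ∧ (∀ y ∈ closedBall x₀ R', |φ y - f y| ≤ η) ∧
      ∫⁻ y in closedBall x₀ R', ‖fderiv ℝ φ y‖ₑ ^ p ≤
        (n : ℝ≥0∞) ^ (p - 1) * ∑ j, ∫⁻ y in closedBall x₀ R, ‖g j y‖ₑ ^ p := by
  have hp0 : 0 < p := by linarith
  have hcomp : IsCompact (closedBall x₀ R) := isCompact_closedBall _ _
  have huc := hcomp.uniformContinuousOn_of_continuous hfc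
  rw [Metric.uniformContinuousOn_iff] at huc
  obtain ⟨ε₀, hε₀, hε₀f⟩ := huc η hη
  set ε : ℝ := min ε₀ (R - R') with hε
  have hε0 : 0 < ε := lt_min hε₀ (by linarith)
  have hε1 : ε ≤ ε₀ := min_le_left _ _
  have hε2 : R' + ε ≤ R := by have := min_le_right ε₀ (R - R'); linarith
  let b : ContDiffBump (0 : EuclideanSpace ℝ (Fin n)) := ⟨ε / 2, ε, by positivity, by linarith⟩
  set ρ : EuclideanSpace ℝ (Fin n) → ℝ := b.normed volume with hρ
  have hρs : ContDiff ℝ ((⊤ : ℕ∞) : WithTop ℕ∞) ρ := b.contDiff_normed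
  have hρs1 : ContDiff ℝ 1 ρ := b.contDiff_normed (n := 1)
  have hρc : HasCompactSupport ρ := b.hasCompactSupport_normed
  have hρ0 : ∀ x, 0 ≤ ρ x := b.nonneg_normed
  have hρi : ∫ x, ρ x = 1 := b.integral_normed
  have hρint : Integrable ρ := hρs.continuous.integrable_of_hasCompactSupport hρc
  have hρsupp : ∀ x, ρ x ≠ 0 → ‖x‖ < ε := by
    intro x hx
    have : x ∈ Function.support ρ := hx
    rw [hρ, b.support_normed_eq] at this
    simpa [b] using this
  have hρts : tsupport ρ = closedBall 0 ε := b.tsupport_normed_eq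
  have hsub : ∀ y ∈ closedBall x₀ R', closedBall y ε ⊆ closedBall x₀ R := by
    intro y hy
    refine closedBall_subset_closedBall' ?_
    rw [mem_closedBall] at hy
    linarith
  set F : EuclideanSpace ℝ (Fin n) → ℝ := (closedBall x₀ R).indicator f with hF
  have hFi : Integrable F := by
    rw [hF, integrable_indicator_iff measurableSet_closedBall]
    exact hfc.integrableOn_compact hcomp
  have hFl : LocallyIntegrable F := hFi.locallyIntegrable
  set φ : EuclideanSpace ℝ (Fin n) → ℝ := ρ ⋆[lsmul ℝ ℝ, volume] F with hφ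
  have hφs : ContDiff ℝ 1 φ := by
    have := hρc.contDiff_convolution_left (n := 1) (lsmul ℝ ℝ) hρs1 hFl
    exact this
  refine ⟨φ, hφs, ?_, ?_⟩
  · intro y hy
    rw [← Real.dist_eq]
    have hFy : F y = f y := by
      rw [hF, indicator_of_mem (hsub y hy (mem_closedBall_self hε0.le))]
    rw [← hFy]
    refine b.dist_normed_convolution_le hFi.aestronglyMeasurable fun x hx => ?_
    have hx' : x ∈ closedBall y ε := ball_subset_closedBall hx
    rw [hFy, hF, indicator_of_mem (hsub y hy hx')]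
    exact (hε₀f x (hsub y hy hx') y (hsub y hy (mem_closedBall_self hε0.le))
      (lt_of_lt_of_le (mem_ball.1 hx) hε1)).le
  · -- the derivative
    have hder : ∀ y ∈ closedBall x₀ R', ∀ j, fderiv ℝ φ y (EuclideanSpace.single j 1) =
        ∫ t, ρ t * g j (y - t) := by
      intro y hy j
      have h1 := hρc.hasFDerivAt_convolution_left (lsmul ℝ ℝ) hρs1 hFl y
      have h2 : fderiv ℝ φ y = (fderiv ℝ ρ ⋆[(lsmul ℝ ℝ).precompL (EuclideanSpace ℝ (Fin n)), volume] F) y :=
        h1.fderiv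
      rw [h2]
      have hex : ConvolutionExistsAt (fderiv ℝ ρ) F y
          ((lsmul ℝ ℝ).precompL (EuclideanSpace ℝ (Fin n))) volume :=
        (hρc.fderiv ℝ).convolutionExists_left _ (hρs1.continuous_fderiv one_ne_zero) hFl y
      have h3 : (fderiv ℝ ρ ⋆[(lsmul ℝ ℝ).precompL (EuclideanSpace ℝ (Fin n)), volume] F) y
          (EuclideanSpace.single j 1) = ∫ t, fderiv ℝ ρ t (EuclideanSpace.single j 1) * F (y - t) := by
        rw [convolution_def, ContinuousLinearMap.integral_apply hex]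
        rfl
      rw [h3, ← integral_sub_left_eq_self (fun t => fderiv ℝ ρ t (EuclideanSpace.single j 1) * F (y - t))
        volume y, ← integral_sub_left_eq_self (fun t => ρ t * g j (y - t)) volume y]
      simp only [sub_sub_cancel]
      set ψ : EuclideanSpace ℝ (Fin n) → ℝ := fun w => ρ (y - w) with hψ
      have hψs : ContDiff ℝ ((⊤ : ℕ∞) : WithTop ℕ∞) ψ := hρs.comp (contDiff_const.sub contDiff_id)
      have hψts : tsupport ψ ⊆ closedBall y ε := by
        refine closure_minimal ?_ isClosed_closedBall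
        intro w hw
        have := hρsupp (y - w) hw
        rw [mem_closedBall, dist_comm, dist_eq_norm]
        exact this.le
      have hψc : HasCompactSupport ψ := (isCompact_closedBall y ε).of_isClosed_subset
        (isClosed_tsupport _) hψts
      have h4 := hw j ψ hψs hψc (hψts.trans (hsub y hy))
      have h5 : ∀ w, fderiv ℝ ψ w (EuclideanSpace.single j 1) =
          - fderiv ℝ ρ (y - w) (EuclideanSpace.single j 1) := by
        intro w
        have ha : HasFDerivAt (fun w : EuclideanSpace ℝ (Fin n) => y - w)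
            (-(ContinuousLinearMap.id ℝ (EuclideanSpace ℝ (Fin n)))) w :=
          (hasFDerivAt_id w).const_sub y
        have hb : HasFDerivAt ψ ((fderiv ℝ ρ (y - w)).comp
            (-(ContinuousLinearMap.id ℝ (EuclideanSpace ℝ (Fin n))))) w :=
          ((hρs1.differentiable one_ne_zero (y - w)).hasFDerivAt).comp w ha
        rw [hb.fderiv]
        simp
      have h6 : ∫ w, fderiv ℝ ρ (y - w) (EuclideanSpace.single j 1) * F w =
          - ∫ x, f x * fderiv ℝ ψ x (EuclideanSpace.single j (1 : ℝ)) := by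
        rw [← integral_neg]
        refine integral_congr_ae (Filter.Eventually.of_forall fun w => ?_)
        simp only
        rw [h5 w]
        by_cases hw : w ∈ closedBall x₀ R
        · rw [hF, indicator_of_mem hw]; ring
        · have hz : fderiv ℝ ρ (y - w) = 0 := by
            by_contra hne
            have h7 : y - w ∈ tsupport ρ := support_fderiv_subset ℝ (Function.mem_support.2 hne)
            rw [hρts, mem_closedBall, dist_zero_right] at h7
            apply hw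
            apply hsub y hy
            rw [mem_closedBall, dist_comm, dist_eq_norm]
            exact h7
          rw [hz]; simp
      rw [h6, h4, neg_neg]
      refine integral_congr_ae (Filter.Eventually.of_forall fun w => ?_)
      simp only [hψ]
      ring
    -- Jensen
    set ν : Measure (EuclideanSpace ℝ (Fin n)) := volume.withDensity fun t => ‖ρ t‖ₑ with hν
    have hρm : Measurable fun t => ‖ρ t‖ₑ := hρs.continuous.measurable.enorm
    have hρ1 : ∫⁻ t, ‖ρ t‖ₑ = 1 := by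
      rw [← ofReal_integral_norm_eq_lintegral_enorm hρint]
      have : ∫ x, ‖ρ x‖ = 1 := by
        rw [← hρi]
        refine integral_congr_ae (Filter.Eventually.of_forall fun w => ?_)
        exact Real.norm_of_nonneg (hρ0 w)
      rw [this, ENNReal.ofReal_one]
    have hν1 : ν univ = 1 := by
      rw [hν, withDensity_apply _ MeasurableSet.univ, Measure.restrict_univ, hρ1]
    have hjen : ∀ y ∈ closedBall x₀ R', ∀ j, ‖fderiv ℝ φ y (EuclideanSpace.single j 1)‖ₑ ^ p ≤
        ∫⁻ t, ‖ρ t‖ₑ * ‖g j (y - t)‖ₑ ^ p := by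
      intro y hy j
      rw [hder y hy j]
      have hm1 : Measurable fun t => ‖g j (y - t)‖ₑ := ((hgm j).comp (measurable_const.sub measurable_id)).enorm
      have h1 : ‖∫ t, ρ t * g j (y - t)‖ₑ ≤ ∫⁻ t, ‖g j (y - t)‖ₑ ∂ν := by
        refine (enorm_integral_le_lintegral_enorm _).trans (le_of_eq ?_)
        rw [hν, lintegral_withDensity_eq_lintegral_mul _ hρm hm1]
        refine lintegral_congr fun t => ?_
        simp [enorm_mul]
      have h2 := lintegral_le_rpow ν hp1 hm1.aemeasurable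
      rw [hν1, ENNReal.one_rpow, mul_one] at h2
      calc ‖∫ t, ρ t * g j (y - t)‖ₑ ^ p ≤ ((∫⁻ t, ‖g j (y - t)‖ₑ ^ p ∂ν) ^ (1 / p)) ^ p :=
            ENNReal.rpow_le_rpow (h1.trans h2) hp0.le
        _ = ∫⁻ t, ‖g j (y - t)‖ₑ ^ p ∂ν := by
            rw [← ENNReal.rpow_mul, one_div_mul_cancel hp0.ne', ENNReal.rpow_one]
        _ = _ := by
            rw [hν, lintegral_withDensity_eq_lintegral_mul _ hρm (hm1.pow_const p)]
            rfl
    have hpt : ∀ y ∈ closedBall x₀ R', ‖fderiv ℝ φ y‖ₑ ^ p ≤ (n : ℝ≥0∞) ^ (p - 1) *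
        ∑ j, ∫⁻ t, ‖ρ t‖ₑ * ‖g j (y - t)‖ₑ ^ p := by
      intro y hy
      have h1 : ‖fderiv ℝ φ y‖ₑ ≤ ∑ j, ‖fderiv ℝ φ y (EuclideanSpace.single j 1)‖ₑ := by
        have := opNorm_le_sum (fderiv ℝ φ y)
        rw [← ofReal_norm]
        refine (ENNReal.ofReal_le_ofReal this).trans ?_
        rw [ENNReal.ofReal_sum_of_nonneg (fun _ _ => norm_nonneg _)]
        refine le_of_eq (Finset.sum_congr rfl fun j _ => ?_)
        rw [ofReal_norm]
      calc ‖fderiv ℝ φ y‖ₑ ^ p ≤ (∑ j, ‖fderiv ℝ φ y (EuclideanSpace.single j 1)‖ₑ) ^ p :=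
            ENNReal.rpow_le_rpow h1 hp0.le
        _ ≤ ((Finset.univ : Finset (Fin n)).card : ℝ≥0∞) ^ (p - 1) *
            ∑ j, ‖fderiv ℝ φ y (EuclideanSpace.single j 1)‖ₑ ^ p :=
            ENNReal.rpow_sum_le_const_mul_sum_rpow _ _ hp1.le
        _ ≤ _ := by
            rw [Finset.card_univ, Fintype.card_fin]
            gcongr with j
            exact hjen y hy j
    have hmm : ∀ j, Measurable fun q : EuclideanSpace ℝ (Fin n) × EuclideanSpace ℝ (Fin n) =>
        ‖ρ q.2‖ₑ * ‖g j (q.1 - q.2)‖ₑ ^ p := by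
      intro j
      exact (hρm.comp measurable_snd).mul ((((hgm j).comp (measurable_fst.sub measurable_snd)).enorm).pow_const p)
    calc ∫⁻ y in closedBall x₀ R', ‖fderiv ℝ φ y‖ₑ ^ p
        ≤ ∫⁻ y in closedBall x₀ R', (n : ℝ≥0∞) ^ (p - 1) *
            ∑ j, ∫⁻ t, ‖ρ t‖ₑ * ‖g j (y - t)‖ₑ ^ p :=
          setLIntegral_mono' measurableSet_closedBall hpt
      _ = (n : ℝ≥0∞) ^ (p - 1) * ∑ j, ∫⁻ y in closedBall x₀ R', ∫⁻ t, ‖ρ t‖ₑ * ‖g j (y - t)‖ₑ ^ p := by
          rw [lintegral_const_mul, lintegral_finsetSum]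
          · exact fun j _ => (hmm j).lintegral_prod_right'
          · exact Finset.measurable_fun_sum _ fun j _ => (hmm j).lintegral_prod_right'
      _ ≤ _ := by
          refine mul_le_mul' le_rfl (Finset.sum_le_sum fun j _ => ?_)
          rw [lintegral_lintegral_swap (hmm j).aemeasurable]
          calc ∫⁻ t, ∫⁻ y in closedBall x₀ R', ‖ρ t‖ₑ * ‖g j (y - t)‖ₑ ^ p
              ≤ ∫⁻ t, ‖ρ t‖ₑ * ∫⁻ y in closedBall x₀ R, ‖g j y‖ₑ ^ p := by
                refine lintegral_mono fun t => ?_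
                have hmt : Measurable fun y => ‖g j (y - t)‖ₑ ^ p :=
                  (((hgm j).comp (measurable_id.sub_const t)).enorm).pow_const p
                rw [lintegral_const_mul _ hmt]
                by_cases ht : ρ t = 0
                · rw [ht]; simp
                have ht' := hρsupp t ht
                refine mul_le_mul' le_rfl ?_
                rw [← lintegral_indicator measurableSet_closedBall,
                  ← lintegral_indicator measurableSet_closedBall,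
                  ← lintegral_sub_right_eq_self ((closedBall x₀ R).indicator fun y => ‖g j y‖ₑ ^ p) t]
                refine lintegral_mono fun y => ?_
                by_cases hy : y ∈ closedBall x₀ R'
                · rw [indicator_of_mem hy, indicator_of_mem]
                  apply hsub y hy
                  rw [mem_closedBall, dist_eq_norm, sub_sub_cancel_left, norm_neg]
                  exact ht'.le
                · rw [indicator_of_notMem hy]; exact zero_le
            _ = _ := by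
                rw [lintegral_mul_const _ hρm, hρ1, one_mul]

end part5

section part6
open ContinuousLinearMap


variable {n : ℕ}

lemma norm_le_sum (v : EuclideanSpace ℝ (Fin n)) : ‖v‖ ≤ ∑ i, |v i| := by
  have hv : v = ∑ j, v j • (EuclideanSpace.single j (1 : ℝ) : EuclideanSpace ℝ (Fin n)) := by
    ext k
    simp [Finset.sum_apply, Pi.single_apply]
  conv_lhs => rw [hv]
  refine (norm_sum_le _ _).trans (Finset.sum_le_sum fun j _ => ?_)
  rw [norm_smul, PiLp.norm_single]
  simp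

/-- The standing hypotheses. -/
structure Data (Ω : Set (EuclideanSpace ℝ (Fin n)))
    (f : EuclideanSpace ℝ (Fin n) → EuclideanSpace ℝ (Fin n))
    (g : Fin n → Fin n → EuclideanSpace ℝ (Fin n) → ℝ) : Prop where
  cont : ContinuousOn f Ω
  mono : ∀ (x : EuclideanSpace ℝ (Fin n)) (r : ℝ), 0 < r → closedBall x r ⊆ Ω →
        Metric.diam (f '' closedBall x r) ≤ Metric.diam (f '' sphere x r)
  meas : ∀ i j, Measurable (g i j)
  weak : ∀ (i j : Fin n) (φ : EuclideanSpace ℝ (Fin n) → ℝ),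
        ContDiff ℝ ((⊤ : ℕ∞) : WithTop ℕ∞) φ → HasCompactSupport φ → tsupport φ ⊆ Ω →
        ∫ x, EuclideanSpace.proj i (f x) * fderiv ℝ φ x (EuclideanSpace.single j (1 : ℝ))
          = - ∫ x, g i j x * φ x

theorem osc_bound (hn : 2 ≤ n) {p : ℝ} (hp : (n : ℝ) - 1 < p) :
    ∃ C : ℝ≥0∞, C ≠ ⊤ ∧ ∀ (Ω : Set (EuclideanSpace ℝ (Fin n)))
      (f : EuclideanSpace ℝ (Fin n) → EuclideanSpace ℝ (Fin n))
      (g : Fin n → Fin n → EuclideanSpace ℝ (Fin n) → ℝ), Data Ω f g →
      ∀ (x₀ : EuclideanSpace ℝ (Fin n)) (r : ℝ), 0 < r → closedBall x₀ (2 * r) ⊆ Ω →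
        ENNReal.ofReal (diam (f '' closedBall x₀ r)) ^ p * ENNReal.ofReal (r ^ n) ≤
          C * ENNReal.ofReal r ^ p * ∑ i, ∑ j, ∫⁻ y in closedBall x₀ (2 * r), ‖g i j y‖ₑ ^ p := by
  have hn2 : (2 : ℝ) ≤ n := by exact_mod_cast hn
  have hn0 : (0 : ℝ) < n := by linarith
  have hp1 : 1 < p := by linarith
  have hp0 : 0 < p := by linarith
  obtain ⟨C, hC, hCb⟩ := averaged_bound hn hp
  set c1 : ℝ≥0∞ := ENNReal.ofReal ((4 : ℝ) ^ n) with hc1
  refine ⟨c1 * (C * ENNReal.ofReal (3 / 2) ^ p * (n : ℝ≥0∞) ^ (p - 1)), ?_, ?_⟩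
  · refine ENNReal.mul_ne_top ENNReal.ofReal_ne_top (ENNReal.mul_ne_top (ENNReal.mul_ne_top hC ?_) ?_)
    · exact ENNReal.rpow_ne_top_of_nonneg hp0.le ENNReal.ofReal_ne_top
    · exact ENNReal.rpow_ne_top_of_nonneg (by linarith) (ENNReal.natCast_ne_top _)
  intro Ω f g hD x₀ r hr hball
  set D : ℝ := diam (f '' closedBall x₀ r) with hDdef
  set I : ℝ≥0∞ := ∑ i, ∑ j, ∫⁻ y in closedBall x₀ (2 * r), ‖g i j y‖ₑ ^ p with hI
  have hfc : ∀ i, ContinuousOn (fun x => f x i) (closedBall x₀ (2 * r)) := by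
    intro i
    exact (EuclideanSpace.proj (𝕜 := ℝ) i).continuous.comp_continuousOn (hD.cont.mono hball)
  have key : ∀ η : ℝ, 0 < η → ENNReal.ofReal (D - (2 * n + 1) * η) ^ p * ENNReal.ofReal ((r / 4) ^ n) ≤
      C * ENNReal.ofReal (3 * r / 2) ^ p * ((n : ℝ≥0∞) ^ (p - 1) * I) := by
    intro η hη
    have hmol := fun i : Fin n => mollify hp1 (f := fun x => f x i) (g := g i) (hD.meas i)
      (x₀ := x₀) (R' := r / 4 + 3 * r / 2) (R := 2 * r) (by linarith) (hfc i)
      (fun j φ h1 h2 h3 => by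
        have := hD.weak i j φ h1 h2 (h3.trans hball)
        simpa using this) hη
    choose φ hφs hφf hφp using hmol
    have hav := hCb φ hφs x₀ (3 * r / 2) (r / 4) (by positivity) (by positivity)
      (ENNReal.ofReal (D - (2 * n + 1) * η)) ?_
    · refine hav.trans ?_
      gcongr
      rw [hI, Finset.mul_sum]
      exact Finset.sum_le_sum fun i _ => hφp i
    · intro z hz
      rw [mem_closedBall] at hz
      have hsub1 : closedBall z (3 * r / 2) ⊆ closedBall x₀ (r / 4 + 3 * r / 2) :=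
        closedBall_subset_closedBall' (by linarith)
      have hsub2 : closedBall x₀ r ⊆ closedBall z (3 * r / 2) :=
        closedBall_subset_closedBall' (by rw [dist_comm]; linarith)
      have hsub3 : closedBall x₀ (r / 4 + 3 * r / 2) ⊆ closedBall x₀ (2 * r) :=
        closedBall_subset_closedBall (by linarith)
      have hsubΩ : closedBall z (3 * r / 2) ⊆ Ω := (hsub1.trans hsub3).trans hball
      have hbd : Bornology.IsBounded (f '' closedBall z (3 * r / 2)) :=
        ((isCompact_closedBall z (3 * r / 2)).image_of_continuousOn (hD.cont.mono hsubΩ)).isBounded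
      have hD1 : D ≤ diam (f '' sphere z (3 * r / 2)) :=
        (diam_mono (image_mono hsub2) hbd).trans (hD.mono z (3 * r / 2) (by positivity) hsubΩ)
      obtain ⟨a, ha, b, hb, hab⟩ : ∃ a ∈ sphere z (3 * r / 2), ∃ b ∈ sphere z (3 * r / 2),
          D - η ≤ dist (f a) (f b) := by
        by_contra hcon
        push Not at hcon
        have hne : (sphere z (3 * r / 2)).Nonempty := by
          have : Nontrivial (EuclideanSpace ℝ (Fin n)) := by
            have : Nonempty (Fin n) := ⟨⟨0, by omega⟩⟩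
            infer_instance
          exact (NormedSpace.sphere_nonempty).2 (by positivity)
        obtain ⟨a, ha⟩ := hne
        have h0 : 0 ≤ D - η := by
          have := hcon a ha a ha
          rw [dist_self] at this
          exact this.le
        have : diam (f '' sphere z (3 * r / 2)) ≤ D - η := by
          refine diam_le_of_forall_dist_le h0 ?_
          rintro _ ⟨a, ha, rfl⟩ _ ⟨b, hb, rfl⟩
          exact (hcon a ha b hb).le
        linarith
      refine ⟨a, ha, b, hb, ?_⟩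
      have ha' : a ∈ closedBall x₀ (r / 4 + 3 * r / 2) := hsub1 (sphere_subset_closedBall ha)
      have hb' : b ∈ closedBall x₀ (r / 4 + 3 * r / 2) := hsub1 (sphere_subset_closedBall hb)
      have h1 : dist (f a) (f b) ≤ ∑ i, |f a i - f b i| := by
        rw [dist_eq_norm]
        exact norm_le_sum _
      have h2 : ∀ i, |f a i - f b i| ≤ |φ i a - φ i b| + 2 * η := by
        intro i
        have e1 := abs_le.1 (hφf i a ha')
        have e2 := abs_le.1 (hφf i b hb')
        rw [abs_le]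
        have e3 := le_abs_self (φ i a - φ i b)
        have e4 := neg_abs_le (φ i a - φ i b)
        constructor <;> linarith [e1.1, e1.2, e2.1, e2.2]
      have h3 : D - (2 * n + 1) * η ≤ ∑ i, |φ i a - φ i b| := by
        have : ∑ i, |f a i - f b i| ≤ ∑ i, (|φ i a - φ i b| + 2 * η) :=
          Finset.sum_le_sum fun i _ => h2 i
        rw [Finset.sum_add_distrib, Finset.sum_const, Finset.card_univ, Fintype.card_fin,
          nsmul_eq_mul] at this
        linarith
      refine (ENNReal.ofReal_le_ofReal h3).trans (le_of_eq ?_)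
      rw [ENNReal.ofReal_sum_of_nonneg (fun _ _ => abs_nonneg _)]
      refine Finset.sum_congr rfl fun i _ => ?_
      rw [← ofReal_norm, Real.norm_eq_abs]
  -- the limit
  have hlim : ENNReal.ofReal D ^ p * ENNReal.ofReal ((r / 4) ^ n) ≤
      C * ENNReal.ofReal (3 * r / 2) ^ p * ((n : ℝ≥0∞) ^ (p - 1) * I) := by
    have hcont : Filter.Tendsto (fun η : ℝ => ENNReal.ofReal (D - (2 * n + 1) * η) ^ p *
        ENNReal.ofReal ((r / 4) ^ n)) (𝓝[>] 0) (𝓝 (ENNReal.ofReal D ^ p * ENNReal.ofReal ((r / 4) ^ n))) := by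
      have h1 : Continuous fun η : ℝ => ENNReal.ofReal (D - (2 * n + 1) * η) ^ p :=
        ENNReal.continuous_rpow_const.comp (ENNReal.continuous_ofReal.comp (by fun_prop))
      have h2 := (ENNReal.continuous_mul_const (a := ENNReal.ofReal ((r / 4) ^ n)) ENNReal.ofReal_ne_top).comp h1
      have h3 := (h2.tendsto 0).mono_left (nhdsWithin_le_nhds (s := Ioi 0))
      simpa [Function.comp_def] using h3
    refine le_of_tendsto hcont ?_
    filter_upwards [self_mem_nhdsWithin] with η hη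
    exact key η hη
  have hr4 : ENNReal.ofReal (r ^ n) = c1 * ENNReal.ofReal ((r / 4) ^ n) := by
    rw [hc1, ← ENNReal.ofReal_mul (by positivity), ← mul_pow]
    congr 2
    ring
  have h32 : ENNReal.ofReal (3 * r / 2) = ENNReal.ofReal (3 / 2) * ENNReal.ofReal r := by
    rw [← ENNReal.ofReal_mul (by positivity)]
    congr 1
    ring
  calc ENNReal.ofReal D ^ p * ENNReal.ofReal (r ^ n) = c1 * (ENNReal.ofReal D ^ p * ENNReal.ofReal ((r / 4) ^ n)) := by
        rw [hr4]; ring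
    _ ≤ c1 * (C * ENNReal.ofReal (3 * r / 2) ^ p * ((n : ℝ≥0∞) ^ (p - 1) * I)) := by gcongr
    _ = _ := by
        rw [h32, ENNReal.mul_rpow_of_nonneg _ _ hp0.le]
        ring

end part6

section part8


variable {n : ℕ}

/-- the norm of the weak derivative -/
noncomputable def GG (g : Fin n → Fin n → EuclideanSpace ℝ (Fin n) → ℝ)
    (x : EuclideanSpace ℝ (Fin n)) : ℝ := Real.sqrt (∑ i, ∑ j, g i j x ^ 2)

lemma GG_measurable {g : Fin n → Fin n → EuclideanSpace ℝ (Fin n) → ℝ}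
    (hg : ∀ i j, Measurable (g i j)) : Measurable (GG g) := by
  unfold GG
  refine Real.continuous_sqrt.measurable.comp ?_
  exact Finset.measurable_fun_sum _ fun i _ => Finset.measurable_fun_sum _ fun j _ => (hg i j).pow_const 2

lemma GG_nonneg (g : Fin n → Fin n → EuclideanSpace ℝ (Fin n) → ℝ)
    (x : EuclideanSpace ℝ (Fin n)) : 0 ≤ GG g x := Real.sqrt_nonneg _

lemma enorm_le_GG (g : Fin n → Fin n → EuclideanSpace ℝ (Fin n) → ℝ) (i j : Fin n)
    (x : EuclideanSpace ℝ (Fin n)) : ‖g i j x‖ₑ ≤ ENNReal.ofReal (GG g x) := by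
  rw [← ofReal_norm, Real.norm_eq_abs]
  refine ENNReal.ofReal_le_ofReal ?_
  unfold GG
  apply Real.abs_le_sqrt
  calc g i j x ^ 2 ≤ ∑ j, g i j x ^ 2 :=
        Finset.single_le_sum (f := fun j => g i j x ^ 2) (fun _ _ => sq_nonneg _) (Finset.mem_univ j)
    _ ≤ _ := Finset.single_le_sum (f := fun i => ∑ j, g i j x ^ 2)
        (fun _ _ => Finset.sum_nonneg fun _ _ => sq_nonneg _) (Finset.mem_univ i)

/-- choose a small `ε` -/
lemma exists_small {B : ℝ≥0∞} (hB : B ≠ ⊤) {p : ℝ} (hp : 1 ≤ p) :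
    ∃ ε : ℝ, 0 < ε ∧ ε ≤ 1 ∧ B * ENNReal.ofReal ε ^ p ≤ 1 / 2 := by
  set b := B.toReal with hb
  have hb0 : 0 ≤ b := ENNReal.toReal_nonneg
  refine ⟨min 1 (1 / (2 * (b + 1))), by positivity, min_le_left _ _, ?_⟩
  set ε := min 1 (1 / (2 * (b + 1))) with hε
  have hε0 : 0 < ε := by positivity
  have hε1 : ε ≤ 1 := min_le_left _ _
  have h1 : ENNReal.ofReal ε ^ p ≤ ENNReal.ofReal ε := by
    rw [ENNReal.ofReal_rpow_of_nonneg hε0.le (by linarith)]
    refine ENNReal.ofReal_le_ofReal ?_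
    calc ε ^ p ≤ ε ^ (1 : ℝ) := Real.rpow_le_rpow_of_exponent_ge hε0 hε1 hp
      _ = ε := Real.rpow_one ε
  calc B * ENNReal.ofReal ε ^ p ≤ B * ENNReal.ofReal ε := by gcongr
    _ = ENNReal.ofReal (b * ε) := by
        rw [ENNReal.ofReal_mul hb0, hb, ENNReal.ofReal_toReal hB]
    _ ≤ ENNReal.ofReal (1 / 2) := by
        refine ENNReal.ofReal_le_ofReal ?_
        have h2 : ε ≤ 1 / (2 * (b + 1)) := min_le_right _ _
        rw [le_div_iff₀ (by positivity)] at h2
        nlinarith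
    _ = 1 / 2 := by
        rw [ENNReal.ofReal_div_of_pos (by norm_num)]
        simp

theorem single_ball (hn : 2 ≤ n) :
    ∃ C : ℝ≥0∞, C ≠ ⊤ ∧ ∃ ε : ℝ, 0 < ε ∧ ε ≤ 1 ∧ ∀ (Ω : Set (EuclideanSpace ℝ (Fin n)))
      (f : EuclideanSpace ℝ (Fin n) → EuclideanSpace ℝ (Fin n))
      (g : Fin n → Fin n → EuclideanSpace ℝ (Fin n) → ℝ), Data Ω f g →
      ∀ (x₀ : EuclideanSpace ℝ (Fin n)) (r L : ℝ), 0 < r → 0 < L → closedBall x₀ (2 * r) ⊆ Ω →
        L * r ≤ diam (f '' closedBall x₀ r) →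
        ENNReal.ofReal (L ^ ((n : ℝ) - 1 / 2)) * ENNReal.ofReal (r ^ n) ≤
          C * ∫⁻ y in closedBall x₀ (2 * r) ∩ {y | ε * L < GG g y},
            ENNReal.ofReal (GG g y ^ ((n : ℝ) - 1 / 2)) := by
  have hn2 : (2 : ℝ) ≤ n := by exact_mod_cast hn
  have hn0 : (0 : ℝ) < n := by linarith
  set p : ℝ := (n : ℝ) - 1 / 2 with hp
  have hp1 : 1 < p := by linarith
  have hp0 : 0 < p := by linarith
  obtain ⟨C, hC, hCb⟩ := osc_bound hn (p := p) (by linarith)
  set C1 : ℝ≥0∞ := C * (n * n) with hC1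
  have hC1t : C1 ≠ ⊤ := ENNReal.mul_ne_top hC (ENNReal.mul_ne_top (ENNReal.natCast_ne_top _)
    (ENNReal.natCast_ne_top _))
  set ω : ℝ≥0∞ := volume (closedBall (0 : EuclideanSpace ℝ (Fin n)) 1) with hω
  have hωt : ω ≠ ⊤ := measure_closedBall_lt_top.ne
  obtain ⟨ε, hε, hε1, hεB⟩ := exists_small (B := C1 * (ENNReal.ofReal (2 ^ n) * ω))
    (ENNReal.mul_ne_top hC1t (ENNReal.mul_ne_top ENNReal.ofReal_ne_top hωt)) hp1.le
  refine ⟨2 * C1, ENNReal.mul_ne_top (by norm_num) hC1t, ε, hε, hε1, ?_⟩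
  intro Ω f g hD x₀ r L hr hL hball hLr
  have hGm := GG_measurable hD.meas
  set B2 := closedBall x₀ (2 * r) with hB2
  have hB2m : MeasurableSet B2 := measurableSet_closedBall
  set S : Set (EuclideanSpace ℝ (Fin n)) := {y | ε * L < GG g y} with hS
  have hSm : MeasurableSet S := measurableSet_lt measurable_const hGm
  set P : EuclideanSpace ℝ (Fin n) → ℝ≥0∞ := fun y => ENNReal.ofReal (GG g y ^ p) with hP
  have hPm : Measurable P := (hGm.pow_const p).ennreal_ofReal
  have hPe : ∀ i j y, ‖g i j y‖ₑ ^ p ≤ P y := by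
    intro i j y
    rw [hP]
    simp only
    rw [← ENNReal.ofReal_rpow_of_nonneg (GG_nonneg g y) hp0.le]
    exact ENNReal.rpow_le_rpow (enorm_le_GG g i j y) hp0.le
  -- step a
  have ha : ENNReal.ofReal (L ^ p) * ENNReal.ofReal (r ^ n) ≤ C1 * ∫⁻ y in B2, P y := by
    have h1 := hCb Ω f g hD x₀ r hr hball
    have h2 : ENNReal.ofReal (L ^ p) * ENNReal.ofReal r ^ p ≤ ENNReal.ofReal (diam (f '' closedBall x₀ r)) ^ p := by
      rw [← ENNReal.ofReal_rpow_of_nonneg hL.le hp0.le, ← ENNReal.mul_rpow_of_nonneg _ _ hp0.le,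
        ← ENNReal.ofReal_mul hL.le]
      exact ENNReal.rpow_le_rpow (ENNReal.ofReal_le_ofReal hLr) hp0.le
    have h3 : ∑ i, ∑ j, ∫⁻ y in closedBall x₀ (2 * r), ‖g i j y‖ₑ ^ p ≤ (n * n) * ∫⁻ y in B2, P y := by
      calc ∑ i, ∑ j, ∫⁻ y in closedBall x₀ (2 * r), ‖g i j y‖ₑ ^ p ≤ ∑ i : Fin n, ∑ j : Fin n, ∫⁻ y in B2, P y :=
            Finset.sum_le_sum fun i _ => Finset.sum_le_sum fun j _ => lintegral_mono fun y => hPe i j y
        _ = _ := by
            simp only [Finset.sum_const, Finset.card_univ, Fintype.card_fin, nsmul_eq_mul]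
            ring
    have hr0 : ENNReal.ofReal r ^ p ≠ 0 := by
      have : 0 < ENNReal.ofReal r := ENNReal.ofReal_pos.2 hr
      exact (ENNReal.rpow_pos this ENNReal.ofReal_ne_top).ne'
    have hrt : ENNReal.ofReal r ^ p ≠ ⊤ := ENNReal.rpow_ne_top_of_nonneg hp0.le ENNReal.ofReal_ne_top
    have h4 : ENNReal.ofReal r ^ p * (ENNReal.ofReal (L ^ p) * ENNReal.ofReal (r ^ n)) ≤
        ENNReal.ofReal r ^ p * (C1 * ∫⁻ y in B2, P y) := by
      calc ENNReal.ofReal r ^ p * (ENNReal.ofReal (L ^ p) * ENNReal.ofReal (r ^ n))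
          = (ENNReal.ofReal (L ^ p) * ENNReal.ofReal r ^ p) * ENNReal.ofReal (r ^ n) := by ring
        _ ≤ ENNReal.ofReal (diam (f '' closedBall x₀ r)) ^ p * ENNReal.ofReal (r ^ n) := by gcongr
        _ ≤ _ := h1
        _ ≤ C * ENNReal.ofReal r ^ p * ((n * n) * ∫⁻ y in B2, P y) := by gcongr
        _ = _ := by rw [hC1]; ring
    exact (ENNReal.mul_le_mul_iff_right hr0 hrt).1 h4
  -- step b
  have hvol : volume B2 = ENNReal.ofReal (2 ^ n) * ENNReal.ofReal (r ^ n) * ω := by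
    rw [hB2, Measure.addHaar_closedBall' volume x₀ (by positivity), finrank_euclideanSpace_fin,
      mul_pow, ENNReal.ofReal_mul (by positivity)]
  have hb : ∫⁻ y in B2, P y ≤ ENNReal.ofReal (L ^ p) * ENNReal.ofReal ε ^ p * volume B2 +
      ∫⁻ y in B2 ∩ S, P y := by
    have h1 : ∫⁻ y in B2, P y = (∫⁻ y in B2 ∩ S, P y) + ∫⁻ y in B2 \ S, P y :=
      (lintegral_inter_add_sdiff (μ := volume) P B2 hSm).symm
    rw [h1, add_comm]
    gcongr
    calc ∫⁻ y in B2 \ S, P y ≤ ∫⁻ y in B2 \ S, ENNReal.ofReal (L ^ p) * ENNReal.ofReal ε ^ p := by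
          refine setLIntegral_mono' (hB2m.diff hSm) fun y hy => ?_
          have hy2 : GG g y ≤ ε * L := not_lt.1 hy.2
          rw [ENNReal.ofReal_rpow_of_nonneg hε.le hp0.le, ← ENNReal.ofReal_mul (by positivity),
            ← Real.mul_rpow hL.le hε.le, mul_comm L ε]
          exact ENNReal.ofReal_le_ofReal (Real.rpow_le_rpow (GG_nonneg g y) hy2 hp0.le)
      _ = ENNReal.ofReal (L ^ p) * ENNReal.ofReal ε ^ p * volume (B2 \ S) := by
          rw [lintegral_const, Measure.restrict_apply_univ]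
      _ ≤ _ := by gcongr; exact sdiff_subset
  set X : ℝ≥0∞ := ENNReal.ofReal (L ^ p) * ENNReal.ofReal (r ^ n) with hX
  have hXt : X ≠ ⊤ := ENNReal.mul_ne_top ENNReal.ofReal_ne_top ENNReal.ofReal_ne_top
  set J : ℝ≥0∞ := ∫⁻ y in B2 ∩ S, P y with hJ
  have hXle : X ≤ 1 / 2 * X + C1 * J := by
    calc X ≤ C1 * ∫⁻ y in B2, P y := ha
      _ ≤ C1 * (ENNReal.ofReal (L ^ p) * ENNReal.ofReal ε ^ p * volume B2 + J) := by gcongr
      _ = (C1 * (ENNReal.ofReal (2 ^ n) * ω) * ENNReal.ofReal ε ^ p) * X + C1 * J := by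
          rw [hvol, hX]; ring
      _ ≤ 1 / 2 * X + C1 * J := by gcongr
  have hhalf : X = 1 / 2 * X + 1 / 2 * X := by
    rw [← add_mul]
    rw [ENNReal.add_halves, one_mul]
  have hfin : 1 / 2 * X ≠ ⊤ := ENNReal.mul_ne_top (by norm_num) hXt
  have h5 : 1 / 2 * X ≤ C1 * J := by
    have : 1 / 2 * X + 1 / 2 * X ≤ 1 / 2 * X + C1 * J := by rw [← hhalf]; exact hXle
    exact (ENNReal.add_le_add_iff_left hfin).1 this
  calc X = 1 / 2 * X + 1 / 2 * X := hhalf
    _ ≤ C1 * J + C1 * J := add_le_add h5 h5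
    _ = _ := by ring

theorem level_bound (hn : 2 ≤ n) :
    ∃ C : ℝ≥0∞, C ≠ ⊤ ∧ ∃ ε : ℝ, 0 < ε ∧ ε ≤ 1 ∧ ∀ (Ω : Set (EuclideanSpace ℝ (Fin n)))
      (f : EuclideanSpace ℝ (Fin n) → EuclideanSpace ℝ (Fin n))
      (g : Fin n → Fin n → EuclideanSpace ℝ (Fin n) → ℝ), Data Ω f g →
      ∀ (A K : Set (EuclideanSpace ℝ (Fin n))) (L R : ℝ), 0 < L → MeasurableSet K → K ⊆ Ω →
        (∀ x ∈ A, ∃ r, 0 < r ∧ r ≤ R ∧ closedBall x (10 * r) ⊆ K ∧
          L * r ≤ diam (f '' closedBall x r) ∧ diam (f '' closedBall x (10 * r)) ≤ 10 * L * r) →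
        volume (f '' A) ≤ C * ENNReal.ofReal (Real.sqrt L) *
          ∫⁻ y in K ∩ {y | ε * L < GG g y}, ENNReal.ofReal (GG g y ^ ((n : ℝ) - 1 / 2)) := by
  have hn2 : (2 : ℝ) ≤ n := by exact_mod_cast hn
  have hn0 : (0 : ℝ) < n := by linarith
  obtain ⟨C, hC, ε, hε, hε1, hCb⟩ := single_ball hn
  set ω : ℝ≥0∞ := volume (closedBall (0 : EuclideanSpace ℝ (Fin n)) 1) with hω
  have hωt : ω ≠ ⊤ := measure_closedBall_lt_top.ne
  refine ⟨ENNReal.ofReal (10 ^ n) * ω * C, ENNReal.mul_ne_top (ENNReal.mul_ne_top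
    ENNReal.ofReal_ne_top hωt) hC, ε, hε, hε1, ?_⟩
  intro Ω f g hD A K L R hL hKm hKΩ hA
  choose! r hr0 hrR hrK hrL hr10 using hA
  have hGm := GG_measurable hD.meas
  set S : Set (EuclideanSpace ℝ (Fin n)) := {y | ε * L < GG g y} with hS
  have hSm : MeasurableSet S := measurableSet_lt measurable_const hGm
  set P : EuclideanSpace ℝ (Fin n) → ℝ≥0∞ := fun y => ENNReal.ofReal (GG g y ^ ((n : ℝ) - 1 / 2)) with hP
  obtain ⟨U, hUA, hUd, hUc⟩ := Vitali.exists_disjoint_subfamily_covering_enlargement_closedBall A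
    (fun x => x) (fun x => 2 * r x) (2 * R) (fun a ha => by linarith [hrR a ha]) 5 (by norm_num)
  have hUcount : U.Countable := by
    refine hUd.countable_of_nonempty_interior fun a ha => ?_
    have := hr0 a (hUA ha)
    refine ⟨a, ?_⟩
    exact ball_subset_interior_closedBall (mem_ball_self (by positivity))
  have hcov : f '' A ⊆ ⋃ b ∈ U, f '' closedBall b (10 * r b) := by
    rintro _ ⟨a, ha, rfl⟩
    obtain ⟨b, hb, hab⟩ := hUc a ha
    have h1 : a ∈ closedBall b (10 * r b) := by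
      have h2 := hab (mem_closedBall_self (by have := hr0 a ha; positivity))
      have h3 : 5 * (2 * r b) = 10 * r b := by ring
      rwa [h3] at h2
    exact mem_biUnion hb ⟨a, h1, rfl⟩
  have hone : ∀ b ∈ U, volume (f '' closedBall b (10 * r b)) ≤
      ENNReal.ofReal (10 ^ n) * ω * C * ENNReal.ofReal (Real.sqrt L) *
        ∫⁻ y in closedBall b (2 * r b) ∩ S, P y := by
    intro b hb
    have hbA := hUA hb
    have hrb := hr0 b hbA
    have hbd : Bornology.IsBounded (f '' closedBall b (10 * r b)) :=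
      ((isCompact_closedBall b (10 * r b)).image_of_continuousOn
        (hD.cont.mono ((hrK b hbA).trans hKΩ))).isBounded
    have hsub : f '' closedBall b (10 * r b) ⊆ closedBall (f b) (10 * L * r b) := by
      rintro _ ⟨y, hy, rfl⟩
      rw [mem_closedBall]
      refine (dist_le_diam_of_mem hbd (mem_image_of_mem f hy) (mem_image_of_mem f
        (mem_closedBall_self (by positivity)))).trans (hr10 b hbA)
    have h2 : closedBall b (2 * r b) ⊆ Ω :=
      (closedBall_subset_closedBall (by linarith)).trans ((hrK b hbA).trans hKΩ)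
    have h3 := hCb Ω f g hD b (r b) L hrb hL h2 (hrL b hbA)
    calc volume (f '' closedBall b (10 * r b)) ≤ volume (closedBall (f b) (10 * L * r b)) :=
          measure_mono hsub
      _ = ENNReal.ofReal ((10 * L * r b) ^ n) * ω := by
          rw [Measure.addHaar_closedBall' volume _ (by positivity), finrank_euclideanSpace_fin]
      _ = ENNReal.ofReal (10 ^ n) * ω * ENNReal.ofReal (Real.sqrt L) *
          (ENNReal.ofReal (L ^ ((n : ℝ) - 1 / 2)) * ENNReal.ofReal (r b ^ n)) := by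
          have h4 : (10 * L * r b) ^ n = 10 ^ n * (Real.sqrt L * L ^ ((n : ℝ) - 1 / 2)) * r b ^ n := by
            rw [mul_pow, mul_pow, Real.sqrt_eq_rpow, ← Real.rpow_add hL]
            congr 2
            rw [← Real.rpow_natCast]
            congr 1
            ring
          rw [h4, ENNReal.ofReal_mul (by positivity), ENNReal.ofReal_mul (by positivity),
            ENNReal.ofReal_mul (by positivity)]
          ring
      _ ≤ ENNReal.ofReal (10 ^ n) * ω * ENNReal.ofReal (Real.sqrt L) *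
          (C * ∫⁻ y in closedBall b (2 * r b) ∩ S, P y) := by gcongr
      _ = _ := by ring
  calc volume (f '' A) ≤ volume (⋃ b ∈ U, f '' closedBall b (10 * r b)) := measure_mono hcov
    _ ≤ ∑' b : U, volume (f '' closedBall (b : EuclideanSpace ℝ (Fin n)) (10 * r b)) :=
        measure_biUnion_le _ hUcount _
    _ ≤ ∑' b : U, ENNReal.ofReal (10 ^ n) * ω * C * ENNReal.ofReal (Real.sqrt L) *
        ∫⁻ y in closedBall (b : EuclideanSpace ℝ (Fin n)) (2 * r b) ∩ S, P y :=
        ENNReal.tsum_le_tsum fun b => hone b b.2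
    _ = ENNReal.ofReal (10 ^ n) * ω * C * ENNReal.ofReal (Real.sqrt L) *
        ∫⁻ y in ⋃ b ∈ U, (closedBall b (2 * r b) ∩ S), P y := by
        rw [ENNReal.tsum_mul_left, lintegral_biUnion hUcount
          (fun b _ => measurableSet_closedBall.inter hSm)
          (hUd.mono fun b => inter_subset_left)]
    _ ≤ _ := by
        refine mul_le_mul' le_rfl (lintegral_mono_set ?_)
        refine iUnion₂_subset fun b hb => inter_subset_inter_left _ ?_
        have := hr0 b (hUA hb)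
        exact (closedBall_subset_closedBall (by linarith)).trans (hrK b (hUA hb))

end part8

section part9


variable {n : ℕ}

lemma lipschitz_null {f : EuclideanSpace ℝ (Fin n) → EuclideanSpace ℝ (Fin n)}
    {S : Set (EuclideanSpace ℝ (Fin n))} {K : ℝ≥0} (h : LipschitzOnWith K f S)
    (hS : volume S = 0) : volume (f '' S) = 0 := by
  set H : Measure (EuclideanSpace ℝ (Fin n)) := μH[finrank ℝ (EuclideanSpace ℝ (Fin n))] with hH
  have h1 : H ≪ volume := Measure.absolutelyContinuous_isAddHaarMeasure _ _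
  have h2 : volume ≪ H := Measure.absolutelyContinuous_isAddHaarMeasure _ _
  apply h2
  have h3 := h.hausdorffMeasure_image_le (d := finrank ℝ (EuclideanSpace ℝ (Fin n))) (by positivity)
  have h4 : H S = 0 := h1 hS
  rw [← hH, h4, mul_zero] at h3
  exact le_antisymm h3 zero_le

/-- `S ↦ volume (f '' S)` as an outer measure. -/
lemma image_null_of_locally {f : EuclideanSpace ℝ (Fin n) → EuclideanSpace ℝ (Fin n)}
    {S : Set (EuclideanSpace ℝ (Fin n))}
    (h : ∀ x ∈ S, ∃ δ, 0 < δ ∧ volume (f '' (S ∩ ball x δ)) = 0) : volume (f '' S) = 0 := by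
  have h1 := measure_null_of_locally_null (μ := OuterMeasure.comap f (volume : Measure
    (EuclideanSpace ℝ (Fin n))).toOuterMeasure) S ?_
  · simpa [OuterMeasure.comap_apply] using h1
  · intro x hx
    obtain ⟨δ, hδ, hv⟩ := h x hx
    refine ⟨S ∩ ball x δ, ?_, ?_⟩
    · exact Filter.inter_mem self_mem_nhdsWithin (mem_nhdsWithin_of_mem_nhds (ball_mem_nhds x hδ))
    · simpa [OuterMeasure.comap_apply] using hv

theorem lusin_measurable (hn : 2 ≤ n) {Ω : Set (EuclideanSpace ℝ (Fin n))} (hΩ : IsOpen Ω)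
    {f : EuclideanSpace ℝ (Fin n) → EuclideanSpace ℝ (Fin n)}
    {g : Fin n → Fin n → EuclideanSpace ℝ (Fin n) → ℝ} (hD : Data Ω f g)
    (hfin : ∀ K ⊆ Ω, IsCompact K →
      ∫⁻ x in K, ENNReal.ofReal (GG g x ^ n / Real.log (Real.exp 1 + GG g x)) ≠ ⊤)
    {E₀ : Set (EuclideanSpace ℝ (Fin n))} (hE : E₀ ⊆ Ω) (hE0 : volume E₀ = 0) :
    volume (f '' E₀) = 0 := by
  apply image_null_of_locally
  intro x_c hx_c
  obtain ⟨R₂, hR₂, hball₂⟩ := Metric.isOpen_iff.1 hΩ x_c (hE hx_c)
  set R : ℝ := R₂ / 4 with hR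
  have hR0 : 0 < R := by positivity
  have hball : closedBall x_c (2 * R) ⊆ Ω :=
    (closedBall_subset_ball (by rw [hR]; linarith)).trans hball₂
  refine ⟨R, hR0, ?_⟩
  set A : Set (EuclideanSpace ℝ (Fin n)) := E₀ ∩ ball x_c R with hA
  have hA0 : volume A = 0 := measure_mono_null inter_subset_left hE0
  have hAd : ∀ x ∈ A, dist x x_c < R := fun x hx => hx.2
  set K := closedBall x_c (2 * R) with hK
  have hKc : IsCompact K := isCompact_closedBall _ _
  have hbdK : Bornology.IsBounded (f '' K) :=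
    (hKc.image_of_continuousOn (hD.cont.mono hball)).isBounded
  have hsubK : ∀ x ∈ A, ∀ r ≤ R, closedBall x r ⊆ K := by
    intro x hx r hr
    refine closedBall_subset_closedBall' ?_
    have := hAd x hx
    linarith
  -- decomposition
  set A1 : ℕ → Set (EuclideanSpace ℝ (Fin n)) := fun k =>
    {x ∈ A | ∀ r, 0 < r → r < 1 / (k + 1 : ℝ) → diam (f '' closedBall x r) ≤ k * r} with hA1
  have hA1null : ∀ k, volume (f '' A1 k) = 0 := by
    intro k
    apply image_null_of_locally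
    intro x hx
    refine ⟨min (1 / (k + 1 : ℝ)) R / 2, by positivity, ?_⟩
    refine lipschitz_null (K := (k : ℝ≥0)) ?_ (measure_mono_null (fun y hy => hy.1.1) hA0)
    refine LipschitzOnWith.of_dist_le_mul fun y hy z hz => ?_
    rcases eq_or_ne y z with rfl | hyz
    · simp
    have hd0 : 0 < dist y z := dist_pos.2 hyz
    have hd1 : dist y z < min (1 / (k + 1 : ℝ)) R := by
      have e1 := mem_ball.1 hy.2
      have e2 := mem_ball.1 hz.2
      have e3 := dist_triangle_right y z x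
      linarith
    have hd2 : dist y z < 1 / (k + 1 : ℝ) := lt_of_lt_of_le hd1 (min_le_left _ _)
    have hd3 : dist y z < R := lt_of_lt_of_le hd1 (min_le_right _ _)
    have hbd : Bornology.IsBounded (f '' closedBall y (dist y z)) :=
      hbdK.subset (image_mono (hsubK y hy.1.1 _ hd3.le))
    have h1 : dist (f y) (f z) ≤ diam (f '' closedBall y (dist y z)) :=
      dist_le_diam_of_mem hbd (mem_image_of_mem f (mem_closedBall_self hd0.le))
        (mem_image_of_mem f (by rw [mem_closedBall, dist_comm]))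
    have h2 := hy.1.2 (dist y z) hd0 hd2
    simpa using h1.trans h2
  set A2 : Set (EuclideanSpace ℝ (Fin n)) := A \ ⋃ k, A1 k with hA2
  have hA2null : volume (f '' A2) = 0 := by
    obtain ⟨C, hC, ε, hε, hε1, hCb⟩ := level_bound hn
    set M₀ : ℝ := diam (f '' K) with hM₀
    set m₀ : ℕ := max 4 ⌈100 * M₀ / R⌉₊ with hm₀
    have hGm := GG_measurable hD.meas
    refine level_sum (volume.restrict K) hGm (GG_nonneg g) hn hε hε1 (m₀ := m₀) (le_max_left _ _)
      (C := C) hC (hfin K hball hKc) fun k => ?_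
    set L : ℝ := Real.exp ((k + m₀ : ℕ) : ℝ) with hL
    have hL0 : 0 < L := Real.exp_pos _
    have hLM : 100 * M₀ / R ≤ L := by
      have h1 : 100 * M₀ / R ≤ (m₀ : ℝ) :=
        (Nat.le_ceil _).trans (by exact_mod_cast le_max_right _ _)
      have h2 : (m₀ : ℝ) ≤ ((k + m₀ : ℕ) : ℝ) := by exact_mod_cast Nat.le_add_left _ _
      have h3 := Real.add_one_le_exp ((k + m₀ : ℕ) : ℝ)
      linarith
    have hLM' : 100 * M₀ ≤ L * R := by rwa [div_le_iff₀ hR0] at hLM
    have hSm : MeasurableSet {x | ε * L < GG g x} := measurableSet_lt measurable_const hGm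
    have hmain := hCb Ω f g hD A2 K L R hL0 measurableSet_closedBall hball ?_
    · rw [Measure.restrict_restrict hSm, inter_comm]
      have hs : Real.sqrt L = Real.exp (((k + m₀ : ℕ) : ℝ) / 2) := by
        rw [hL, Real.exp_half]
      rw [← hs]
      exact hmain
    · intro x hx
      have hxA : x ∈ A := hx.1
      set T : Set ℝ := {r | 0 < r ∧ r ≤ R / 10 ∧ L * r ≤ diam (f '' closedBall x r)} with hT
      have hTne : T.Nonempty := by
        set k' : ℕ := max ⌈L⌉₊ ⌈10 / R⌉₊ with hk'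
        have hx1 : x ∉ A1 k' := fun h => hx.2 (mem_iUnion.2 ⟨k', h⟩)
        rw [hA1] at hx1
        simp only [mem_ofPred_eq, not_and, not_forall, not_le] at hx1
        obtain ⟨r, hr0, hr1, hr2⟩ := hx1 hxA
        refine ⟨r, hr0, ?_, ?_⟩
        · have h1 : 10 / R ≤ k' := (Nat.le_ceil _).trans (by exact_mod_cast le_max_right _ _)
          have h2 : 1 / (k' + 1 : ℝ) ≤ R / 10 := by
            rw [div_le_div_iff₀ (by positivity) (by norm_num)]
            rw [div_le_iff₀ hR0] at h1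
            nlinarith
          linarith
        · have h1 : L ≤ k' := (Nat.le_ceil _).trans (by exact_mod_cast le_max_left _ _)
          nlinarith
      have hTbdd : BddAbove T := ⟨R / 10, fun r hr => hr.2.1⟩
      obtain ⟨r₁, hr₁⟩ := hTne
      have hσ0 : 0 < sSup T := lt_of_lt_of_le hr₁.1 (le_csSup hTbdd hr₁)
      obtain ⟨r, hrT, hrσ⟩ := exists_lt_of_lt_csSup ⟨r₁, hr₁⟩ (half_lt_self hσ0)
      obtain ⟨hr0, hrR, hrL⟩ := hrT
      have hrM : L * r ≤ M₀ := hrL.trans (diam_mono (image_mono (hsubK x hxA r (by linarith))) hbdK)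
      have hr100 : 10 * r ≤ R / 10 := by
        have h1 : 100 * (L * r) ≤ L * R := by linarith
        have h2 : L * (100 * r) ≤ L * R := by linarith
        have := le_of_mul_le_mul_left h2 hL0
        linarith
      refine ⟨r, hr0, by linarith, hsubK x hxA _ (by linarith), hrL, ?_⟩
      by_contra hcon
      push Not at hcon
      have hmem : 10 * r ∈ T := ⟨by positivity, hr100, by linarith⟩
      have := le_csSup hTbdd hmem
      linarith
  have hcover : f '' A ⊆ (f '' A2) ∪ ⋃ k, f '' A1 k := by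
    rintro _ ⟨x, hx, rfl⟩
    by_cases h : ∃ k, x ∈ A1 k
    · obtain ⟨k, hk⟩ := h
      exact Or.inr (mem_iUnion.2 ⟨k, mem_image_of_mem f hk⟩)
    · refine Or.inl (mem_image_of_mem f ⟨hx, ?_⟩)
      rw [mem_iUnion]
      exact h
  refine measure_mono_null hcover ?_
  rw [measure_union_null_iff, measure_iUnion_null_iff]
  exact ⟨hA2null, hA1null⟩

theorem main :
    ∀ (n : ℕ), 2 ≤ n →
    ∀ (Ω : Set (EuclideanSpace ℝ (Fin n))), IsOpen Ω →
    ∀ (f : EuclideanSpace ℝ (Fin n) → EuclideanSpace ℝ (Fin n)), ContinuousOn f Ω →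
    (∀ (x : EuclideanSpace ℝ (Fin n)) (r : ℝ), 0 < r → Metric.closedBall x r ⊆ Ω →
        Metric.diam (f '' Metric.closedBall x r) ≤ Metric.diam (f '' Metric.sphere x r)) →
    ∀ (g : Fin n → Fin n → EuclideanSpace ℝ (Fin n) → ℝ),
    (∀ i j, MeasureTheory.LocallyIntegrableOn (g i j) Ω MeasureTheory.volume) →
    (∀ (i j : Fin n) (φ : EuclideanSpace ℝ (Fin n) → ℝ),
        ContDiff ℝ ((⊤ : ℕ∞) : WithTop ℕ∞) φ → HasCompactSupport φ → tsupport φ ⊆ Ω →
        ∫ x, EuclideanSpace.proj i (f x) * fderiv ℝ φ x (EuclideanSpace.single j (1 : ℝ))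
          = - ∫ x, g i j x * φ x) →
    MeasureTheory.LocallyIntegrableOn
      (fun x => (Real.sqrt (∑ i, ∑ j, g i j x ^ 2)) ^ n /
        Real.log (Real.exp 1 + Real.sqrt (∑ i, ∑ j, g i j x ^ 2))) Ω MeasureTheory.volume →
    ∀ E ⊆ Ω, MeasureTheory.volume E = 0 → MeasureTheory.volume (f '' E) = 0 := by
  intro n hn Ω hΩ f hf hmono g hg hweak hint E hE hE0
  have hgm : ∀ i j, AEStronglyMeasurable (g i j) (volume.restrict Ω) := fun i j =>
    (hg i j).aestronglyMeasurable
  set g' : Fin n → Fin n → EuclideanSpace ℝ (Fin n) → ℝ := fun i j => (hgm i j).mk (g i j) with hg'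
  have hg'm : ∀ i j, Measurable (g' i j) := fun i j => (hgm i j).stronglyMeasurable_mk.measurable
  have hg'e : ∀ᵐ x ∂(volume.restrict Ω), ∀ i j, g i j x = g' i j x := by
    rw [ae_all_iff]; intro i
    rw [ae_all_iff]; intro j
    exact (hgm i j).ae_eq_mk
  have hD : Data Ω f g' := by
    refine ⟨hf, hmono, hg'm, fun i j φ h1 h2 h3 => ?_⟩
    rw [hweak i j φ h1 h2 h3]
    congr 1
    refine integral_congr_ae ?_
    have h4 := (ae_restrict_iff' hΩ.measurableSet).1 hg'e
    filter_upwards [h4] with x hx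
    by_cases hxΩ : x ∈ Ω
    · rw [hx hxΩ i j]
    · have : φ x = 0 := by
        by_contra hne
        exact hxΩ (h3 (subset_tsupport φ hne))
      rw [this]; simp
  refine lusin_measurable hn hΩ hD ?_ hE hE0
  intro K hK hKc
  have h1 := hint.integrableOn_compact_subset hK hKc
  have h2 : IntegrableOn (fun x => GG g' x ^ n / Real.log (Real.exp 1 + GG g' x)) K := by
    refine Integrable.congr h1 ?_
    have h3 : ∀ᵐ x ∂(volume.restrict K), ∀ i j, g i j x = g' i j x :=
      ae_mono (Measure.restrict_mono hK le_rfl) hg'e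
    filter_upwards [h3] with x hx
    unfold GG
    simp only [hx]
  exact h2.lintegral_lt_top.ne

end part9

end Pool.Agent.Helper795.LusinN
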