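import Pool.Agent.Helper795.SobDefs

/-!
# Incompressible diffeomorphisms and piecewise affine homeomorphisms: definitions
-/

set_option autoImplicit false

open MeasureTheory Set Filter Topology Metric
open scoped ENNReal NNReal InnerProductSpace
open Pool.Agent.Helper795.SobDefs

namespace Pool.Agent.Helper795.IncDefs

noncomputable section

/-- `g` is an incompressible diffeomorphism on the open set `Ω`: a `C^∞` diffeomorphism of `Ω` onto
the open set `g(Ω)` with Jacobian identically `1` in `Ω`. -/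
def IsIncompressibleDiffeo {n : ℕ} (Ω : Set (Eu n)) (g : Eu n → Eu n) : Prop :=
  IsOpen (g '' Ω) ∧ ContDiffOn ℝ ((⊤ : ℕ∞) : WithTop ℕ∞) g Ω ∧
    (∃ h : Eu n → Eu n, InvOn h g Ω (g '' Ω) ∧ ContDiffOn ℝ ((⊤ : ℕ∞) : WithTop ℕ∞) h (g '' Ω)) ∧
    ∀ x ∈ Ω, (fderiv ℝ g x).det = 1

/-- `g` is a piecewise affine incompressible homeomorphism on `Ω`: a homeomorphism of `Ω` onto
`g(Ω)` for which `Ω` is a countable union, locally finite in `Ω`, of non-degenerate simplices with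
pairwise disjoint interiors, on each of which `g` is affine with determinant `1`. -/
def IsIncompressiblePA {n : ℕ} (Ω : Set (Eu n)) (g : Eu n → Eu n) : Prop :=
  IsHomeo Ω (g '' Ω) g ∧
    ∃ (ι : Type) (V : ι → Fin (n + 1) → Eu n) (L : ι → (Eu n →L[ℝ] Eu n)) (c : ι → Eu n),
      Countable ι ∧ (∀ i, AffineIndependent ℝ (V i)) ∧
      (⋃ i, convexHull ℝ (range (V i))) = Ω ∧
      (∀ i j, i ≠ j → Disjoint (interior (convexHull ℝ (range (V i))))
        (interior (convexHull ℝ (range (V j))))) ∧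
      (∀ x ∈ Ω, ∃ U ∈ 𝓝 x, {i | (convexHull ℝ (range (V i)) ∩ U).Nonempty}.Finite) ∧
      ∀ i, (L i).det = 1 ∧ ∀ x ∈ convexHull ℝ (range (V i)), g x = L i x + c i

/-- `f ∈ W^{1,p}(Ω, ℝⁿ)`, with weak differential `Df`, is a limit in the norm of `W^{1,p}(Ω, ℝⁿ)` of
a sequence of maps `g k ∈ W^{1,p}(Ω, ℝⁿ)` of the class `C`. -/
def IsSobolevLimit {n : ℕ} (p : ℝ≥0∞) (Ω : Set (Eu n)) (C : (Eu n → Eu n) → Prop)
    (f : Eu n → Eu n) (Df : Eu n → (Eu n →L[ℝ] Eu n)) : Prop :=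
  ∃ (g : ℕ → Eu n → Eu n) (Dg : ℕ → Eu n → (Eu n →L[ℝ] Eu n)),
    (∀ k, C (g k) ∧ IsSobolev p Ω (g k) (Dg k)) ∧ StrongConv p Ω g Dg f Df

end

end Pool.Agent.Helper795.IncDefs
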