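import Pool.Agent.Helper795.Wild
import Pool.Agent.Helper795.IncDefs

/-!
# An area preserving planar Sobolev homeomorphism which is not a limit of incompressible maps

The map is a Ponomarev type homeomorphism: a Cantor set of area zero (squares of side ratio `1/4`)
is mapped to a Cantor set of positive area, and on every square frame the map is radial in the
maximum norm, `t ↦ √(t² + 4^{-k})`, so that it preserves area. It lies in `W^{1,p}` for `p < 2`.

If locally Lipschitz maps `g_k` with `det Dg_k = 1` converge in `W^{1,1}` to `f`, then the null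
Lagrangian identity
`∫ η / (1 + g₀²) det Dg = - ∫ arctan(g₀) (∂₀η ∂₁g₁ - ∂₁η ∂₀g₁)` passes to the limit. For `f` itself
the Lipschitz approximations `f_N` (radial only down to depth `N`) show that the right hand side is
larger than the left hand side with `det Df = 1`.
-/

set_option autoImplicit false
set_option linter.all false

open MeasureTheory Set Filter Topology Metric
open scoped ENNReal NNReal InnerProductSpace
open Pool.Agent.Helper795.SobDefs Pool.Agent.Helper795.Wild Pool.Agent.Helper795.IncDefs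

namespace Pool.Agent.Helper795.Inc

noncomputable section


section part1


/-- gluing of Lipschitz functions over a locally finite closed cover of a convex set -/
lemma lipschitz_glue {V W : Type*} [NormedAddCommGroup V] [NormedSpace ℝ V] [NormedAddCommGroup W]
    {ι : Type*} {B : Set V} (hB : Convex ℝ B) {A : ι → Set V} {g : V → W} (hg : ContinuousOn g B)
    (hcov : ∀ x ∈ B, ∀ᶠ y in 𝓝[B] x, ∃ i, x ∈ A i ∧ y ∈ A i) {L : ℝ}
    (hL : ∀ i, ∀ x ∈ A i ∩ B, ∀ y ∈ A i ∩ B, ‖g x - g y‖ ≤ L * ‖x - y‖) :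
    ∀ x ∈ B, ∀ y ∈ B, ‖g x - g y‖ ≤ L * ‖x - y‖ := by
  intro x hx y hy
  set z : ℝ → V := fun t => x + t • (y - x) with hz
  have hzc : Continuous z := by fun_prop
  have hzB : ∀ t ∈ Icc (0 : ℝ) 1, z t ∈ B := by
    intro t ht
    have := hB hx hy (by linarith [ht.2] : 0 ≤ 1 - t) ht.1 (by ring)
    have e : z t = (1 - t) • x + t • y := by simp only [hz, smul_sub, sub_smul, one_smul]; abel
    rw [e]; exact this
  set S : Set ℝ := {t | ‖g (z t) - g x‖ ≤ L * (t * ‖y - x‖)} with hS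
  have hgz : ContinuousOn (fun t => g (z t)) (Icc 0 1) := hg.comp hzc.continuousOn hzB
  have hclosed : IsClosed (S ∩ Icc 0 1) := by
    have : S ∩ Icc 0 1 = Icc 0 1 ∩ (fun t => L * (t * ‖y - x‖) - ‖g (z t) - g x‖) ⁻¹' Ici 0 := by
      ext s
      simp only [hS, mem_inter_iff, mem_preimage, mem_Ici, sub_nonneg, mem_ofPred_eq]
      tauto
    rw [this]
    apply ContinuousOn.preimage_isClosed_of_isClosed _ isClosed_Icc isClosed_Ici
    apply ContinuousOn.sub
    · fun_prop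
    · exact (hgz.sub continuousOn_const).norm
  have hsub : Icc (0 : ℝ) 1 ⊆ S := by
    apply IsClosed.Icc_subset_of_forall_mem_nhdsWithin hclosed
    · simp only [hS, mem_ofPred_eq, zero_mul, mul_zero, hz, zero_smul, add_zero, sub_self, norm_zero,
        le_refl]
    · rintro s ⟨hsle, hsb⟩
      have hsI : s ∈ Icc (0 : ℝ) 1 := ⟨hsb.1, hsb.2.le⟩
      have h1 := hcov (z s) (hzB s hsI)
      have h2 : Tendsto z (𝓝[>] s) (𝓝[B] (z s)) := by
        apply tendsto_nhdsWithin_iff.mpr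
        refine ⟨(hzc.tendsto s).mono_left nhdsWithin_le_nhds, ?_⟩
        filter_upwards [Ioc_mem_nhdsGT hsb.2] with t ht
        exact hzB t ⟨hsb.1.trans ht.1.le, ht.2⟩
      filter_upwards [h2.eventually h1, Ioc_mem_nhdsGT hsb.2] with t ht1 ht2
      obtain ⟨i, hi1, hi2⟩ := ht1
      have htI : t ∈ Icc (0 : ℝ) 1 := ⟨hsb.1.trans ht2.1.le, ht2.2⟩
      have h3 := hL i (z t) ⟨hi2, hzB t htI⟩ (z s) ⟨hi1, hzB s hsI⟩
      have h4 : ‖z t - z s‖ = (t - s) * ‖y - x‖ := by
        have : z t - z s = (t - s) • (y - x) := by simp only [hz, sub_smul]; abel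
        rw [this, norm_smul, Real.norm_eq_abs, abs_of_pos (by linarith [ht2.1])]
      rw [h4] at h3
      have h5 : ‖g (z s) - g x‖ ≤ L * (s * ‖y - x‖) := hsle
      change ‖g (z t) - g x‖ ≤ L * (t * ‖y - x‖)
      calc ‖g (z t) - g x‖ = ‖(g (z t) - g (z s)) + (g (z s) - g x)‖ := by congr 1; abel
        _ ≤ ‖g (z t) - g (z s)‖ + ‖g (z s) - g x‖ := norm_add_le _ _
        _ ≤ L * ((t - s) * ‖y - x‖) + L * (s * ‖y - x‖) := by linarith
        _ = L * (t * ‖y - x‖) := by ring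
  have := hsub (right_mem_Icc.mpr zero_le_one)
  simp only [hS, mem_ofPred_eq, hz, one_smul, one_mul, add_sub_cancel] at this
  rw [norm_sub_rev (g x), norm_sub_rev x]
  exact this

/-- the data of the construction -/
structure Data where
  a : ℕ → ℝ
  b : ℕ → ℝ
  ρ : ℕ → ℝ → ℝ
  a_pos : ∀ k, 0 < a k
  b_pos : ∀ k, 0 < b k
  a_lt : ∀ k, a (k + 1) < a k / 2
  b_lt : ∀ k, b (k + 1) < b k / 2
  ρ_a : ∀ k, ρ k (a k) = b k
  ρ_half : ∀ k, ρ (k + 1) (a k / 2) = b k / 2
  ρ_mono : ∀ k s t, a k ≤ s → s < t → ρ k s < ρ k t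
  ρ_cont : ∀ k, ContinuousOn (ρ k) (Ici (a k))

/-- sign -/
def sg (t : ℝ) : ℝ := if 0 ≤ t then 1 else -1

def sgv (x : ℝ × ℝ) : ℝ × ℝ := (sg x.1, sg x.2)

lemma sg_cases (t : ℝ) : (0 ≤ t ∧ sg t = 1) ∨ (t < 0 ∧ sg t = -1) := by
  unfold sg
  rcases le_or_gt 0 t with h | h
  · left; exact ⟨h, if_pos h⟩
  · right; exact ⟨h, if_neg (not_le.mpr h)⟩

/-- the maps of finite depth -/
def Hm (D : Data) : ℕ → ℕ → ℝ × ℝ → ℝ × ℝ
  | 0, k, x => (D.ρ k (max ‖x‖ (D.a k)) / max ‖x‖ (D.a k)) • x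
  | N + 1, k, x => if D.a k ≤ ‖x‖ then (D.ρ k ‖x‖ / ‖x‖) • x
      else (D.b k / 2) • sgv x + Hm D N (k + 1) (x - (D.a k / 2) • sgv x)

variable {D : Data}

lemma Hm_outer (N k : ℕ) {x : ℝ × ℝ} (hx : D.a k ≤ ‖x‖) : Hm D N k x = (D.ρ k ‖x‖ / ‖x‖) • x := by
  cases N with
  | zero => simp only [Hm]; rw [max_eq_left hx]
  | succ N => simp only [Hm]; rw [if_pos hx]

lemma Hm_inner (N k : ℕ) {x : ℝ × ℝ} (hx : ‖x‖ < D.a k) :
    Hm D (N + 1) k x = (D.b k / 2) • sgv x + Hm D N (k + 1) (x - (D.a k / 2) • sgv x) := by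
  simp only [Hm]; rw [if_neg (not_le.mpr hx)]

lemma Hm_zero_inner (k : ℕ) {x : ℝ × ℝ} (hx : ‖x‖ ≤ D.a k) :
    Hm D 0 k x = (D.b k / D.a k) • x := by
  simp only [Hm]; rw [max_eq_right hx, D.ρ_a]

lemma ρ_pos {k : ℕ} {t : ℝ} (ht : D.a k ≤ t) : D.b k ≤ D.ρ k t := by
  rcases ht.eq_or_lt with h | h
  · rw [← h, D.ρ_a]
  · have := D.ρ_mono k (D.a k) t le_rfl h
    rw [D.ρ_a] at this; exact this.le

lemma norm_Hm_outer (N k : ℕ) {x : ℝ × ℝ} (hx : D.a k ≤ ‖x‖) : ‖Hm D N k x‖ = D.ρ k ‖x‖ := by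
  have h0 : 0 < ‖x‖ := (D.a_pos k).trans_le hx
  have h1 : 0 < D.ρ k ‖x‖ := (D.b_pos k).trans_le (ρ_pos hx)
  rw [Hm_outer N k hx, norm_smul, Real.norm_eq_abs, abs_of_pos (by positivity)]
  field_simp

/-- the coordinate description of `x - (a/2) e` -/
lemma half_coord {a t : ℝ} (ht : |t| < a) : |t - a / 2 * sg t| ≤ a / 2 ∧
    (0 ≤ t → t - a / 2 * sg t < a / 2) ∧ (t < 0 → -(a / 2) < -(t - a / 2 * sg t) ∧ t - a / 2 * sg t < a / 2) := by
  rw [abs_lt] at ht
  rcases sg_cases t with ⟨h0, h⟩ | ⟨h0, h⟩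
  · rw [h]
    refine ⟨?_, fun _ => by linarith, fun h' => by linarith⟩
    rw [abs_le]; constructor <;> linarith
  · rw [h]
    refine ⟨?_, fun h' => by linarith, fun _ => ⟨by linarith, by linarith⟩⟩
    rw [abs_le]; constructor <;> linarith

lemma coord_lt {x : ℝ × ℝ} {a : ℝ} (hx : ‖x‖ < a) : |x.1| < a ∧ |x.2| < a := by
  rw [Prod.norm_def] at hx
  exact ⟨(le_max_left _ _).trans_lt hx, (le_max_right _ _).trans_lt hx⟩

lemma norm_sub_sgv {x : ℝ × ℝ} {a : ℝ} (hx : ‖x‖ < a) : ‖x - (a / 2) • sgv x‖ ≤ a / 2 := by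
  obtain ⟨h1, h2⟩ := coord_lt hx
  rw [Prod.norm_def]
  exact max_le (half_coord h1).1 (half_coord h2).1

/-- the value of `Hm` on the outer square of level `k + 1` -/
lemma norm_Hm_le (N k : ℕ) : ∀ x : ℝ × ℝ, ‖x‖ < D.a k → ‖Hm D N k x‖ < D.b k := by
  induction N generalizing k with
  | zero =>
    intro x hx
    rw [Hm_zero_inner k hx.le, norm_smul, Real.norm_eq_abs,
      abs_of_pos (div_pos (D.b_pos k) (D.a_pos k)), div_mul_eq_mul_div, div_lt_iff₀ (D.a_pos k)]
    exact mul_lt_mul_of_pos_left hx (D.b_pos k)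
  | succ N ih =>
    intro x hx
    rw [Hm_inner N k hx]
    set x' := x - (D.a k / 2) • sgv x with hx'
    have hn : ‖x'‖ ≤ D.a k / 2 := norm_sub_sgv hx
    obtain ⟨hc1, hc2⟩ := coord_lt hx
    have hb := D.b_pos k
    have hcoord : |(Hm D N (k + 1) x').1| ≤ D.b k / 2 ∧ |(Hm D N (k + 1) x').2| ≤ D.b k / 2 ∧
        (x'.1 < D.a k / 2 → (Hm D N (k + 1) x').1 < D.b k / 2) ∧
        (x'.2 < D.a k / 2 → (Hm D N (k + 1) x').2 < D.b k / 2) ∧
        (-(D.a k / 2) < x'.1 → -(D.b k / 2) < (Hm D N (k + 1) x').1) ∧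
        (-(D.a k / 2) < x'.2 → -(D.b k / 2) < (Hm D N (k + 1) x').2) := by
      rcases hn.eq_or_lt with h | h
      · have hge : D.a (k + 1) ≤ ‖x'‖ := by rw [h]; exact (D.a_lt k).le
        have e : Hm D N (k + 1) x' = (D.b k / D.a k) • x' := by
          rw [Hm_outer N (k + 1) hge, h, D.ρ_half]
          congr 1
          have := D.a_pos k
          field_simp
        rw [e]
        have hpos : 0 < D.b k / D.a k := div_pos (D.b_pos k) (D.a_pos k)
        have hmul : D.b k / D.a k * (D.a k / 2) = D.b k / 2 := by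
          have := D.a_pos k
          field_simp
        have h1 : |x'.1| ≤ D.a k / 2 := (norm_fst_le x').trans hn
        have h2 : |x'.2| ≤ D.a k / 2 := (norm_snd_le x').trans hn
        simp only [Prod.smul_fst, Prod.smul_snd, smul_eq_mul, abs_mul, abs_of_pos hpos]
        refine ⟨?_, ?_, ?_, ?_, ?_, ?_⟩
        · rw [← hmul]; gcongr
        · rw [← hmul]; gcongr
        · intro h'; rw [← hmul]; gcongr
        · intro h'; rw [← hmul]; gcongr
        · intro h'; rw [← hmul, ← mul_neg]; gcongr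
        · intro h'; rw [← hmul, ← mul_neg]; gcongr
      · have hlt : ‖Hm D N (k + 1) x'‖ < D.b k / 2 := by
          rcases lt_or_ge ‖x'‖ (D.a (k + 1)) with h2 | h2
          · exact (ih (k + 1) x' h2).trans (D.b_lt k)
          · rw [norm_Hm_outer N (k + 1) h2, ← D.ρ_half]
            exact D.ρ_mono (k + 1) _ _ h2 h
        obtain ⟨h1, h2⟩ := coord_lt hlt
        rw [abs_lt] at h1 h2
        exact ⟨abs_le.mpr ⟨h1.1.le, h1.2.le⟩, abs_le.mpr ⟨h2.1.le, h2.2.le⟩, fun _ => h1.2,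
          fun _ => h2.2, fun _ => h1.1, fun _ => h2.1⟩
    obtain ⟨k1, k2, k3, k4, k5, k6⟩ := hcoord
    rw [abs_le] at k1 k2
    have hx1 : x'.1 = x.1 - D.a k / 2 * sg x.1 := rfl
    have hx2 : x'.2 = x.2 - D.a k / 2 * sg x.2 := rfl
    rw [abs_lt] at hc1 hc2
    rw [Prod.norm_def]
    apply max_lt
    · change |D.b k / 2 * sg x.1 + (Hm D N (k + 1) x').1| < D.b k
      rcases sg_cases x.1 with ⟨h0, hs⟩ | ⟨h0, hs⟩
      · rw [hs] at hx1 ⊢
        have := k3 (by linarith)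
        rw [abs_lt]; constructor <;> linarith [k1.1]
      · rw [hs] at hx1 ⊢
        have := k5 (by linarith)
        rw [abs_lt]; constructor <;> linarith [k1.2]
    · change |D.b k / 2 * sg x.2 + (Hm D N (k + 1) x').2| < D.b k
      rcases sg_cases x.2 with ⟨h0, hs⟩ | ⟨h0, hs⟩
      · rw [hs] at hx2 ⊢
        have := k4 (by linarith)
        rw [abs_lt]; constructor <;> linarith [k2.1]
      · rw [hs] at hx2 ⊢
        have := k6 (by linarith)
        rw [abs_lt]; constructor <;> linarith [k2.2]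

lemma norm_Hm_half (N k : ℕ) {x : ℝ × ℝ} (hx : ‖x‖ < D.a k / 2) :
    ‖Hm D N (k + 1) x‖ < D.b k / 2 := by
  rcases lt_or_ge ‖x‖ (D.a (k + 1)) with h2 | h2
  · exact (norm_Hm_le N (k + 1) x h2).trans (D.b_lt k)
  · rw [norm_Hm_outer N (k + 1) h2, ← D.ρ_half]
    exact D.ρ_mono (k + 1) _ _ h2 hx

lemma Hm_half_eq (N k : ℕ) {x : ℝ × ℝ} (hx : ‖x‖ = D.a k / 2) :
    Hm D N (k + 1) x = (D.b k / D.a k) • x := by
  have hge : D.a (k + 1) ≤ ‖x‖ := by rw [hx]; exact (D.a_lt k).le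
  rw [Hm_outer N (k + 1) hge, hx, D.ρ_half]
  congr 1
  have := D.a_pos k
  field_simp

end part1

section part2


variable {D : Data}

lemma coord_info (N k : ℕ) {y : ℝ × ℝ} (hy : ‖y‖ ≤ D.a k / 2) :
    |(Hm D N (k + 1) y).1| ≤ D.b k / 2 ∧ |(Hm D N (k + 1) y).2| ≤ D.b k / 2 ∧
      (y.1 < D.a k / 2 → (Hm D N (k + 1) y).1 < D.b k / 2) ∧
      (y.2 < D.a k / 2 → (Hm D N (k + 1) y).2 < D.b k / 2) := by
  have hb := D.b_pos k
  rcases hy.eq_or_lt with h | h
  · rw [Hm_half_eq N k h]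
    have hpos : 0 < D.b k / D.a k := div_pos (D.b_pos k) (D.a_pos k)
    have hmul : D.b k / D.a k * (D.a k / 2) = D.b k / 2 := by
      have := D.a_pos k
      field_simp
    have h1 : |y.1| ≤ D.a k / 2 := (norm_fst_le y).trans hy
    have h2 : |y.2| ≤ D.a k / 2 := (norm_snd_le y).trans hy
    simp only [Prod.smul_fst, Prod.smul_snd, smul_eq_mul, abs_mul, abs_of_pos hpos]
    refine ⟨?_, ?_, ?_, ?_⟩
    · rw [← hmul]; gcongr
    · rw [← hmul]; gcongr
    · intro h'; rw [← hmul]; gcongr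
    · intro h'; rw [← hmul]; gcongr
  · have hlt := norm_Hm_half N k h
    obtain ⟨h1, h2⟩ := coord_lt hlt
    rw [abs_lt] at h1 h2
    exact ⟨abs_le.mpr ⟨h1.1.le, h1.2.le⟩, abs_le.mpr ⟨h2.1.le, h2.2.le⟩, fun _ => h1.2,
      fun _ => h2.2⟩

lemma sgv_Hm (N k : ℕ) {x : ℝ × ℝ} (hx : ‖x‖ < D.a k) : sgv (Hm D (N + 1) k x) = sgv x := by
  rw [Hm_inner N k hx]
  set x' := x - (D.a k / 2) • sgv x with hx'
  obtain ⟨k1, k2, k3, k4⟩ := coord_info (D := D) N k (norm_sub_sgv hx)
  rw [← hx'] at k1 k2 k3 k4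
  have hx1 : x'.1 = x.1 - D.a k / 2 * sg x.1 := rfl
  have hx2 : x'.2 = x.2 - D.a k / 2 * sg x.2 := rfl
  rw [abs_le] at k1 k2
  unfold sgv
  ext
  · change sg (D.b k / 2 * sg x.1 + (Hm D N (k + 1) x').1) = sg x.1
    rcases sg_cases x.1 with ⟨h0, hs⟩ | ⟨h0, hs⟩
    · rw [hs]
      unfold sg
      rw [if_pos (by linarith [k1.1])]
    · rw [hs] at hx1 ⊢
      have := k3 (by linarith)
      unfold sg
      rw [if_neg (by linarith)]
  · change sg (D.b k / 2 * sg x.2 + (Hm D N (k + 1) x').2) = sg x.2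
    rcases sg_cases x.2 with ⟨h0, hs⟩ | ⟨h0, hs⟩
    · rw [hs]
      unfold sg
      rw [if_pos (by linarith [k2.1])]
    · rw [hs] at hx2 ⊢
      have := k4 (by linarith)
      unfold sg
      rw [if_neg (by linarith)]

/-- composition with the inverse data -/
lemma Hm_comp {D D' : Data} (ha : ∀ k, D'.a k = D.b k) (hb : ∀ k, D'.b k = D.a k)
    (hρ : ∀ k t, D.a k ≤ t → D'.ρ k (D.ρ k t) = t) (N : ℕ) :
    ∀ (k : ℕ) (x : ℝ × ℝ), Hm D' N k (Hm D N k x) = x := by
  have outer : ∀ (N k : ℕ) (x : ℝ × ℝ), D.a k ≤ ‖x‖ → Hm D' N k (Hm D N k x) = x := by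
    intro N k x hx
    have h0 : 0 < ‖x‖ := (D.a_pos k).trans_le hx
    have h1 := norm_Hm_outer (D := D) N k hx
    have h2 : D'.a k ≤ ‖Hm D N k x‖ := by rw [h1, ha]; exact ρ_pos hx
    rw [Hm_outer N k h2, h1, hρ k _ hx, Hm_outer N k hx, smul_smul]
    have h3 : D.ρ k ‖x‖ ≠ 0 := ((D.b_pos k).trans_le (ρ_pos hx)).ne'
    have : ‖x‖ / D.ρ k ‖x‖ * (D.ρ k ‖x‖ / ‖x‖) = 1 := by field_simp
    rw [this, one_smul]
  induction N with
  | zero =>
    intro k x
    rcases le_or_gt (D.a k) ‖x‖ with h | h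
    · exact outer 0 k x h
    · have h1 := norm_Hm_le (D := D) 0 k x h
      have h2 : ‖Hm D 0 k x‖ ≤ D'.a k := by rw [ha]; exact h1.le
      rw [Hm_zero_inner k h2, ha, hb, Hm_zero_inner k h.le, smul_smul]
      have := D.a_pos k
      have := D.b_pos k
      have : D.a k / D.b k * (D.b k / D.a k) = 1 := by field_simp
      rw [this, one_smul]
  | succ N ih =>
    intro k x
    rcases le_or_gt (D.a k) ‖x‖ with h | h
    · exact outer (N + 1) k x h
    · have h1 := norm_Hm_le (D := D) (N + 1) k x h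
      rw [← ha] at h1
      rw [Hm_inner N k h1, sgv_Hm N k h, ha, hb, Hm_inner N k h, add_sub_cancel_left, ih]
      abel

/-- formula on closed quadrants -/
lemma Hm_piece (N k : ℕ) {e : ℝ × ℝ} (he1 : e.1 = 1 ∨ e.1 = -1) (he2 : e.2 = 1 ∨ e.2 = -1)
    {x : ℝ × ℝ} (hx : ‖x‖ ≤ D.a k) (h1 : 0 ≤ e.1 * x.1) (h2 : 0 ≤ e.2 * x.2) :
    Hm D (N + 1) k x = (D.b k / 2) • e + Hm D N (k + 1) (x - (D.a k / 2) • e) := by
  have ha := D.a_pos k
  have hlin : ∀ f : ℝ × ℝ, ‖x - (D.a k / 2) • f‖ = D.a k / 2 →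
      (D.b k / 2) • f + Hm D N (k + 1) (x - (D.a k / 2) • f) = (D.b k / D.a k) • x := by
    intro f hf
    rw [Hm_half_eq N k hf, smul_sub, smul_smul]
    have : D.b k / D.a k * (D.a k / 2) = D.b k / 2 := by field_simp
    rw [this]; abel
  have hx1 : |x.1| ≤ D.a k := (norm_fst_le x).trans hx
  have hx2 : |x.2| ≤ D.a k := (norm_snd_le x).trans hx
  rw [abs_le] at hx1 hx2
  have c1 : |x.1 - D.a k / 2 * e.1| ≤ D.a k / 2 := by
    rw [abs_le]
    rcases he1 with h | h <;> rw [h] at h1 ⊢ <;> constructor <;> linarith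
  have c2 : |x.2 - D.a k / 2 * e.2| ≤ D.a k / 2 := by
    rw [abs_le]
    rcases he2 with h | h <;> rw [h] at h2 ⊢ <;> constructor <;> linarith
  have hle : ‖x - (D.a k / 2) • e‖ ≤ D.a k / 2 := by
    rw [Prod.norm_def]; exact max_le c1 c2
  rcases hle.eq_or_lt with heq | hlt
  · rw [hlin e heq]
    rcases hx.eq_or_lt with h | h
    · rw [Hm_outer (N + 1) k h.ge, h, D.ρ_a]
    · rw [Hm_inner N k h]
      by_cases hee : sgv x = e
      · rw [hee, hlin e heq]
      · apply hlin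
        apply le_antisymm (norm_sub_sgv h)
        have hor : sg x.1 ≠ e.1 ∨ sg x.2 ≠ e.2 := by
          by_contra hcon
          push Not at hcon
          exact hee (Prod.ext hcon.1 hcon.2)
        have key : ∀ t s : ℝ, (s = 1 ∨ s = -1) → 0 ≤ s * t → sg t ≠ s → |t - D.a k / 2 * sg t| = D.a k / 2 := by
          intro t s hs hst hne
          rcases sg_cases t with ⟨h0, h'⟩ | ⟨h0, h'⟩
          · rcases hs with hs | hs
            · rw [h', hs] at hne; exact absurd rfl hne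
            · have : t = 0 := by rw [hs] at hst; linarith
              rw [h', this, zero_sub, mul_one, abs_neg, abs_of_pos (by linarith)]
          · rcases hs with hs | hs
            · rw [hs] at hst; linarith
            · rw [h', hs] at hne; exact absurd rfl hne
        rcases hor with h' | h'
        · exact (key x.1 e.1 he1 h1 h').symm.le.trans (norm_fst_le (x - (D.a k / 2) • sgv x))
        · exact (key x.2 e.2 he2 h2 h').symm.le.trans (norm_snd_le (x - (D.a k / 2) • sgv x))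
  · obtain ⟨d1, d2⟩ := coord_lt hlt
    change |x.1 - D.a k / 2 * e.1| < D.a k / 2 at d1
    change |x.2 - D.a k / 2 * e.2| < D.a k / 2 at d2
    rw [abs_lt] at d1 d2
    have key : ∀ t s : ℝ, (s = 1 ∨ s = -1) → -(D.a k / 2) < t - D.a k / 2 * s → t - D.a k / 2 * s < D.a k / 2 →
        sg t = s ∧ |t| < D.a k := by
      intro t s hs l1 l2
      rcases hs with hs | hs
      · rw [hs] at l1 l2 ⊢
        unfold sg
        rw [if_pos (by linarith)]
        exact ⟨rfl, by rw [abs_lt]; constructor <;> linarith⟩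
      · rw [hs] at l1 l2 ⊢
        unfold sg
        rw [if_neg (by linarith)]
        exact ⟨rfl, by rw [abs_lt]; constructor <;> linarith⟩
    have r1 := key x.1 e.1 he1 d1.1 d1.2
    have r2 := key x.2 e.2 he2 d2.1 d2.2
    have hee : sgv x = e := Prod.ext r1.1 r2.1
    have hlt' : ‖x‖ < D.a k := by rw [Prod.norm_def]; exact max_lt r1.2 r2.2
    rw [Hm_inner N k hlt', hee]

/-- closed cover -/
def sgn (s : Bool) : ℝ := if s then 1 else -1

lemma sgn_cases (s : Bool) : sgn s = 1 ∨ sgn s = -1 := by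
  cases s <;> simp [sgn]

def Cov (a : ℝ) : Option (Bool × Bool) → Set (ℝ × ℝ)
  | none => {x | a ≤ ‖x‖}
  | some (s, t) => {x | ‖x‖ ≤ a ∧ 0 ≤ sgn s * x.1 ∧ 0 ≤ sgn t * x.2}

lemma Cov_closed (a : ℝ) (i : Option (Bool × Bool)) : IsClosed (Cov a i) := by
  rcases i with _ | ⟨s, t⟩
  · exact isClosed_le continuous_const continuous_norm
  · have h1 : IsClosed {x : ℝ × ℝ | ‖x‖ ≤ a} := isClosed_le continuous_norm continuous_const
    have h2 : IsClosed {x : ℝ × ℝ | 0 ≤ sgn s * x.1} := isClosed_le continuous_const (by fun_prop)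
    have h3 : IsClosed {x : ℝ × ℝ | 0 ≤ sgn t * x.2} := isClosed_le continuous_const (by fun_prop)
    exact h1.inter (h2.inter h3)

lemma Cov_cover (a : ℝ) : ⋃ i, Cov a i = univ := by
  apply eq_univ_of_forall
  intro x
  rw [mem_iUnion]
  rcases le_total a ‖x‖ with h | h
  · exact ⟨none, h⟩
  · have key : ∀ t : ℝ, ∃ s : Bool, 0 ≤ sgn s * t := by
      intro t
      rcases le_total 0 t with h | h
      · exact ⟨true, by simpa [sgn] using h⟩
      · exact ⟨false, by simpa [sgn] using h⟩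
    obtain ⟨s, hs⟩ := key x.1
    obtain ⟨t, ht⟩ := key x.2
    exact ⟨some (s, t), h, hs, ht⟩

lemma Hm_cov (N k : ℕ) {s t : Bool} {x : ℝ × ℝ} (hx : x ∈ Cov (D.a k) (some (s, t))) :
    Hm D (N + 1) k x = (D.b k / 2) • (sgn s, sgn t) +
      Hm D N (k + 1) (x - (D.a k / 2) • (sgn s, sgn t)) :=
  Hm_piece N k (sgn_cases s) (sgn_cases t) hx.1 hx.2.1 hx.2.2

lemma Hm_continuous (N : ℕ) : ∀ k, Continuous (Hm D N k) := by
  have houter : ∀ N k, ContinuousOn (Hm D N k) {x | D.a k ≤ ‖x‖} := by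
    intro N k
    have h0 : ContinuousOn (fun x : ℝ × ℝ => D.ρ k ‖x‖ / ‖x‖) {x | D.a k ≤ ‖x‖} := by
      apply ContinuousOn.div
      · exact (D.ρ_cont k).comp continuous_norm.continuousOn fun x hx => hx
      · exact continuous_norm.continuousOn
      · intro x hx
        exact ((D.a_pos k).trans_le hx).ne'
    have h1 : ContinuousOn (fun x : ℝ × ℝ => (D.ρ k ‖x‖ / ‖x‖) • x) {x | D.a k ≤ ‖x‖} :=
      h0.smul continuousOn_id
    exact h1.congr fun x hx => Hm_outer N k hx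
  induction N with
  | zero =>
    intro k
    have h1 : ContinuousOn (Hm D 0 k) {x | ‖x‖ ≤ D.a k} :=
      (continuous_const_smul (D.b k / D.a k)).continuousOn.congr fun x hx => Hm_zero_inner k hx
    have h2 : ({x : ℝ × ℝ | ‖x‖ ≤ D.a k} ∪ {x | D.a k ≤ ‖x‖}) = univ := by
      apply eq_univ_of_forall
      intro x
      exact (le_total ‖x‖ (D.a k)).imp id id
    have h3 := h1.union_of_isClosed (houter 0 k) (isClosed_le continuous_norm continuous_const)
      (isClosed_le continuous_const continuous_norm)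
    rw [h2] at h3
    exact continuousOn_univ.mp h3
  | succ N ih =>
    intro k
    apply (locallyFinite_of_finite (Cov (D.a k))).continuous (Cov_cover _) (Cov_closed _)
    intro i
    rcases i with _ | ⟨s, t⟩
    · exact houter (N + 1) k
    · have h1 : Continuous (fun x => (D.b k / 2) • (sgn s, sgn t) +
        Hm D N (k + 1) (x - (D.a k / 2) • (sgn s, sgn t))) :=
        continuous_const.add ((ih (k + 1)).comp (continuous_id.sub continuous_const))
      exact h1.continuousOn.congr fun x hx => Hm_cov N k hx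

/-- consecutive depths -/
lemma Hm_succ_sub (N : ℕ) : ∀ (k : ℕ) (x : ℝ × ℝ), ‖Hm D (N + 1) k x - Hm D N k x‖ ≤ 2 * D.b (k + N) := by
  induction N with
  | zero =>
    intro k x
    rcases le_or_gt (D.a k) ‖x‖ with h | h
    · rw [Hm_outer 1 k h, Hm_outer 0 k h, sub_self, norm_zero]
      have := D.b_pos (k + 0); linarith
    · have h1 := norm_Hm_le (D := D) 1 k x h
      have h2 := norm_Hm_le (D := D) 0 k x h
      calc _ ≤ ‖Hm D 1 k x‖ + ‖Hm D 0 k x‖ := norm_sub_le _ _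
        _ ≤ 2 * D.b (k + 0) := by rw [add_zero]; linarith
  | succ N ih =>
    intro k x
    rcases le_or_gt (D.a k) ‖x‖ with h | h
    · rw [Hm_outer (N + 1 + 1) k h, Hm_outer (N + 1) k h, sub_self, norm_zero]
      have := D.b_pos (k + (N + 1)); linarith
    · rw [Hm_inner (N + 1) k h, Hm_inner N k h, add_sub_add_left_eq_sub]
      have := ih (k + 1) (x - (D.a k / 2) • sgv x)
      rw [show k + 1 + N = k + (N + 1) by ring] at this
      exact this

end part2

section part3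


def rr (k : ℕ) : ℝ := (1 / 4) ^ k

lemma rr_pos (k : ℕ) : 0 < rr k := by unfold rr; positivity
lemma rr_succ (k : ℕ) : rr (k + 1) = rr k / 4 := by unfold rr; rw [pow_succ]; ring
lemma rr_le (k : ℕ) : rr k ≤ 1 := pow_le_one₀ (by norm_num) (by norm_num)

lemma rr_eq (k : ℕ) : rr k = ((1 / 2) ^ k) ^ 2 := by
  unfold rr; rw [← pow_mul, mul_comm k 2, pow_mul]; norm_num

/-- outer radii in the image -/
def bb (k : ℕ) : ℝ := Real.sqrt (rr k ^ 2 + rr k)

lemma bb_pos (k : ℕ) : 0 < bb k := by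
  have := rr_pos k
  unfold bb; positivity

lemma bb_sq (k : ℕ) : bb k ^ 2 = rr k ^ 2 + rr k := by
  have := rr_pos k
  unfold bb; rw [Real.sq_sqrt (by positivity)]

lemma bb_le (k : ℕ) : bb k ≤ 2 * (1 / 2) ^ k := by
  have h1 := rr_pos k
  have h2 := rr_le k
  have h3 := rr_eq k
  unfold bb
  rw [Real.sqrt_le_left (by positivity)]
  nlinarith

lemma rr_lt_bb (k : ℕ) : rr k < bb k := by
  have h1 := rr_pos k
  unfold bb
  apply Real.lt_sqrt_of_sq_lt
  linarith

lemma bb_lt (k : ℕ) : bb (k + 1) < bb k / 2 := by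
  have h1 := rr_pos k
  have h2 := bb_pos k
  have h3 := bb_sq k
  unfold bb
  rw [Real.sqrt_lt' (by positivity), rr_succ]
  have : (√(rr k ^ 2 + rr k) / 2) ^ 2 = (rr k ^ 2 + rr k) / 4 := by
    rw [div_pow, Real.sq_sqrt (by positivity)]; norm_num
  rw [this]; nlinarith

/-- the forward data -/
def DF : Data where
  a := rr
  b := bb
  ρ := fun k t => Real.sqrt (t ^ 2 + rr k)
  a_pos := rr_pos
  b_pos := bb_pos
  a_lt := fun k => by rw [rr_succ]; have := rr_pos k; linarith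
  b_lt := bb_lt
  ρ_a := fun k => rfl
  ρ_half := fun k => by
    have h1 := rr_pos k
    have h2 := bb_pos k
    have h3 : (rr k / 2) ^ 2 + rr (k + 1) = (bb k / 2) ^ 2 := by
      rw [div_pow (bb k), bb_sq, rr_succ]; ring
    rw [h3, Real.sqrt_sq (by positivity)]
  ρ_mono := fun k s t hs hst => by
    have h1 := rr_pos k
    apply Real.sqrt_lt_sqrt (by positivity)
    nlinarith
  ρ_cont := fun k => by fun_prop

/-- the backward data -/
def DG : Data where
  a := bb
  b := rr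
  ρ := fun k t => Real.sqrt (t ^ 2 - rr k)
  a_pos := bb_pos
  b_pos := rr_pos
  a_lt := bb_lt
  b_lt := fun k => by rw [rr_succ]; have := rr_pos k; linarith
  ρ_a := fun k => by rw [bb_sq, add_sub_cancel_right, Real.sqrt_sq (rr_pos k).le]
  ρ_half := fun k => by
    have h1 := rr_pos k
    have h3 : (bb k / 2) ^ 2 - rr (k + 1) = (rr k / 2) ^ 2 := by
      rw [div_pow (bb k), bb_sq, rr_succ]; ring
    rw [h3, Real.sqrt_sq (by positivity)]
  ρ_mono := fun k s t hs hst => by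
    have h1 := rr_pos k
    have h2 := bb_pos k
    have h3 := bb_sq k
    apply Real.sqrt_lt_sqrt
    · nlinarith
    · nlinarith
  ρ_cont := fun k => by fun_prop

lemma comp_GF (N k : ℕ) (x : ℝ × ℝ) : Hm DG N k (Hm DF N k x) = x := by
  apply Hm_comp (fun k => rfl) (fun k => rfl)
  intro k t ht
  have h1 := rr_pos k
  change rr k ≤ t at ht
  change √(√(t ^ 2 + rr k) ^ 2 - rr k) = t
  rw [Real.sq_sqrt (by positivity), add_sub_cancel_right, Real.sqrt_sq (by linarith)]

lemma comp_FG (N k : ℕ) (x : ℝ × ℝ) : Hm DF N k (Hm DG N k x) = x := by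
  apply Hm_comp (fun k => rfl) (fun k => rfl)
  intro k t ht
  have h1 := rr_pos k
  have h2 := bb_pos k
  have h3 := bb_sq k
  change bb k ≤ t at ht
  change √(√(t ^ 2 - rr k) ^ 2 + rr k) = t
  rw [Real.sq_sqrt (by nlinarith), sub_add_cancel, Real.sqrt_sq (by linarith)]

/-- limit maps -/
def Hl (D : Data) (x : ℝ × ℝ) : ℝ × ℝ := limUnder atTop (fun N => Hm D N 0 x)

lemma Hl_spec {D : Data} (hD : ∀ k, D.b k ≤ 2 * (1 / 2) ^ k) (x : ℝ × ℝ) :
    Tendsto (fun N => Hm D N 0 x) atTop (𝓝 (Hl D x)) ∧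
    ∀ N, dist (Hm D N 0 x) (Hl D x) ≤ 8 * (1 / 2) ^ N := by
  have h : ∀ n, dist (Hm D n 0 x) (Hm D (n + 1) 0 x) ≤ 4 * (1 / 2) ^ n := by
    intro n
    rw [dist_comm, dist_eq_norm]
    have h1 := Hm_succ_sub (D := D) n 0 x
    rw [zero_add] at h1
    have h2 := hD n
    linarith
  have hc : CauchySeq (fun N => Hm D N 0 x) := cauchySeq_of_le_geometric _ _ (by norm_num) h
  have ht : Tendsto (fun N => Hm D N 0 x) atTop (𝓝 (Hl D x)) := hc.tendsto_limUnder
  refine ⟨ht, fun N => ?_⟩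
  have := dist_le_of_le_geometric_of_tendsto (1 / 2) 4 (by norm_num) h ht N
  calc _ ≤ _ := this
    _ = 8 * (1 / 2) ^ N := by ring

lemma Hl_continuous {D : Data} (hD : ∀ k, D.b k ≤ 2 * (1 / 2) ^ k) : Continuous (Hl D) := by
  have : TendstoUniformly (fun N x => Hm D N 0 x) (Hl D) atTop := by
    rw [Metric.tendstoUniformly_iff]
    intro ε hε
    have h1 : Tendsto (fun N : ℕ => 8 * (1 / 2 : ℝ) ^ N) atTop (𝓝 0) := by
      have := (tendsto_pow_atTop_nhds_zero_of_lt_one (by norm_num : (0:ℝ) ≤ 1 / 2) (by norm_num)).const_mul 8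
      simpa using this
    filter_upwards [h1.eventually_lt_const hε] with N hN x
    rw [dist_comm]
    exact ((Hl_spec hD x).2 N).trans_lt hN
  exact this.continuous (Frequently.of_forall fun N => Hm_continuous N 0)

lemma Hl_comp {D D' : Data} (hD : ∀ k, D.b k ≤ 2 * (1 / 2) ^ k) (hD' : ∀ k, D'.b k ≤ 2 * (1 / 2) ^ k)
    (h : ∀ N x, Hm D' N 0 (Hm D N 0 x) = x) (x : ℝ × ℝ) : Hl D' (Hl D x) = x := by
  have h1 : Tendsto (fun N => Hl D' (Hm D N 0 x)) atTop (𝓝 (Hl D' (Hl D x))) :=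
    ((Hl_continuous hD').tendsto _).comp (Hl_spec hD x).1
  have h2 : Tendsto (fun N => Hl D' (Hm D N 0 x)) atTop (𝓝 x) := by
    rw [tendsto_iff_dist_tendsto_zero]
    have h3 : Tendsto (fun N : ℕ => 8 * (1 / 2 : ℝ) ^ N) atTop (𝓝 0) := by
      have := (tendsto_pow_atTop_nhds_zero_of_lt_one (by norm_num : (0:ℝ) ≤ 1 / 2) (by norm_num)).const_mul 8
      simpa using this
    apply squeeze_zero (fun _ => dist_nonneg) _ h3
    intro N
    have := (Hl_spec hD' (Hm D N 0 x)).2 N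
    rw [h N x, dist_comm] at this
    exact this
  exact tendsto_nhds_unique h1 h2

/-- the homeomorphism and its inverse -/
def Fm : ℝ × ℝ → ℝ × ℝ := Hl DF
def Gm : ℝ × ℝ → ℝ × ℝ := Hl DG

lemma DF_b (k : ℕ) : DF.b k ≤ 2 * (1 / 2) ^ k := bb_le k
lemma DG_b (k : ℕ) : DG.b k ≤ 2 * (1 / 2) ^ k := by
  have h1 := bb_le k
  have h2 := rr_lt_bb k
  change rr k ≤ _
  linarith

lemma Fm_continuous : Continuous Fm := Hl_continuous DF_b
lemma Gm_continuous : Continuous Gm := Hl_continuous DG_b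
lemma Gm_Fm (x : ℝ × ℝ) : Gm (Fm x) = x := Hl_comp DF_b DG_b (fun N x => comp_GF N 0 x) x
lemma Fm_Gm (x : ℝ × ℝ) : Fm (Gm x) = x := Hl_comp DG_b DF_b (fun N x => comp_FG N 0 x) x

lemma ratio_le (k : ℕ) : bb k / rr k ≤ 2 * 2 ^ k := by
  have h1 := rr_pos k
  have h2 := rr_eq k
  have h3 := bb_le k
  have h4 : (2 : ℝ) ^ k * (1 / 2) ^ k = 1 := by rw [← mul_pow]; norm_num
  rw [div_le_iff₀ h1, h2]
  calc bb k ≤ 2 * (1 / 2) ^ k := h3
    _ = 2 * 2 ^ k * ((1 / 2) ^ k) ^ 2 := by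
      have : (2:ℝ) * 2 ^ k * ((1 / 2) ^ k) ^ 2 = 2 * (2 ^ k * (1 / 2) ^ k) * (1 / 2) ^ k := by ring
      rw [this, h4]; ring

/-- the radial map is Lipschitz -/
lemma radial_lip (k : ℕ) (x y : ℝ × ℝ) : ‖Hm DF 0 k x - Hm DF 0 k y‖ ≤ 4 * 2 ^ k * ‖x - y‖ := by
  wlog h : ‖y‖ ≤ ‖x‖ generalizing x y with H
  · have := H y x (le_of_not_ge h)
    rwa [norm_sub_rev, norm_sub_rev x]
  have hr := rr_pos k
  set s := max ‖x‖ (rr k) with hs
  set t := max ‖y‖ (rr k) with ht
  have hst : t ≤ s := max_le_max_right _ h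
  have ht0 : 0 < t := hr.trans_le (le_max_right _ _)
  have hs0 : 0 < s := ht0.trans_le hst
  have hst2 : s - t ≤ ‖x - y‖ := by
    have h1 : |s - t| ≤ |‖x‖ - ‖y‖| := by
      have := abs_max_sub_max_le_max ‖x‖ (rr k) ‖y‖ (rr k)
      simpa using this
    have h2 := abs_norm_sub_norm_le x y
    exact (le_abs_self _).trans (h1.trans h2)
  have e1 : Hm DF 0 k x = (√(s ^ 2 + rr k) / s) • x := rfl
  have e2 : Hm DF 0 k y = (√(t ^ 2 + rr k) / t) • y := rfl
  -- monotonicity facts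
  set Rs := √(s ^ 2 + rr k) with hRs
  set Rt := √(t ^ 2 + rr k) with hRt
  have hRst : Rt ≤ Rs := Real.sqrt_le_sqrt (by nlinarith)
  have hRs0 : 0 < Rs := by rw [hRs]; positivity
  have hRt0 : 0 < Rt := by rw [hRt]; positivity
  have hms : Rs / s ≤ bb k / rr k := by
    rw [div_le_div_iff₀ hs0 hr]
    have h1 : rr k ≤ s := le_max_right _ _
    have h2 : Rs ^ 2 = s ^ 2 + rr k := Real.sq_sqrt (by positivity)
    have h3 := bb_sq k
    have h4 := bb_pos k
    apply le_of_sq_le_sq _ (by positivity)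
    rw [mul_pow, mul_pow, h2, h3]
    have h5 : rr k ^ 2 ≤ s ^ 2 := by gcongr
    nlinarith
  have hmt : Rt / t ≤ bb k / rr k := by
    rw [div_le_div_iff₀ ht0 hr]
    have h1 : rr k ≤ t := le_max_right _ _
    have h2 : Rt ^ 2 = t ^ 2 + rr k := Real.sq_sqrt (by positivity)
    have h3 := bb_sq k
    have h4 := bb_pos k
    apply le_of_sq_le_sq _ (by positivity)
    rw [mul_pow, mul_pow, h2, h3]
    have h5 : rr k ^ 2 ≤ t ^ 2 := by gcongr
    nlinarith
  have hM := ratio_le k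
  have hdec : Rs / s ≤ Rt / t := by
    rw [div_le_div_iff₀ hs0 ht0]
    have h2 : Rs ^ 2 = s ^ 2 + rr k := Real.sq_sqrt (by positivity)
    have h3 : Rt ^ 2 = t ^ 2 + rr k := Real.sq_sqrt (by positivity)
    apply le_of_sq_le_sq _ (by positivity)
    rw [mul_pow, mul_pow, h2, h3]
    have h5 : t ^ 2 ≤ s ^ 2 := by gcongr
    nlinarith
  rw [e1, e2]
  have e3 : (Rs / s) • x - (Rt / t) • y = (Rs / s) • (x - y) - (Rt / t - Rs / s) • y := by
    rw [smul_sub, sub_smul]; abel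
  rw [e3]
  have b1 : ‖(Rs / s) • (x - y)‖ ≤ 2 * 2 ^ k * ‖x - y‖ := by
    rw [norm_smul, Real.norm_eq_abs, abs_of_pos (by positivity)]
    gcongr
    linarith
  have b2 : ‖(Rt / t - Rs / s) • y‖ ≤ 2 * 2 ^ k * ‖x - y‖ := by
    rw [norm_smul, Real.norm_eq_abs, abs_of_nonneg (by linarith)]
    calc (Rt / t - Rs / s) * ‖y‖ ≤ (Rt / t - Rs / s) * t := by
          exact mul_le_mul_of_nonneg_left (le_max_left _ _) (by linarith)
      _ ≤ Rt / t * (s - t) := by
          have h1 : (Rt / t - Rs / s) * t = Rt - Rs * (t / s) := by field_simp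
          have h2 : Rt / t * (s - t) ≥ Rt / s * (s - t) := by
            apply mul_le_mul_of_nonneg_right _ (by linarith)
            apply div_le_div_of_nonneg_left hRt0.le ht0 hst
          have h3 : Rt / s * (s - t) = Rt - Rt * (t / s) := by field_simp
          have h4 : Rt * (t / s) ≤ Rs * (t / s) := by gcongr
          linarith
      _ ≤ 2 * 2 ^ k * ‖x - y‖ := by
          have : Rt / t ≤ 2 * 2 ^ k := hmt.trans hM
          have h0 : 0 ≤ s - t := by linarith
          gcongr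
  calc _ ≤ ‖(Rs / s) • (x - y)‖ + ‖(Rt / t - Rs / s) • y‖ := norm_sub_le _ _
    _ ≤ 4 * 2 ^ k * ‖x - y‖ := by linarith

lemma Hm_lip (N : ℕ) : ∀ (k : ℕ) (x y : ℝ × ℝ),
    ‖Hm DF N k x - Hm DF N k y‖ ≤ 4 * 2 ^ (k + N) * ‖x - y‖ := by
  induction N with
  | zero => intro k x y; simpa using radial_lip k x y
  | succ N ih =>
    intro k x y
    apply lipschitz_glue (A := Cov (DF.a k)) convex_univ (Hm_continuous (N + 1) k).continuousOn _ _ x
      (mem_univ x) y (mem_univ y)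
    · intro x _
      rw [nhdsWithin_univ]
      have h1 := (locallyFinite_of_finite (Cov (DF.a k))).iInter_compl_mem_nhds (Cov_closed _) x
      filter_upwards [h1] with y hy
      have h2 : y ∈ ⋃ i, Cov (DF.a k) i := by rw [Cov_cover]; trivial
      obtain ⟨i, hi⟩ := mem_iUnion.mp h2
      refine ⟨i, ?_, hi⟩
      by_contra hcon
      have := mem_iInter₂.mp hy i hcon
      exact this hi
    · intro i x hx y hy
      rcases i with _ | ⟨s, t⟩
      · have e1 : Hm DF (N + 1) k x = Hm DF 0 k x := by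
          rw [Hm_outer (N + 1) k hx.1, Hm_outer 0 k hx.1]
        have e2 : Hm DF (N + 1) k y = Hm DF 0 k y := by
          rw [Hm_outer (N + 1) k hy.1, Hm_outer 0 k hy.1]
        rw [e1, e2]
        apply (radial_lip k x y).trans
        gcongr
        · norm_num
        · omega
      · rw [Hm_cov N k hx.1, Hm_cov N k hy.1, add_sub_add_left_eq_sub]
        have := ih (k + 1) (x - (DF.a k / 2) • (sgn s, sgn t)) (y - (DF.a k / 2) • (sgn s, sgn t))
        rw [sub_sub_sub_cancel_right, show k + 1 + N = k + (N + 1) by ring] at this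
        exact this

end part3

section part4


/-- one-dimensional Cantor approximations -/
def K : ℕ → ℕ → Set ℝ
  | 0, k => {t | |t| ≤ rr k}
  | N + 1, k => {t | t - rr k / 2 ∈ K N (k + 1)} ∪ {t | t + rr k / 2 ∈ K N (k + 1)}

def Sq (N k : ℕ) : Set (ℝ × ℝ) := {x | x.1 ∈ K N k ∧ x.2 ∈ K N k}

lemma K_sub (N : ℕ) : ∀ (k : ℕ) (t : ℝ), t ∈ K N k → |t| ≤ rr k := by
  induction N with
  | zero => intro k t ht; exact ht
  | succ N ih =>
    intro k t ht
    have hr := rr_pos k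
    rcases ht with h | h
    · have := ih (k + 1) _ h
      rw [rr_succ, abs_le] at this
      rw [abs_le]; constructor <;> linarith
    · have := ih (k + 1) _ h
      rw [rr_succ, abs_le] at this
      rw [abs_le]; constructor <;> linarith

lemma K_closed (N : ℕ) : ∀ k, IsClosed (K N k) := by
  induction N with
  | zero => intro k; exact isClosed_le continuous_abs continuous_const
  | succ N ih =>
    intro k
    exact ((ih (k + 1)).preimage (by fun_prop : Continuous fun t : ℝ => t - rr k / 2)).union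
      ((ih (k + 1)).preimage (by fun_prop : Continuous fun t : ℝ => t + rr k / 2))

lemma K_vol (N : ℕ) : ∀ k, volume (K N k) = ENNReal.ofReal (2 * rr k * (1 / 2) ^ N) := by
  induction N with
  | zero =>
    intro k
    have : K 0 k = Icc (-rr k) (rr k) := by
      ext t; simp only [K, mem_ofPred_eq, mem_Icc, abs_le]
    rw [this, Real.volume_Icc]; congr 1; ring
  | succ N ih =>
    intro k
    have hr := rr_pos k
    have h1 : volume {t : ℝ | t - rr k / 2 ∈ K N (k + 1)} = volume (K N (k + 1)) := by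
      have := measure_preimage_add_right (volume : Measure ℝ) (-(rr k / 2)) (K N (k + 1))
      rw [← this]; rfl
    have h2 : volume {t : ℝ | t + rr k / 2 ∈ K N (k + 1)} = volume (K N (k + 1)) :=
      measure_preimage_add_right (volume : Measure ℝ) (rr k / 2) (K N (k + 1))
    have hd : Disjoint {t : ℝ | t - rr k / 2 ∈ K N (k + 1)} {t : ℝ | t + rr k / 2 ∈ K N (k + 1)} := by
      rw [Set.disjoint_left]
      intro t ha hb
      have k1 := K_sub N (k + 1) _ ha
      have k2 := K_sub N (k + 1) _ hb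
      rw [rr_succ, abs_le] at k1 k2
      linarith [k1.1, k2.2]
    have hm : MeasurableSet {t : ℝ | t + rr k / 2 ∈ K N (k + 1)} :=
      ((K_closed N (k + 1)).preimage (by fun_prop : Continuous fun t : ℝ => t + rr k / 2)).measurableSet
    change volume ({t : ℝ | t - rr k / 2 ∈ K N (k + 1)} ∪ {t : ℝ | t + rr k / 2 ∈ K N (k + 1)}) = _
    rw [measure_union hd hm, h1, h2, ih, rr_succ, ← ENNReal.ofReal_add (by positivity) (by positivity)]
    congr 1
    rw [pow_succ]; ring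

lemma Sq_closed (N k : ℕ) : IsClosed (Sq N k) :=
  ((K_closed N k).preimage continuous_fst).inter ((K_closed N k).preimage continuous_snd)

lemma Sq_prod (N k : ℕ) : Sq N k = K N k ×ˢ K N k := by
  ext x; rfl

lemma Sq_vol (N : ℕ) : volume (Sq N 0) = ENNReal.ofReal (4 * (1 / 4) ^ N) := by
  rw [Sq_prod, Measure.volume_eq_prod, Measure.prod_prod, K_vol, ← ENNReal.ofReal_mul (by unfold rr; positivity)]
  congr 1
  unfold rr
  have : ((1 : ℝ) / 4) ^ N = (1 / 2) ^ N * (1 / 2) ^ N := by rw [← mul_pow]; norm_num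
  rw [this]; ring

lemma mem_Sq_succ {N k : ℕ} {x : ℝ × ℝ} (h : x - (rr k / 2) • sgv x ∈ Sq N (k + 1)) :
    x ∈ Sq (N + 1) k := by
  obtain ⟨h1, h2⟩ := h
  have key : ∀ t : ℝ, t - rr k / 2 * sg t ∈ K N (k + 1) → t ∈ K (N + 1) k := by
    intro t ht
    rcases sg_cases t with ⟨_, h⟩ | ⟨_, h⟩
    · rw [h, mul_one] at ht; exact Or.inl ht
    · rw [h, mul_neg, mul_one, sub_neg_eq_add] at ht; exact Or.inr ht
  exact ⟨key _ h1, key _ h2⟩

lemma Sq_succ_mem {N k : ℕ} {x : ℝ × ℝ} (h : x ∈ Sq (N + 1) k) :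
    x - (rr k / 2) • sgv x ∈ Sq N (k + 1) := by
  have hr := rr_pos k
  have key : ∀ t : ℝ, t ∈ K (N + 1) k → t - rr k / 2 * sg t ∈ K N (k + 1) := by
    intro t ht
    rcases ht with h | h
    · have := K_sub N (k + 1) _ h
      rw [rr_succ, abs_le] at this
      have h0 : 0 ≤ t := by linarith [this.1]
      unfold sg; rw [if_pos h0, mul_one]; exact h
    · have := K_sub N (k + 1) _ h
      rw [rr_succ, abs_le] at this
      have h0 : ¬ 0 ≤ t := by linarith [this.2]
      unfold sg; rw [if_neg h0, mul_neg, mul_one, sub_neg_eq_add]; exact h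
  exact ⟨key _ h.1, key _ h.2⟩

lemma norm_le_of_Sq {N k : ℕ} {x : ℝ × ℝ} (h : x ∈ Sq N k) : ‖x‖ ≤ rr k := by
  rw [Prod.norm_def]
  exact max_le (K_sub N k _ h.1) (K_sub N k _ h.2)

lemma Hm_off (N : ℕ) : ∀ (k M : ℕ) (x : ℝ × ℝ), x ∉ Sq N k → Hm DF (N + M) k x = Hm DF N k x := by
  induction N with
  | zero =>
    intro k M x hx
    have : rr k ≤ ‖x‖ := by
      by_contra hcon
      push Not at hcon
      exact hx ⟨(norm_fst_le x).trans hcon.le, (norm_snd_le x).trans hcon.le⟩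
    rw [Hm_outer (D := DF) _ k this, Hm_outer (D := DF) _ k this]
  | succ N ih =>
    intro k M x hx
    rcases le_or_gt (rr k) ‖x‖ with h | h
    · rw [Hm_outer (D := DF) _ k h, Hm_outer (D := DF) _ k h]
    · rw [show N + 1 + M = (N + M) + 1 by ring, Hm_inner (D := DF) (N + M) k h, Hm_inner (D := DF) N k h]
      rw [ih (k + 1) M]
      exact fun h' => hx (mem_Sq_succ h')

lemma Fm_off {N : ℕ} {x : ℝ × ℝ} (hx : x ∉ Sq N 0) : Fm x = Hm DF N 0 x := by
  apply tendsto_nhds_unique (Hl_spec DF_b x).1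
  apply tendsto_const_nhds.congr'
  filter_upwards [eventually_ge_atTop N] with M hM
  obtain ⟨j, rfl⟩ := Nat.exists_eq_add_of_le hM
  exact (Hm_off N 0 j x hx).symm

/-- the Jacobian determinant on `ℝ × ℝ` -/
def dt (A : (ℝ × ℝ) →L[ℝ] (ℝ × ℝ)) : ℝ :=
  (A (1, 0)).1 * (A (0, 1)).2 - (A (0, 1)).1 * (A (1, 0)).2

lemma g_deriv {r σ t : ℝ} (hr : 0 < r) (hσ : σ = 1 ∨ σ = -1) (ht : t ≠ 0) :
    HasDerivAt (fun s => √(s ^ 2 + r) / (σ * s))
      ((t / √(t ^ 2 + r)) / (σ * t) - √(t ^ 2 + r) * σ / (σ * t) ^ 2) t := by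
  have hσ0 : σ ≠ 0 := by rcases hσ with h | h <;> rw [h] <;> norm_num
  have h1 : HasDerivAt (fun s : ℝ => s ^ 2 + r) (2 * t) t := by
    simpa using (hasDerivAt_pow 2 t).add_const r
  have h2 : HasDerivAt (fun s => √(s ^ 2 + r)) (2 * t / (2 * √(t ^ 2 + r))) t :=
    h1.sqrt (by positivity)
  have h3 : HasDerivAt (fun s => σ * s) σ t := by
    simpa using (hasDerivAt_id t).const_mul σ
  have h4 := h2.div h3 (mul_ne_zero hσ0 ht)
  have hR : √(t ^ 2 + r) ≠ 0 := by positivity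
  convert! h4 using 1
  field_simp

lemma dt_radial {r σ t g g' : ℝ} (hr : 0 < r) (hσ : σ = 1 ∨ σ = -1) (ht : t ≠ 0)
    (hg : g = √(t ^ 2 + r) / (σ * t))
    (hg' : g' = (t / √(t ^ 2 + r)) / (σ * t) - √(t ^ 2 + r) * σ / (σ * t) ^ 2) :
    (g + g' * t) * g = 1 := by
  have hσ0 : σ ≠ 0 := by rcases hσ with h | h <;> rw [h] <;> norm_num
  have hσ2 : σ ^ 2 = 1 := by rcases hσ with h | h <;> rw [h] <;> norm_num
  have hR : √(t ^ 2 + r) ≠ 0 := by positivity
  have hR2 : √(t ^ 2 + r) ^ 2 = t ^ 2 + r := Real.sq_sqrt (by positivity)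
  rw [hg, hg']
  field_simp
  rw [hσ2]; ring

lemma radial_deriv (N k : ℕ) {x : ℝ × ℝ} (hx : rr k < ‖x‖) (hne : |x.1| ≠ |x.2|) :
    DifferentiableAt ℝ (Hm DF N k) x ∧ dt (fderiv ℝ (Hm DF N k) x) = 1 := by
  have hr := rr_pos k
  have hout : Hm DF N k =ᶠ[𝓝 x] fun y => (√(‖y‖ ^ 2 + rr k) / ‖y‖) • y := by
    filter_upwards [(isOpen_lt continuous_const continuous_norm).mem_nhds hx] with y hy
    exact Hm_outer (D := DF) N k (le_of_lt hy)
  rcases lt_or_gt_of_ne hne with h | h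
  · -- second coordinate dominates
    have h0 : x.2 ≠ 0 := by
      intro h'; rw [h', abs_zero] at h; exact absurd (abs_nonneg x.1) (not_le.mpr h)
    have hσ : sg x.2 = 1 ∨ sg x.2 = -1 := by rcases sg_cases x.2 with h | h <;> simp [h.2]
    have hloc : Hm DF N k =ᶠ[𝓝 x] fun y => (√(y.2 ^ 2 + rr k) / (sg x.2 * y.2)) • y := by
      have h1 : IsOpen {y : ℝ × ℝ | |y.1| < |y.2|} := isOpen_lt (by fun_prop) (by fun_prop)
      have h2 : IsOpen {y : ℝ × ℝ | 0 < sg x.2 * y.2} := isOpen_lt continuous_const (by fun_prop)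
      have h3 : 0 < sg x.2 * x.2 := by
        rcases sg_cases x.2 with ⟨ha, hb⟩ | ⟨ha, hb⟩ <;> rw [hb]
        · rw [one_mul]; exact lt_of_le_of_ne ha (Ne.symm h0)
        · linarith
      filter_upwards [hout, h1.mem_nhds h, h2.mem_nhds h3] with y hy1 hy2 hy3
      have e : ‖y‖ = sg x.2 * y.2 := by
        rw [Prod.norm_def]
        have hy2' : |y.1| < |y.2| := hy2
        rw [Real.norm_eq_abs, Real.norm_eq_abs, max_eq_right hy2'.le]
        have hy3' : 0 < sg x.2 * y.2 := hy3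
        rcases hσ with h' | h' <;> rw [h'] at hy3' ⊢
        · rw [one_mul] at hy3' ⊢; exact abs_of_pos hy3'
        · rw [neg_one_mul]; exact abs_of_neg (by linarith)
      rw [hy1, e]
      have e2 : (sg x.2 * y.2) ^ 2 = y.2 ^ 2 := by
        rcases hσ with h' | h' <;> rw [h'] <;> ring
      rw [e2]
    set g := √(x.2 ^ 2 + rr k) / (sg x.2 * x.2) with hg
    set g' := (x.2 / √(x.2 ^ 2 + rr k)) / (sg x.2 * x.2) - √(x.2 ^ 2 + rr k) * sg x.2 / (sg x.2 * x.2) ^ 2 with hg'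
    have hd : HasFDerivAt (fun y : ℝ × ℝ => (√(y.2 ^ 2 + rr k) / (sg x.2 * y.2)) • y)
        (g • ContinuousLinearMap.id ℝ (ℝ × ℝ) +
          (g' • ContinuousLinearMap.snd ℝ ℝ ℝ).smulRight x) x := by
      have h1 : HasFDerivAt (fun y : ℝ × ℝ => √(y.2 ^ 2 + rr k) / (sg x.2 * y.2))
          (g' • ContinuousLinearMap.snd ℝ ℝ ℝ) x :=
        (g_deriv hr hσ h0).comp_hasFDerivAt x hasFDerivAt_snd
      exact h1.smul (hasFDerivAt_id x)
    rw [hloc.fderiv_eq, hd.fderiv]
    refine ⟨hd.differentiableAt.congr_of_eventuallyEq hloc, ?_⟩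
    have := dt_radial hr hσ h0 hg hg'
    unfold dt
    simp
    linarith
  · have h0 : x.1 ≠ 0 := by
      intro h'; rw [h', abs_zero] at h; exact absurd (abs_nonneg x.2) (not_le.mpr h)
    have hσ : sg x.1 = 1 ∨ sg x.1 = -1 := by rcases sg_cases x.1 with h | h <;> simp [h.2]
    have hloc : Hm DF N k =ᶠ[𝓝 x] fun y => (√(y.1 ^ 2 + rr k) / (sg x.1 * y.1)) • y := by
      have h1 : IsOpen {y : ℝ × ℝ | |y.2| < |y.1|} := isOpen_lt (by fun_prop) (by fun_prop)
      have h2 : IsOpen {y : ℝ × ℝ | 0 < sg x.1 * y.1} := isOpen_lt continuous_const (by fun_prop)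
      have h3 : 0 < sg x.1 * x.1 := by
        rcases sg_cases x.1 with ⟨ha, hb⟩ | ⟨ha, hb⟩ <;> rw [hb]
        · rw [one_mul]; exact lt_of_le_of_ne ha (Ne.symm h0)
        · linarith
      filter_upwards [hout, h1.mem_nhds h, h2.mem_nhds h3] with y hy1 hy2 hy3
      have e : ‖y‖ = sg x.1 * y.1 := by
        rw [Prod.norm_def]
        have hy2' : |y.2| < |y.1| := hy2
        rw [Real.norm_eq_abs, Real.norm_eq_abs, max_eq_left hy2'.le]
        have hy3' : 0 < sg x.1 * y.1 := hy3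
        rcases hσ with h' | h' <;> rw [h'] at hy3' ⊢
        · rw [one_mul] at hy3' ⊢; exact abs_of_pos hy3'
        · rw [neg_one_mul]; exact abs_of_neg (by linarith)
      rw [hy1, e]
      have e2 : (sg x.1 * y.1) ^ 2 = y.1 ^ 2 := by
        rcases hσ with h' | h' <;> rw [h'] <;> ring
      rw [e2]
    set g := √(x.1 ^ 2 + rr k) / (sg x.1 * x.1) with hg
    set g' := (x.1 / √(x.1 ^ 2 + rr k)) / (sg x.1 * x.1) - √(x.1 ^ 2 + rr k) * sg x.1 / (sg x.1 * x.1) ^ 2 with hg'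
    have hd : HasFDerivAt (fun y : ℝ × ℝ => (√(y.1 ^ 2 + rr k) / (sg x.1 * y.1)) • y)
        (g • ContinuousLinearMap.id ℝ (ℝ × ℝ) +
          (g' • ContinuousLinearMap.fst ℝ ℝ ℝ).smulRight x) x := by
      have h1 : HasFDerivAt (fun y : ℝ × ℝ => √(y.1 ^ 2 + rr k) / (sg x.1 * y.1))
          (g' • ContinuousLinearMap.fst ℝ ℝ ℝ) x :=
        (g_deriv hr hσ h0).comp_hasFDerivAt x hasFDerivAt_fst
      exact h1.smul (hasFDerivAt_id x)
    rw [hloc.fderiv_eq, hd.fderiv]
    refine ⟨hd.differentiableAt.congr_of_eventuallyEq hloc, ?_⟩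
    have := dt_radial hr hσ h0 hg hg'
    unfold dt
    simp
    linarith

lemma ae_ne_of_linear {L : (ℝ × ℝ) →ₗ[ℝ] ℝ} (hL : ∃ x, L x ≠ 0) : ∀ᵐ x : ℝ × ℝ, L x ≠ 0 := by
  have h : (LinearMap.ker L) ≠ ⊤ := by
    intro h
    obtain ⟨x, hx⟩ := hL
    have : x ∈ LinearMap.ker L := by rw [h]; trivial
    exact hx this
  have := Measure.addHaar_submodule (volume : Measure (ℝ × ℝ)) (LinearMap.ker L) h
  rw [ae_iff]
  convert this using 2
  ext x; simp

lemma ae_generic (k : ℕ) : ∀ᵐ x : ℝ × ℝ, ‖x‖ ≠ rr k ∧ |x.1| ≠ |x.2| ∧ x.1 ≠ 0 ∧ x.2 ≠ 0 := by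
  have h1 : ∀ᵐ x : ℝ × ℝ, ‖x‖ ≠ rr k := by
    have := Measure.addHaar_sphere (volume : Measure (ℝ × ℝ)) 0 (rr k)
    rw [ae_iff]
    convert this using 2
    ext x; simp
  have h2 : ∀ᵐ x : ℝ × ℝ, (LinearMap.fst ℝ ℝ ℝ - LinearMap.snd ℝ ℝ ℝ) x ≠ 0 :=
    ae_ne_of_linear ⟨(1, 0), by simp⟩
  have h3 : ∀ᵐ x : ℝ × ℝ, (LinearMap.fst ℝ ℝ ℝ + LinearMap.snd ℝ ℝ ℝ) x ≠ 0 :=
    ae_ne_of_linear ⟨(1, 0), by simp⟩
  have h4 : ∀ᵐ x : ℝ × ℝ, (LinearMap.fst ℝ ℝ ℝ) x ≠ 0 := ae_ne_of_linear ⟨(1, 0), by simp⟩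
  have h5 : ∀ᵐ x : ℝ × ℝ, (LinearMap.snd ℝ ℝ ℝ) x ≠ 0 := ae_ne_of_linear ⟨(0, 1), by simp⟩
  filter_upwards [h1, h2, h3, h4, h5] with x a1 a2 a3 a4 a5
  refine ⟨a1, ?_, a4, a5⟩
  intro h
  rcases abs_eq_abs.mp h with h | h
  · apply a2; simp [h]
  · apply a3; simp [h]

/-- value of the determinant almost everywhere -/
lemma Hm_deriv (N : ℕ) : ∀ k, ∀ᵐ x : ℝ × ℝ, DifferentiableAt ℝ (Hm DF N k) x ∧
    (x ∉ Sq N k → dt (fderiv ℝ (Hm DF N k) x) = 1) ∧
    (x ∈ Sq N k → dt (fderiv ℝ (Hm DF N k) x) = (bb (k + N) / rr (k + N)) ^ 2) := by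
  induction N with
  | zero =>
    intro k
    filter_upwards [ae_generic k] with x hx
    rcases lt_or_gt_of_ne hx.1 with h | h
    · have hloc : Hm DF 0 k =ᶠ[𝓝 x] fun y => (bb k / rr k) • y := by
        filter_upwards [(isOpen_lt continuous_norm continuous_const).mem_nhds h] with y hy
        exact Hm_zero_inner (D := DF) k (le_of_lt hy)
      have hd : HasFDerivAt (fun y : ℝ × ℝ => (bb k / rr k) • y)
          ((bb k / rr k) • ContinuousLinearMap.id ℝ (ℝ × ℝ)) x :=
        ((bb k / rr k) • ContinuousLinearMap.id ℝ (ℝ × ℝ)).hasFDerivAt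
      refine ⟨hd.differentiableAt.congr_of_eventuallyEq hloc, fun hn => ?_, fun _ => ?_⟩
      · exact absurd ⟨(norm_fst_le x).trans h.le, (norm_snd_le x).trans h.le⟩ hn
      · rw [hloc.fderiv_eq, hd.fderiv]
        unfold dt
        simp; ring
    · have h1 := radial_deriv 0 k h hx.2.1
      exact ⟨h1.1, fun _ => h1.2, fun hn => absurd (norm_le_of_Sq hn) (not_le.mpr h)⟩
  | succ N ih =>
    intro k
    have htr : ∀ c : ℝ × ℝ, ∀ᵐ x : ℝ × ℝ, DifferentiableAt ℝ (Hm DF N (k + 1)) (x - c) ∧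
        (x - c ∉ Sq N (k + 1) → dt (fderiv ℝ (Hm DF N (k + 1)) (x - c)) = 1) ∧
        (x - c ∈ Sq N (k + 1) → dt (fderiv ℝ (Hm DF N (k + 1)) (x - c)) =
          (bb (k + 1 + N) / rr (k + 1 + N)) ^ 2) := by
      intro c
      exact (measurePreserving_sub_right (volume : Measure (ℝ × ℝ)) c).quasiMeasurePreserving.ae (ih (k + 1))
    have hall : ∀ᵐ x : ℝ × ℝ, ∀ s t : Bool, DifferentiableAt ℝ (Hm DF N (k + 1)) (x - (rr k / 2) • (sgn s, sgn t)) ∧
        (x - (rr k / 2) • (sgn s, sgn t) ∉ Sq N (k + 1) →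
          dt (fderiv ℝ (Hm DF N (k + 1)) (x - (rr k / 2) • (sgn s, sgn t))) = 1) ∧
        (x - (rr k / 2) • (sgn s, sgn t) ∈ Sq N (k + 1) →
          dt (fderiv ℝ (Hm DF N (k + 1)) (x - (rr k / 2) • (sgn s, sgn t))) =
          (bb (k + 1 + N) / rr (k + 1 + N)) ^ 2) := by
      rw [ae_all_iff]; intro s
      rw [ae_all_iff]; intro t
      exact htr _
    filter_upwards [hall, ae_generic k] with x hx hg
    rcases lt_or_gt_of_ne hg.1 with h | h
    · obtain ⟨s, t, hst⟩ : ∃ s t : Bool, sgv x = (sgn s, sgn t) := by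
        have key : ∀ t : ℝ, ∃ s : Bool, sg t = sgn s := by
          intro t
          rcases sg_cases t with ⟨_, h⟩ | ⟨_, h⟩
          · exact ⟨true, by rw [h]; simp [sgn]⟩
          · exact ⟨false, by rw [h]; simp [sgn]⟩
        obtain ⟨s, hs⟩ := key x.1
        obtain ⟨t, ht⟩ := key x.2
        exact ⟨s, t, Prod.ext hs ht⟩
      have hloc : Hm DF (N + 1) k =ᶠ[𝓝 x] fun y => (bb k / 2) • (sgn s, sgn t) +
          Hm DF N (k + 1) (y - (rr k / 2) • (sgn s, sgn t)) := by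
        have hsx : sgn s = sg x.1 := (congrArg Prod.fst hst).symm
        have htx : sgn t = sg x.2 := (congrArg Prod.snd hst).symm
        have o1 : IsOpen {y : ℝ × ℝ | 0 < sgn s * y.1} := isOpen_lt continuous_const (by fun_prop)
        have o2 : IsOpen {y : ℝ × ℝ | 0 < sgn t * y.2} := isOpen_lt continuous_const (by fun_prop)
        have pos : ∀ t : ℝ, t ≠ 0 → 0 < sg t * t := by
          intro t ht
          rcases sg_cases t with ⟨ha, hb⟩ | ⟨ha, hb⟩ <;> rw [hb]
          · rw [one_mul]; exact lt_of_le_of_ne ha (Ne.symm ht)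
          · linarith
        have p1 : 0 < sgn s * x.1 := by rw [hsx]; exact pos _ hg.2.2.1
        have p2 : 0 < sgn t * x.2 := by rw [htx]; exact pos _ hg.2.2.2
        filter_upwards [(isOpen_lt continuous_norm continuous_const).mem_nhds h, o1.mem_nhds p1,
          o2.mem_nhds p2] with y hy1 hy2 hy3
        exact Hm_cov (D := DF) N k ⟨le_of_lt hy1, le_of_lt hy2, le_of_lt hy3⟩
      obtain ⟨d1, d2, d3⟩ := hx s t
      have hd : HasFDerivAt (fun y => (bb k / 2) • (sgn s, sgn t) +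
          Hm DF N (k + 1) (y - (rr k / 2) • (sgn s, sgn t)))
          (fderiv ℝ (Hm DF N (k + 1)) (x - (rr k / 2) • (sgn s, sgn t))) x := by
        have h1 : HasFDerivAt (fun y : ℝ × ℝ => y - (rr k / 2) • (sgn s, sgn t))
            (ContinuousLinearMap.id ℝ (ℝ × ℝ)) x := (hasFDerivAt_id x).sub_const _
        have h2 := d1.hasFDerivAt.comp x h1
        rw [ContinuousLinearMap.comp_id] at h2
        exact h2.const_add _
      refine ⟨hd.differentiableAt.congr_of_eventuallyEq hloc, fun hn => ?_, fun hn => ?_⟩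
      · rw [hloc.fderiv_eq, hd.fderiv]
        apply d2
        intro h'
        apply hn
        apply mem_Sq_succ
        rw [hst]; exact h'
      · rw [hloc.fderiv_eq, hd.fderiv, d3]
        · rw [show k + 1 + N = k + (N + 1) by ring]
        · have := Sq_succ_mem hn
          rw [hst] at this; exact this
    · have h1 := radial_deriv (N + 1) k h hg.2.1
      exact ⟨h1.1, fun _ => h1.2, fun hn => absurd (norm_le_of_Sq hn) (not_le.mpr h)⟩

end part4

section part5


/-- coordinates -/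
def P : Eu 2 →L[ℝ] ℝ × ℝ :=
  (EuclideanSpace.proj (0 : Fin 2)).prod (EuclideanSpace.proj (1 : Fin 2))

def J : ℝ × ℝ →L[ℝ] Eu 2 :=
  (ContinuousLinearMap.fst ℝ ℝ ℝ).smulRight (EuclideanSpace.single 0 1) +
    (ContinuousLinearMap.snd ℝ ℝ ℝ).smulRight (EuclideanSpace.single 1 1)

lemma P_apply (x : Eu 2) : P x = (x 0, x 1) := rfl

lemma J_apply0 (p : ℝ × ℝ) : (J p) 0 = p.1 := by simp [J]
lemma J_apply1 (p : ℝ × ℝ) : (J p) 1 = p.2 := by simp [J]

lemma P_J (p : ℝ × ℝ) : P (J p) = p := by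
  rw [P_apply, J_apply0, J_apply1]

lemma J_P (x : Eu 2) : J (P x) = x := by
  ext i
  fin_cases i
  · exact J_apply0 _
  · exact J_apply1 _

lemma norm_P_le (x : Eu 2) : ‖P x‖ ≤ ‖x‖ := by
  rw [P_apply, Prod.norm_def]
  exact max_le (PiLp.norm_apply_le x 0) (PiLp.norm_apply_le x 1)

lemma norm_J_le (p : ℝ × ℝ) : ‖J p‖ ≤ 2 * ‖p‖ := by
  have h1 : J p = p.1 • EuclideanSpace.single 0 1 + p.2 • EuclideanSpace.single 1 1 := rfl
  rw [h1]
  have h2 : ‖p.1‖ ≤ ‖p‖ := norm_fst_le p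
  have h3 : ‖p.2‖ ≤ ‖p‖ := norm_snd_le p
  calc ‖p.1 • EuclideanSpace.single (0 : Fin 2) (1 : ℝ) + p.2 • EuclideanSpace.single 1 1‖
      ≤ ‖p.1 • EuclideanSpace.single (0 : Fin 2) (1 : ℝ)‖ +
        ‖p.2 • EuclideanSpace.single (1 : Fin 2) (1 : ℝ)‖ := norm_add_le _ _
    _ = ‖p.1‖ + ‖p.2‖ := by rw [norm_smul, norm_smul]; simp
    _ ≤ 2 * ‖p‖ := by linarith

lemma P_mp : MeasurePreserving (P : Eu 2 → ℝ × ℝ) volume volume := by
  have h1 := (volume_preserving_finTwoArrow ℝ).comp (PiLp.volume_preserving_ofLp (Fin 2))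
  exact h1

/-- scaled coordinates -/
def Pa (a : Eu 2) (l : ℝ) (x : Eu 2) : ℝ × ℝ := P (l⁻¹ • (x - a))

lemma Pa_continuous (a : Eu 2) (l : ℝ) : Continuous (Pa a l) := by
  unfold Pa; fun_prop

/-- conjugation -/
def conj (a : Eu 2) (l : ℝ) (A : ℝ × ℝ → ℝ × ℝ) (x : Eu 2) : Eu 2 := l • J (A (Pa a l x))

def fh (a : Eu 2) (l : ℝ) : Eu 2 → Eu 2 := conj a l Fm
def gh (a : Eu 2) (l : ℝ) : Eu 2 → Eu 2 := fun y => a + conj 0 l Gm y
def fN (a : Eu 2) (l : ℝ) (N : ℕ) : Eu 2 → Eu 2 := conj a l (Hm DF N 0)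

variable {a : Eu 2} {l : ℝ}

lemma gh_fh (hl : 0 < l) (x : Eu 2) : gh a l (fh a l x) = x := by
  unfold gh fh conj Pa
  rw [sub_zero, smul_smul, inv_mul_cancel₀ hl.ne', one_smul, P_J, Gm_Fm, J_P, smul_smul,
    mul_inv_cancel₀ hl.ne', one_smul]
  abel

lemma fh_gh (hl : 0 < l) (x : Eu 2) : fh a l (gh a l x) = x := by
  unfold gh fh conj Pa
  rw [sub_zero, add_sub_cancel_left, smul_smul, inv_mul_cancel₀ hl.ne', one_smul, P_J, Fm_Gm, J_P,
    smul_smul, mul_inv_cancel₀ hl.ne', one_smul]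

lemma fh_continuous : Continuous (fh a l) :=
  (J.continuous.comp (Fm_continuous.comp (Pa_continuous a l))).const_smul l
lemma gh_continuous : Continuous (gh a l) :=
  ((J.continuous.comp (Gm_continuous.comp (Pa_continuous 0 l))).const_smul l).const_add a

lemma fN_lip (hl : 0 < l) (N : ℕ) : LipschitzWith (8 * 2 ^ N) (fN a l N) := by
  apply LipschitzWith.of_dist_le_mul
  intro x y
  rw [dist_eq_norm, dist_eq_norm]
  unfold fN conj
  rw [← smul_sub, ← map_sub, norm_smul]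
  have h1 := Hm_lip N 0 (Pa a l x) (Pa a l y)
  have e : Pa a l x - Pa a l y = P (l⁻¹ • (x - y)) := by
    unfold Pa
    rw [← map_sub, ← smul_sub, sub_sub_sub_cancel_right]
  rw [zero_add, e] at h1
  have hl2 : ‖l⁻¹ • (x - y)‖ = l⁻¹ * ‖x - y‖ := by
    rw [norm_smul, Real.norm_of_nonneg (inv_pos.mpr hl).le]
  rw [Real.norm_of_nonneg hl.le]
  calc _ ≤ l * (2 * ‖Hm DF N 0 (Pa a l x) - Hm DF N 0 (Pa a l y)‖) := by
        gcongr
        exact norm_J_le _
    _ ≤ l * (2 * (4 * 2 ^ N * (l⁻¹ * ‖x - y‖))) := by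
        have := norm_P_le (l⁻¹ • (x - y))
        rw [hl2] at this
        gcongr
        exact h1.trans (by gcongr)
    _ = (l * l⁻¹) * (8 * 2 ^ N * ‖x - y‖) := by ring
    _ = _ := by rw [mul_inv_cancel₀ hl.ne']; push_cast; ring

lemma fN_dist (hl : 0 < l) (N : ℕ) (x : Eu 2) : ‖fN a l N x - fh a l x‖ ≤ 16 * l * (1 / 2) ^ N := by
  unfold fN fh conj
  rw [← smul_sub, ← map_sub, norm_smul, Real.norm_of_nonneg hl.le]
  have h1 := (Hl_spec DF_b (Pa a l x)).2 N
  rw [dist_eq_norm] at h1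
  calc _ ≤ l * (2 * ‖Hm DF N 0 (Pa a l x) - Fm (Pa a l x)‖) := by
        gcongr
        exact norm_J_le _
    _ ≤ l * (2 * (8 * (1 / 2) ^ N)) := by gcongr; exact h1
    _ = _ := by ring

/-- squares of level `N` -/
def TN (a : Eu 2) (l : ℝ) (N : ℕ) : Set (Eu 2) := Pa a l ⁻¹' (Sq N 0)

lemma TN_closed (N : ℕ) : IsClosed (TN a l N) := (Sq_closed N 0).preimage (Pa_continuous a l)

lemma TN_vol (hl : 0 < l) (N : ℕ) :
    volume (TN a l N) = ENNReal.ofReal (l ^ 2 * (4 * (1 / 4) ^ N)) := by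
  have h0 : volume (P ⁻¹' (Sq N 0)) = ENNReal.ofReal (4 * (1 / 4) ^ N) := by
    rw [P_mp.measure_preimage (Sq_closed N 0).measurableSet.nullMeasurableSet, Sq_vol]
  have h1 : TN a l N = (fun x => x - a) ⁻¹' ((fun x : Eu 2 => l⁻¹ • x) ⁻¹' (P ⁻¹' (Sq N 0))) := rfl
  have hm : MeasurableSet ((fun x : Eu 2 => l⁻¹ • x) ⁻¹' (P ⁻¹' (Sq N 0))) :=
    (((Sq_closed N 0).preimage P.continuous).preimage (continuous_const_smul _)).measurableSet
  rw [h1, (measurePreserving_sub_right volume a).measure_preimage hm.nullMeasurableSet,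
    Measure.addHaar_preimage_smul _ (inv_pos.mpr hl).ne', h0,
    ← ENNReal.ofReal_mul (abs_nonneg _)]
  congr 2
  simp

lemma fh_off {N : ℕ} {x : Eu 2} (hx : x ∉ TN a l N) : fh a l x = fN a l N x := by
  unfold fh fN conj
  rw [Fm_off hx]

lemma fN_off {N M : ℕ} (h : N ≤ M) {x : Eu 2} (hx : x ∉ TN a l N) :
    fN a l M x = fN a l N x := by
  obtain ⟨j, rfl⟩ := Nat.exists_eq_add_of_le h
  unfold fN conj
  rw [Hm_off N 0 j _ hx]

lemma fderiv_fh_off {N : ℕ} {x : Eu 2} (hx : x ∉ TN a l N) :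
    fderiv ℝ (fh a l) x = fderiv ℝ (fN a l N) x := by
  have : fh a l =ᶠ[𝓝 x] fN a l N := by
    filter_upwards [(TN_closed N).isOpen_compl.mem_nhds hx] with y hy using fh_off hy
  exact this.fderiv_eq

lemma fderiv_fN_off {N M : ℕ} (h : N ≤ M) {x : Eu 2} (hx : x ∉ TN a l N) :
    fderiv ℝ (fN a l M) x = fderiv ℝ (fN a l N) x := by
  have : fN a l M =ᶠ[𝓝 x] fN a l N := by
    filter_upwards [(TN_closed N).isOpen_compl.mem_nhds hx] with y hy using fN_off h hy
  exact this.fderiv_eq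

lemma norm_fderiv_fN (hl : 0 < l) (N : ℕ) (x : Eu 2) : ‖fderiv ℝ (fN a l N) x‖ ≤ 8 * 2 ^ N := by
  have := norm_fderiv_le_of_lipschitz ℝ (fN_lip (a := a) hl N) (x₀ := x)
  simpa using this

lemma ae_exists_off (a : Eu 2) (hl : 0 < l) : ∀ᵐ x : Eu 2, ∃ N, x ∉ TN a l N := by
  have h : volume (⋂ N, TN a l N) = 0 := by
    have h1 : ∀ N, volume (⋂ N, TN a l N) ≤ ENNReal.ofReal (l ^ 2 * (4 * (1 / 4) ^ N)) := by
      intro N
      rw [← TN_vol (a := a) hl]
      exact measure_mono (iInter_subset _ N)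
    have h2 : Tendsto (fun N : ℕ => ENNReal.ofReal (l ^ 2 * (4 * (1 / 4) ^ N))) atTop (𝓝 0) := by
      have := ((tendsto_pow_atTop_nhds_zero_of_lt_one (by norm_num : (0:ℝ) ≤ 1 / 4)
        (by norm_num)).const_mul 4).const_mul (l ^ 2)
      rw [mul_zero, mul_zero] at this
      have h3 := (ENNReal.continuous_ofReal.tendsto 0).comp this
      rw [ENNReal.ofReal_zero] at h3
      exact h3
    exact le_antisymm (ge_of_tendsto' h2 h1) (zero_le)
  rw [ae_iff]
  convert h using 2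
  ext x; simp

/-- the dominating function for the `p`-th power -/
def Phi (a : Eu 2) (l : ℝ) (p : ℝ) (x : Eu 2) : ℝ≥0∞ :=
  ENNReal.ofReal (8 ^ p) +
    ∑' j : ℕ, (TN a l j).indicator (fun _ => ENNReal.ofReal ((16 * 2 ^ j) ^ p)) x

lemma enorm_rpow_le {p : ℝ} (hp : 0 < p) {c : ℝ} (ha : 0 ≤ c) {L : Eu 2 →L[ℝ] Eu 2} (hL : ‖L‖ ≤ c) :
    ‖L‖ₑ ^ p ≤ ENNReal.ofReal (c ^ p) := by
  rw [← ENNReal.ofReal_rpow_of_nonneg ha hp.le]
  apply ENNReal.rpow_le_rpow _ hp.le
  rw [← ofReal_norm]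
  exact ENNReal.ofReal_le_ofReal hL

lemma bound_aux {p : ℝ} (hp : 0 < p) {x : Eu 2} (hx : ∃ N, x ∉ TN a l N) {L : Eu 2 →L[ℝ] Eu 2}
    (hL : ∀ N, x ∉ TN a l N → ‖L‖ ≤ 8 * 2 ^ N) : ‖L‖ₑ ^ p ≤ Phi a l p x := by
  classical
  set n := Nat.find hx with hn
  have h1 : x ∉ TN a l n := Nat.find_spec hx
  have h2 := hL n h1
  rcases Nat.eq_zero_or_pos n with h0 | h0
  · rw [h0] at h2
    unfold Phi
    refine le_trans ?_ le_self_add
    apply enorm_rpow_le hp (by norm_num)
    simpa using h2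
  · obtain ⟨j, hj⟩ : ∃ j, n = j + 1 := ⟨n - 1, by omega⟩
    have h3 : x ∈ TN a l j := by
      by_contra hcon
      have := Nat.find_min hx (m := j) (by omega)
      exact this hcon
    unfold Phi
    refine le_trans ?_ le_add_self
    refine le_trans ?_ (ENNReal.le_tsum j)
    rw [indicator_of_mem h3]
    apply enorm_rpow_le hp (by positivity)
    rw [hj, pow_succ] at h2
    linarith

lemma fh_bound (hl : 0 < l) {p : ℝ} (hp : 0 < p) {x : Eu 2} (hx : ∃ N, x ∉ TN a l N) :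
    ‖fderiv ℝ (fh a l) x‖ₑ ^ p ≤ Phi a l p x := by
  apply bound_aux hp hx
  intro N hN
  rw [fderiv_fh_off hN]
  exact norm_fderiv_fN hl N x

lemma fN_bound (hl : 0 < l) {p : ℝ} (hp : 0 < p) (M : ℕ) {x : Eu 2} (hx : ∃ N, x ∉ TN a l N) :
    ‖fderiv ℝ (fN a l M) x‖ₑ ^ p ≤ Phi a l p x := by
  apply bound_aux hp hx
  intro N hN
  rcases le_total N M with h | h
  · rw [fderiv_fN_off h hN]; exact norm_fderiv_fN hl N x
  · apply (norm_fderiv_fN hl M x).trans
    gcongr
    norm_num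

lemma Phi_measurable (p : ℝ) : Measurable (Phi a l p) := by
  have h : Measurable (fun x => ∑' j : ℕ,
      (TN a l j).indicator (fun _ => ENNReal.ofReal ((16 * 2 ^ j) ^ p)) x) := by
    apply Measurable.ennreal_tsum
    intro j
    exact measurable_const.indicator (TN_closed j).measurableSet
  exact h.const_add _

lemma Phi_lintegral (hl : 0 < l) {p : ℝ} (hp2 : p < 2) {Ω : Set (Eu 2)} (hΩ : volume Ω ≠ ⊤) :
    ∫⁻ x in Ω, Phi a l p x ≠ ⊤ := by
  unfold Phi
  rw [lintegral_add_left measurable_const, lintegral_const, lintegral_tsum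
    (fun j => (measurable_const.indicator (TN_closed j).measurableSet).aemeasurable)]
  apply ENNReal.add_ne_top.mpr
  refine ⟨ENNReal.mul_ne_top ENNReal.ofReal_ne_top (by rw [Measure.restrict_apply_univ]; exact hΩ), ?_⟩
  have h1 : ∀ j : ℕ, ∫⁻ x in Ω, (TN a l j).indicator (fun _ => ENNReal.ofReal ((16 * 2 ^ j) ^ p)) x ≤
      ENNReal.ofReal (16 ^ p * l ^ 2 * 4 * ((2 : ℝ) ^ (p - 2)) ^ j) := by
    intro j
    rw [lintegral_indicator_const (TN_closed j).measurableSet]
    calc ENNReal.ofReal ((16 * 2 ^ j) ^ p) * (volume.restrict Ω) (TN a l j)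
        ≤ ENNReal.ofReal ((16 * 2 ^ j) ^ p) * volume (TN a l j) := by
          exact mul_le_mul' le_rfl (Measure.restrict_apply_le _ _)
      _ = ENNReal.ofReal (16 ^ p * l ^ 2 * 4 * ((2 : ℝ) ^ (p - 2)) ^ j) := by
          rw [TN_vol hl, ← ENNReal.ofReal_mul (by positivity)]
          congr 1
          rw [Real.mul_rpow (by norm_num) (by positivity)]
          have e1 : ((2 : ℝ) ^ j) ^ p = ((2 : ℝ) ^ p) ^ j := by
            rw [← Real.rpow_natCast, ← Real.rpow_natCast, ← Real.rpow_mul (by norm_num),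
              ← Real.rpow_mul (by norm_num), mul_comm]
          have e2 : (2 : ℝ) ^ (p - 2) = 2 ^ p * (1 / 4) := by
            rw [Real.rpow_sub (by norm_num)]; norm_num; ring
          rw [e1, e2, mul_pow]; ring
  have h2 : Summable (fun j : ℕ => 16 ^ p * l ^ 2 * 4 * ((2 : ℝ) ^ (p - 2)) ^ j) := by
    apply Summable.mul_left
    apply summable_geometric_of_lt_one (by positivity)
    exact Real.rpow_lt_one_of_one_lt_of_neg (by norm_num) (by linarith)
  have h3 : ∑' j : ℕ, ENNReal.ofReal (16 ^ p * l ^ 2 * 4 * ((2 : ℝ) ^ (p - 2)) ^ j) ≠ ⊤ := by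
    rw [← ENNReal.ofReal_tsum_of_nonneg (fun j => by positivity) h2]
    exact ENNReal.ofReal_ne_top
  exact ne_top_of_le_ne_top h3 (ENNReal.tsum_le_tsum h1)

lemma fh_memLp (hl : 0 < l) {p : ℝ≥0∞} (hp : 1 ≤ p) (hp2 : p < 2) {Ω : Set (Eu 2)}
    (hΩ : volume Ω ≠ ⊤) : MemLp (fderiv ℝ (fh a l)) p (volume.restrict Ω) := by
  have hpt : p ≠ ⊤ := (hp2.trans (by simp)).ne
  have hp0 : p ≠ 0 := (zero_lt_one.trans_le hp).ne'
  have hpos : 0 < p.toReal := ENNReal.toReal_pos hp0 hpt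
  have hlt : p.toReal < 2 := by
    have := (ENNReal.toReal_lt_toReal hpt (by simp)).mpr hp2
    simpa using this
  refine ⟨(measurable_fderiv ℝ (fh a l)).aestronglyMeasurable, ?_⟩
  rw [eLpNorm_lt_top_iff_lintegral_rpow_enorm_lt_top hp0 hpt]
  calc ∫⁻ x in Ω, ‖fderiv ℝ (fh a l) x‖ₑ ^ p.toReal ≤ ∫⁻ x in Ω, Phi a l p.toReal x := by
        apply lintegral_mono_ae
        apply ae_restrict_of_ae
        filter_upwards [ae_exists_off a hl] with x hx using fh_bound hl hpos hx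
    _ < ⊤ := lt_top_iff_ne_top.mpr (Phi_lintegral hl hlt hΩ)

/-- dominated convergence for fields built from `D f_N` -/
lemma tendsto_int {E : Type*} [NormedAddCommGroup E] [NormedSpace ℝ E] (a : Eu 2) (hl : 0 < l)
    {Ω : Set (Eu 2)} (hΩ : volume Ω ≠ ⊤) {F : ℕ → Eu 2 → E} {f : Eu 2 → E} {C : ℝ}
    (hm : ∀ N, AEStronglyMeasurable (F N) (volume.restrict Ω))
    (hb : ∀ N x, ‖F N x‖ ≤ C * ‖fderiv ℝ (fN a l N) x‖)
    (hlim : ∀ᵐ x ∂(volume.restrict Ω), Tendsto (fun N => F N x) atTop (𝓝 (f x))) :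
    Tendsto (fun N => ∫ x in Ω, F N x) atTop (𝓝 (∫ x in Ω, f x)) := by
  have hfin := Phi_lintegral (a := a) hl (by norm_num : (1:ℝ) < 2) hΩ
  have hint : Integrable (fun x => (Phi a l 1 x).toReal) (volume.restrict Ω) :=
    integrable_toReal_of_lintegral_ne_top (Phi_measurable 1).aemeasurable hfin
  have hlt : ∀ᵐ x ∂(volume.restrict Ω), Phi a l 1 x < ⊤ := ae_lt_top (Phi_measurable 1) hfin
  apply tendsto_integral_of_dominated_convergence (fun x => |C| * (Phi a l 1 x).toReal) hm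
    (hint.const_mul _) _ hlim
  intro N
  filter_upwards [hlt, ae_restrict_of_ae (ae_exists_off a hl)] with x h1 h2
  have h3 := fN_bound hl zero_lt_one N h2
  rw [ENNReal.rpow_one] at h3
  have h4 : ‖fderiv ℝ (fN a l N) x‖ ≤ (Phi a l 1 x).toReal := by
    rw [← toReal_enorm]
    exact ENNReal.toReal_mono h1.ne h3
  calc ‖F N x‖ ≤ C * ‖fderiv ℝ (fN a l N) x‖ := hb N x
    _ ≤ |C| * ‖fderiv ℝ (fN a l N) x‖ := by gcongr; exact le_abs_self C
    _ ≤ |C| * (Phi a l 1 x).toReal := by gcongr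

lemma K_anti (N : ℕ) : ∀ k, K (N + 1) k ⊆ K N k := by
  induction N with
  | zero => intro k t ht; exact K_sub 1 k t ht
  | succ N ih =>
    intro k t ht
    rcases ht with h | h
    · exact Or.inl (ih (k + 1) h)
    · exact Or.inr (ih (k + 1) h)

lemma TN_anti {N M : ℕ} (h : N ≤ M) : TN a l M ⊆ TN a l N := by
  obtain ⟨j, rfl⟩ := Nat.exists_eq_add_of_le h
  induction j with
  | zero => exact subset_rfl
  | succ j ih =>
    refine subset_trans ?_ (ih (Nat.le_add_right _ _))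
    intro x hx
    exact ⟨K_anti _ _ hx.1, K_anti _ _ hx.2⟩

lemma ae_fderiv_tendsto (a : Eu 2) (hl : 0 < l) : ∀ᵐ x : Eu 2,
    ∃ N, ∀ M, N ≤ M → fderiv ℝ (fN a l M) x = fderiv ℝ (fh a l) x ∧ x ∉ TN a l M := by
  filter_upwards [ae_exists_off a hl] with x hx
  obtain ⟨N, hN⟩ := hx
  refine ⟨N, fun M hM => ⟨?_, ?_⟩⟩
  · rw [fderiv_fN_off hM hN, fderiv_fh_off hN]
  · exact fun hcon => hN (TN_anti hM hcon)

/-- weak differential of the limit map -/
lemma fh_weakDiff (a : Eu 2) (hl : 0 < l) {Ω : Set (Eu 2)} (hΩo : IsOpen Ω) (hΩ : volume Ω ≠ ⊤) :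
    IsWeakDiff Ω (fh a l) (fderiv ℝ (fh a l)) := by
  intro φ hφ hc hs v
  have hfm : IsFiniteMeasure (volume.restrict Ω) :=
    ⟨by rw [Measure.restrict_apply_univ]; exact lt_top_iff_ne_top.mpr hΩ⟩
  have hφ'c : Continuous (fun x => fderiv ℝ φ x v) :=
    (hφ.continuous_fderiv (by simp)).clm_apply continuous_const
  have hφ's : HasCompactSupport (fun x => fderiv ℝ φ x v) := hc.fderiv_apply (𝕜 := ℝ) v
  obtain ⟨B, hB⟩ := hc.exists_bound_of_continuous hφ.continuous
  have hB0 : 0 ≤ B := (norm_nonneg _).trans (hB 0)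
  have hL : ∀ N, ∫ x in Ω, (fderiv ℝ φ x v) • fN a l N x = - ∫ x in Ω, φ x • (fderiv ℝ (fN a l N) x v) := by
    intro N
    have hLL : LocLip (8 * 2 ^ N) Ω (fN a l N) := fun x _ => ⟨univ, univ_mem, (fN_lip hl N).lipschitzOnWith⟩
    exact hLL.isWeakDiff hΩo φ hφ hc hs v
  have t1 : Tendsto (fun N => ∫ x in Ω, (fderiv ℝ φ x v) • fN a l N x) atTop
      (𝓝 (∫ x in Ω, (fderiv ℝ φ x v) • fh a l x)) := by
    have hi : Integrable (fun x => ‖fderiv ℝ φ x v‖ * (‖fh a l x‖ + 16 * l)) (volume.restrict Ω) := by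
      apply Continuous.integrable_of_hasCompactSupport
      · exact hφ'c.norm.mul (fh_continuous.norm.add continuous_const)
      · exact hφ's.norm.mul_right
    apply tendsto_integral_of_dominated_convergence _ _ hi
    · intro N
      filter_upwards with x
      rw [norm_smul]
      gcongr
      have h1 := fN_dist (a := a) hl N x
      have h2 : (1 / 2 : ℝ) ^ N ≤ 1 := pow_le_one₀ (by norm_num) (by norm_num)
      have h3 : 16 * l * (1 / 2) ^ N ≤ 16 * l * 1 := by gcongr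
      have h4 := norm_sub_norm_le (fN a l N x) (fh a l x)
      linarith
    · filter_upwards with x
      apply Tendsto.const_smul
      rw [tendsto_iff_norm_sub_tendsto_zero]
      have h5 : Tendsto (fun N : ℕ => 16 * l * (1 / 2 : ℝ) ^ N) atTop (𝓝 0) := by
        have := (tendsto_pow_atTop_nhds_zero_of_lt_one (by norm_num : (0:ℝ) ≤ 1 / 2)
          (by norm_num)).const_mul (16 * l)
        rwa [mul_zero] at this
      exact squeeze_zero (fun _ => norm_nonneg _) (fun N => fN_dist hl N x) h5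
    · intro N
      exact (hφ'c.smul (fN_lip hl N).continuous).aestronglyMeasurable
  have t2 : Tendsto (fun N => ∫ x in Ω, φ x • (fderiv ℝ (fN a l N) x v)) atTop
      (𝓝 (∫ x in Ω, φ x • (fderiv ℝ (fh a l) x v))) := by
    apply tendsto_int a hl hΩ (C := B * ‖v‖)
    · intro N
      exact hφ.continuous.aestronglyMeasurable.smul
        (measurable_fderiv_apply_const ℝ _ v).aestronglyMeasurable
    · intro N x
      rw [norm_smul]
      calc ‖φ x‖ * ‖fderiv ℝ (fN a l N) x v‖ ≤ B * (‖fderiv ℝ (fN a l N) x‖ * ‖v‖) := by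
            gcongr
            · exact hB x
            · exact ContinuousLinearMap.le_opNorm _ _
        _ = _ := by ring
    · apply ae_restrict_of_ae
      filter_upwards [ae_fderiv_tendsto a hl] with x hx
      obtain ⟨N, hN⟩ := hx
      apply tendsto_const_nhds.congr'
      filter_upwards [eventually_ge_atTop N] with M hM
      rw [(hN M hM).1]
  simp only [hL] at t1
  exact tendsto_nhds_unique t1 t2.neg

lemma fh_isSobolev (a : Eu 2) (hl : 0 < l) {Ω : Set (Eu 2)} (hΩo : IsOpen Ω)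
    (hΩb : Bornology.IsBounded Ω) {p : ℝ≥0∞} (hp : 1 ≤ p) (hp2 : p < 2) :
    IsSobolev p Ω (fh a l) (fderiv ℝ (fh a l)) := by
  have hfin : volume Ω ≠ ⊤ := hΩb.measure_lt_top.ne
  have hfm : IsFiniteMeasure (volume.restrict Ω) :=
    ⟨by rw [Measure.restrict_apply_univ]; exact lt_top_iff_ne_top.mpr hfin⟩
  refine ⟨?_, fh_memLp hl hp hp2 hfin, fh_weakDiff a hl hΩo hfin⟩
  obtain ⟨R, hR⟩ := hΩb.subset_closedBall (0 : Eu 2)
  obtain ⟨B, hB⟩ := (isCompact_closedBall (0 : Eu 2) R).exists_bound_of_continuousOn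
    (fh_continuous (a := a) (l := l)).continuousOn
  apply MemLp.of_bound fh_continuous.aestronglyMeasurable B
  filter_upwards [ae_restrict_mem hΩo.measurableSet] with x hx using hB x (hR hx)

end part5

section part6


lemma snd_symm {u : Eu 2 → ℝ} (hu : ContDiff ℝ ((⊤ : ℕ∞) : WithTop ℕ∞) u) (v w x : Eu 2) :
    fderiv ℝ (fun y => fderiv ℝ u y v) x w = fderiv ℝ (fun y => fderiv ℝ u y w) x v := by
  have h1 : ContDiffAt ℝ 2 u x := (hu.of_le (WithTop.coe_le_coe.mpr (le_top : (2 : ℕ∞) ≤ ⊤))).contDiffAt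
  have hs : IsSymmSndFDerivAt ℝ u x := h1.isSymmSndFDerivAt (by simp)
  have hc : ContDiff ℝ 1 (fderiv ℝ u) := hu.fderiv_right (by
    rw [show (1 : WithTop ℕ∞) + 1 = 2 by norm_num]; exact WithTop.coe_le_coe.mpr (le_top : (2 : ℕ∞) ≤ ⊤))
  have hd : DifferentiableAt ℝ (fderiv ℝ u) x := (hc.differentiable (by norm_num)) x
  have e : ∀ v w, fderiv ℝ (fun y => fderiv ℝ u y v) x w = fderiv ℝ (fderiv ℝ u) x w v := by
    intro v w
    rw [fderiv_clm_apply hd (differentiableAt_const v)]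
    simp
  rw [e, e]
  exact hs w v

lemma null_smooth {C : ℝ≥0} {F : Eu 2 → Eu 2} (hF : LipschitzWith C F) {u : Eu 2 → ℝ}
    (hu : ContDiff ℝ ((⊤ : ℕ∞) : WithTop ℕ∞) u) (hc : HasCompactSupport u) (v w : Eu 2) :
    ∫ x, (fderiv ℝ u x v) • (fderiv ℝ F x w) = ∫ x, (fderiv ℝ u x w) • (fderiv ℝ F x v) := by
  have hsm : ∀ v : Eu 2, ContDiff ℝ ((⊤ : ℕ∞) : WithTop ℕ∞) (fun x => fderiv ℝ u x v) := by
    intro v
    exact (hu.fderiv_right (m := ((⊤ : ℕ∞) : WithTop ℕ∞)) (by simp)).clm_apply contDiff_const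
  have hcs : ∀ v : Eu 2, HasCompactSupport (fun x => fderiv ℝ u x v) := fun v =>
    hc.fderiv_apply (𝕜 := ℝ) v
  have h1 := weakDiff_of_lipschitz hF (hsm v) (hcs v) w
  have h2 := weakDiff_of_lipschitz hF (hsm w) (hcs w) v
  have h3 : ∫ x, (fderiv ℝ (fun y => fderiv ℝ u y v) x w) • F x =
      ∫ x, (fderiv ℝ (fun y => fderiv ℝ u y w) x v) • F x := by
    congr 1; ext1 x; rw [snd_symm hu v w x]
  rw [h1, h2, neg_inj] at h3
  exact h3

lemma exists_mollify {D : ℝ≥0} {u : Eu 2 → ℝ} (hu : LipschitzWith D u) (hc : HasCompactSupport u) :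
    ∃ (R : ℝ) (U : ℕ → Eu 2 → ℝ), 0 < R ∧ (∀ k, ContDiff ℝ ((⊤ : ℕ∞) : WithTop ℕ∞) (U k)) ∧
      (∀ k, LipschitzWith D (U k)) ∧ (∀ k x, R ≤ ‖x‖ → U k x = 0) ∧ (∀ x, R ≤ ‖x‖ → u x = 0) ∧
      (∀ k x, |U k x - u x| ≤ D * (1 / ((k : ℝ) + 1))) := by
  obtain ⟨R0, hR0⟩ := hc.isCompact.isBounded.subset_ball (0 : Eu 2)
  set φ : ℕ → ContDiffBump (0 : Eu 2) := fun k =>
    ⟨1 / (2 * ((k : ℝ) + 1)), 1 / ((k : ℝ) + 1), by positivity, by
      apply one_div_lt_one_div_of_lt (by positivity); linarith [show (0 : ℝ) ≤ k from k.cast_nonneg]⟩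
    with hφ
  have hout : ∀ k, (φ k).rOut = 1 / ((k : ℝ) + 1) := fun k => rfl
  have hout1 : ∀ k, (φ k).rOut ≤ 1 := by
    intro k; rw [hout, div_le_one (by positivity)]; linarith [show (0 : ℝ) ≤ k from k.cast_nonneg]
  set U : ℕ → Eu 2 → ℝ := fun k =>
    MeasureTheory.convolution ((φ k).normed volume) u (ContinuousLinearMap.lsmul ℝ ℝ) volume with hU
  have hUi : ∀ k x, Integrable (fun t => (φ k).normed volume t • u (x - t)) := by
    intro k x
    apply Continuous.integrable_of_hasCompactSupport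
    · exact (φ k).continuous_normed.smul (hu.continuous.comp (by fun_prop))
    · exact (φ k).hasCompactSupport_normed.smul_right
  have hUe : ∀ k x, U k x = ∫ t, (φ k).normed volume t • u (x - t) := fun k x => rfl
  have hni : ∀ k, Integrable ((φ k).normed (volume : Measure (Eu 2))) := fun k =>
    (φ k).continuous_normed.integrable_of_hasCompactSupport (φ k).hasCompactSupport_normed
  refine ⟨|R0| + 1, U, by positivity, ?_, ?_, ?_, ?_, ?_⟩
  · intro k
    have := (φ k).hasCompactSupport_normed (μ := (volume : Measure (Eu 2)))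
    apply this.contDiff_convolution_left (n := (⊤ : ℕ∞)) _ (φ k).contDiff_normed
    exact hu.continuous.locallyIntegrable
  · intro k
    apply LipschitzWith.of_dist_le_mul
    intro x y
    rw [Real.dist_eq, hUe, hUe, ← integral_sub (hUi k x) (hUi k y)]
    calc |∫ t, ((φ k).normed volume t • u (x - t) - (φ k).normed volume t • u (y - t))|
        ≤ ∫ t, (φ k).normed volume t * (D * dist x y) := by
          rw [← Real.norm_eq_abs]
          apply norm_integral_le_of_norm_le ((hni k).mul_const _)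
          filter_upwards with t
          rw [← smul_sub, norm_smul, Real.norm_of_nonneg ((φ k).nonneg_normed t)]
          apply mul_le_mul_of_nonneg_left _ ((φ k).nonneg_normed t)
          rw [Real.norm_eq_abs, ← Real.dist_eq]
          calc dist (u (x - t)) (u (y - t)) ≤ D * dist (x - t) (y - t) := hu.dist_le_mul _ _
            _ = D * dist x y := by rw [dist_sub_right]
      _ = D * dist x y := by
          rw [integral_mul_const, (φ k).integral_normed, one_mul]
  · intro k x hx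
    have hns : x ∉ Function.support (U k) := by
      intro hxs
      have := support_convolution_subset (L := ContinuousLinearMap.lsmul ℝ ℝ) (μ := volume) hxs
      obtain ⟨y, hy, z, hz, hyz⟩ := this
      rw [(φ k).support_normed_eq, mem_ball_zero_iff] at hy
      have hz' := hR0 (subset_tsupport _ hz)
      rw [mem_ball_zero_iff] at hz'
      have h1 : ‖x‖ ≤ ‖y‖ + ‖z‖ := by rw [← hyz]; exact norm_add_le _ _
      have h2 := le_abs_self R0
      have h3 := hout1 k
      linarith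
    simpa using hns
  · intro x hx
    by_contra hne
    have := hR0 (subset_tsupport _ hne)
    rw [mem_ball_zero_iff] at this
    linarith [le_abs_self R0]
  · intro k x
    rw [← Real.dist_eq]
    apply (φ k).dist_normed_convolution_le hu.continuous.aestronglyMeasurable
    intro y hy
    rw [mem_ball, hout] at hy
    calc dist (u y) (u x) ≤ D * dist y x := hu.dist_le_mul _ _
      _ ≤ D * (1 / ((k : ℝ) + 1)) := by gcongr

/-- The null Lagrangian identity for Lipschitz functions. -/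
lemma null_lip {C D : ℝ≥0} {F : Eu 2 → Eu 2} (hF : LipschitzWith C F) {u : Eu 2 → ℝ}
    (hu : LipschitzWith D u) (hc : HasCompactSupport u) (v w : Eu 2) :
    ∫ x, (fderiv ℝ u x v) * (fderiv ℝ F x w) 1 = ∫ x, (fderiv ℝ u x w) * (fderiv ℝ F x v) 1 := by
  obtain ⟨R, U, hR, hUs, hUl, hU0, hu0, hUu⟩ := exists_mollify hu hc
  have hUc : ∀ k, HasCompactSupport (U k) := by
    intro k
    apply HasCompactSupport.of_support_subset_isCompact (isCompact_closedBall (0 : Eu 2) R)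
    intro x hx
    rw [mem_closedBall_zero_iff]
    by_contra h
    exact hx (hU0 k x (not_le.mp h).le)
  set e : Eu 2 := EuclideanSpace.single 0 1 with he
  have hen : ‖e‖ = 1 := by simp [he]
  set Ω : Set (Eu 2) := ball 0 (R + 1) with hΩ
  have hfin : volume Ω ≠ ⊤ := measure_ball_lt_top.ne
  have hfm : IsFiniteMeasure (volume.restrict Ω) :=
    ⟨by rw [Measure.restrict_apply_univ]; exact lt_top_iff_ne_top.mpr hfin⟩
  -- vector valued versions
  have hlip : ∀ {g : Eu 2 → ℝ}, LipschitzWith D g → LipschitzWith D (fun x => g x • e) := by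
    intro g hg
    apply LipschitzWith.of_dist_le_mul
    intro x y
    rw [dist_eq_norm, ← sub_smul, norm_smul, hen, mul_one, Real.norm_eq_abs, ← Real.dist_eq]
    exact hg.dist_le_mul x y
  have hloc : ∀ {g : Eu 2 → ℝ}, LipschitzWith D g → LocLip D Ω (fun x => g x • e) :=
    fun hg x _ => ⟨univ, univ_mem, (hlip hg).lipschitzOnWith⟩
  have hder : ∀ {g : Eu 2 → ℝ} {x : Eu 2} (v : Eu 2), DifferentiableAt ℝ g x →
      fderiv ℝ (fun x => g x • e) x v = (fderiv ℝ g x v) • e := by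
    intro g x v hg
    have := hg.hasFDerivAt.smul_const e
    rw [this.fderiv]; rfl
  have hbd : ∃ M, ∀ x ∈ Ω, ‖u x • e‖ ≤ M := by
    obtain ⟨M, hM⟩ := hc.exists_bound_of_continuous hu.continuous
    exact ⟨M, fun x _ => by rw [norm_smul, hen, mul_one]; exact hM x⟩
  obtain ⟨M, hM⟩ := hbd
  have hbdU : ∀ k, ∀ x ∈ Ω, ‖U k x • e‖ ≤ M + D := by
    intro k x hx
    have h1 := hM x hx
    rw [norm_smul, hen, mul_one, Real.norm_eq_abs] at h1
    rw [norm_smul, hen, mul_one, Real.norm_eq_abs]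
    have h2 := hUu k x
    have h3 : (D : ℝ) * (1 / ((k : ℝ) + 1)) ≤ D * 1 := by
      gcongr
      rw [div_le_one (by positivity)]; linarith [show (0 : ℝ) ≤ k from k.cast_nonneg]
    have h4 : |U k x| ≤ |U k x - u x| + |u x| := by
      have := abs_add_le (U k x - u x) (u x)
      rwa [sub_add_cancel] at this
    linarith
  have hlim : ∀ x ∈ Ω, Tendsto (fun k => U k x • e) atTop (𝓝 (u x • e)) := by
    intro x _
    apply Tendsto.smul_const
    rw [tendsto_iff_norm_sub_tendsto_zero]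
    have h5 : Tendsto (fun k : ℕ => (D : ℝ) * (1 / ((k : ℝ) + 1))) atTop (𝓝 0) := by
      have := tendsto_one_div_add_atTop_nhds_zero_nat (𝕜 := ℝ)
      simpa using this.const_mul (D : ℝ)
    exact squeeze_zero (fun _ => norm_nonneg _) (fun k => hUu k x) h5
  have hW := weakConv_of_locLip (p := ⊤) isOpen_ball hfin (fun k => hloc (hUl k)) (hloc hu) hbdU
    (fun x hx => (hM x hx).trans (by linarith [D.2] : M ≤ M + D)) hlim
  -- convergence of the pairings
  have key : ∀ v w : Eu 2, Tendsto (fun k => ∫ x, (fderiv ℝ (U k) x v) * (fderiv ℝ F x w) 1) atTop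
      (𝓝 (∫ x, (fderiv ℝ u x v) * (fderiv ℝ F x w) 1)) := by
    intro v w
    set h : Eu 2 → Eu 2 := fun x => (fderiv ℝ F x w) 1 • e with hh
    have hhm : MemLp h 1 (volume.restrict Ω) := by
      apply MemLp.of_bound _ (C * ‖w‖)
      · filter_upwards with x
        rw [hh, norm_smul, hen, mul_one]
        exact (PiLp.norm_apply_le _ 1).trans ((ContinuousLinearMap.le_opNorm _ _).trans (by
          gcongr; exact norm_fderiv_le_of_lipschitz ℝ hF))
      · have h1 : Measurable (fun x => fderiv ℝ F x w) := measurable_fderiv_apply_const ℝ F w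
        have h2 : Measurable (fun x => (fderiv ℝ F x w) 1) :=
          (EuclideanSpace.proj (𝕜 := ℝ) (1 : Fin 2)).measurable.comp h1
        exact (h2.smul_const e).aestronglyMeasurable
    have hp := (hW.2 v) 1 (by simp) h hhm
    have hinner : ∀ {g : Eu 2 → ℝ}, LipschitzWith D g → (∀ x, R ≤ ‖x‖ → g x = 0) →
        ∫ x in Ω, ⟪h x, fderiv ℝ (fun x => g x • e) x v⟫_ℝ =
          ∫ x, (fderiv ℝ g x v) * (fderiv ℝ F x w) 1 := by
      intro g hg hg0
      rw [setIntegral_eq_integral_of_forall_compl_eq_zero]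
      · apply integral_congr_ae
        filter_upwards [hg.ae_differentiableAt (μ := (volume : Measure (Eu 2)))] with x hx
        rw [hder v hx, hh, inner_smul_left, inner_smul_right, real_inner_self_eq_norm_sq, hen]
        simp [mul_comm]
      · intro x hx
        have hx' : R < ‖x‖ := by
          by_contra hcon
          apply hx
          rw [hΩ, mem_ball_zero_iff]; linarith [not_lt.mp hcon]
        have : (fun x => g x • e) =ᶠ[𝓝 x] fun _ => 0 := by
          filter_upwards [(isOpen_lt continuous_const continuous_norm).mem_nhds hx'] with y hy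
          rw [hg0 y (le_of_lt hy), zero_smul]
        rw [this.fderiv_eq, fderiv_const_apply]
        simp
    rw [← hinner hu hu0]
    exact hp.congr (fun k => hinner (hUl k) (hU0 k))
  have e1 : ∀ k, ∫ x, (fderiv ℝ (U k) x v) * (fderiv ℝ F x w) 1 =
      ∫ x, (fderiv ℝ (U k) x w) * (fderiv ℝ F x v) 1 := by
    intro k
    have hmain := null_smooth hF (hUs k) (hUc k) v w
    have hi : ∀ v w : Eu 2, Integrable (fun x => (fderiv ℝ (U k) x v) • (fderiv ℝ F x w)) := by
      intro v w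
      have hcs : HasCompactSupport (fun x => fderiv ℝ (U k) x v) := (hUc k).fderiv_apply (𝕜 := ℝ) v
      have hct : Continuous (fun x => fderiv ℝ (U k) x v) :=
        ((hUs k).continuous_fderiv (by simp)).clm_apply continuous_const
      refine ((hct.integrable_of_hasCompactSupport hcs).norm.mul_const (C * ‖w‖)).mono'
        (hct.aestronglyMeasurable.smul (measurable_fderiv_apply_const ℝ F w).aestronglyMeasurable) ?_
      filter_upwards with x
      rw [norm_smul]
      gcongr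
      exact (ContinuousLinearMap.le_opNorm _ _).trans (by
        gcongr; exact norm_fderiv_le_of_lipschitz ℝ hF)
    have e2 : ∀ v w : Eu 2, (∫ x, (fderiv ℝ (U k) x v) • (fderiv ℝ F x w)) 1 =
        ∫ x, (fderiv ℝ (U k) x v) * (fderiv ℝ F x w) 1 := by
      intro v w
      have := (EuclideanSpace.proj (𝕜 := ℝ) (1 : Fin 2)).integral_comp_comm (hi v w)
      simpa using this.symm
    rw [← e2, ← e2, hmain]
  have l1 := key v w
  simp only [e1] at l1
  exact tendsto_nhds_unique l1 (key w v)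

end part6

section part7


def e0 : Eu 2 := EuclideanSpace.single 0 1
def e1 : Eu 2 := EuclideanSpace.single 1 1

lemma norm_e0 : ‖e0‖ = 1 := by simp [e0]
lemma norm_e1 : ‖e1‖ = 1 := by simp [e1]

lemma det_eq (L : Eu 2 →L[ℝ] Eu 2) : L.det = (L e0) 0 * (L e1) 1 - (L e1) 0 * (L e0) 1 := by
  have h1 : L.det = LinearMap.det (L : Eu 2 →ₗ[ℝ] Eu 2) := rfl
  rw [h1, ← LinearMap.det_toMatrix (EuclideanSpace.basisFun (Fin 2) ℝ).toBasis, Matrix.det_fin_two]
  simp [LinearMap.toMatrix_apply, e0, e1]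

lemma abs_arctan_le (t : ℝ) : |Real.arctan t| ≤ 2 := by
  have h1 := Real.arctan_lt_pi_div_two t
  have h2 := Real.neg_pi_div_two_lt_arctan t
  have h3 := Real.pi_lt_four
  rw [abs_le]; constructor <;> linarith

lemma arctan_lip (s t : ℝ) : |Real.arctan s - Real.arctan t| ≤ |s - t| := by
  have h : LipschitzWith 1 Real.arctan := by
    apply lipschitzWith_of_nnnorm_deriv_le Real.differentiable_arctan
    intro x
    rw [← NNReal.coe_le_coe, coe_nnnorm]
    rw [Real.deriv_arctan, Real.norm_eq_abs, abs_of_nonneg (by positivity), NNReal.coe_one,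
      div_le_one (by positivity)]
    nlinarith [sq_nonneg x]
  have := h.dist_le_mul s t
  simpa [Real.dist_eq] using this

/-- the determinant functional -/
def Lint (Ω : Set (Eu 2)) (η : Eu 2 → ℝ) (g : Eu 2 → Eu 2) (G : Eu 2 → (Eu 2 →L[ℝ] Eu 2)) : ℝ :=
  ∫ x in Ω, η x * (1 / (1 + (g x 0) ^ 2)) * (G x).det

/-- the integrand of the boundary functional -/
def rint (η : Eu 2 → ℝ) (g : Eu 2 → Eu 2) (G : Eu 2 → (Eu 2 →L[ℝ] Eu 2)) (x : Eu 2) : ℝ :=
  Real.arctan (g x 0) * (fderiv ℝ η x e0 * (G x e1) 1 - fderiv ℝ η x e1 * (G x e0) 1)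

def Rint (Ω : Set (Eu 2)) (η : Eu 2 → ℝ) (g : Eu 2 → Eu 2) (G : Eu 2 → (Eu 2 →L[ℝ] Eu 2)) : ℝ :=
  ∫ x in Ω, rint η g G x

lemma integrable_of_bdd {f : Eu 2 → ℝ} (hm : AEStronglyMeasurable f volume) {C : ℝ}
    (hb : ∀ x, ‖f x‖ ≤ C) {K : Set (Eu 2)} (hK : IsCompact K) (h0 : ∀ x ∉ K, f x = 0) :
    Integrable f := by
  have h1 : IntegrableOn f K := by
    apply Measure.integrableOn_of_bounded (M := C) hK.measure_lt_top.ne hm
    filter_upwards with x using hb x
  rwa [integrableOn_iff_integrable_of_support_subset] at h1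
  intro x hx
  by_contra h
  exact hx (h0 x h)

lemma meas_fd (F : Eu 2 → Eu 2) (v : Eu 2) (i : Fin 2) : Measurable (fun x => (fderiv ℝ F x v) i) :=
  (EuclideanSpace.proj (𝕜 := ℝ) i).measurable.comp (measurable_fderiv_apply_const ℝ F v)

lemma abs_comp_le (L : Eu 2 →L[ℝ] Eu 2) {v : Eu 2} (hv : ‖v‖ = 1) (i : Fin 2) :
    |(L v) i| ≤ ‖L‖ := by
  rw [← Real.norm_eq_abs]
  calc ‖(L v) i‖ ≤ ‖L v‖ := PiLp.norm_apply_le _ i
    _ ≤ ‖L‖ * ‖v‖ := L.le_opNorm v
    _ = ‖L‖ := by rw [hv, mul_one]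

lemma identity_lip {C : ℝ≥0} {F : Eu 2 → Eu 2} (hF : LipschitzWith C F) {η : Eu 2 → ℝ}
    (hη : ContDiff ℝ ((⊤ : ℕ∞) : WithTop ℕ∞) η) (hc : HasCompactSupport η) :
    (∫ x, η x * (1 / (1 + (F x 0) ^ 2)) * (fderiv ℝ F x).det) + ∫ x, rint η F (fderiv ℝ F) x = 0 := by
  obtain ⟨D, hD⟩ : ∃ D, LipschitzWith D η := by
    have := hη.of_le (m := 1) (by exact_mod_cast le_top)
    exact this.lipschitzWith_of_hasCompactSupport hc (by norm_num)
  obtain ⟨B, hB⟩ : ∃ B : ℝ≥0, ∀ x, ‖η x‖ ≤ B := by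
    obtain ⟨B, hB⟩ := hc.exists_bound_of_continuous hη.continuous
    have hB0 : 0 ≤ B := (norm_nonneg _).trans (hB 0)
    exact ⟨B.toNNReal, fun x => (hB x).trans (Real.le_coe_toNNReal B)⟩
  set u : Eu 2 → ℝ := fun x => η x * Real.arctan (F x 0) with hu
  have hF0 : ∀ x y, |F x 0 - F y 0| ≤ C * dist x y := by
    intro x y
    calc |F x 0 - F y 0| = ‖(F x - F y) 0‖ := by rw [Real.norm_eq_abs]; rfl
      _ ≤ ‖F x - F y‖ := PiLp.norm_apply_le _ 0
      _ = dist (F x) (F y) := (dist_eq_norm _ _).symm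
      _ ≤ C * dist x y := hF.dist_le_mul x y
  have hul : LipschitzWith (B * C + 2 * D) u := by
    apply LipschitzWith.of_dist_le_mul
    intro x y
    rw [Real.dist_eq]
    have h1 : u x - u y = η x * (Real.arctan (F x 0) - Real.arctan (F y 0)) +
        Real.arctan (F y 0) * (η x - η y) := by rw [hu]; ring
    rw [h1]
    calc _ ≤ |η x| * |Real.arctan (F x 0) - Real.arctan (F y 0)| +
          |Real.arctan (F y 0)| * |η x - η y| := by
            rw [← abs_mul, ← abs_mul]; exact abs_add_le _ _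
      _ ≤ B * (C * dist x y) + 2 * (D * dist x y) := by
          have a1 := hB x
          rw [Real.norm_eq_abs] at a1
          have a2 := (arctan_lip (F x 0) (F y 0)).trans (hF0 x y)
          have a3 := abs_arctan_le (F y 0)
          have a4 : |η x - η y| ≤ D * dist x y := by
            rw [← Real.dist_eq]; exact hD.dist_le_mul x y
          gcongr
      _ = _ := by push_cast; ring
  have huc : HasCompactSupport u := hc.mul_right
  have hnull := null_lip hF hul huc e0 e1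
  have hη' : ∀ v, Continuous (fun x => fderiv ℝ η x v) := fun v =>
    (hη.continuous_fderiv (by simp)).clm_apply continuous_const
  have hu0 : ∀ x ∉ tsupport η, ∀ v, fderiv ℝ u x v = 0 := by
    intro x hx v
    have h1 : u =ᶠ[𝓝 x] fun _ => 0 := by
      filter_upwards [(isClosed_tsupport η).isOpen_compl.mem_nhds hx] with y hy
      rw [hu]
      simp [image_eq_zero_of_notMem_tsupport hy]
    rw [h1.fderiv_eq, fderiv_const_apply]; rfl
  have hη0 : ∀ x ∉ tsupport η, ∀ v, fderiv ℝ η x v = 0 := by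
    intro x hx v
    have : x ∉ tsupport (fderiv ℝ η) := fun h => hx (tsupport_fderiv_subset ℝ h)
    rw [image_eq_zero_of_notMem_tsupport this]; rfl
  set M : ℝ := ((B * C + 2 * D : ℝ≥0) : ℝ) with hM
  have hub : ∀ x, ∀ v : Eu 2, ‖v‖ = 1 → |fderiv ℝ u x v| ≤ M := by
    intro x v hv
    rw [← Real.norm_eq_abs]
    calc ‖fderiv ℝ u x v‖ ≤ ‖fderiv ℝ u x‖ * ‖v‖ := ContinuousLinearMap.le_opNorm _ _
      _ ≤ M * 1 := by rw [hv]; gcongr; exact norm_fderiv_le_of_lipschitz ℝ hul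
      _ = M := mul_one M
  have hηb : ∀ x, ∀ v : Eu 2, ‖v‖ = 1 → |fderiv ℝ η x v| ≤ D := by
    intro x v hv
    rw [← Real.norm_eq_abs]
    calc ‖fderiv ℝ η x v‖ ≤ ‖fderiv ℝ η x‖ * ‖v‖ := ContinuousLinearMap.le_opNorm _ _
      _ ≤ D * 1 := by rw [hv]; gcongr; exact norm_fderiv_le_of_lipschitz ℝ hD
      _ = D := mul_one _
  have hFb : ∀ x, ∀ v : Eu 2, ‖v‖ = 1 → ∀ i, |(fderiv ℝ F x v) i| ≤ C := by
    intro x v hv i
    exact (abs_comp_le _ hv i).trans (norm_fderiv_le_of_lipschitz ℝ hF)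
  have iA : ∀ v w : Eu 2, ‖v‖ = 1 → ‖w‖ = 1 →
      Integrable (fun x => (fderiv ℝ u x v) * (fderiv ℝ F x w) 1) := by
    intro v w hv hw
    apply integrable_of_bdd _ (C := M * C) _ hc.isCompact
    · intro x hx; rw [hu0 x hx, zero_mul]
    · exact ((measurable_fderiv_apply_const ℝ u v).mul (meas_fd F w 1)).aestronglyMeasurable
    · intro x
      rw [norm_mul]
      exact mul_le_mul (hub x v hv) (hFb x w hw 1) (norm_nonneg _) (NNReal.coe_nonneg _)
  have iR : Integrable (fun x => rint η F (fderiv ℝ F) x) := by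
    apply integrable_of_bdd _ (C := 2 * (D * C + D * C)) _ hc.isCompact
    · intro x hx; unfold rint; rw [hη0 x hx, hη0 x hx, zero_mul, zero_mul, sub_zero, mul_zero]
    · unfold rint
      have m1 : Measurable (fun x => Real.arctan (F x 0)) :=
        (Real.continuous_arctan.comp ((EuclideanSpace.proj (𝕜 := ℝ) (0 : Fin 2)).continuous.comp
          hF.continuous)).measurable
      exact (m1.mul (((hη' e0).measurable.mul (meas_fd F e1 1)).sub
        ((hη' e1).measurable.mul (meas_fd F e0 1)))).aestronglyMeasurable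
    · intro x
      unfold rint
      rw [norm_mul]
      apply mul_le_mul (abs_arctan_le _) _ (norm_nonneg _) (by norm_num)
      refine (norm_sub_le _ _).trans (add_le_add ?_ ?_)
      · rw [norm_mul]
        exact mul_le_mul (hηb x e0 norm_e0) (hFb x e1 norm_e1 1) (norm_nonneg _) (NNReal.coe_nonneg _)
      · rw [norm_mul]
        exact mul_le_mul (hηb x e1 norm_e1) (hFb x e0 norm_e0 1) (norm_nonneg _) (NNReal.coe_nonneg _)
  have hae : ∀ᵐ x, (fderiv ℝ u x e0) * (fderiv ℝ F x e1) 1 - (fderiv ℝ u x e1) * (fderiv ℝ F x e0) 1 =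
      η x * (1 / (1 + (F x 0) ^ 2)) * (fderiv ℝ F x).det + rint η F (fderiv ℝ F) x := by
    filter_upwards [hF.ae_differentiableAt (μ := (volume : Measure (Eu 2)))] with x hx
    have hd : ∀ v, fderiv ℝ u x v = η x * (1 / (1 + (F x 0) ^ 2)) * (fderiv ℝ F x v) 0 +
        Real.arctan (F x 0) * fderiv ℝ η x v := by
      intro v
      have h1 : HasFDerivAt (fun x => F x 0)
          ((EuclideanSpace.proj (𝕜 := ℝ) (0 : Fin 2)).comp (fderiv ℝ F x)) x :=
        (EuclideanSpace.proj (𝕜 := ℝ) (0 : Fin 2)).hasFDerivAt.comp x hx.hasFDerivAt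
      have h2 := h1.arctan
      have h3 : HasFDerivAt η (fderiv ℝ η x) x := (hη.differentiable (by simp) x).hasFDerivAt
      have h4 := h3.mul h2
      have h5 : HasFDerivAt u _ x := h4
      rw [h5.fderiv]
      simp only [add_apply, smul_apply, smul_eq_mul,
        ContinuousLinearMap.comp_apply, PiLp.proj_apply]
      ring
    rw [hd, hd, det_eq]
    unfold rint
    ring
  have iL : Integrable (fun x => η x * (1 / (1 + (F x 0) ^ 2)) * (fderiv ℝ F x).det) := by
    have h1 := ((iA e0 e1 norm_e0 norm_e1).sub (iA e1 e0 norm_e1 norm_e0)).sub iR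
    apply h1.congr
    filter_upwards [hae] with x hx
    simp only [Pi.sub_apply]
    rw [hx]; ring
  rw [← integral_add iL iR, ← integral_congr_ae hae,
    integral_sub (iA e0 e1 norm_e0 norm_e1) (iA e1 e0 norm_e1 norm_e0), hnull, sub_self]

/-- locally Lipschitz maps -/
def LL (Ω : Set (Eu 2)) (g : Eu 2 → Eu 2) : Prop :=
  ∀ x ∈ Ω, ∃ L : ℝ≥0, ∃ s ∈ 𝓝 x, LipschitzOnWith L g s

lemma identity_LL {Ω : Set (Eu 2)} (hΩ : IsOpen Ω) {g : Eu 2 → Eu 2} (h : LL Ω g) {η : Eu 2 → ℝ}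
    (hη : ContDiff ℝ ((⊤ : ℕ∞) : WithTop ℕ∞) η) (hc : HasCompactSupport η) (hs : tsupport η ⊆ Ω) :
    Lint Ω η g (fderiv ℝ g) + Rint Ω η g (fderiv ℝ g) = 0 := by
  obtain ⟨δ, hδ, hδs⟩ := hc.isCompact.exists_cthickening_subset_open hΩ hs
  have hcomp : IsCompact (cthickening δ (tsupport η)) := by
    apply Metric.isCompact_of_isClosed_isBounded isClosed_cthickening
    exact hc.isCompact.isBounded.cthickening
  have hll : LocallyLipschitzOn (cthickening δ (tsupport η)) g := by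
    intro x hx
    obtain ⟨L, s, hs', hl⟩ := h x (hδs hx)
    exact ⟨L, s, mem_nhdsWithin_of_mem_nhds hs', hl⟩
  obtain ⟨C, hC⟩ := hll.exists_lipschitzOnWith_of_compact hcomp
  obtain ⟨F, hF, hFe⟩ := hC.extend_finite_dimension
  have hzero : ∀ x, x ∉ tsupport η → η x = 0 := fun x hx => image_eq_zero_of_notMem_tsupport hx
  have hdzero : ∀ x, x ∉ tsupport η → ∀ v, fderiv ℝ η x v = 0 := by
    intro x hx v
    have : x ∉ tsupport (fderiv ℝ η) := fun h => hx (tsupport_fderiv_subset ℝ h)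
    rw [image_eq_zero_of_notMem_tsupport this]; rfl
  have hsub : tsupport η ⊆ cthickening δ (tsupport η) := self_subset_cthickening _
  have heq : ∀ x ∈ tsupport η, g =ᶠ[𝓝 x] F := by
    intro x hx
    have : cthickening δ (tsupport η) ∈ 𝓝 x := by
      refine mem_of_superset (isOpen_thickening.mem_nhds (self_subset_thickening hδ _ hx)) ?_
      exact thickening_subset_cthickening _ _
    filter_upwards [this] with y hy using hFe hy
  have key := identity_lip hF hη hc
  have e1 : Lint Ω η g (fderiv ℝ g) = ∫ x, η x * (1 / (1 + (F x 0) ^ 2)) * (fderiv ℝ F x).det := by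
    unfold Lint
    rw [setIntegral_eq_integral_of_forall_compl_eq_zero]
    · congr 1; ext1 x
      by_cases hx : x ∈ tsupport η
      · rw [(heq x hx).fderiv_eq, hFe (hsub hx)]
      · rw [hzero x hx]; ring
    · intro x hx
      rw [hzero x (fun h' => hx (hs h'))]; ring
  have e2 : Rint Ω η g (fderiv ℝ g) = ∫ x, rint η F (fderiv ℝ F) x := by
    unfold Rint
    rw [setIntegral_eq_integral_of_forall_compl_eq_zero]
    · congr 1; ext1 x
      unfold rint
      by_cases hx : x ∈ tsupport η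
      · rw [(heq x hx).fderiv_eq, hFe (hsub hx)]
      · rw [hdzero x hx, hdzero x hx]; ring
    · intro x hx
      unfold rint
      rw [hdzero x (fun h' => hx (hs h')), hdzero x (fun h' => hx (hs h'))]; ring
  rw [e1, e2, key]

end part7

section part8


lemma LL.isWeakDiff {Ω : Set (Eu 2)} (hΩ : IsOpen Ω) {f : Eu 2 → Eu 2}
    (h : LL Ω f) : IsWeakDiff Ω f (fderiv ℝ f) := by
  intro φ hφ hc hs v
  obtain ⟨δ, hδ, hδs⟩ := hc.isCompact.exists_cthickening_subset_open hΩ hs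
  have hcomp : IsCompact (cthickening δ (tsupport φ)) := by
    apply Metric.isCompact_of_isClosed_isBounded isClosed_cthickening
    exact hc.isCompact.isBounded.cthickening
  have hll : LocallyLipschitzOn (cthickening δ (tsupport φ)) f := by
    intro x hx
    obtain ⟨L, s, hs', hl⟩ := h x (hδs hx)
    exact ⟨L, s, mem_nhdsWithin_of_mem_nhds hs', hl⟩
  obtain ⟨C, hC⟩ := hll.exists_lipschitzOnWith_of_compact hcomp
  obtain ⟨F, hF, hFe⟩ := hC.extend_finite_dimension
  have hzero : ∀ x, x ∉ tsupport φ → φ x = 0 := fun x hx => image_eq_zero_of_notMem_tsupport hx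
  have hdzero : ∀ x, x ∉ tsupport φ → fderiv ℝ φ x v = 0 := by
    intro x hx
    have : x ∉ tsupport (fderiv ℝ φ) := fun h => hx (tsupport_fderiv_subset ℝ h)
    rw [image_eq_zero_of_notMem_tsupport this]; rfl
  have hsub : tsupport φ ⊆ cthickening δ (tsupport φ) := self_subset_cthickening _
  have heq : ∀ x ∈ tsupport φ, f =ᶠ[𝓝 x] F := by
    intro x hx
    have : cthickening δ (tsupport φ) ∈ 𝓝 x := by
      refine mem_of_superset (isOpen_thickening.mem_nhds (self_subset_thickening hδ _ hx)) ?_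
      exact thickening_subset_cthickening _ _
    filter_upwards [this] with y hy using hFe hy
  have e1 : ∫ x in Ω, (fderiv ℝ φ x v) • f x = ∫ x, (fderiv ℝ φ x v) • F x := by
    rw [setIntegral_eq_integral_of_forall_compl_eq_zero]
    · congr 1; ext1 x
      by_cases hx : x ∈ tsupport φ
      · rw [hFe (hsub hx)]
      · rw [hdzero x hx, zero_smul, zero_smul]
    · intro x hx
      rw [hdzero x (fun h' => hx (hs h')), zero_smul]
  have e2 : ∫ x in Ω, φ x • (fderiv ℝ f x v) = ∫ x, φ x • (fderiv ℝ F x v) := by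
    rw [setIntegral_eq_integral_of_forall_compl_eq_zero]
    · congr 1; ext1 x
      by_cases hx : x ∈ tsupport φ
      · rw [(heq x hx).fderiv_eq]
      · rw [hzero x hx, zero_smul, zero_smul]
    · intro x hx
      rw [hzero x (fun h' => hx (hs h')), zero_smul]
  rw [e1, e2]
  exact weakDiff_of_lipschitz hF hφ hc v

lemma LL.locallyIntegrable {Ω : Set (Eu 2)} (hΩ : IsOpen Ω) {f : Eu 2 → Eu 2} (h : LL Ω f) :
    LocallyIntegrableOn (fderiv ℝ f) Ω := by
  intro x hx
  obtain ⟨L, s, hs, hl⟩ := h x hx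
  apply IntegrableAtFilter.filter_mono (nhdsWithin_le_nhds (s := Ω))
  apply Measure.FiniteAtFilter.integrableAtFilter
  · exact ⟨univ, univ_mem, (measurable_fderiv ℝ f).aestronglyMeasurable⟩
  · exact (volume : Measure (Eu 2)).finiteAt_nhds x
  · refine ⟨L, ?_⟩
    rw [eventually_map]
    filter_upwards [eventually_mem_nhds_iff.mpr hs] with y hy
    exact norm_fderiv_le_of_lipschitzOn ℝ hy hl

/-- pairing with the differential of `η` -/
def Tm (η : Eu 2 → ℝ) (x : Eu 2) (L : Eu 2 →L[ℝ] Eu 2) : ℝ :=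
  fderiv ℝ η x e0 * (L e1) 1 - fderiv ℝ η x e1 * (L e0) 1

lemma rint_eq (η : Eu 2 → ℝ) (g : Eu 2 → Eu 2) (G : Eu 2 → (Eu 2 →L[ℝ] Eu 2)) (x : Eu 2) :
    rint η g G x = Real.arctan (g x 0) * Tm η x (G x) := rfl

lemma Tm_sub (η : Eu 2 → ℝ) (x : Eu 2) (L M : Eu 2 →L[ℝ] Eu 2) :
    Tm η x (L - M) = Tm η x L - Tm η x M := by
  unfold Tm
  simp only [sub_apply, PiLp.sub_apply]
  ring

lemma Tm_le {η : Eu 2 → ℝ} {D : ℝ} (hD : ∀ x, ∀ v : Eu 2, ‖v‖ = 1 → |fderiv ℝ η x v| ≤ D) (x : Eu 2)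
    (L : Eu 2 →L[ℝ] Eu 2) : |Tm η x L| ≤ 2 * D * ‖L‖ := by
  unfold Tm
  have h1 := hD x e0 norm_e0
  have h2 := hD x e1 norm_e1
  have h3 := abs_comp_le L norm_e1 1
  have h4 := abs_comp_le L norm_e0 1
  have hD0 : 0 ≤ D := (abs_nonneg _).trans h1
  calc |fderiv ℝ η x e0 * (L e1) 1 - fderiv ℝ η x e1 * (L e0) 1|
      ≤ |fderiv ℝ η x e0 * (L e1) 1| + |fderiv ℝ η x e1 * (L e0) 1| := by
        have := norm_sub_le (fderiv ℝ η x e0 * (L e1) 1) (fderiv ℝ η x e1 * (L e0) 1)
        simpa using this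
    _ ≤ D * ‖L‖ + D * ‖L‖ := by
        rw [abs_mul, abs_mul]
        exact add_le_add (mul_le_mul h1 h3 (abs_nonneg _) hD0) (mul_le_mul h2 h4 (abs_nonneg _) hD0)
    _ = _ := by ring

lemma dη_bound {η : Eu 2 → ℝ} (hη : ContDiff ℝ ((⊤ : ℕ∞) : WithTop ℕ∞) η) (hc : HasCompactSupport η) :
    ∃ D : ℝ, ∀ x, ∀ v : Eu 2, ‖v‖ = 1 → |fderiv ℝ η x v| ≤ D := by
  obtain ⟨D, hD⟩ : ∃ D, LipschitzWith D η := by
    have := hη.of_le (m := 1) (by exact_mod_cast le_top)
    exact this.lipschitzWith_of_hasCompactSupport hc (by norm_num)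
  refine ⟨D, fun x v hv => ?_⟩
  rw [← Real.norm_eq_abs]
  calc ‖fderiv ℝ η x v‖ ≤ ‖fderiv ℝ η x‖ * ‖v‖ := ContinuousLinearMap.le_opNorm _ _
    _ ≤ D * 1 := by rw [hv]; gcongr; exact norm_fderiv_le_of_lipschitz ℝ hD
    _ = D := mul_one _

lemma Tm_measurable {η : Eu 2 → ℝ} (hη : ContDiff ℝ ((⊤ : ℕ∞) : WithTop ℕ∞) η)
    {G : Eu 2 → (Eu 2 →L[ℝ] Eu 2)} {μ : Measure (Eu 2)} (hG : AEStronglyMeasurable G μ) :
    AEStronglyMeasurable (fun x => Tm η x (G x)) μ := by
  have hη' : ∀ v, Continuous (fun x => fderiv ℝ η x v) := fun v =>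
    (hη.continuous_fderiv (by simp)).clm_apply continuous_const
  have h1 : ∀ (v : Eu 2), AEStronglyMeasurable (fun x => (G x v) 1) μ := by
    intro v
    exact (EuclideanSpace.proj (𝕜 := ℝ) (1 : Fin 2)).continuous.comp_aestronglyMeasurable
      (hG.apply_continuousLinearMap v)
  exact (((hη' e0).aestronglyMeasurable.mul (h1 e1)).sub ((hη' e1).aestronglyMeasurable.mul (h1 e0)))

lemma arctan_measurable {g : Eu 2 → Eu 2} {μ : Measure (Eu 2)} (hg : AEStronglyMeasurable g μ) :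
    AEStronglyMeasurable (fun x => Real.arctan (g x 0)) μ :=
  (Real.continuous_arctan.comp
    (EuclideanSpace.proj (𝕜 := ℝ) (0 : Fin 2)).continuous).comp_aestronglyMeasurable hg

lemma frac_measurable {g : Eu 2 → Eu 2} {μ : Measure (Eu 2)} (hg : AEStronglyMeasurable g μ) :
    AEStronglyMeasurable (fun x => 1 / (1 + (g x 0) ^ 2)) μ := by
  have h : Continuous (fun y : Eu 2 => 1 / (1 + (y 0) ^ 2)) := by
    have h0 : Continuous (fun y : Eu 2 => y 0) :=
      (EuclideanSpace.proj (𝕜 := ℝ) (0 : Fin 2)).continuous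
    apply continuous_const.div (by fun_prop)
    intro y; positivity
  exact h.comp_aestronglyMeasurable hg

lemma frac_le (t : ℝ) : 1 / (1 + t ^ 2) ≤ 1 := by
  rw [div_le_one (by positivity)]; nlinarith [sq_nonneg t]

lemma limit_identity {Ω : Set (Eu 2)} (hΩ : IsOpen Ω) (hfin : volume Ω ≠ ⊤) {p : ℝ≥0∞} (hp : 1 ≤ p)
    {g : ℕ → Eu 2 → Eu 2} {Dg : ℕ → Eu 2 → (Eu 2 →L[ℝ] Eu 2)} {f : Eu 2 → Eu 2}
    {Df : Eu 2 → (Eu 2 →L[ℝ] Eu 2)} (hg : ∀ k, LL Ω (g k)) (hgs : ∀ k, IsSobolev p Ω (g k) (Dg k))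
    (hdet : ∀ k, ∀ᵐ x ∂(volume.restrict Ω), (fderiv ℝ (g k) x).det = 1)
    (hf : IsSobolev p Ω f Df) (hconv : StrongConv p Ω g Dg f Df) {η : Eu 2 → ℝ}
    (hη : ContDiff ℝ ((⊤ : ℕ∞) : WithTop ℕ∞) η) (hc : HasCompactSupport η) (hs : tsupport η ⊆ Ω) :
    (∫ x in Ω, η x * (1 / (1 + (f x 0) ^ 2))) + Rint Ω η f Df = 0 := by
  have hfm : IsFiniteMeasure (volume.restrict Ω) :=
    ⟨by rw [Measure.restrict_apply_univ]; exact lt_top_iff_ne_top.mpr hfin⟩
  obtain ⟨D, hD⟩ := dη_bound hη hc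
  have hD0 : 0 ≤ D := (abs_nonneg _).trans (hD 0 e0 norm_e0)
  obtain ⟨B, hB⟩ := hc.exists_bound_of_continuous hη.continuous
  have hp0 : p ≠ 0 := (zero_lt_one.trans_le hp).ne'
  -- the weak differentials are the classical ones
  have hDg : ∀ k, ∀ᵐ x ∂(volume.restrict Ω), Dg k x = fderiv ℝ (g k) x := by
    intro k
    have hi : IntegrableOn (Dg k) Ω := memLp_one_iff_integrable.mp ((hgs k).2.1.mono_exponent hp)
    exact weakDiff_unique hΩ (hgs k).2.2 ((hg k).isWeakDiff hΩ) hi.locallyIntegrableOn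
      ((hg k).locallyIntegrable hΩ)
  have hid : ∀ k, (∫ x in Ω, η x * (1 / (1 + (g k x 0) ^ 2))) + Rint Ω η (g k) (Dg k) = 0 := by
    intro k
    have h1 := identity_LL hΩ (hg k) hη hc hs
    have h2 : Lint Ω η (g k) (fderiv ℝ (g k)) = ∫ x in Ω, η x * (1 / (1 + (g k x 0) ^ 2)) := by
      unfold Lint
      apply integral_congr_ae
      filter_upwards [hdet k] with x hx
      rw [hx, mul_one]
    have h3 : Rint Ω η (g k) (fderiv ℝ (g k)) = Rint Ω η (g k) (Dg k) := by
      unfold Rint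
      apply integral_congr_ae
      filter_upwards [hDg k] with x hx
      rw [rint_eq, rint_eq, hx]
    rw [← h2, ← h3, h1]
  -- convergence
  have hc1 : Tendsto (fun k => eLpNorm (fun x => g k x - f x) p (volume.restrict Ω)) atTop (𝓝 0) :=
    tendsto_of_tendsto_of_tendsto_of_le_of_le tendsto_const_nhds hconv (fun _ => zero_le)
      (fun _ => le_self_add)
  have hc2 : Tendsto (fun k => eLpNorm (fun x => Dg k x - Df x) p (volume.restrict Ω)) atTop (𝓝 0) :=
    tendsto_of_tendsto_of_tendsto_of_le_of_le tendsto_const_nhds hconv (fun _ => zero_le)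
      (fun _ => le_add_self)
  obtain ⟨ns, hns, hae⟩ := (tendstoInMeasure_of_tendsto_eLpNorm hp0 (fun k => (hgs k).1.1) hf.1.1
    hc1).exists_seq_tendsto_ae
  have hDm : ∀ k, AEStronglyMeasurable (fun x => Dg k x - Df x) (volume.restrict Ω) :=
    fun k => (hgs k).2.1.1.sub hf.2.1.1
  have hDi : ∀ k, Integrable (fun x => Dg k x - Df x) (volume.restrict Ω) := fun k =>
    memLp_one_iff_integrable.mp (((hgs k).2.1.sub hf.2.1).mono_exponent hp)
  have hc3 : Tendsto (fun k => ∫ x in Ω, ‖Dg k x - Df x‖) atTop (𝓝 0) := by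
    have h1 : Tendsto (fun k => eLpNorm (fun x => Dg k x - Df x) 1 (volume.restrict Ω)) atTop (𝓝 0) := by
      set m := (volume.restrict Ω) univ ^ (1 / (1 : ℝ≥0∞).toReal - 1 / p.toReal) with hm
      have hmt : m ≠ ⊤ := by
        apply ENNReal.rpow_ne_top_of_nonneg _ (measure_ne_top _ _)
        rw [ENNReal.toReal_one, div_one, sub_nonneg]
        by_cases hpt : p = ⊤
        · simp [hpt]
        · have : 1 ≤ p.toReal := by
            have := (ENNReal.toReal_le_toReal ENNReal.one_ne_top hpt).mpr hp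
            simpa using this
          rw [div_le_one (by linarith)]; exact this
      have h2 : Tendsto (fun k => eLpNorm (fun x => Dg k x - Df x) p (volume.restrict Ω) * m) atTop
          (𝓝 0) := by
        have := ENNReal.Tendsto.mul_const hc2 (Or.inr hmt)
        rwa [zero_mul] at this
      exact tendsto_of_tendsto_of_tendsto_of_le_of_le tendsto_const_nhds h2 (fun _ => zero_le)
        (fun k => eLpNorm_le_eLpNorm_mul_rpow_measure_univ hp (hDm k))
    have h2 := (ENNReal.tendsto_toReal ENNReal.zero_ne_top).comp h1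
    rw [ENNReal.toReal_zero] at h2
    refine h2.congr (fun k => ?_)
    simp only [Function.comp]
    rw [eLpNorm_one_eq_lintegral_enorm, ← ofReal_integral_norm_eq_lintegral_enorm (hDi k),
      ENNReal.toReal_ofReal (integral_nonneg fun _ => norm_nonneg _)]
  have l1 : Tendsto (fun i => ∫ x in Ω, η x * (1 / (1 + (g (ns i) x 0) ^ 2))) atTop
      (𝓝 (∫ x in Ω, η x * (1 / (1 + (f x 0) ^ 2)))) := by
    apply tendsto_integral_of_dominated_convergence (fun x => B)
    · intro i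
      exact hη.continuous.aestronglyMeasurable.mul (frac_measurable (hgs _).1.1)
    · exact integrable_const _
    · intro i
      filter_upwards with x
      rw [norm_mul]
      calc ‖η x‖ * ‖1 / (1 + (g (ns i) x 0) ^ 2)‖ ≤ B * 1 := by
            apply mul_le_mul (hB x) _ (norm_nonneg _) ((norm_nonneg _).trans (hB x))
            rw [Real.norm_of_nonneg (by positivity)]
            exact frac_le _
        _ = B := mul_one B
    · filter_upwards [hae] with x hx
      apply Tendsto.const_mul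
      have h0 : Continuous (fun y : Eu 2 => 1 / (1 + (y 0) ^ 2)) := by
        have h0 : Continuous (fun y : Eu 2 => y 0) :=
          (EuclideanSpace.proj (𝕜 := ℝ) (0 : Fin 2)).continuous
        apply continuous_const.div (by fun_prop)
        intro y; positivity
      exact (h0.tendsto (f x)).comp hx
  have hDfi : Integrable Df (volume.restrict Ω) :=
    memLp_one_iff_integrable.mp (hf.2.1.mono_exponent hp)
  have l2 : Tendsto (fun i => ∫ x in Ω, Real.arctan (g (ns i) x 0) * Tm η x (Df x)) atTop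
      (𝓝 (∫ x in Ω, Real.arctan (f x 0) * Tm η x (Df x))) := by
    apply tendsto_integral_of_dominated_convergence (fun x => 2 * (2 * D * ‖Df x‖))
    · intro i
      exact (arctan_measurable (hgs _).1.1).mul (Tm_measurable hη hf.2.1.1)
    · exact (hDfi.norm.const_mul _).const_mul _
    · intro i
      filter_upwards with x
      rw [norm_mul]
      exact mul_le_mul (abs_arctan_le _) (Tm_le hD x _) (norm_nonneg _) (by norm_num)
    · filter_upwards [hae] with x hx
      apply Tendsto.mul_const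
      have h0 : Continuous (fun y : Eu 2 => Real.arctan (y 0)) :=
        Real.continuous_arctan.comp (EuclideanSpace.proj (𝕜 := ℝ) (0 : Fin 2)).continuous
      exact (h0.tendsto (f x)).comp hx
  have l3 : Tendsto (fun i => ∫ x in Ω, Real.arctan (g (ns i) x 0) * Tm η x (Dg (ns i) x - Df x)) atTop
      (𝓝 0) := by
    have h1 : Tendsto (fun i => 2 * (2 * D) * ∫ x in Ω, ‖Dg (ns i) x - Df x‖) atTop (𝓝 0) := by
      have := (hc3.comp hns.tendsto_atTop).const_mul (2 * (2 * D))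
      rwa [mul_zero] at this
    refine squeeze_zero_norm (fun i => ?_) h1
    rw [← integral_const_mul]
    apply norm_integral_le_of_norm_le ((hDi _).norm.const_mul _)
    filter_upwards with x
    rw [norm_mul, mul_assoc]
    exact mul_le_mul (abs_arctan_le _) (Tm_le hD x _) (norm_nonneg _) (by norm_num)
  have hi1 : ∀ i, Integrable (fun x => Real.arctan (g (ns i) x 0) * Tm η x (Df x))
      (volume.restrict Ω) := by
    intro i
    apply ((hDfi.norm.const_mul (2 * D)).const_mul 2).mono'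
      ((arctan_measurable (hgs _).1.1).mul (Tm_measurable hη hf.2.1.1))
    filter_upwards with x
    rw [Pi.mul_apply, norm_mul]
    exact mul_le_mul (abs_arctan_le _) (Tm_le hD x _) (norm_nonneg _) (by norm_num)
  have hi2 : ∀ i, Integrable (fun x => Real.arctan (g (ns i) x 0) * Tm η x (Dg (ns i) x - Df x))
      (volume.restrict Ω) := by
    intro i
    apply (((hDi (ns i)).norm.const_mul (2 * D)).const_mul 2).mono'
      ((arctan_measurable (hgs _).1.1).mul (Tm_measurable hη (hDm _)))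
    filter_upwards with x
    rw [Pi.mul_apply, norm_mul]
    exact mul_le_mul (abs_arctan_le _) (Tm_le hD x _) (norm_nonneg _) (by norm_num)
  have l4 : Tendsto (fun i => Rint Ω η (g (ns i)) (Dg (ns i))) atTop (𝓝 (Rint Ω η f Df)) := by
    have h1 := l2.add l3
    rw [add_zero] at h1
    refine h1.congr (fun i => ?_)
    rw [← integral_add (hi1 i) (hi2 i)]
    unfold Rint
    apply integral_congr_ae
    filter_upwards with x
    rw [rint_eq, Tm_sub]
    ring
  have l5 := l1.add l4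
  simp only [hid] at l5
  exact (tendsto_nhds_unique l5 tendsto_const_nhds)

end part8

section part9


variable {a : Eu 2} {l : ℝ}

lemma ae_Pa (a : Eu 2) (hl : 0 < l) {q : ℝ × ℝ → Prop} (h : ∀ᵐ y, q y) : ∀ᵐ x, q (Pa a l x) := by
  have h1 : ∀ᵐ z : Eu 2, q (P z) := P_mp.quasiMeasurePreserving.ae h
  rw [ae_iff] at h1 ⊢
  have e : {x | ¬ q (Pa a l x)} = (fun x => x + (-a)) ⁻¹' ((fun x : Eu 2 => l⁻¹ • x) ⁻¹' {z | ¬ q (P z)}) := by
    ext x
    simp only [mem_ofPred_eq, mem_preimage, Pa, sub_eq_add_neg]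
  rw [e, measure_preimage_add_right, Measure.addHaar_preimage_smul _ (inv_pos.mpr hl).ne', h1,
    mul_zero]

lemma fN_det (hl : 0 < l) {N : ℕ} {x : Eu 2} (h : DifferentiableAt ℝ (Hm DF N 0) (Pa a l x)) :
    (fderiv ℝ (fN a l N) x).det = dt (fderiv ℝ (Hm DF N 0) (Pa a l x)) := by
  set A := fderiv ℝ (Hm DF N 0) (Pa a l x) with hA
  have hP : HasFDerivAt (Pa a l) (l⁻¹ • P) x := by
    have h1 : Pa a l = fun x => (l⁻¹ • P) (x - a) := by
      ext1 x; unfold Pa; rw [map_smul]; rfl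
    rw [h1]
    exact (l⁻¹ • P).hasFDerivAt.comp x ((hasFDerivAt_id x).sub_const a)
  have h2 : HasFDerivAt (fN a l N) (l • (J.comp (A.comp (l⁻¹ • P)))) x :=
    (J.hasFDerivAt.comp x (h.hasFDerivAt.comp x hP)).const_smul l
  rw [h2.fderiv, det_eq]
  have e2 : ∀ v, (l • (J.comp (A.comp (l⁻¹ • P)))) v = J (A (P v)) := by
    intro v
    change l • J (A ((l⁻¹ • P) v)) = _
    change l • J (A (l⁻¹ • P v)) = _
    rw [map_smul, map_smul, smul_smul, mul_inv_cancel₀ hl.ne', one_smul]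
  have p0 : P e0 = (1, 0) := by rw [P_apply]; simp [e0]
  have p1 : P e1 = (0, 1) := by rw [P_apply]; simp [e1]
  rw [e2, e2, p0, p1, J_apply0, J_apply1, J_apply0, J_apply1]
  rfl

lemma ratio_sq (N : ℕ) : (bb N / rr N) ^ 2 = 1 + 4 ^ N := by
  have h1 := rr_pos N
  rw [div_pow, bb_sq]
  have h2 : rr N = (1 / 4) ^ N := rfl
  have h3 : rr N * 4 ^ N = 1 := by rw [h2, ← mul_pow]; norm_num
  rw [div_eq_iff (by positivity)]
  nlinarith

lemma fN_det_ae (a : Eu 2) (hl : 0 < l) (N : ℕ) : ∀ᵐ x : Eu 2,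
    (x ∉ TN a l N → (fderiv ℝ (fN a l N) x).det = 1) ∧
    (x ∈ TN a l N → (fderiv ℝ (fN a l N) x).det = 1 + 4 ^ N) := by
  filter_upwards [ae_Pa a hl (Hm_deriv N 0)] with x hx
  constructor
  · intro h
    rw [fN_det hl hx.1]; exact hx.2.1 h
  · intro h
    rw [fN_det hl hx.1, hx.2.2 h, zero_add, ratio_sq]

lemma fh_det_ae (a : Eu 2) (hl : 0 < l) : ∀ᵐ x : Eu 2, (fderiv ℝ (fh a l) x).det = 1 := by
  filter_upwards [ae_fderiv_tendsto a hl, ae_all_iff.mpr (fun N => fN_det_ae a hl N)] with x hx h2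
  obtain ⟨N, hN⟩ := hx
  rw [← (hN N le_rfl).1]
  exact (h2 N).1 (hN N le_rfl).2

lemma TN0_compact (a : Eu 2) (hl : 0 < l) : IsCompact (TN a l 0) := by
  apply Metric.isCompact_of_isClosed_isBounded (TN_closed 0)
  rw [isBounded_iff_forall_norm_le]
  refine ⟨‖a‖ + l * 2, fun x hx => ?_⟩
  have h1 : ‖Pa a l x‖ ≤ 1 := by
    have := norm_le_of_Sq hx
    have h2 := rr_le 0
    linarith
  have h2 : x = a + l • J (Pa a l x) := by
    unfold Pa
    rw [J_P, smul_smul, mul_inv_cancel₀ hl.ne', one_smul]; abel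
  rw [h2]
  refine (norm_add_le _ _).trans ?_
  rw [norm_smul, Real.norm_of_nonneg hl.le]
  have h3 := norm_J_le (Pa a l x)
  gcongr
  linarith

/-- the identity for the limit map has an extra positive term -/
lemma fh_gap (a : Eu 2) (hl : 0 < l) {Ω : Set (Eu 2)} (hΩ : IsOpen Ω) (hfin : volume Ω ≠ ⊤)
    (hQ : TN a l 0 ⊆ Ω) {η : Eu 2 → ℝ}
    (hη : ContDiff ℝ ((⊤ : ℕ∞) : WithTop ℕ∞) η) (hc : HasCompactSupport η) (hs : tsupport η ⊆ Ω)
    (hη0 : ∀ x, 0 ≤ η x) (hη1 : ∀ x ∈ TN a l 0, η x = 1) :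
    (∫ x in Ω, η x * (1 / (1 + (fh a l x 0) ^ 2))) + Rint Ω η (fh a l) (fderiv ℝ (fh a l)) < 0 := by
  have hfm : IsFiniteMeasure (volume.restrict Ω) :=
    ⟨by rw [Measure.restrict_apply_univ]; exact lt_top_iff_ne_top.mpr hfin⟩
  obtain ⟨D, hD⟩ := dη_bound hη hc
  have hD0 : 0 ≤ D := (abs_nonneg _).trans (hD 0 e0 norm_e0)
  obtain ⟨B, hB⟩ := hc.exists_bound_of_continuous hη.continuous
  have hB0 : 0 ≤ B := (norm_nonneg _).trans (hB 0)
  obtain ⟨M, hM⟩ := (TN0_compact a hl).exists_bound_of_continuousOn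
    (fh_continuous (a := a) (l := l)).continuousOn
  have hLL : ∀ N, LL Ω (fN a l N) := fun N x _ => ⟨_, univ, univ_mem, (fN_lip hl N).lipschitzOnWith⟩
  have hid := fun N => identity_LL hΩ (hLL N) hη hc hs
  -- limit of the boundary functional
  have l1 : Tendsto (fun N => Rint Ω η (fN a l N) (fderiv ℝ (fN a l N))) atTop
      (𝓝 (Rint Ω η (fh a l) (fderiv ℝ (fh a l)))) := by
    unfold Rint
    apply tendsto_int a hl hfin (C := 2 * (2 * D))
    · intro N
      exact (arctan_measurable (fN_lip hl N).continuous.aestronglyMeasurable).mul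
        (Tm_measurable hη (measurable_fderiv ℝ _).aestronglyMeasurable)
    · intro N x
      rw [rint_eq, norm_mul, mul_assoc]
      exact mul_le_mul (abs_arctan_le _) (Tm_le hD x _) (norm_nonneg _) (by norm_num)
    · apply ae_restrict_of_ae
      filter_upwards [ae_fderiv_tendsto a hl] with x hx
      obtain ⟨N, hN⟩ := hx
      apply tendsto_const_nhds.congr'
      filter_upwards [eventually_ge_atTop N] with K hK
      rw [rint_eq, rint_eq, (hN K hK).1, fh_off (hN K hK).2]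
  -- limit of the main term
  have hfN_lim : ∀ x, Tendsto (fun N => fN a l N x) atTop (𝓝 (fh a l x)) := by
    intro x
    rw [tendsto_iff_norm_sub_tendsto_zero]
    have h5 : Tendsto (fun N : ℕ => 16 * l * (1 / 2 : ℝ) ^ N) atTop (𝓝 0) := by
      have := (tendsto_pow_atTop_nhds_zero_of_lt_one (by norm_num : (0:ℝ) ≤ 1 / 2)
        (by norm_num)).const_mul (16 * l)
      rwa [mul_zero] at this
    exact squeeze_zero (fun _ => norm_nonneg _) (fun N => fN_dist hl N x) h5
  have h0c : Continuous (fun y : Eu 2 => 1 / (1 + (y 0) ^ 2)) := by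
    have h0 : Continuous (fun y : Eu 2 => y 0) :=
      (EuclideanSpace.proj (𝕜 := ℝ) (0 : Fin 2)).continuous
    apply continuous_const.div (by fun_prop)
    intro y; positivity
  have hwm : ∀ N, AEStronglyMeasurable (fun x => η x * (1 / (1 + (fN a l N x 0) ^ 2)))
      (volume.restrict Ω) := fun N =>
    hη.continuous.aestronglyMeasurable.mul
      (frac_measurable (fN_lip hl N).continuous.aestronglyMeasurable)
  have hwb : ∀ N x, ‖η x * (1 / (1 + (fN a l N x 0) ^ 2))‖ ≤ B := by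
    intro N x
    rw [norm_mul]
    calc ‖η x‖ * ‖1 / (1 + (fN a l N x 0) ^ 2)‖ ≤ B * 1 := by
          apply mul_le_mul (hB x) _ (norm_nonneg _) hB0
          rw [Real.norm_of_nonneg (by positivity)]
          exact frac_le _
      _ = B := mul_one B
  have hwi : ∀ N, Integrable (fun x => η x * (1 / (1 + (fN a l N x 0) ^ 2))) (volume.restrict Ω) := by
    intro N
    apply (integrable_const B).mono' (hwm N)
    filter_upwards with x using hwb N x
  have l2 : Tendsto (fun N => ∫ x in Ω, η x * (1 / (1 + (fN a l N x 0) ^ 2))) atTop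
      (𝓝 (∫ x in Ω, η x * (1 / (1 + (fh a l x 0) ^ 2)))) := by
    apply tendsto_integral_of_dominated_convergence (fun x => B) hwm (integrable_const _)
    · intro N
      filter_upwards with x using hwb N x
    · filter_upwards with x
      apply Tendsto.const_mul
      exact (h0c.tendsto _).comp (hfN_lim x)
  -- lower bound
  set c : ℝ := 1 / (1 + (M + 16 * l) ^ 2) with hcdef
  have hcpos : 0 < c := by positivity
  have hlow : ∀ N, (∫ x in Ω, η x * (1 / (1 + (fN a l N x 0) ^ 2))) + 4 * l ^ 2 * c ≤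
      Lint Ω η (fN a l N) (fderiv ℝ (fN a l N)) := by
    intro N
    have hTm : MeasurableSet (TN a l N) := (TN_closed N).measurableSet
    have hTsub : TN a l N ⊆ TN a l 0 := TN_anti (Nat.zero_le N)
    set w : Eu 2 → ℝ := fun x => η x * (1 / (1 + (fN a l N x 0) ^ 2)) with hw
    have e3 : Lint Ω η (fN a l N) (fderiv ℝ (fN a l N)) =
        (∫ x in Ω, w x) + ∫ x in Ω, (TN a l N).indicator (fun x => 4 ^ N * w x) x := by
      unfold Lint
      rw [← integral_add (hwi N) (((hwi N).const_mul _).indicator hTm)]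
      apply integral_congr_ae
      apply ae_restrict_of_ae
      filter_upwards [fN_det_ae a hl N] with x hx
      by_cases hxT : x ∈ TN a l N
      · rw [hx.2 hxT, indicator_of_mem hxT]
        change w x * (1 + 4 ^ N) = w x + 4 ^ N * w x
        ring
      · rw [hx.1 hxT, indicator_of_notMem hxT]
        change w x * 1 = w x + 0
        ring
    have e4 : ∫ x in Ω, (TN a l N).indicator (fun x => 4 ^ N * w x) x =
        ∫ x in TN a l N, 4 ^ N * w x := by
      rw [integral_indicator hTm, Measure.restrict_restrict hTm,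
        inter_eq_self_of_subset_left (hTsub.trans hQ)]
    have hvol : volume (TN a l N) ≠ ⊤ := by rw [TN_vol hl]; exact ENNReal.ofReal_ne_top
    have e5 : 4 * l ^ 2 * c ≤ ∫ x in TN a l N, 4 ^ N * w x := by
      have h1 : ∫ x in TN a l N, (4 ^ N * c : ℝ) = 4 * l ^ 2 * c := by
        rw [setIntegral_const, smul_eq_mul, measureReal_def, TN_vol hl,
          ENNReal.toReal_ofReal (by positivity)]
        have : ((1 : ℝ) / 4) ^ N * 4 ^ N = 1 := by rw [← mul_pow]; norm_num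
        calc l ^ 2 * (4 * (1 / 4) ^ N) * (4 ^ N * c) = 4 * l ^ 2 * c * ((1 / 4) ^ N * 4 ^ N) := by ring
          _ = _ := by rw [this, mul_one]
      rw [← h1]
      apply setIntegral_mono_on
      · exact integrableOn_const hvol
      · have : IntegrableOn w Ω := hwi N
        exact (this.mono_set (hTsub.trans hQ)).const_mul _
      · exact hTm
      · intro x hx
        have hx0 := hTsub hx
        have h2 : ‖fN a l N x‖ ≤ M + 16 * l := by
          have a1 := fN_dist (a := a) hl N x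
          have a2 : (1 / 2 : ℝ) ^ N ≤ 1 := pow_le_one₀ (by norm_num) (by norm_num)
          have a3 : 16 * l * (1 / 2) ^ N ≤ 16 * l * 1 := by gcongr
          have a4 := norm_sub_norm_le (fN a l N x) (fh a l x)
          have a5 := hM x hx0
          linarith
        have h3 : |fN a l N x 0| ≤ M + 16 * l := by
          rw [← Real.norm_eq_abs]
          exact (PiLp.norm_apply_le _ 0).trans h2
        have h4 : (fN a l N x 0) ^ 2 ≤ (M + 16 * l) ^ 2 := by
          rw [← sq_abs]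
          gcongr
        simp only [hw]
        rw [hη1 x hx0, one_mul, hcdef]
        gcongr
    rw [e3, e4]
    linarith
  have l3 : (∫ x in Ω, η x * (1 / (1 + (fh a l x 0) ^ 2))) + 4 * l ^ 2 * c ≤
      - Rint Ω η (fh a l) (fderiv ℝ (fh a l)) := by
    apply le_of_tendsto_of_tendsto' (l2.add_const _) l1.neg
    intro N
    have := hlow N
    have h2 := hid N
    linarith
  have : 0 < 4 * l ^ 2 * c := by positivity
  linarith

/-- `fh` is not a limit of incompressible locally Lipschitz maps -/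
lemma not_limit (a : Eu 2) (hl : 0 < l) {Ω : Set (Eu 2)} (hΩ : IsOpen Ω)
    (hΩb : Bornology.IsBounded Ω) (hQ : TN a l 0 ⊆ Ω) {p : ℝ≥0∞} (hp : 1 ≤ p) (hp2 : p < 2)
    {g : ℕ → Eu 2 → Eu 2} {Dg : ℕ → Eu 2 → (Eu 2 →L[ℝ] Eu 2)}
    (hg : ∀ k, LL Ω (g k)) (hgs : ∀ k, IsSobolev p Ω (g k) (Dg k))
    (hdet : ∀ k, ∀ᵐ x ∂(volume.restrict Ω), (fderiv ℝ (g k) x).det = 1) :
    ¬ StrongConv p Ω g Dg (fh a l) (fderiv ℝ (fh a l)) := by
  intro hconv
  have hfin : volume Ω ≠ ⊤ := hΩb.measure_lt_top.ne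
  obtain ⟨η, hη, hc, hs, hr, h1⟩ := exists_cutoff (TN0_compact a hl) hΩ hQ
  have e3 := limit_identity hΩ hfin hp hg hgs hdet (fh_isSobolev a hl hΩ hΩb hp hp2) hconv hη hc hs
  have e4 := fh_gap a hl hΩ hfin hQ hη hc hs (fun x => (hr x).1) h1
  linarith

end part9

section part10




lemma diffeo_LL {Ω : Set (Eu 2)} (hΩ : IsOpen Ω) {g : Eu 2 → Eu 2} (h : IsIncompressibleDiffeo Ω g) :
    LL Ω g := by
  intro x hx
  have h1 : ContDiffAt ℝ 1 g x :=
    ((h.2.1 x hx).contDiffAt (hΩ.mem_nhds hx)).of_le (by exact_mod_cast le_top)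
  obtain ⟨K, t, ht, hl⟩ := h1.exists_lipschitzOnWith
  exact ⟨K, t, ht, hl⟩

lemma pa_LL {Ω : Set (Eu 2)} (hΩ : IsOpen Ω) {g : Eu 2 → Eu 2} (h : IsIncompressiblePA Ω g) :
    LL Ω g := by
  obtain ⟨hhom, ι, V, L, c, hcount, haff, hcov, hdis, hfin, hLc⟩ := h
  set T : ι → Set (Eu 2) := fun i => convexHull ℝ (range (V i)) with hT
  have hTc : ∀ i, IsClosed (T i) := fun i =>
    (finite_range (V i)).isClosed_convexHull ℝ
  intro x0 hx0
  obtain ⟨U, hU, hUf⟩ := hfin x0 hx0
  set s := hUf.toFinset with hs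
  have hmem : ∀ i, i ∈ s ↔ (T i ∩ U).Nonempty := by
    intro i; rw [hs, Finite.mem_toFinset]; rfl
  obtain ⟨r, hr, hrs⟩ := Metric.mem_nhds_iff.mp (inter_mem hU (hΩ.mem_nhds hx0))
  set K : ℝ := ∑ i ∈ s, ‖L i‖ with hK
  have hK0 : 0 ≤ K := Finset.sum_nonneg fun i _ => norm_nonneg _
  have hball : ball x0 r ⊆ Ω := fun y hy => (hrs hy).2
  have key := lipschitz_glue (convex_ball x0 r) (hhom.2.1.mono hball) (A := T) (L := K) ?_ ?_
  · refine ⟨⟨K, hK0⟩, ball x0 r, ball_mem_nhds x0 hr, ?_⟩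
    apply LipschitzOnWith.of_dist_le_mul
    intro x hx y hy
    rw [dist_eq_norm, dist_eq_norm]
    exact key x hx y hy
  · intro x hx
    have h1 : ∀ᶠ y in 𝓝 x, ∀ i ∈ s, x ∉ T i → y ∉ T i := by
      rw [Filter.eventually_all_finset]
      intro i _
      by_cases hxi : x ∈ T i
      · exact Eventually.of_forall fun y hy => absurd hxi hy
      · filter_upwards [(hTc i).isOpen_compl.mem_nhds hxi] with y hy _ using hy
    filter_upwards [nhdsWithin_le_nhds h1, self_mem_nhdsWithin] with y hy hyB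
    have hyΩ : y ∈ ⋃ i, T i := by rw [hcov]; exact hball hyB
    obtain ⟨i, hi⟩ := mem_iUnion.mp hyΩ
    have his : i ∈ s := (hmem i).mpr ⟨y, hi, (hrs hyB).1⟩
    refine ⟨i, ?_, hi⟩
    by_contra hcon
    exact hy i his hcon hi
  · intro i x hx y hy
    have his : i ∈ s := (hmem i).mpr ⟨x, hx.1, (hrs hx.2).1⟩
    rw [(hLc i).2 x hx.1, (hLc i).2 y hy.1, add_sub_add_right_eq_sub, ← map_sub]
    refine ((L i).le_opNorm _).trans ?_
    gcongr
    exact Finset.single_le_sum (f := fun i => ‖L i‖) (fun i _ => norm_nonneg _) his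

lemma pa_det {Ω : Set (Eu 2)} (hΩ : IsOpen Ω) {g : Eu 2 → Eu 2} (h : IsIncompressiblePA Ω g) :
    ∀ᵐ x ∂(volume.restrict Ω), (fderiv ℝ g x).det = 1 := by
  obtain ⟨hhom, ι, V, L, c, hcount, haff, hcov, hdis, hfin, hLc⟩ := h
  have hTc : ∀ i, IsClosed (convexHull ℝ (range (V i))) := fun i =>
    (finite_range (V i)).isClosed_convexHull ℝ
  have hnull : ∀ᵐ x : Eu 2, ∀ i, x ∉ frontier (convexHull ℝ (range (V i))) := by
    rw [ae_all_iff]
    intro i
    have := (convex_convexHull ℝ (range (V i))).addHaar_frontier (volume : Measure (Eu 2))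
    rw [ae_iff]
    simpa using this
  filter_upwards [ae_restrict_mem hΩ.measurableSet, ae_restrict_of_ae hnull] with x hx hxn
  rw [← hcov] at hx
  obtain ⟨i, hi⟩ := mem_iUnion.mp hx
  have hint : x ∈ interior (convexHull ℝ (range (V i))) := by
    by_contra hcon
    apply hxn i
    rw [frontier, (hTc i).closure_eq]
    exact ⟨hi, hcon⟩
  have heq : g =ᶠ[𝓝 x] fun y => L i y + c i := by
    filter_upwards [mem_interior_iff_mem_nhds.mp hint] with y hy using (hLc i).2 y hy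
  rw [heq.fderiv_eq, fderiv_add_const, ContinuousLinearMap.fderiv, (hLc i).1]

theorem main (Ω : Set (Eu 2)) (hΩ : IsOpen Ω) (hb : Bornology.IsBounded Ω) (hne : Ω.Nonempty) :
    ∃ (f : Eu 2 → Eu 2) (Df : Eu 2 → (Eu 2 →L[ℝ] Eu 2)),
      IsOpen (f '' Ω) ∧ IsHomeo Ω (f '' Ω) f ∧
      (∀ᵐ x ∂(volume.restrict Ω), (Df x).det = 1) ∧
      ∀ p : ℝ≥0∞, 1 ≤ p → p < 2 →
        IsSobolev p Ω f Df ∧
        ¬ IsSobolevLimit p Ω (IsIncompressibleDiffeo Ω) f Df ∧
        ¬ IsSobolevLimit p Ω (IsIncompressiblePA Ω) f Df := by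
  obtain ⟨a, ha⟩ := hne
  obtain ⟨ε, hε, hεΩ⟩ := Metric.mem_nhds_iff.mp (hΩ.mem_nhds ha)
  set l : ℝ := ε / 4 with hldef
  have hl : 0 < l := by positivity
  have hQ : TN a l 0 ⊆ Ω := by
    intro x hx
    apply hεΩ
    have h1 : ‖Pa a l x‖ ≤ 1 := by
      have := norm_le_of_Sq hx
      have h2 := rr_le 0
      linarith
    have h2 : x - a = l • J (Pa a l x) := by
      unfold Pa
      rw [J_P, smul_smul, mul_inv_cancel₀ hl.ne', one_smul]
    rw [mem_ball, dist_eq_norm, h2, norm_smul, Real.norm_of_nonneg hl.le]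
    have h3 := norm_J_le (Pa a l x)
    have h4 : l * ‖J (Pa a l x)‖ ≤ l * 2 := by gcongr; linarith
    linarith
  have himg : fh a l '' Ω = gh a l ⁻¹' Ω := by
    ext y
    constructor
    · rintro ⟨x, hx, rfl⟩
      rw [mem_preimage, gh_fh hl]; exact hx
    · intro hy
      exact ⟨gh a l y, hy, fh_gh hl y⟩
  refine ⟨fh a l, fderiv ℝ (fh a l), ?_, ⟨?_, fh_continuous.continuousOn, gh a l, ⟨?_, ?_⟩,
    gh_continuous.continuousOn⟩, ?_, ?_⟩
  · rw [himg]; exact hΩ.preimage gh_continuous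
  · apply InjOn.bijOn_image
    intro x _ y _ hxy
    have := congrArg (gh a l) hxy
    rwa [gh_fh hl, gh_fh hl] at this
  · intro x _; exact gh_fh hl x
  · intro x _; exact fh_gh hl x
  · exact ae_restrict_of_ae (fh_det_ae a hl)
  · intro p hp hp2
    refine ⟨fh_isSobolev a hl hΩ hb hp hp2, ?_, ?_⟩
    · rintro ⟨g, Dg, hg, hconv⟩
      refine not_limit a hl hΩ hb hQ hp hp2 (fun k => diffeo_LL hΩ (hg k).1) (fun k => (hg k).2)
        (fun k => ?_) hconv
      filter_upwards [ae_restrict_mem hΩ.measurableSet] with x hx using (hg k).1.2.2.2 x hx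
    · rintro ⟨g, Dg, hg, hconv⟩
      exact not_limit a hl hΩ hb hQ hp hp2 (fun k => pa_LL hΩ (hg k).1) (fun k => (hg k).2)
        (fun k => pa_det hΩ (hg k).1) hconv

end part10

end

end Pool.Agent.Helper795.Inc
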