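import Mathlib

/-!
# Mappings of finite distortion and inner distortion: definitions

Points of `ℝⁿ` are functions `Fin n → ℝ` (product topology, Lebesgue measure), differentials are
matrices, and `opn` is the operator norm of matrices for the Euclidean norms.
-/

set_option autoImplicit false

open MeasureTheory

namespace Pool.Agent.Helper795.InnerDefs

/-- The operator norm of a real matrix, for the Euclidean norms. -/
noncomputable def opn {n : ℕ} (A : Matrix (Fin n) (Fin n) ℝ) : ℝ :=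
  ‖Matrix.toEuclideanCLM (n := Fin n) (𝕜 := ℝ) A‖

/-- `D` is the weak differential of `f` in `Ω`. -/
def IsWeakDiff {n : ℕ} (Ω : Set (Fin n → ℝ)) (f : (Fin n → ℝ) → Fin n → ℝ)
    (D : (Fin n → ℝ) → Matrix (Fin n) (Fin n) ℝ) : Prop :=
  ∀ φ : (Fin n → ℝ) → ℝ, ContDiff ℝ ((⊤ : ℕ∞) : WithTop ℕ∞) φ → HasCompactSupport φ →
    tsupport φ ⊆ Ω →
    ∀ i j, ∫ x in Ω, f x i * fderiv ℝ φ x (Pi.single j 1) = - ∫ x in Ω, D x i j * φ x

/-- `f ∈ W^{1,n}(Ω, ℝⁿ)` is continuous, with weak differential `D`, and is a mapping of finite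
distortion: `det D ≥ 0` a.e. and `|D|ⁿ ≤ K det D` a.e. for a measurable `K : Ω → [1, ∞)`. -/
structure IsFiniteDistortion {n : ℕ} (Ω : Set (Fin n → ℝ)) (f : (Fin n → ℝ) → Fin n → ℝ)
    (D : (Fin n → ℝ) → Matrix (Fin n) (Fin n) ℝ) : Prop where
  cont : ContinuousOn f Ω
  memLp : ∀ i, MemLp (fun x => f x i) (n : ENNReal) (volume.restrict Ω)
  memLp_diff : ∀ i j, MemLp (fun x => D x i j) (n : ENNReal) (volume.restrict Ω)
  weak : IsWeakDiff Ω f D
  det_nonneg : ∀ᵐ x ∂(volume.restrict Ω), 0 ≤ (D x).det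
  distortion : ∃ K : (Fin n → ℝ) → ℝ, Measurable K ∧ (∀ x, 1 ≤ K x) ∧
    ∀ᵐ x ∂(volume.restrict Ω), opn (D x) ^ n ≤ K x * (D x).det

/-- The inner distortion `|adj A|ⁿ / (det A)ⁿ⁻¹` if `det A > 0`, and `1` elsewhere. -/
noncomputable def innerDistortion {n : ℕ} (A : Matrix (Fin n) (Fin n) ℝ) : ℝ :=
  if 0 < A.det then opn A.adjugate ^ n / A.det ^ (n - 1) else 1

/-- Every point of every fibre of `f` in `Ω` is an isolated point of the fibre. -/
def IsDiscreteOn {n : ℕ} (Ω : Set (Fin n → ℝ)) (f : (Fin n → ℝ) → Fin n → ℝ) : Prop :=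
  ∀ x ∈ Ω, ∃ ε > 0, ∀ y ∈ Ω, dist y x < ε → f y = f x → y = x

end Pool.Agent.Helper795.InnerDefs
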