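import Mathlib

/-!
# A non-discrete map of finite distortion with `K_I ∈ L^p`, `p < 2`, in dimension three

`f (x, y, t) = exp (-1/r) · V (x/r, y/r, t/r)` with `r = |x| + |y|`, where `V` maps the circle times
the line onto the unit sphere of the norm `max (|X|, |Y|) + |Z|`, cell by cell (a Zorich type map
built from triangular waves). The map is Lipschitz, `det Df = exp (-3/r) / r⁴ > 0` almost
everywhere, the inner distortion is at most `C / r`, and the segment `x = y = 0` is sent to `0`.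
-/

set_option autoImplicit false
set_option linter.all false

open MeasureTheory Set Filter Topology Metric
open scoped ENNReal NNReal

namespace Pool.Agent.Helper795.InnerDist

noncomputable section


section part1


/-- triangular wave of period `4` -/
def tw (s : ℝ) : ℝ := 1 - |s - 4 * (round (s / 4) : ℝ)|

def cw (s : ℝ) : ℝ := tw (s - 1)

lemma tw_min (s : ℝ) (k : ℤ) : |s - 4 * (round (s / 4) : ℝ)| ≤ |s - 4 * k| := by
  have h := round_le (s / 4) k
  have e1 : |s - 4 * (round (s / 4) : ℝ)| = 4 * |s / 4 - round (s / 4)| := by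
    rw [← abs_of_pos (by norm_num : (0:ℝ) < 4), ← abs_mul]
    rw [abs_of_pos (by norm_num : (0:ℝ) < 4)]; congr 1; ring
  have e2 : |s - 4 * (k : ℝ)| = 4 * |s / 4 - k| := by
    rw [← abs_of_pos (by norm_num : (0:ℝ) < 4), ← abs_mul]
    rw [abs_of_pos (by norm_num : (0:ℝ) < 4)]; congr 1; ring
  rw [e1, e2]; linarith

lemma exists_k (s : ℝ) : ∃ k : ℤ, |s - 4 * k| ≤ 2 := by
  refine ⟨round (s / 4), ?_⟩
  have h := abs_sub_round (s / 4)
  have e1 : |s - 4 * (round (s / 4) : ℝ)| = 4 * |s / 4 - round (s / 4)| := by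
    rw [← abs_of_pos (by norm_num : (0:ℝ) < 4), ← abs_mul]
    rw [abs_of_pos (by norm_num : (0:ℝ) < 4)]; congr 1; ring
  rw [e1]; linarith

lemma tw_eq {s : ℝ} {k : ℤ} (h : |s - 4 * k| ≤ 2) : tw s = 1 - |s - 4 * k| := by
  unfold tw
  have h1 := tw_min s k
  set j := round (s / 4) with hj
  have h2 : |(j : ℝ) - k| ≤ 1 := by
    have : |4 * ((j : ℝ) - k)| ≤ 4 := by
      have e : 4 * ((j : ℝ) - k) = (s - 4 * k) - (s - 4 * j) := by ring
      rw [e]
      exact (abs_sub _ _).trans (by linarith)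
    rw [abs_mul, abs_of_pos (by norm_num : (0:ℝ) < 4)] at this
    linarith
  have h3 : |j - k| ≤ 1 := by exact_mod_cast h2
  have h4 : j = k ∨ j = k + 1 ∨ j = k - 1 := by
    rw [abs_le] at h3; omega
  rcases h4 with h4 | h4 | h4
  · rw [h4]
  · rw [h4] at h1 ⊢
    push_cast at h1 ⊢
    rw [abs_le] at h
    have : |s - 4 * ((k : ℝ) + 1)| ≤ |s - 4 * k| := h1
    have h5 : s - 4 * ((k : ℝ) + 1) ≤ -2 := by linarith
    rw [abs_of_nonpos (by linarith)] at this ⊢
    rcases le_total 0 (s - 4 * k) with h6 | h6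
    · rw [abs_of_nonneg h6] at this ⊢; linarith
    · rw [abs_of_nonpos h6] at this ⊢; linarith
  · rw [h4] at h1 ⊢
    push_cast at h1 ⊢
    rw [abs_le] at h
    have : |s - 4 * ((k : ℝ) - 1)| ≤ |s - 4 * k| := h1
    have h5 : 2 ≤ s - 4 * ((k : ℝ) - 1) := by linarith
    rw [abs_of_nonneg (by linarith)] at this ⊢
    rcases le_total 0 (s - 4 * k) with h6 | h6
    · rw [abs_of_nonneg h6] at this ⊢; linarith
    · rw [abs_of_nonpos h6] at this ⊢; linarith

lemma tw_lip (s s' : ℝ) : |tw s - tw s'| ≤ |s - s'| := by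
  have key : ∀ s s' : ℝ, tw s' - tw s ≤ |s - s'| := by
    intro s s'
    unfold tw
    have h1 := tw_min s (round (s' / 4))
    have h2 : |s - 4 * (round (s' / 4) : ℝ)| ≤ |s - s'| + |s' - 4 * (round (s' / 4) : ℝ)| := by
      have := abs_add_le (s - s') (s' - 4 * (round (s' / 4) : ℝ))
      rwa [sub_add_sub_cancel] at this
    linarith
  rw [abs_le]
  constructor
  · have := key s s'; linarith
  · have := key s' s; rw [abs_sub_comm] at this; linarith

lemma cw_lip (s s' : ℝ) : |cw s - cw s'| ≤ |s - s'| := by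
  have := tw_lip (s - 1) (s' - 1)
  unfold cw
  rwa [sub_sub_sub_cancel_right] at this

/-- description of both waves in terms of the offset -/
lemma cw_eq1 {s : ℝ} {k : ℤ} (h1 : -1 ≤ s - 4 * k) (h2 : s - 4 * k ≤ 2) :
    cw s = 1 - |s - 4 * k - 1| := by
  unfold cw
  rw [tw_eq (k := k)]
  · congr 2; ring
  · rw [abs_le]; constructor <;> linarith

lemma cw_eq2 {s : ℝ} {k : ℤ} (h1 : -2 ≤ s - 4 * k) (h2 : s - 4 * k ≤ -1) :
    cw s = -2 - (s - 4 * k) := by
  unfold cw
  rw [tw_eq (k := k - 1)]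
  · push_cast
    rw [abs_of_nonneg (by linarith)]; ring
  · push_cast
    rw [abs_le]; constructor <;> linarith

lemma tw_abs_le (s : ℝ) : |tw s| ≤ 1 := by
  obtain ⟨k, hk⟩ := exists_k s
  rw [tw_eq hk, abs_le]
  have := abs_nonneg (s - 4 * (k : ℝ))
  constructor <;> linarith

lemma tw_cw (s : ℝ) : |tw s| + |cw s| = 1 := by
  obtain ⟨k, hk⟩ := exists_k s
  rw [tw_eq hk]
  rw [abs_le] at hk
  rcases le_total (-1) (s - 4 * k) with h | h
  · rw [cw_eq1 h hk.2]
    rcases le_total 0 (s - 4 * k) with h1 | h1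
    · rw [abs_of_nonneg h1]
      rcases le_total (s - 4 * k) 1 with h2 | h2
      · rw [abs_of_nonneg (by linarith : 0 ≤ 1 - (s - 4 * (k:ℝ))),
          abs_of_nonpos (by linarith : s - 4 * (k:ℝ) - 1 ≤ 0),
          abs_of_nonneg (by linarith)]; ring
      · rw [abs_of_nonpos (by linarith : 1 - (s - 4 * (k:ℝ)) ≤ 0),
          abs_of_nonneg (by linarith : 0 ≤ s - 4 * (k:ℝ) - 1),
          abs_of_nonneg (by linarith)]; ring
    · rw [abs_of_nonpos h1]
      rw [abs_of_nonneg (by linarith : 0 ≤ 1 - -(s - 4 * (k:ℝ))),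
          abs_of_nonpos (by linarith : s - 4 * (k:ℝ) - 1 ≤ 0),
          abs_of_nonpos (by linarith)]; ring
  · rw [cw_eq2 hk.1 h, abs_of_nonpos (by linarith : s - 4 * (k:ℝ) ≤ 0),
      abs_of_nonpos (by linarith : 1 - -(s - 4 * (k:ℝ)) ≤ 0),
      abs_of_nonpos (by linarith : -2 - (s - 4 * (k:ℝ)) ≤ 0)]
    ring

/-- derivative of the absolute value -/
lemma abs_deriv {x : ℝ} (hx : x ≠ 0) :
    ∃ s : ℝ, (s = 1 ∨ s = -1) ∧ 0 < s * x ∧ |x| = s * x ∧ HasDerivAt (fun y : ℝ => |y|) s x := by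
  rcases lt_or_gt_of_ne hx with h | h
  · exact ⟨-1, Or.inr rfl, by linarith, by rw [abs_of_neg h]; ring, hasDerivAt_abs_neg h⟩
  · exact ⟨1, Or.inl rfl, by linarith, by rw [abs_of_pos h]; ring, hasDerivAt_abs_pos h⟩

lemma tw_deriv {s : ℝ} (h : cw s ≠ 0) :
    ∃ σ : ℝ, (σ = 1 ∨ σ = -1) ∧ 0 < σ * cw s ∧ HasDerivAt tw (-σ) s := by
  obtain ⟨k, hk⟩ := exists_k s
  have hk' := abs_le.mp hk
  -- the offset is not `0` or `± 2`
  have hd0 : s - 4 * k ≠ 0 := by
    intro h0
    apply h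
    rw [cw_eq1 (k := k) (by linarith) (by linarith), h0]; norm_num
  have hd2 : s - 4 * k ≠ 2 := by
    intro h0
    apply h
    rw [cw_eq1 (k := k) (by linarith) (by linarith), h0]; norm_num
  have hdm2 : s - 4 * k ≠ -2 := by
    intro h0
    apply h
    rw [cw_eq2 (k := k) (by linarith) (by linarith), h0]; norm_num
  have hlt : |s - 4 * k| < 2 := by
    rw [abs_lt]
    exact ⟨lt_of_le_of_ne hk'.1 (Ne.symm hdm2), lt_of_le_of_ne hk'.2 hd2⟩
  have hev : tw =ᶠ[𝓝 s] fun y => 1 - |y - 4 * k| := by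
    have : ∀ᶠ y in 𝓝 s, |y - 4 * (k : ℝ)| < 2 := by
      apply (continuous_abs.comp (continuous_id.sub continuous_const)).continuousAt.eventually_lt
        continuousAt_const
      exact hlt
    filter_upwards [this] with y hy using tw_eq hy.le
  obtain ⟨σ, hσ, hpos, habs, hder⟩ := abs_deriv hd0
  refine ⟨σ, hσ, ?_, ?_⟩
  · rw [abs_lt] at hlt
    rcases hσ with h1 | h1
    · rw [h1, one_mul] at hpos ⊢
      rw [cw_eq1 (k := k) (by linarith) (by linarith)]
      have : |s - 4 * (k:ℝ) - 1| < 1 := by rw [abs_lt]; constructor <;> linarith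
      linarith
    · rw [h1] at hpos ⊢
      rcases le_total (-1) (s - 4 * k) with h2 | h2
      · rw [cw_eq1 (k := k) h2 (by linarith), abs_of_nonpos (by linarith)]; linarith
      · rw [cw_eq2 (k := k) (by linarith) h2]; linarith
  · have h1 : HasDerivAt (fun y : ℝ => |y - 4 * (k:ℝ)|) σ s := by
      have h2 : HasDerivAt (fun y : ℝ => y - 4 * (k:ℝ)) 1 s := (hasDerivAt_id s).sub_const _
      have h3 := hder.comp s h2
      rw [mul_one] at h3
      exact h3
    have h4 : HasDerivAt (fun y : ℝ => 1 - |y - 4 * (k:ℝ)|) (-σ) s := h1.const_sub 1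
    exact h4.congr_of_eventuallyEq hev

lemma tw_sub_two (s : ℝ) : tw (s - 2) = - tw s := by
  obtain ⟨k, hk⟩ := exists_k s
  have hk' := abs_le.mp hk
  rw [tw_eq hk]
  rcases le_total 0 (s - 4 * k) with h | h
  · rw [tw_eq (k := k), abs_of_nonneg h, abs_of_nonpos (by linarith)]
    · ring
    · rw [abs_le]; constructor <;> linarith
  · rw [tw_eq (k := k - 1), abs_of_nonpos h]
    · push_cast
      rw [abs_of_nonneg (by linarith)]; ring
    · push_cast
      rw [abs_le]; constructor <;> linarith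

lemma cw_deriv {s : ℝ} (h : tw s ≠ 0) :
    ∃ σ : ℝ, (σ = 1 ∨ σ = -1) ∧ 0 < σ * tw s ∧ HasDerivAt cw σ s := by
  have h1 : cw (s - 1) = - tw s := by
    unfold cw; rw [sub_sub]; norm_num; exact tw_sub_two s
  obtain ⟨σ, hσ, hpos, hder⟩ := tw_deriv (s := s - 1) (by rw [h1]; exact neg_ne_zero.mpr h)
  refine ⟨-σ, ?_, ?_, ?_⟩
  · rcases hσ with h2 | h2 <;> rw [h2] <;> norm_num
  · rw [h1] at hpos; linarith
  · have h2 : HasDerivAt (fun y : ℝ => y - 1) 1 s := (hasDerivAt_id s).sub_const _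
    have h3 := hder.comp s h2
    rw [mul_one] at h3
    exact h3

/-- the waves are piecewise `± s + k` -/
lemma tw_form (s : ℝ) : ∃ (σ : ℝ) (k : ℤ), (σ = 1 ∨ σ = -1) ∧ tw s = σ * s + k := by
  obtain ⟨k, hk⟩ := exists_k s
  rw [tw_eq hk]
  rcases le_total 0 (s - 4 * k) with h | h
  · exact ⟨-1, 1 + 4 * k, Or.inr rfl, by rw [abs_of_nonneg h]; push_cast; ring⟩
  · exact ⟨1, 1 - 4 * k, Or.inl rfl, by rw [abs_of_nonpos h]; push_cast; ring⟩

lemma cw_form (s : ℝ) : ∃ (σ : ℝ) (k : ℤ), (σ = 1 ∨ σ = -1) ∧ cw s = σ * s + k := by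
  obtain ⟨σ, k, hσ, h⟩ := tw_form (s - 1)
  rcases hσ with h1 | h1
  · exact ⟨1, k - 1, Or.inl rfl, by unfold cw; rw [h, h1]; push_cast; ring⟩
  · exact ⟨-1, k + 1, Or.inr rfl, by unfold cw; rw [h, h1]; push_cast; ring⟩

/-- the radial profile `exp (-1/r)` -/
def lam (r : ℝ) : ℝ := if r ≤ 0 then 0 else Real.exp (-r⁻¹)

lemma lam_pos {r : ℝ} (hr : 0 < r) : 0 < lam r := by
  unfold lam; rw [if_neg (not_le.mpr hr)]; exact Real.exp_pos _

lemma lam_zero : lam 0 = 0 := by unfold lam; simp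

lemma lam_eq {r : ℝ} (hr : 0 < r) : lam r = Real.exp (-r⁻¹) := by
  unfold lam; rw [if_neg (not_le.mpr hr)]

lemma lam_le {r : ℝ} (hr : 0 < r) : lam r ≤ 2 * r ^ 2 := by
  rw [lam_eq hr]
  have h1 : 0 < r⁻¹ := inv_pos.mpr hr
  have h2 := Real.quadratic_le_exp_of_nonneg h1.le
  have h3 : r⁻¹ ^ 2 / 2 ≤ Real.exp (r⁻¹) := by linarith
  rw [Real.exp_neg, inv_le_comm₀ (Real.exp_pos _) (by positivity)]
  refine le_trans (le_of_eq ?_) h3
  field_simp

lemma lam_deriv {r : ℝ} (hr : 0 < r) : HasDerivAt lam (lam r / r ^ 2) r := by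
  have h1 : HasDerivAt (fun y : ℝ => Real.exp (-y⁻¹)) (Real.exp (-r⁻¹) * (-(-(r ^ 2)⁻¹))) r :=
    ((hasDerivAt_inv hr.ne').neg).exp
  have h2 : lam =ᶠ[𝓝 r] fun y => Real.exp (-y⁻¹) := by
    filter_upwards [Ioi_mem_nhds hr] with y hy using lam_eq hy
  have h3 := h1.congr_of_eventuallyEq h2
  have h4 : Real.exp (-r⁻¹) * (-(-(r ^ 2)⁻¹)) = lam r / r ^ 2 := by
    rw [lam_eq hr, neg_neg, div_eq_mul_inv]
  rw [h4] at h3
  exact h3

lemma lam_lip_pos {r s : ℝ} (hr : 0 < r) (hs : 0 < s) : |lam r - lam s| ≤ 2 * |r - s| := by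
  have := Convex.norm_image_sub_le_of_norm_hasDerivWithin_le (f := lam) (f' := fun r => lam r / r ^ 2)
    (s := Ioi 0) (C := 2) (fun x hx => (lam_deriv hx).hasDerivWithinAt) (fun x hx => ?_)
    (convex_Ioi 0) (mem_Ioi.mpr hs) (mem_Ioi.mpr hr)
  · simpa using this
  · have hx' : (0 : ℝ) < x := hx
    rw [Real.norm_of_nonneg (div_nonneg (lam_pos hx').le (by positivity)),
      div_le_iff₀ (by positivity)]
    exact lam_le hx'

lemma lam_le_one {r : ℝ} (hr : 0 < r) : lam r ≤ 1 := by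
  rw [lam_eq hr]
  apply Real.exp_le_one_iff.mpr
  have : 0 < r⁻¹ := inv_pos.mpr hr
  linarith

lemma lam_le_lin {r : ℝ} (hr : 0 ≤ r) : lam r ≤ 2 * r := by
  rcases hr.eq_or_lt with h | h
  · rw [← h, lam_zero]; simp
  · rcases le_total r 1 with h1 | h1
    · refine (lam_le h).trans ?_
      nlinarith
    · refine (lam_le_one h).trans ?_
      linarith

lemma lam_nonneg (r : ℝ) : 0 ≤ lam r := by
  unfold lam; split_ifs
  · exact le_rfl
  · exact (Real.exp_pos _).le

lemma lam_lip {r s : ℝ} (hr : 0 ≤ r) (hs : 0 ≤ s) : |lam r - lam s| ≤ 2 * |r - s| := by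
  rcases hr.eq_or_lt with h | h
  · rw [← h, lam_zero, zero_sub, zero_sub, abs_neg, abs_neg, abs_of_nonneg (lam_nonneg s),
      abs_of_nonneg hs]
    exact lam_le_lin hs
  rcases hs.eq_or_lt with h1 | h1
  · rw [← h1, lam_zero, sub_zero, sub_zero, abs_of_nonneg (lam_nonneg r), abs_of_nonneg hr]
    exact lam_le_lin hr
  exact lam_lip_pos h h1

/-- `sign(bc) min(|b|,|c|)` -/
def mm (b c : ℝ) : ℝ := (|b + c| - |b - c|) / 2

lemma mm_lip (b c b' c' : ℝ) : |mm b c - mm b' c'| ≤ |b - b'| + |c - c'| := by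
  have h1 : |(|b + c| - |b' + c'|)| ≤ |b - b'| + |c - c'| := by
    refine (abs_abs_sub_abs_le_abs_sub _ _).trans ?_
    have : b + c - (b' + c') = (b - b') + (c - c') := by ring
    rw [this]; exact abs_add_le _ _
  have h2 : |(|b - c| - |b' - c'|)| ≤ |b - b'| + |c - c'| := by
    refine (abs_abs_sub_abs_le_abs_sub _ _).trans ?_
    have : b - c - (b' - c') = (b - b') - (c - c') := by ring
    rw [this]; exact abs_sub _ _
  unfold mm
  rw [abs_le] at h1 h2 ⊢
  constructor <;> linarith [h1.1, h1.2, h2.1, h2.2]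

lemma mm_le (b c : ℝ) : |mm b c| ≤ |b| := by
  have h1 : |(|b + c| - |c - b|)| ≤ 2 * |b| := by
    refine (abs_abs_sub_abs_le_abs_sub _ _).trans ?_
    have : b + c - (c - b) = 2 * b := by ring
    rw [this, abs_mul]; norm_num
  unfold mm
  rw [abs_sub_comm b c, abs_div, abs_of_pos (by norm_num : (0:ℝ) < 2)]
  linarith

end part1

section part2


abbrev X3 : Type := Fin 3 → ℝ

def rad (p : X3) : ℝ := |p 0| + |p 1|

lemma rad_nonneg (p : X3) : 0 ≤ rad p := by unfold rad; positivity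

/-- the direction -/
def V (p : X3) : X3 :=
  ![p 0 / rad p, tw (p 2 / rad p), mm (p 1 / rad p) (cw (p 2 / rad p))]

/-- the map -/
def F (p : X3) : X3 := fun i => lam (rad p) * V p i

def Om : Set X3 := ball 0 1

lemma mem_Om {p : X3} (hp : p ∈ Om) (i : Fin 3) : |p i| < 1 := by
  have h1 : ‖p‖ < 1 := by simpa [Om] using hp
  exact lt_of_le_of_lt (norm_le_pi_norm p i) h1

lemma rad_lt {p : X3} (hp : p ∈ Om) : rad p < 2 := by
  unfold rad; linarith [mem_Om hp 0, mem_Om hp 1]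

lemma rad_lip (p q : X3) : |rad p - rad q| ≤ 2 * ‖p - q‖ := by
  have h0 : |p 0 - q 0| ≤ ‖p - q‖ := norm_le_pi_norm (p - q) 0
  have h1 : |p 1 - q 1| ≤ ‖p - q‖ := norm_le_pi_norm (p - q) 1
  have h2 := abs_abs_sub_abs_le_abs_sub (p 0) (q 0)
  have h3 := abs_abs_sub_abs_le_abs_sub (p 1) (q 1)
  unfold rad
  rw [abs_le] at h2 h3 ⊢
  constructor <;> linarith [h2.1, h2.2, h3.1, h3.2]

lemma abs_div_rad_le (p : X3) : |p 0 / rad p| ≤ 1 ∧ |p 1 / rad p| ≤ 1 := by
  have h := rad_nonneg p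
  rw [abs_div, abs_div, abs_of_nonneg h]
  constructor
  · apply div_le_one_of_le₀ _ h
    unfold rad; linarith [abs_nonneg (p 1)]
  · apply div_le_one_of_le₀ _ h
    unfold rad; linarith [abs_nonneg (p 0)]

lemma V_le (p : X3) (i : Fin 3) : |V p i| ≤ 1 := by
  fin_cases i
  · exact (abs_div_rad_le p).1
  · exact tw_abs_le _
  · exact (mm_le _ _).trans (abs_div_rad_le p).2

lemma coord_lip {p q : X3} (hp : p ∈ Om) (hq : q ∈ Om) (hrp : 0 < rad p) (hrq : 0 < rad q) (i : Fin 3) :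
    |p i / rad p - q i / rad q| ≤ 4 * ‖p - q‖ / (rad p * rad q) := by
  have h0 : |p i - q i| ≤ ‖p - q‖ := norm_le_pi_norm (p - q) i
  have h1 := rad_lip p q
  have h2 := rad_lt hq
  have h3 := (mem_Om hq i).le
  have e : p i / rad p - q i / rad q = ((p i - q i) * rad q - q i * (rad p - rad q)) / (rad p * rad q) := by
    field_simp; ring
  rw [e, abs_div, abs_of_pos (mul_pos hrp hrq)]
  gcongr
  calc |(p i - q i) * rad q - q i * (rad p - rad q)|
      ≤ |(p i - q i) * rad q| + |q i * (rad p - rad q)| := abs_sub _ _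
    _ = |p i - q i| * rad q + |q i| * |rad p - rad q| := by
        rw [abs_mul, abs_mul, abs_of_pos hrq]
    _ ≤ ‖p - q‖ * 2 + 1 * (2 * ‖p - q‖) := by gcongr
    _ = 4 * ‖p - q‖ := by ring

lemma V_lip {p q : X3} (hp : p ∈ Om) (hq : q ∈ Om) (hrp : 0 < rad p) (hrq : 0 < rad q) (i : Fin 3) :
    |V p i - V q i| ≤ 8 * ‖p - q‖ / (rad p * rad q) := by
  have h := fun i => coord_lip hp hq hrp hrq i
  have hpos : 0 ≤ 4 * ‖p - q‖ / (rad p * rad q) := by positivity
  have e : 8 * ‖p - q‖ / (rad p * rad q) = 4 * ‖p - q‖ / (rad p * rad q) + 4 * ‖p - q‖ / (rad p * rad q) := by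
    ring
  rw [e]
  fin_cases i
  · exact (h 0).trans (by linarith)
  · exact ((tw_lip _ _).trans (h 2)).trans (by linarith)
  · refine (mm_lip _ _ _ _).trans ?_
    exact add_le_add (h 1) ((cw_lip _ _).trans (h 2))

lemma F_zero {p : X3} (h : rad p = 0) (i : Fin 3) : F p i = 0 := by
  unfold F; rw [h, lam_zero, zero_mul]

lemma F_lip' {p q : X3} (hp : p ∈ Om) (hq : q ∈ Om) (hrp : 0 < rad p) (hrq : 0 < rad q)
    (hle : rad q ≤ rad p) (i : Fin 3) : |F p i - F q i| ≤ 20 * ‖p - q‖ := by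
  have h1 := lam_lip (rad_nonneg p) (rad_nonneg q)
  have h2 := rad_lip p q
  have h3 := V_lip hp hq hrp hrq i
  have h4 := V_le p i
  have h5 := lam_le hrq
  have e : F p i - F q i = (lam (rad p) - lam (rad q)) * V p i + lam (rad q) * (V p i - V q i) := by
    unfold F; ring
  rw [e]
  calc _ ≤ |(lam (rad p) - lam (rad q)) * V p i| + |lam (rad q) * (V p i - V q i)| := abs_add_le _ _
    _ = |lam (rad p) - lam (rad q)| * |V p i| + lam (rad q) * |V p i - V q i| := by
        rw [abs_mul, abs_mul, abs_of_nonneg (lam_nonneg (rad q))]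
    _ ≤ (2 * (2 * ‖p - q‖)) * 1 + (2 * rad q ^ 2) * (8 * ‖p - q‖ / (rad p * rad q)) := by
        apply add_le_add
        · apply mul_le_mul _ h4 (abs_nonneg _) (by positivity)
          linarith
        · exact mul_le_mul h5 h3 (abs_nonneg _) (by positivity)
    _ ≤ 20 * ‖p - q‖ := by
        have h6 : (2 * rad q ^ 2) * (8 * ‖p - q‖ / (rad p * rad q)) = 16 * ‖p - q‖ * (rad q / rad p) := by
          field_simp; ring
        have h7 : rad q / rad p ≤ 1 := by rw [div_le_one hrp]; exact hle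
        rw [h6]
        have h8 : 16 * ‖p - q‖ * (rad q / rad p) ≤ 16 * ‖p - q‖ * 1 := by gcongr
        linarith

lemma F_lip {p q : X3} (hp : p ∈ Om) (hq : q ∈ Om) (i : Fin 3) : |F p i - F q i| ≤ 20 * ‖p - q‖ := by
  have key : ∀ {p q : X3}, p ∈ Om → q ∈ Om → rad q ≤ rad p → |F p i - F q i| ≤ 20 * ‖p - q‖ := by
    intro p q hp hq hle
    rcases (rad_nonneg q).eq_or_lt with h | h
    · rw [F_zero h.symm, sub_zero]
      have h1 : |F p i| ≤ lam (rad p) * 1 := by
        unfold F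
        rw [abs_mul, abs_of_nonneg (lam_nonneg _)]
        exact mul_le_mul_of_nonneg_left (V_le p i) (lam_nonneg _)
      have h2 := lam_le_lin (rad_nonneg p)
      have h3 := rad_lip p q
      rw [← h, sub_zero, abs_of_nonneg (rad_nonneg p)] at h3
      have := norm_nonneg (p - q)
      linarith
    · exact F_lip' hp hq (h.trans_le hle) h hle i
  rcases le_total (rad q) (rad p) with h | h
  · exact key hp hq h
  · have := key hq hp h
    rwa [abs_sub_comm, norm_sub_rev] at this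

/-- derivative data at a generic point -/
structure Gen (p : X3) (sx sy st sc s1 s2 : ℝ) : Prop where
  hr : 0 < rad p
  hsx : sx = 1 ∨ sx = -1
  hsy : sy = 1 ∨ sy = -1
  hst : st = 1 ∨ st = -1
  hsc : sc = 1 ∨ sc = -1
  hs1 : s1 = 1 ∨ s1 = -1
  hs2 : s2 = 1 ∨ s2 = -1
  px : 0 < sx * p 0
  py : 0 < sy * p 1
  pt : 0 < st * tw (p 2 / rad p)
  pc : 0 < sc * cw (p 2 / rad p)
  p1 : 0 < s1 * (p 1 / rad p + cw (p 2 / rad p))
  p2 : 0 < s2 * (p 1 / rad p - cw (p 2 / rad p))
  dx : HasDerivAt (fun y : ℝ => |y|) sx (p 0)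
  dy : HasDerivAt (fun y : ℝ => |y|) sy (p 1)
  dt : HasDerivAt tw (-sc) (p 2 / rad p)
  dc : HasDerivAt cw st (p 2 / rad p)
  d1 : HasDerivAt (fun y : ℝ => |y|) s1 (p 1 / rad p + cw (p 2 / rad p))
  d2 : HasDerivAt (fun y : ℝ => |y|) s2 (p 1 / rad p - cw (p 2 / rad p))

lemma exists_gen {p : X3} (h0 : p 0 ≠ 0) (h1 : p 1 ≠ 0) (ht : tw (p 2 / rad p) ≠ 0)
    (hc : cw (p 2 / rad p) ≠ 0) (h3 : p 1 / rad p + cw (p 2 / rad p) ≠ 0)
    (h4 : p 1 / rad p - cw (p 2 / rad p) ≠ 0) :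
    ∃ sx sy st sc s1 s2, Gen p sx sy st sc s1 s2 := by
  obtain ⟨sx, a1, a2, -, a4⟩ := abs_deriv h0
  obtain ⟨sy, b1, b2, -, b4⟩ := abs_deriv h1
  obtain ⟨sc, c1, c2, c3⟩ := tw_deriv hc
  obtain ⟨st, d1, d2, d3⟩ := cw_deriv ht
  obtain ⟨s1, e1, e2, -, e4⟩ := abs_deriv h3
  obtain ⟨s2, f1, f2, -, f4⟩ := abs_deriv h4
  refine ⟨sx, sy, st, sc, s1, s2, ?_, a1, b1, d1, c1, e1, f1, a2, b2, d2, c2, e2, f2, a4, b4, c3, d3, e4, f4⟩
  unfold rad
  have := abs_pos.mpr h0
  positivity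

def gg (sx sy : ℝ) : Fin 3 → ℝ := ![sx, sy, 0]

def ww (p : X3) (st sc s1 s2 : ℝ) : Fin 3 → ℝ :=
  ![p 0 / rad p, tw (p 2 / rad p) + sc * p 2,
    mm (p 1 / rad p) (cw (p 2 / rad p)) - (s1 + s2) / 2 * st * p 2]

def BB (p : X3) (sx sy st sc s1 s2 : ℝ) : Fin 3 → Fin 3 → ℝ :=
  ![![1 - p 0 / rad p * sx, - (p 0 / rad p * sy), 0],
    ![0, 0, - sc],
    ![- ((s1 - s2) / 2 * (p 1 / rad p) * sx), (s1 - s2) / 2 * (1 - p 1 / rad p * sy),
      (s1 + s2) / 2 * st]]

/-- the normalised differential -/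
def MM (p : X3) (sx sy st sc s1 s2 : ℝ) : Matrix (Fin 3) (Fin 3) ℝ :=
  fun i j => ww p st sc s1 s2 i * gg sx sy j + rad p * BB p sx sy st sc s1 s2 i j

/-- signs: alternative A or B -/
lemma gen_cases {p : X3} {sx sy st sc s1 s2 : ℝ} (g : Gen p sx sy st sc s1 s2) :
    (s1 = sy ∧ s2 = sy ∧ mm (p 1 / rad p) (cw (p 2 / rad p)) = sy * cw (p 2 / rad p)) ∨
    (s1 = sc ∧ s2 = -sc ∧ mm (p 1 / rad p) (cw (p 2 / rad p)) = sc * (p 1 / rad p)) := by
  obtain ⟨hr, hsx, hsy, hst, hsc, hs1, hs2, px, py, pt, pc, p1, p2, -, -, -, -, -, -⟩ := g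
  set b := p 1 / rad p with hb
  set c := cw (p 2 / rad p) with hc
  have pb : 0 < sy * b := by
    rw [hb, mul_div_assoc']; positivity
  have e1 : |b + c| = s1 * (b + c) := by
    rcases hs1 with h | h
    · rw [h, one_mul] at p1 ⊢; exact abs_of_pos p1
    · rw [h] at p1 ⊢; rw [abs_of_neg (by linarith)]; ring
  have e2 : |b - c| = s2 * (b - c) := by
    rcases hs2 with h | h
    · rw [h, one_mul] at p2 ⊢; exact abs_of_pos p2
    · rw [h] at p2 ⊢; rw [abs_of_neg (by linarith)]; ring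
  unfold mm
  rw [e1, e2]
  rcases hs1 with h1 | h1 <;> rcases hs2 with h2 | h2 <;> rcases hsy with h3 | h3 <;>
    rcases hsc with h4 | h4 <;> subst h1 h2 h3 h4 <;>
    first
    | (exfalso; linarith)
    | (left; refine ⟨rfl, rfl, ?_⟩; ring1)
    | (right; refine ⟨rfl, by norm_num, ?_⟩; ring1)

lemma MM_det {p : X3} {sx sy st sc s1 s2 : ℝ} (g : Gen p sx sy st sc s1 s2) :
    (MM p sx sy st sc s1 s2).det = rad p ^ 2 := by
  have hcase := gen_cases g
  obtain ⟨hr, hsx, hsy, hst, hsc, hs1, hs2, px, py, pt, pc, p1, p2, -, -, -, -, -, -⟩ := g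
  have e0 : |p 0| = sx * p 0 := by
    rcases hsx with h | h
    · rw [h, one_mul] at px ⊢; exact abs_of_pos px
    · rw [h] at px ⊢; rw [abs_of_neg (by linarith)]; ring
  have e1 : |p 1| = sy * p 1 := by
    rcases hsy with h | h
    · rw [h, one_mul] at py ⊢; exact abs_of_pos py
    · rw [h] at py ⊢; rw [abs_of_neg (by linarith)]; ring
  have eT : |tw (p 2 / rad p)| = st * tw (p 2 / rad p) := by
    rcases hst with h | h
    · rw [h, one_mul] at pt ⊢; exact abs_of_pos pt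
    · rw [h] at pt ⊢; rw [abs_of_neg (by linarith)]; ring
  have eC : |cw (p 2 / rad p)| = sc * cw (p 2 / rad p) := by
    rcases hsc with h | h
    · rw [h, one_mul] at pc ⊢; exact abs_of_pos pc
    · rw [h] at pc ⊢; rw [abs_of_neg (by linarith)]; ring
  have hrel := tw_cw (p 2 / rad p)
  rw [eT, eC] at hrel
  have hR : sx * p 0 + sy * p 1 = rad p := by unfold rad; rw [e0, e1]
  have hsx2 : sx ^ 2 = 1 := by rcases hsx with h | h <;> rw [h] <;> norm_num
  have hsy2 : sy ^ 2 = 1 := by rcases hsy with h | h <;> rw [h] <;> norm_num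
  have hst2 : st ^ 2 = 1 := by rcases hst with h | h <;> rw [h] <;> norm_num
  have hsc2 : sc ^ 2 = 1 := by rcases hsc with h | h <;> rw [h] <;> norm_num
  rw [Matrix.det_fin_three]
  simp only [MM, ww, gg, BB, Matrix.cons_val_zero, Matrix.cons_val_one, Matrix.cons_val]
  set T := tw (p 2 / rad p)
  set c := cw (p 2 / rad p)
  set r := rad p
  set x := p 0
  set y := p 1
  set t := p 2
  have hr0 : r ≠ 0 := hr.ne'
  rcases hcase with ⟨h1, h2, h3⟩ | ⟨h1, h2, h3⟩
  · rw [h3, h1, h2]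
    calc _ = (st * T + sc * c) * (r ^ 2 * sy ^ 2) := by field_simp; ring
      _ = r ^ 2 := by rw [hrel, hsy2]; ring
  · rw [h3, h1, h2]
    calc _ = sc ^ 2 * (r ^ 3 + (1 - r) * r * (sx * x + sy * y)) := by field_simp; ring
      _ = r ^ 2 := by rw [hR, hsc2]; ring

lemma gg_le {sx sy : ℝ} (hsx : sx = 1 ∨ sx = -1) (hsy : sy = 1 ∨ sy = -1) (j : Fin 3) :
    |gg sx sy j| ≤ 1 := by
  have a : |sx| ≤ 1 := by rcases hsx with h | h <;> rw [h] <;> norm_num
  have b : |sy| ≤ 1 := by rcases hsy with h | h <;> rw [h] <;> norm_num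
  fin_cases j
  · exact a
  · exact b
  · change |(0:ℝ)| ≤ 1; norm_num

lemma ww_le {p : X3} (hp : p ∈ Om) {sx sy st sc s1 s2 : ℝ} (g : Gen p sx sy st sc s1 s2) (i : Fin 3) :
    |ww p st sc s1 s2 i| ≤ 2 := by
  have a1 : |sc| = 1 := by rcases g.hsc with h | h <;> rw [h] <;> norm_num
  have a2 : |st| = 1 := by rcases g.hst with h | h <;> rw [h] <;> norm_num
  have a3 : |(s1 + s2) / 2| ≤ 1 := by
    rcases g.hs1 with h | h <;> rcases g.hs2 with h' | h' <;> rw [h, h'] <;> norm_num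
  have ht := (mem_Om hp 2).le
  fin_cases i
  · exact (abs_div_rad_le p).1.trans (by norm_num)
  · change |tw (p 2 / rad p) + sc * p 2| ≤ 2
    refine (abs_add_le _ _).trans ?_
    rw [abs_mul, a1, one_mul]
    linarith [tw_abs_le (p 2 / rad p)]
  · change |mm (p 1 / rad p) (cw (p 2 / rad p)) - (s1 + s2) / 2 * st * p 2| ≤ 2
    refine (abs_sub _ _).trans ?_
    rw [abs_mul, abs_mul, a2, mul_one]
    have h1 := (mm_le (p 1 / rad p) (cw (p 2 / rad p))).trans (abs_div_rad_le p).2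
    have h2 : |(s1 + s2) / 2| * |p 2| ≤ 1 * 1 := by gcongr
    linarith

lemma BB_le {p : X3} {sx sy st sc s1 s2 : ℝ} (g : Gen p sx sy st sc s1 s2) (i j : Fin 3) :
    |BB p sx sy st sc s1 s2 i j| ≤ 2 := by
  have a0 : |sx| = 1 := by rcases g.hsx with h | h <;> rw [h] <;> norm_num
  have a0' : |sy| = 1 := by rcases g.hsy with h | h <;> rw [h] <;> norm_num
  have a1 : |sc| = 1 := by rcases g.hsc with h | h <;> rw [h] <;> norm_num
  have a2 : |st| = 1 := by rcases g.hst with h | h <;> rw [h] <;> norm_num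
  have a3 : |(s1 + s2) / 2| ≤ 1 := by
    rcases g.hs1 with h | h <;> rcases g.hs2 with h' | h' <;> rw [h, h'] <;> norm_num
  have a4 : |(s1 - s2) / 2| ≤ 1 := by
    rcases g.hs1 with h | h <;> rcases g.hs2 with h' | h' <;> rw [h, h'] <;> norm_num
  obtain ⟨b1, b2⟩ := abs_div_rad_le p
  fin_cases i <;> fin_cases j
  · change |1 - p 0 / rad p * sx| ≤ 2
    refine (abs_sub _ _).trans ?_
    rw [abs_mul, a0, mul_one, abs_one]; linarith
  · change |-(p 0 / rad p * sy)| ≤ 2
    rw [abs_neg, abs_mul, a0', mul_one]; linarith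
  · change |(0:ℝ)| ≤ 2; norm_num
  · change |(0:ℝ)| ≤ 2; norm_num
  · change |(0:ℝ)| ≤ 2; norm_num
  · change |-sc| ≤ 2; rw [abs_neg, a1]; norm_num
  · change |-((s1 - s2) / 2 * (p 1 / rad p) * sx)| ≤ 2
    rw [abs_neg, abs_mul, abs_mul, a0, mul_one]
    have : |(s1 - s2) / 2| * |p 1 / rad p| ≤ 1 * 1 := by gcongr
    linarith
  · change |(s1 - s2) / 2 * (1 - p 1 / rad p * sy)| ≤ 2
    rw [abs_mul]
    have h1 : |1 - p 1 / rad p * sy| ≤ 2 := by
      refine (abs_sub _ _).trans ?_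
      rw [abs_mul, a0', mul_one, abs_one]; linarith
    have : |(s1 - s2) / 2| * |1 - p 1 / rad p * sy| ≤ 1 * 2 := by gcongr
    linarith
  · change |(s1 + s2) / 2 * st| ≤ 2
    rw [abs_mul, a2, mul_one]; linarith

lemma minor_le {w g : Fin 3 → ℝ} {B : Fin 3 → Fin 3 → ℝ} {r : ℝ} (hr : 0 ≤ r) (hr2 : r ≤ 2)
    (hw : ∀ i, |w i| ≤ 2) (hg : ∀ i, |g i| ≤ 1) (hB : ∀ i j, |B i j| ≤ 2) (i j k l : Fin 3) :
    |(w i * g j + r * B i j) * (w k * g l + r * B k l) -
      (w i * g l + r * B i l) * (w k * g j + r * B k j)| ≤ 32 * r := by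
  have e : (w i * g j + r * B i j) * (w k * g l + r * B k l) -
      (w i * g l + r * B i l) * (w k * g j + r * B k j) =
      r * ((w i * g j * B k l + B i j * (w k * g l)) - (w i * g l * B k j + B i l * (w k * g j))
        + r * (B i j * B k l - B i l * B k j)) := by ring
  rw [e, abs_mul, abs_of_nonneg hr]
  have h1 : ∀ a b c d e f : Fin 3, |w a * g b * B c d| ≤ 4 := by
    intro a b c d e f
    rw [abs_mul, abs_mul]
    calc |w a| * |g b| * |B c d| ≤ 2 * 1 * 2 := by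
          gcongr
          · exact hw a
          · exact hg b
          · exact hB c d
      _ = 4 := by norm_num
  have h2 : ∀ a b c d : Fin 3, |B a b * B c d| ≤ 4 := by
    intro a b c d
    rw [abs_mul]
    calc |B a b| * |B c d| ≤ 2 * 2 := by
          gcongr
          · exact hB a b
          · exact hB c d
      _ = 4 := by norm_num
  have t1 := h1 i j k l 0 0
  have t2 := h1 k l i j 0 0
  have t3 := h1 i l k j 0 0
  have t4 := h1 k j i l 0 0
  have t5 := h2 i j k l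
  have t6 := h2 i l k j
  have t7 : |r * (B i j * B k l - B i l * B k j)| ≤ 2 * 8 := by
    rw [abs_mul, abs_of_nonneg hr]
    have : |B i j * B k l - B i l * B k j| ≤ 8 := (abs_sub _ _).trans (by linarith)
    gcongr
  have t8 : |(w i * g j * B k l + B i j * (w k * g l)) - (w i * g l * B k j + B i l * (w k * g j))
        + r * (B i j * B k l - B i l * B k j)| ≤ 32 := by
    rw [mul_comm (B i j) (w k * g l), mul_comm (B i l) (w k * g j)]
    rw [abs_le] at t1 t2 t3 t4 t7 ⊢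
    constructor <;> linarith [t1.1, t1.2, t2.1, t2.2, t3.1, t3.2, t4.1, t4.2, t7.1, t7.2]
  linarith [mul_le_mul_of_nonneg_left t8 hr]

lemma adj_le {p : X3} (hp : p ∈ Om) {sx sy st sc s1 s2 : ℝ} (g : Gen p sx sy st sc s1 s2) (i j : Fin 3) :
    |(MM p sx sy st sc s1 s2).adjugate i j| ≤ 32 * rad p := by
  have key := fun i j k l => minor_le (rad_nonneg p) (rad_lt hp).le (ww_le hp g) (gg_le g.hsx g.hsy)
    (BB_le g) i j k l
  rw [Matrix.adjugate_fin_three]
  have hM : ∀ i j, MM p sx sy st sc s1 s2 i j =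
    ww p st sc s1 s2 i * gg sx sy j + rad p * BB p sx sy st sc s1 s2 i j := fun _ _ => rfl
  fin_cases i <;> fin_cases j <;>
    simp only [Matrix.of_apply, Matrix.cons_val', Matrix.cons_val_zero, Matrix.cons_val_one,
      Matrix.cons_val, Fin.zero_eta, Fin.mk_one, Fin.reduceFinMk, hM]
  · exact key 1 1 2 2
  · rw [neg_add_eq_sub, abs_sub_comm]; exact key 0 1 2 2
  · exact key 0 1 1 2
  · rw [neg_add_eq_sub, abs_sub_comm]; exact key 1 0 2 2
  · exact key 0 0 2 2
  · rw [neg_add_eq_sub, abs_sub_comm]; exact key 0 0 1 2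
  · exact key 1 0 2 1
  · rw [neg_add_eq_sub, abs_sub_comm]; exact key 0 0 2 1
  · exact key 0 0 1 1

end part2

section part3


/-- the differential matrix -/
def DD (p : X3) : Matrix (Fin 3) (Fin 3) ℝ :=
  fun i j => fderiv ℝ (fun q => F q i) p (Pi.single j 1)

abbrev pr (i : Fin 3) : X3 →L[ℝ] ℝ := ContinuousLinearMap.proj i

/-- the differential of `rad` -/
def RR (sx sy : ℝ) : X3 →L[ℝ] ℝ := sx • pr 0 + sy • pr 1

lemma hd_coord (i : Fin 3) (p : X3) : HasFDerivAt (fun q : X3 => q i) (pr i) p :=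
  (pr i).hasFDerivAt

lemma rad_fderiv {p : X3} {sx sy st sc s1 s2 : ℝ} (g : Gen p sx sy st sc s1 s2) :
    HasFDerivAt rad (RR sx sy) p := by
  have h1 : HasFDerivAt ((fun y : ℝ => |y|) ∘ (fun q : X3 => q 0)) (sx • pr 0) p :=
    g.dx.comp_hasFDerivAt p (hd_coord 0 p)
  have h2 : HasFDerivAt ((fun y : ℝ => |y|) ∘ (fun q : X3 => q 1)) (sy • pr 1) p :=
    g.dy.comp_hasFDerivAt p (hd_coord 1 p)
  exact h1.add h2

/-- differential of `q i / rad q` -/
def QQ (p : X3) (sx sy : ℝ) (i : Fin 3) : X3 →L[ℝ] ℝ :=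
  (rad p)⁻¹ • pr i - (p i / rad p ^ 2) • RR sx sy

lemma quot_fderiv {p : X3} {sx sy st sc s1 s2 : ℝ} (g : Gen p sx sy st sc s1 s2) (i : Fin 3) :
    HasFDerivAt (fun q : X3 => q i / rad q) (QQ p sx sy i) p := by
  have hr := g.hr.ne'
  have h1 : HasFDerivAt ((fun y : ℝ => y⁻¹) ∘ rad) ((-(rad p ^ 2)⁻¹) • RR sx sy) p :=
    (hasDerivAt_inv hr).comp_hasFDerivAt p (rad_fderiv g)
  have h2 : HasFDerivAt (fun q : X3 => q i * (rad q)⁻¹) _ p := (hd_coord i p).mul h1
  have h3 : (fun q : X3 => q i / rad q) = fun q : X3 => q i * (rad q)⁻¹ := by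
    ext q; rw [div_eq_mul_inv]
  have h4 : QQ p sx sy i = p i • (-(rad p ^ 2)⁻¹) • RR sx sy + ((fun y : ℝ => y⁻¹) ∘ rad) p • pr i := by
    ext v
    simp only [QQ, sub_apply, smul_apply, add_apply, smul_eq_mul, Function.comp]
    field_simp
    ring
  rw [h3, h4]
  exact h2

lemma lam_fderiv {p : X3} {sx sy st sc s1 s2 : ℝ} (g : Gen p sx sy st sc s1 s2) :
    HasFDerivAt (lam ∘ rad) ((lam (rad p) / rad p ^ 2) • RR sx sy) p :=
  (lam_deriv g.hr).comp_hasFDerivAt p (rad_fderiv g)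

lemma V0_fderiv {p : X3} {sx sy st sc s1 s2 : ℝ} (g : Gen p sx sy st sc s1 s2) :
    HasFDerivAt (fun q : X3 => V q 0) (QQ p sx sy 0) p := quot_fderiv g 0

lemma V1_fderiv {p : X3} {sx sy st sc s1 s2 : ℝ} (g : Gen p sx sy st sc s1 s2) :
    HasFDerivAt (fun q : X3 => V q 1) ((-sc) • QQ p sx sy 2) p := by
  have h : HasFDerivAt (tw ∘ (fun q : X3 => q 2 / rad q)) ((-sc) • QQ p sx sy 2) p :=
    g.dt.comp_hasFDerivAt p (quot_fderiv g 2)
  exact h

lemma V2_fderiv {p : X3} {sx sy st sc s1 s2 : ℝ} (g : Gen p sx sy st sc s1 s2) :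
    HasFDerivAt (fun q : X3 => V q 2)
      (((s1 - s2) / 2) • QQ p sx sy 1 + ((s1 + s2) / 2 * st) • QQ p sx sy 2) p := by
  have hb := quot_fderiv g 1
  have hc : HasFDerivAt (cw ∘ (fun q : X3 => q 2 / rad q)) (st • QQ p sx sy 2) p :=
    g.dc.comp_hasFDerivAt p (quot_fderiv g 2)
  have hadd : HasFDerivAt (fun q : X3 => q 1 / rad q + cw (q 2 / rad q))
      (QQ p sx sy 1 + st • QQ p sx sy 2) p := hb.add hc
  have hsub : HasFDerivAt (fun q : X3 => q 1 / rad q - cw (q 2 / rad q))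
      (QQ p sx sy 1 - st • QQ p sx sy 2) p := hb.sub hc
  have h1 : HasFDerivAt ((fun y : ℝ => |y|) ∘ (fun q : X3 => q 1 / rad q + cw (q 2 / rad q)))
      (s1 • (QQ p sx sy 1 + st • QQ p sx sy 2)) p := g.d1.comp_hasFDerivAt p hadd
  have h2 : HasFDerivAt ((fun y : ℝ => |y|) ∘ (fun q : X3 => q 1 / rad q - cw (q 2 / rad q)))
      (s2 • (QQ p sx sy 1 - st • QQ p sx sy 2)) p := g.d2.comp_hasFDerivAt p hsub
  have h3 := (h1.sub h2).const_smul (2⁻¹ : ℝ)
  have h4 : (fun q : X3 => V q 2) = fun q : X3 => (2⁻¹ : ℝ) • (|q 1 / rad q + cw (q 2 / rad q)| -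
      |q 1 / rad q - cw (q 2 / rad q)|) := by
    ext q
    change mm _ _ = _
    unfold mm
    rw [smul_eq_mul]; ring
  have h5 : ((s1 - s2) / 2) • QQ p sx sy 1 + ((s1 + s2) / 2 * st) • QQ p sx sy 2 =
      (2⁻¹ : ℝ) • (s1 • (QQ p sx sy 1 + st • QQ p sx sy 2) - s2 • (QQ p sx sy 1 - st • QQ p sx sy 2)) := by
    ext v
    simp only [sub_apply, smul_apply, add_apply, smul_eq_mul]
    ring
  rw [h4, h5]
  exact h3

lemma single_apply_eq (i j : Fin 3) : (Pi.single j (1 : ℝ) : X3) i = if i = j then 1 else 0 :=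
  Pi.single_apply j (1 : ℝ) i

lemma RR_single {sx sy : ℝ} (j : Fin 3) : RR sx sy (Pi.single j 1) = gg sx sy j := by
  unfold RR gg
  simp only [add_apply, smul_apply, ContinuousLinearMap.proj_apply, smul_eq_mul]
  fin_cases j <;> simp

lemma DD_eq {p : X3} {sx sy st sc s1 s2 : ℝ} (g : Gen p sx sy st sc s1 s2) :
    DD p = (lam (rad p) / rad p ^ 2) • MM p sx sy st sc s1 s2 := by
  have hr := g.hr.ne'
  have key : ∀ (i : Fin 3) (L : X3 →L[ℝ] ℝ), HasFDerivAt (fun q : X3 => V q i) L p → ∀ j,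
      DD p i j = (lam (rad p) / rad p ^ 2) * (V p i * gg sx sy j + rad p ^ 2 * L (Pi.single j 1)) := by
    intro i L hL j
    have h1 : HasFDerivAt (fun q : X3 => F q i) _ p := (lam_fderiv g).mul hL
    unfold DD
    rw [h1.fderiv]
    simp only [add_apply, smul_apply, smul_eq_mul, RR_single, Function.comp]
    field_simp
    ring
  have hQ : ∀ i j, rad p ^ 2 * QQ p sx sy i (Pi.single j 1) =
      rad p * (if i = j then 1 else 0) - p i * gg sx sy j := by
    intro i j
    unfold QQ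
    simp only [sub_apply, smul_apply, smul_eq_mul, RR_single, ContinuousLinearMap.proj_apply]
    rw [single_apply_eq]
    field_simp
  ext i j
  rw [Matrix.smul_apply, smul_eq_mul]
  fin_cases i
  · rw [show (⟨0, by norm_num⟩ : Fin 3) = 0 from rfl, key 0 _ (V0_fderiv g) j, hQ]
    congr 1
    unfold MM ww BB V gg
    fin_cases j <;> simp <;> field_simp <;> ring
  · rw [show (⟨1, by norm_num⟩ : Fin 3) = 1 from rfl, key 1 _ (V1_fderiv g) j]
    congr 1
    have h1 : rad p ^ 2 * ((-sc) • QQ p sx sy 2) (Pi.single j 1) =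
        (-sc) * (rad p ^ 2 * QQ p sx sy 2 (Pi.single j 1)) := by
      simp only [smul_apply, smul_eq_mul]; ring
    rw [h1, hQ]
    unfold MM ww BB V gg
    fin_cases j <;> simp <;> ring
  · rw [show (⟨2, by norm_num⟩ : Fin 3) = 2 from rfl, key 2 _ (V2_fderiv g) j]
    congr 1
    have h1 : rad p ^ 2 * (((s1 - s2) / 2) • QQ p sx sy 1 + ((s1 + s2) / 2 * st) • QQ p sx sy 2) (Pi.single j 1) =
        ((s1 - s2) / 2) * (rad p ^ 2 * QQ p sx sy 1 (Pi.single j 1)) +
        ((s1 + s2) / 2 * st) * (rad p ^ 2 * QQ p sx sy 2 (Pi.single j 1)) := by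
      simp only [add_apply, smul_apply, smul_eq_mul]; ring
    rw [h1, hQ, hQ]
    unfold MM ww BB V gg
    fin_cases j <;> simp <;> field_simp <;> ring

end part3

section part4


/-- graphs over the first two coordinates are null sets -/
lemma null_graph (c1 c2 : ℝ) : ∀ᵐ p : X3, p 2 ≠ c1 * p 1 + c2 * rad p := by
  set e := MeasurableEquiv.piFinSuccAbove (fun _ : Fin 3 => ℝ) 2 with he
  have hmp := volume_preserving_piFinSuccAbove (fun _ : Fin 3 => ℝ) 2
  set S : Set (ℝ × (Fin 2 → ℝ)) := {z | z.1 = c1 * z.2 1 + c2 * (|z.2 0| + |z.2 1|)} with hS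
  have hSm : MeasurableSet S := by
    apply measurableSet_eq_fun measurable_fst
    fun_prop
  have hS0 : volume S = 0 := by
    rw [Measure.volume_eq_prod, Measure.prod_apply_symm hSm]
    rw [lintegral_eq_zero_iff']
    · filter_upwards with q
      have : (fun x : ℝ => (x, q)) ⁻¹' S = {c1 * q 1 + c2 * (|q 0| + |q 1|)} := by
        ext t; simp [hS]
      rw [this]; simp
    · exact (measurable_measure_prodMk_right hSm).aemeasurable
  have h1 : volume (e ⁻¹' S) = 0 := by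
    rw [hmp.measure_preimage hSm.nullMeasurableSet, hS0]
  rw [ae_iff]
  convert h1 using 2
  ext p
  simp only [ne_eq, not_not, mem_preimage, hS, mem_ofPred_eq]
  exact Iff.rfl

lemma ae_gen : ∀ᵐ p : X3, ∃ sx sy st sc s1 s2, Gen p sx sy st sc s1 s2 := by
  have h0 : ∀ᵐ p : X3, p 0 ≠ 0 := Measure.ae_eval_ne (fun _ => volume) 0 0
  have h1 : ∀ᵐ p : X3, p 1 ≠ 0 := Measure.ae_eval_ne (fun _ => volume) 1 0
  have h2 : ∀ᵐ p : X3, ∀ k : ℤ, p 2 ≠ 0 * p 1 + k * rad p := ae_all_iff.mpr fun k => null_graph 0 k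
  have h3 : ∀ᵐ p : X3, ∀ k : ℤ, p 2 ≠ 1 * p 1 + k * rad p := ae_all_iff.mpr fun k => null_graph 1 k
  have h4 : ∀ᵐ p : X3, ∀ k : ℤ, p 2 ≠ (-1) * p 1 + k * rad p := ae_all_iff.mpr fun k => null_graph (-1) k
  filter_upwards [h0, h1, h2, h3, h4] with p a0 a1 a2 a3 a4
  have hr : 0 < rad p := by
    unfold rad
    have := abs_pos.mpr a0
    positivity
  have hr0 := hr.ne'
  apply exists_gen a0 a1
  · intro h
    obtain ⟨σ, k, hσ, hk⟩ := tw_form (p 2 / rad p)
    rw [h] at hk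
    rcases hσ with h' | h'
    · apply a2 (-k)
      rw [h'] at hk
      field_simp at hk
      push_cast; linarith
    · apply a2 k
      rw [h'] at hk
      field_simp at hk
      linarith
  · intro h
    obtain ⟨σ, k, hσ, hk⟩ := cw_form (p 2 / rad p)
    rw [h] at hk
    rcases hσ with h' | h'
    · apply a2 (-k)
      rw [h'] at hk
      field_simp at hk
      push_cast; linarith
    · apply a2 k
      rw [h'] at hk
      field_simp at hk
      linarith
  · intro h
    obtain ⟨σ, k, hσ, hk⟩ := cw_form (p 2 / rad p)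
    rw [hk] at h
    rcases hσ with h' | h'
    · apply a4 (-k)
      rw [h'] at h
      field_simp at h
      push_cast; linarith
    · apply a3 k
      rw [h'] at h
      field_simp at h
      linarith
  · intro h
    obtain ⟨σ, k, hσ, hk⟩ := cw_form (p 2 / rad p)
    rw [hk] at h
    rcases hσ with h' | h'
    · apply a3 (-k)
      rw [h'] at h
      field_simp at h
      push_cast; linarith
    · apply a4 k
      rw [h'] at h
      field_simp at h
      linarith

lemma DD_meas (i j : Fin 3) : Measurable (fun p => DD p i j) :=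
  measurable_fderiv_apply_const ℝ (fun q : X3 => F q i) (Pi.single j 1)

lemma F_lipOn (i : Fin 3) : LipschitzOnWith 20 (fun q => F q i) Om := by
  apply LipschitzOnWith.of_dist_le_mul
  intro p hp q hq
  rw [Real.dist_eq, dist_eq_norm]
  exact F_lip hp hq i

lemma Om_open : IsOpen Om := isOpen_ball

lemma DD_le {p : X3} (hp : p ∈ Om) (i j : Fin 3) : |DD p i j| ≤ 20 := by
  have h1 : ‖fderiv ℝ (fun q => F q i) p‖ ≤ 20 := by
    have := norm_fderiv_le_of_lipschitzOn ℝ (Om_open.mem_nhds hp) (F_lipOn i)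
    simpa using this
  rw [← Real.norm_eq_abs]
  calc ‖DD p i j‖ ≤ ‖fderiv ℝ (fun q => F q i) p‖ * ‖(Pi.single j 1 : X3)‖ :=
        ContinuousLinearMap.le_opNorm _ _
    _ ≤ 20 * 1 := by
        gcongr
        rw [pi_norm_le_iff_of_nonneg (by norm_num)]
        intro k
        by_cases h : k = j
        · rw [h]; simp
        · simp [h]
    _ = 20 := by norm_num

lemma F_cont : ContinuousOn F Om := by
  apply continuousOn_pi.mpr
  intro i
  exact (F_lipOn i).continuousOn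

lemma F_abs_le (p : X3) (i : Fin 3) : |F p i| ≤ 1 := by
  unfold F
  rw [abs_mul, abs_of_nonneg (lam_nonneg _)]
  have h1 : lam (rad p) ≤ 1 := by
    rcases (rad_nonneg p).eq_or_lt with h | h
    · rw [← h, lam_zero]; norm_num
    · exact lam_le_one h
  calc lam (rad p) * |V p i| ≤ 1 * 1 := by
        gcongr
        exact V_le p i
    _ = 1 := by norm_num

instance : IsFiniteMeasure ((volume : Measure X3).restrict Om) :=
  ⟨by rw [Measure.restrict_apply_univ]; exact measure_ball_lt_top⟩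

lemma F_memLp (i : Fin 3) (q : ℝ≥0∞) : MemLp (fun x => F x i) q (volume.restrict Om) := by
  apply MemLp.of_bound ((F_lipOn i).continuousOn.aestronglyMeasurable Om_open.measurableSet) 1
  filter_upwards with x
  exact F_abs_le x i

lemma DD_memLp (i j : Fin 3) (q : ℝ≥0∞) : MemLp (fun x => DD x i j) q (volume.restrict Om) := by
  apply MemLp.of_bound (DD_meas i j).aestronglyMeasurable 20
  filter_upwards [ae_restrict_mem Om_open.measurableSet] with x hx
  exact DD_le hx i j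

/-- integration by parts -/
lemma F_weak {φ : X3 → ℝ} (hφ : ContDiff ℝ ((⊤ : ℕ∞) : WithTop ℕ∞) φ) (hc : HasCompactSupport φ)
    (hs : tsupport φ ⊆ Om) (i j : Fin 3) :
    ∫ x in Om, F x i * fderiv ℝ φ x (Pi.single j 1) = - ∫ x in Om, DD x i j * φ x := by
  obtain ⟨G, hG, hGe⟩ := (F_lipOn i).extend_real
  obtain ⟨D, hD⟩ : ∃ D, LipschitzWith D φ := by
    have := hφ.of_le (m := 1) (by exact_mod_cast le_top)
    exact this.lipschitzWith_of_hasCompactSupport hc (by norm_num)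
  have hzero : ∀ x, x ∉ Om → φ x = 0 := fun x hx =>
    image_eq_zero_of_notMem_tsupport fun h => hx (hs h)
  have hdzero : ∀ x, x ∉ Om → fderiv ℝ φ x (Pi.single j 1) = 0 := by
    intro x hx
    have : x ∉ tsupport (fderiv ℝ φ) := fun h => hx (hs (tsupport_fderiv_subset ℝ h))
    rw [image_eq_zero_of_notMem_tsupport this]; rfl
  have key := hG.integral_lineDeriv_mul_eq (μ := (volume : Measure X3)) hD hc (Pi.single j 1)
  have e1 : ∫ x in Om, F x i * fderiv ℝ φ x (Pi.single j 1) = ∫ x, G x * fderiv ℝ φ x (Pi.single j 1) := by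
    rw [← setIntegral_eq_integral_of_forall_compl_eq_zero (s := Om)
      (f := fun x => G x * fderiv ℝ φ x (Pi.single j 1))]
    · apply setIntegral_congr_fun Om_open.measurableSet
      intro x hx
      have h1 : F x i = G x := hGe hx
      change F x i * _ = G x * _
      rw [h1]
    · intro x hx; rw [hdzero x hx, mul_zero]
  have e2 : ∫ x in Om, DD x i j * φ x = ∫ x, lineDeriv ℝ G x (Pi.single j 1) * φ x := by
    rw [← setIntegral_eq_integral_of_forall_compl_eq_zero (s := Om)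
      (f := fun x => lineDeriv ℝ G x (Pi.single j 1) * φ x)]
    · apply setIntegral_congr_ae Om_open.measurableSet
      filter_upwards [hG.ae_differentiableAt (μ := (volume : Measure X3))] with x hx hxO
      have hev : (fun q => F q i) =ᶠ[𝓝 x] G := by
        filter_upwards [Om_open.mem_nhds hxO] with y hy using hGe hy
      unfold DD
      rw [hev.fderiv_eq, hx.lineDeriv_eq_fderiv]
    · intro x hx; rw [hzero x hx, mul_zero]
  have e3 : ∫ x, lineDeriv ℝ φ x (-(Pi.single j 1)) * G x = - ∫ x, G x * fderiv ℝ φ x (Pi.single j 1) := by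
    rw [← integral_neg]
    congr 1; ext1 x
    rw [(hφ.differentiable (by simp) x).lineDeriv_eq_fderiv, map_neg]; ring
  rw [e1, e2, key, e3, neg_neg]

lemma DD_det {p : X3} {sx sy st sc s1 s2 : ℝ} (g : Gen p sx sy st sc s1 s2) :
    (DD p).det = (lam (rad p) / rad p ^ 2) ^ 3 * rad p ^ 2 := by
  rw [DD_eq g, Matrix.det_smul, MM_det g]
  simp

lemma DD_det_pos {p : X3} {sx sy st sc s1 s2 : ℝ} (g : Gen p sx sy st sc s1 s2) :
    0 < (DD p).det := by
  rw [DD_det g]
  have h1 := g.hr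
  have h2 := lam_pos h1
  positivity

lemma DD_adj {p : X3} (hp : p ∈ Om) {sx sy st sc s1 s2 : ℝ} (g : Gen p sx sy st sc s1 s2) (i j : Fin 3) :
    |(DD p).adjugate i j| ≤ (lam (rad p) / rad p ^ 2) ^ 2 * (32 * rad p) := by
  have hl := lam_nonneg (rad p)
  have hr := rad_nonneg p
  rw [DD_eq g, Matrix.adjugate_smul]
  simp only [Fintype.card_fin, Matrix.smul_apply, smul_eq_mul]
  rw [abs_mul, abs_of_nonneg (by positivity)]
  exact mul_le_mul_of_nonneg_left (adj_le hp g i j) (by positivity)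

/-- the inner distortion -/
def KI (p : X3) : ℝ :=
  if 0 < (DD p).det then
    (∑ i, ∑ j, ((DD p).adjugate i j) ^ 2) ^ (((3 : ℕ) : ℝ) / 2) / ((DD p).det) ^ (3 - 1)
  else 1

lemma KI_nonneg (p : X3) : 0 ≤ KI p := by
  unfold KI
  split_ifs
  · apply div_nonneg
    · apply Real.rpow_nonneg
      exact Finset.sum_nonneg fun i _ => Finset.sum_nonneg fun j _ => sq_nonneg _
    · positivity
  · norm_num

lemma KI_le {p : X3} (hp : p ∈ Om) {sx sy st sc s1 s2 : ℝ} (g : Gen p sx sy st sc s1 s2) :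
    KI p ≤ 96 ^ 3 / rad p := by
  have hr := g.hr
  have hlam := lam_pos hr
  have hdet := DD_det_pos g
  unfold KI
  rw [if_pos hdet]
  set c := lam (rad p) / rad p ^ 2 with hc
  have hcpos : 0 < c := by positivity
  have hS : (∑ i, ∑ j, ((DD p).adjugate i j) ^ 2) ≤ (c ^ 2 * (96 * rad p)) ^ 2 := by
    calc (∑ i, ∑ j, ((DD p).adjugate i j) ^ 2) ≤
          ∑ i : Fin 3, ∑ j : Fin 3, (c ^ 2 * (32 * rad p)) ^ 2 := by
          apply Finset.sum_le_sum; intro i _
          apply Finset.sum_le_sum; intro j _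
          rw [← sq_abs]
          exact pow_le_pow_left₀ (abs_nonneg _) (DD_adj hp g i j) 2
      _ = (c ^ 2 * (96 * rad p)) ^ 2 := by
          simp only [Finset.sum_const, Finset.card_univ, Fintype.card_fin, nsmul_eq_mul]
          push_cast; ring
  have hS0 : 0 ≤ (∑ i, ∑ j, ((DD p).adjugate i j) ^ 2) :=
    Finset.sum_nonneg fun i _ => Finset.sum_nonneg fun j _ => sq_nonneg _
  have hpow : (∑ i, ∑ j, ((DD p).adjugate i j) ^ 2) ^ (((3 : ℕ) : ℝ) / 2) ≤
      (c ^ 2 * (96 * rad p)) ^ 3 := by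
    calc _ ≤ ((c ^ 2 * (96 * rad p)) ^ 2) ^ (((3 : ℕ) : ℝ) / 2) :=
          Real.rpow_le_rpow hS0 hS (by norm_num)
      _ = (c ^ 2 * (96 * rad p)) ^ 3 := by
          rw [← Real.rpow_natCast (c ^ 2 * (96 * rad p)) 2, ← Real.rpow_mul (by positivity),
            ← Real.rpow_natCast (c ^ 2 * (96 * rad p)) 3]
          congr 1
          norm_num
  rw [DD_det g, ← hc]
  calc _ ≤ (c ^ 2 * (96 * rad p)) ^ 3 / (c ^ 3 * rad p ^ 2) ^ (3 - 1) := by
        gcongr
    _ = 96 ^ 3 / rad p := by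
        rw [show 3 - 1 = 2 from rfl]
        field_simp

end part4

section part5


lemma integrable_abs_rpow : IntegrableOn (fun x : ℝ => |x| ^ (-(3 / 4) : ℝ)) (Ioo (-1) 1) := by
  have h1 : IntervalIntegrable (fun x : ℝ => |x| ^ (-(3 / 4) : ℝ)) volume 0 1 := by
    have h := intervalIntegral.intervalIntegrable_rpow' (a := 0) (b := 1)
      (r := (-(3 / 4) : ℝ)) (by norm_num)
    refine h.congr ?_
    rw [uIoc_of_le (by norm_num)]
    intro x hx
    change x ^ (-(3 / 4) : ℝ) = |x| ^ (-(3 / 4) : ℝ)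
    rw [abs_of_pos hx.1]
  have h2 : IntervalIntegrable (fun x : ℝ => |x| ^ (-(3 / 4) : ℝ)) volume 0 (-1) := by
    have h := (IntervalIntegrable.iff_comp_neg (f := fun x : ℝ => |x| ^ (-(3 / 4) : ℝ))
      (a := 0) (b := 1)).mp h1
    simpa using h
  have h3 := h2.symm.trans h1
  rw [intervalIntegrable_iff_integrableOn_Ioo_of_le (by norm_num)] at h3
  exact h3

lemma Om_eq : Om = Set.univ.pi (fun _ : Fin 3 => Ioo (-1 : ℝ) 1) := by
  ext p
  rw [Om, mem_ball_zero_iff, pi_norm_lt_iff (by norm_num)]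
  simp only [mem_univ_pi, mem_Ioo, Real.norm_eq_abs, abs_lt]

lemma integrable_prod : IntegrableOn
    (fun p : X3 => |p 0| ^ (-(3 / 4) : ℝ) * |p 1| ^ (-(3 / 4) : ℝ)) Om := by
  have h := Integrable.fintype_prod (ι := Fin 3) (E := ℝ)
    (f := ![fun x : ℝ => |x| ^ (-(3 / 4) : ℝ), fun x : ℝ => |x| ^ (-(3 / 4) : ℝ), fun _ => (1 : ℝ)])
    (μ := fun _ => (volume : Measure ℝ).restrict (Ioo (-1) 1)) (by
      intro i
      fin_cases i
      · exact integrable_abs_rpow
      · exact integrable_abs_rpow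
      · exact integrable_const _)
  unfold IntegrableOn
  rw [Om_eq, volume_pi, Measure.restrict_pi_pi]
  refine h.congr ?_
  filter_upwards with p
  simp [Fin.prod_univ_three]

lemma rad_memLp : MemLp (fun p => (96 : ℝ) ^ 3 / rad p) (ENNReal.ofReal (3 / 2)) (volume.restrict Om) := by
  have hradm : Measurable rad := by
    unfold rad
    fun_prop
  have hm : AEStronglyMeasurable (fun p => (96 : ℝ) ^ 3 / rad p) (volume.restrict Om) :=
    (measurable_const.div hradm).aestronglyMeasurable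
  rw [← integrable_norm_rpow_iff hm (by simp) ENNReal.ofReal_ne_top]
  rw [ENNReal.toReal_ofReal (by norm_num)]
  have hi := integrable_prod.const_mul (((96 : ℝ) ^ 3) ^ (3 / 2 : ℝ))
  refine hi.mono' ?_ ?_
  · exact ((measurable_const.div hradm).norm.pow_const _).aestronglyMeasurable
  · apply ae_restrict_of_ae
    filter_upwards [ae_gen] with p hg
    obtain ⟨sx, sy, st, sc, s1, s2, g⟩ := hg
    have hr := g.hr
    have h0 : 0 < |p 0| := by
      apply abs_pos.mpr
      intro h; have := g.px; rw [h, mul_zero] at this; exact lt_irrefl _ this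
    have h1 : 0 < |p 1| := by
      apply abs_pos.mpr
      intro h; have := g.py; rw [h, mul_zero] at this; exact lt_irrefl _ this
    rw [Real.norm_of_nonneg (Real.rpow_nonneg (norm_nonneg _) _), Real.norm_of_nonneg (by positivity),
      Real.div_rpow (by positivity) hr.le, div_eq_mul_inv]
    apply mul_le_mul_of_nonneg_left _ (by positivity)
    rw [← Real.rpow_neg hr.le]
    have e : (-(3 / 2) : ℝ) = -(3 / 4) + -(3 / 4) := by norm_num
    rw [e, Real.rpow_add hr]
    have a0 : |p 0| ≤ rad p := by unfold rad; linarith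
    have a1 : |p 1| ≤ rad p := by unfold rad; linarith
    apply mul_le_mul
    · exact Real.rpow_le_rpow_of_nonpos h0 a0 (by norm_num)
    · exact Real.rpow_le_rpow_of_nonpos h1 a1 (by norm_num)
    · positivity
    · positivity

lemma KI_meas : Measurable KI := by
  have hdet : Measurable (fun p => (DD p).det) := by
    have : (fun p => (DD p).det) = fun p => DD p 0 0 * DD p 1 1 * DD p 2 2 - DD p 0 0 * DD p 1 2 * DD p 2 1
      - DD p 0 1 * DD p 1 0 * DD p 2 2 + DD p 0 1 * DD p 1 2 * DD p 2 0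
      + DD p 0 2 * DD p 1 0 * DD p 2 1 - DD p 0 2 * DD p 1 1 * DD p 2 0 := by
      ext p; rw [Matrix.det_fin_three]
    rw [this]
    have := DD_meas
    fun_prop
  have hadj : ∀ i j, Measurable (fun p => (DD p).adjugate i j) := by
    intro i j
    have hm := DD_meas
    simp only [Matrix.adjugate_fin_three]
    fin_cases i <;> fin_cases j <;>
    simp only [Matrix.of_apply, Matrix.cons_val', Matrix.cons_val_zero, Matrix.cons_val_one,
      Matrix.cons_val, Fin.zero_eta, Fin.mk_one, Fin.reduceFinMk] <;> fun_prop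
  unfold KI
  apply Measurable.ite
  · exact measurableSet_lt measurable_const hdet
  · apply Measurable.div
    · apply Measurable.pow_const
      apply Finset.measurable_fun_sum
      intro i _
      apply Finset.measurable_fun_sum
      intro j _
      exact (hadj i j).pow_const 2
    · exact hdet.pow_const _
  · exact measurable_const

lemma KI_memLp : MemLp KI (ENNReal.ofReal (3 / 2)) (volume.restrict Om) := by
  apply rad_memLp.mono' KI_meas.aestronglyMeasurable
  filter_upwards [ae_restrict_mem Om_open.measurableSet, ae_restrict_of_ae ae_gen] with p hp hg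
  obtain ⟨sx, sy, st, sc, s1, s2, g⟩ := hg
  rw [Real.norm_of_nonneg (KI_nonneg p)]
  exact KI_le hp g

lemma F_at (t : ℝ) : F ![0, 0, t] = 0 := by
  ext i
  apply F_zero
  simp [rad]

lemma F_nonzero : F ![1 / 2, 0, 0] 0 ≠ 0 := by
  have hr : rad ![1 / 2, 0, 0] = 1 / 2 := by
    simp [rad]
  have h1 : F ![1 / 2, 0, 0] 0 = lam (1 / 2) := by
    unfold F V
    rw [hr]
    simp
  rw [h1]
  exact (lam_pos (by norm_num)).ne'

theorem main : ¬ (∀ (n : ℕ), 3 ≤ n → ∀ (Ω : Set (Fin n → ℝ)), IsOpen Ω → IsConnected Ω →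
  ∀ (f : (Fin n → ℝ) → (Fin n → ℝ)) (D : (Fin n → ℝ) → Matrix (Fin n) (Fin n) ℝ) (p : ℝ),
    ContinuousOn f Ω →
    (∀ i, MemLp (fun x => f x i) ((n : ℕ) : ENNReal) (volume.restrict Ω)) →
    (∀ i j, MemLp (fun x => D x i j) ((n : ℕ) : ENNReal) (volume.restrict Ω)) →
    (∀ φ : (Fin n → ℝ) → ℝ, ContDiff ℝ ((⊤ : ℕ∞) : WithTop ℕ∞) φ → HasCompactSupport φ →
      tsupport φ ⊆ Ω →
      ∀ i j, ∫ x in Ω, f x i * fderiv ℝ φ x (Pi.single j 1) = - ∫ x in Ω, D x i j * φ x) →
    (∀ᵐ x ∂(volume.restrict Ω), 0 ≤ (D x).det ∧ ((D x).det = 0 → D x = 0)) →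
    1 < p →
    MemLp (fun x => if 0 < (D x).det then
        (∑ i, ∑ j, ((D x).adjugate i j) ^ 2) ^ ((n : ℝ) / 2) / ((D x).det) ^ (n - 1)
      else 1) (ENNReal.ofReal p) (volume.restrict Ω) →
    (¬ ∃ c, ∀ x ∈ Ω, f x = c) →
    (∀ U ⊆ Ω, IsOpen U → IsOpen (f '' U)) ∧
    (∀ x ∈ Ω, ∃ ε > 0, ∀ y ∈ Ω, dist y x < ε → f y = f x → y = x)) := by
  intro H
  have hconn : IsConnected Om := by
    refine ⟨⟨0, by simp [Om]⟩, (convex_ball (0 : X3) 1).isPreconnected⟩
  have h := H 3 le_rfl Om Om_open hconn F DD (3 / 2) F_cont (fun i => F_memLp i _)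
    (fun i j => DD_memLp i j _) (fun φ hφ hc hs i j => F_weak hφ hc hs i j) ?_ (by norm_num)
    KI_memLp ?_
  · obtain ⟨-, hdisc⟩ := h
    obtain ⟨ε, hε, hiso⟩ := hdisc 0 (by simp [Om])
    set t : ℝ := min (ε / 2) (1 / 2) with ht
    have ht0 : 0 < t := by positivity
    have hnorm : ‖(![0, 0, t] : X3)‖ = t := by
      apply le_antisymm
      · rw [pi_norm_le_iff_of_nonneg ht0.le]
        intro i
        fin_cases i
        · simp [ht0.le]
        · simp [ht0.le]
        · simp [abs_of_pos ht0]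
      · have := norm_le_pi_norm (![0, 0, t] : X3) 2
        simpa [abs_of_pos ht0] using this
    have h1 := hiso ![0, 0, t] (by
      rw [Om, mem_ball_zero_iff, hnorm]
      exact (min_le_right _ _).trans_lt (by norm_num)) (by
      rw [dist_zero_right, hnorm]
      exact (min_le_left _ _).trans_lt (by linarith)) (by
      have h2 : F 0 = 0 := by
        have := F_at 0
        have h3 : (![0, 0, 0] : X3) = 0 := by ext i; fin_cases i <;> rfl
        rwa [h3] at this
      rw [F_at, h2])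
    have h2 := congrFun h1 2
    simp at h2
    exact ht0.ne' h2
  · filter_upwards [ae_restrict_of_ae ae_gen] with p hg
    obtain ⟨sx, sy, st, sc, s1, s2, g⟩ := hg
    have := DD_det_pos g
    exact ⟨this.le, fun h => absurd h this.ne'⟩
  · rintro ⟨c, hc⟩
    have h1 := hc 0 (by simp [Om])
    have h2 := hc ![1 / 2, 0, 0] (by
      rw [Om, mem_ball_zero_iff, pi_norm_lt_iff (by norm_num)]
      intro i
      fin_cases i <;> simp <;> norm_num)
    have h3 : F 0 = 0 := by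
      have := F_at 0
      have h3 : (![0, 0, 0] : X3) = 0 := by ext i; fin_cases i <;> rfl
      rwa [h3] at this
    apply F_nonzero
    rw [h2, ← h1, h3]; rfl

end part5

end

end Pool.Agent.Helper795.InnerDist
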