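import Pool.Agent.Helper795.InnerDist
import Pool.Agent.Helper795.InnerDefs

/-!
The map of `InnerDist.lean`, with the inner distortion for the operator norm and all exponents
`p < 2`.
-/

set_option autoImplicit false
set_option linter.all false

open MeasureTheory Set Filter Topology Metric
open scoped ENNReal NNReal

namespace Pool.Agent.Helper795.InnerDist

open Pool.Agent.Helper795.InnerDefs

lemma opn_nonneg {n : ℕ} (A : Matrix (Fin n) (Fin n) ℝ) : 0 ≤ opn A := norm_nonneg _

lemma opn_le_frob {n : ℕ} (A : Matrix (Fin n) (Fin n) ℝ) :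
    opn A ≤ Real.sqrt (∑ i, ∑ j, (A i j) ^ 2) := by
  unfold opn
  refine ContinuousLinearMap.opNorm_le_bound _ (Real.sqrt_nonneg _) fun x => ?_
  rw [EuclideanSpace.norm_eq, EuclideanSpace.norm_eq, ← Real.sqrt_mul
    (Finset.sum_nonneg fun i _ => Finset.sum_nonneg fun j _ => sq_nonneg _)]
  apply Real.sqrt_le_sqrt
  rw [Finset.sum_mul]
  apply Finset.sum_le_sum
  intro i _
  have h1 : (Matrix.toEuclideanCLM (n := Fin n) (𝕜 := ℝ) A x) i = ∑ j, A i j * x j := by
    rfl
  rw [h1]
  simp only [Real.norm_eq_abs, sq_abs]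
  exact Finset.sum_mul_sq_le_sq_mul_sq _ _ _

lemma measurable_opn {α : Type} [MeasurableSpace α] {n : ℕ}
    (A : α → Matrix (Fin n) (Fin n) ℝ) (hA : ∀ i j, Measurable fun x => A x i j) :
    Measurable fun x => opn (A x) := by
  let L : (Fin n → Fin n → ℝ) →ₗ[ℝ] (EuclideanSpace ℝ (Fin n) →L[ℝ] EuclideanSpace ℝ (Fin n)) :=
    { toFun := fun B => Matrix.toEuclideanCLM (n := Fin n) (𝕜 := ℝ) (Matrix.of B)
      map_add' := fun B C => map_add (Matrix.toEuclideanCLM (n := Fin n) (𝕜 := ℝ)) (Matrix.of B)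
        (Matrix.of C)
      map_smul' := fun c B => map_smul (Matrix.toEuclideanCLM (n := Fin n) (𝕜 := ℝ)) c
        (Matrix.of B) }
  have hL : Continuous fun B => ‖L B‖ := (LinearMap.continuous_of_finiteDimensional L).norm
  have hm : Measurable fun x => (fun i j => A x i j : Fin n → Fin n → ℝ) :=
    measurable_pi_iff.2 fun i => measurable_pi_iff.2 fun j => hA i j
  exact hL.measurable.comp hm

lemma DD_det_meas : Measurable (fun p => (DD p).det) := by
  have : (fun p => (DD p).det) = fun p => DD p 0 0 * DD p 1 1 * DD p 2 2 - DD p 0 0 * DD p 1 2 * DD p 2 1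
    - DD p 0 1 * DD p 1 0 * DD p 2 2 + DD p 0 1 * DD p 1 2 * DD p 2 0
    + DD p 0 2 * DD p 1 0 * DD p 2 1 - DD p 0 2 * DD p 1 1 * DD p 2 0 := by
    ext p; rw [Matrix.det_fin_three]
  rw [this]
  have := DD_meas
  fun_prop

lemma DD_adj_meas : ∀ i j, Measurable (fun p => (DD p).adjugate i j) := by
  intro i j
  have hm := DD_meas
  simp only [Matrix.adjugate_fin_three]
  fin_cases i <;> fin_cases j <;>
  simp only [Matrix.of_apply, Matrix.cons_val', Matrix.cons_val_zero, Matrix.cons_val_one,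
    Matrix.cons_val, Fin.zero_eta, Fin.mk_one, Fin.reduceFinMk] <;> fun_prop

lemma inner_meas : Measurable fun p => innerDistortion (DD p) := by
  unfold innerDistortion
  apply Measurable.ite
  · exact measurableSet_lt measurable_const DD_det_meas
  · exact ((measurable_opn _ DD_adj_meas).pow_const _).div (DD_det_meas.pow_const _)
  · exact measurable_const

lemma inner_nonneg (p : X3) : 0 ≤ innerDistortion (DD p) := by
  unfold innerDistortion
  split_ifs with h
  · exact div_nonneg (pow_nonneg (opn_nonneg _) _) (pow_nonneg h.le _)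
  · norm_num

lemma inner_le_KI (p : X3) : innerDistortion (DD p) ≤ KI p := by
  unfold innerDistortion KI
  split_ifs with h
  · apply div_le_div_of_nonneg_right _ (pow_nonneg h.le _)
    have h0 : (0 : ℝ) ≤ ∑ i, ∑ j, ((DD p).adjugate i j) ^ 2 :=
      Finset.sum_nonneg fun i _ => Finset.sum_nonneg fun j _ => sq_nonneg _
    calc opn (DD p).adjugate ^ 3 ≤ (Real.sqrt (∑ i, ∑ j, ((DD p).adjugate i j) ^ 2)) ^ 3 :=
          pow_le_pow_left₀ (opn_nonneg _) (opn_le_frob _) 3
      _ = (∑ i, ∑ j, ((DD p).adjugate i j) ^ 2) ^ (((3 : ℕ) : ℝ) / 2) := by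
          rw [Real.sqrt_eq_rpow, ← Real.rpow_natCast, ← Real.rpow_mul h0]
          congr 1
          norm_num
  · exact le_rfl

lemma integrable_abs_rpow' {p : ℝ} (hp : p < 2) :
    IntegrableOn (fun x : ℝ => |x| ^ (-(p / 2) : ℝ)) (Ioo (-1) 1) := by
  have h1 : IntervalIntegrable (fun x : ℝ => |x| ^ (-(p / 2) : ℝ)) volume 0 1 := by
    have h := intervalIntegral.intervalIntegrable_rpow' (a := 0) (b := 1)
      (r := (-(p / 2) : ℝ)) (by linarith)
    refine h.congr ?_
    rw [uIoc_of_le (by norm_num)]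
    intro x hx
    change x ^ (-(p / 2) : ℝ) = |x| ^ (-(p / 2) : ℝ)
    rw [abs_of_pos hx.1]
  have h2 : IntervalIntegrable (fun x : ℝ => |x| ^ (-(p / 2) : ℝ)) volume 0 (-1) := by
    have h := (IntervalIntegrable.iff_comp_neg (f := fun x : ℝ => |x| ^ (-(p / 2) : ℝ))
      (a := 0) (b := 1)).mp h1
    simpa using h
  have h3 := h2.symm.trans h1
  rw [intervalIntegrable_iff_integrableOn_Ioo_of_le (by norm_num)] at h3
  exact h3

lemma integrable_prod' {q : ℝ} (hq : q < 2) : IntegrableOn
    (fun p : X3 => |p 0| ^ (-(q / 2) : ℝ) * |p 1| ^ (-(q / 2) : ℝ)) Om := by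
  have h := Integrable.fintype_prod (ι := Fin 3) (E := ℝ)
    (f := ![fun x : ℝ => |x| ^ (-(q / 2) : ℝ), fun x : ℝ => |x| ^ (-(q / 2) : ℝ), fun _ => (1 : ℝ)])
    (μ := fun _ => (volume : Measure ℝ).restrict (Ioo (-1) 1)) (by
      intro i
      fin_cases i
      · exact integrable_abs_rpow' hq
      · exact integrable_abs_rpow' hq
      · exact integrable_const _)
  unfold IntegrableOn
  rw [Om_eq, volume_pi, Measure.restrict_pi_pi]
  refine h.congr ?_
  filter_upwards with p
  simp [Fin.prod_univ_three]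

lemma rad_memLp' {q : ℝ} (hq1 : 1 ≤ q) (hq : q < 2) :
    MemLp (fun p => (96 : ℝ) ^ 3 / rad p) (ENNReal.ofReal q) (volume.restrict Om) := by
  have hradm : Measurable rad := by
    unfold rad
    fun_prop
  have hm : AEStronglyMeasurable (fun p => (96 : ℝ) ^ 3 / rad p) (volume.restrict Om) :=
    (measurable_const.div hradm).aestronglyMeasurable
  have hq0 : 0 < q := by linarith
  rw [← integrable_norm_rpow_iff hm (by simpa using hq0) ENNReal.ofReal_ne_top]
  rw [ENNReal.toReal_ofReal hq0.le]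
  have hi := (integrable_prod' hq).const_mul (((96 : ℝ) ^ 3) ^ q)
  refine hi.mono' ?_ ?_
  · exact ((measurable_const.div hradm).norm.pow_const _).aestronglyMeasurable
  · apply ae_restrict_of_ae
    filter_upwards [ae_gen] with p hg
    obtain ⟨sx, sy, st, sc, s1, s2, g⟩ := hg
    have hr := g.hr
    have h0 : 0 < |p 0| := by
      apply abs_pos.mpr
      intro h; have := g.px; rw [h, mul_zero] at this; exact lt_irrefl _ this
    have h1 : 0 < |p 1| := by
      apply abs_pos.mpr
      intro h; have := g.py; rw [h, mul_zero] at this; exact lt_irrefl _ this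
    rw [Real.norm_of_nonneg (Real.rpow_nonneg (norm_nonneg _) _), Real.norm_of_nonneg (by positivity),
      Real.div_rpow (by positivity) hr.le, div_eq_mul_inv]
    apply mul_le_mul_of_nonneg_left _ (by positivity)
    rw [← Real.rpow_neg hr.le]
    have e : (-q : ℝ) = -(q / 2) + -(q / 2) := by ring
    rw [e, Real.rpow_add hr]
    have a0 : |p 0| ≤ rad p := by unfold rad; linarith [abs_nonneg (p 1)]
    have a1 : |p 1| ≤ rad p := by unfold rad; linarith [abs_nonneg (p 0)]
    apply mul_le_mul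
    · exact Real.rpow_le_rpow_of_nonpos h0 a0 (by linarith)
    · exact Real.rpow_le_rpow_of_nonpos h1 a1 (by linarith)
    · positivity
    · positivity

lemma inner_memLp {q : ℝ} (hq1 : 1 ≤ q) (hq : q < 2) :
    MemLp (fun p => innerDistortion (DD p)) (ENNReal.ofReal q) (volume.restrict Om) := by
  apply (rad_memLp' hq1 hq).mono' inner_meas.aestronglyMeasurable
  filter_upwards [ae_restrict_mem Om_open.measurableSet, ae_restrict_of_ae ae_gen] with p hp hg
  obtain ⟨sx, sy, st, sc, s1, s2, g⟩ := hg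
  rw [Real.norm_of_nonneg (inner_nonneg p)]
  exact (inner_le_KI p).trans (KI_le hp g)

lemma ae_det_pos : ∀ᵐ x ∂(volume.restrict Om), 0 < (DD x).det := by
  filter_upwards [ae_restrict_of_ae ae_gen] with p hg
  obtain ⟨sx, sy, st, sc, s1, s2, g⟩ := hg
  exact DD_det_pos g

lemma F_lipschitz : LipschitzOnWith 20 F Om := by
  apply LipschitzOnWith.of_dist_le_mul
  intro p hp q hq
  rw [dist_pi_le_iff (by positivity)]
  intro i
  exact (F_lipOn i).dist_le_mul p hp q hq

lemma F_nonconst : ¬ ∃ c, ∀ x ∈ Om, F x = c := by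
  rintro ⟨c, hc⟩
  have h1 := hc 0 (by simp [Om])
  have h2 := hc ![1 / 2, 0, 0] (by
    rw [Om, mem_ball_zero_iff, pi_norm_lt_iff (by norm_num)]
    intro i
    fin_cases i <;> simp <;> norm_num)
  have h3 : F 0 = 0 := by
    have := F_at 0
    have h3 : (![0, 0, 0] : X3) = 0 := by ext i; fin_cases i <;> rfl
    rwa [h3] at this
  apply F_nonzero
  rw [h2, ← h1, h3]; rfl

lemma F_finiteDistortion : IsFiniteDistortion Om F DD where
  cont := F_cont
  memLp := fun i => F_memLp i _
  memLp_diff := fun i j => DD_memLp i j _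
  weak := fun φ hφ hc hs i j => F_weak hφ hc hs i j
  det_nonneg := ae_det_pos.mono fun x hx => hx.le
  distortion := by
    refine ⟨fun x => max 1 (opn (DD x) ^ 3 / (DD x).det), ?_, fun x => le_max_left _ _, ?_⟩
    · exact measurable_const.max
        (((measurable_opn _ DD_meas).pow_const _).div DD_det_meas)
    · filter_upwards [ae_det_pos] with x hx
      rw [← div_le_iff₀ hx]
      exact le_max_right _ _

lemma F_not_discrete : ¬ IsDiscreteOn Om F := by
  intro hdisc
  obtain ⟨ε, hε, hiso⟩ := hdisc 0 (by simp [Om])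
  set t : ℝ := min (ε / 2) (1 / 2) with ht
  have ht0 : 0 < t := by positivity
  have hnorm : ‖(![0, 0, t] : X3)‖ = t := by
    apply le_antisymm
    · rw [pi_norm_le_iff_of_nonneg ht0.le]
      intro i
      fin_cases i
      · simp [ht0.le]
      · simp [ht0.le]
      · simp [abs_of_pos ht0]
    · have := norm_le_pi_norm (![0, 0, t] : X3) 2
      simpa [abs_of_pos ht0] using this
  have h1 := hiso ![0, 0, t] (by
    rw [Om, mem_ball_zero_iff, hnorm]
    exact (min_le_right _ _).trans_lt (by norm_num)) (by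
    rw [dist_zero_right, hnorm]
    exact (min_le_left _ _).trans_lt (by linarith)) (by
    have h2 : F 0 = 0 := by
      have := F_at 0
      have h3 : (![0, 0, 0] : X3) = 0 := by ext i; fin_cases i <;> rfl
      rwa [h3] at this
    rw [F_at, h2])
  have h2 := congrFun h1 2
  simp at h2
  exact ht0.ne' h2

/-- There is a Lipschitz map of the cube with `J > 0` a.e. and `K_I ∈ L^p` for every `p < 2` which
sends a segment to a point. -/
theorem main_op : ∃ (f : (Fin 3 → ℝ) → Fin 3 → ℝ) (D : (Fin 3 → ℝ) → Matrix (Fin 3) (Fin 3) ℝ),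
    IsFiniteDistortion (ball 0 1) f D ∧
    (∃ L : ℝ≥0, LipschitzOnWith L f (ball 0 1)) ∧
    (∀ᵐ x ∂(volume.restrict (ball (0 : Fin 3 → ℝ) 1)), 0 < (D x).det) ∧
    (∀ p : ℝ, 1 ≤ p → p < 2 →
      MemLp (fun x => innerDistortion (D x)) (ENNReal.ofReal p)
        (volume.restrict (ball (0 : Fin 3 → ℝ) 1))) ∧
    (¬ ∃ c, ∀ x ∈ ball (0 : Fin 3 → ℝ) 1, f x = c) ∧
    (∀ t : ℝ, f ![0, 0, t] = 0) ∧
    ¬ IsDiscreteOn (ball 0 1) f :=
  ⟨F, DD, F_finiteDistortion, ⟨20, F_lipschitz⟩, ae_det_pos, fun p h1 h2 => inner_memLp h1 h2,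
    F_nonconst, F_at, F_not_discrete⟩

end Pool.Agent.Helper795.InnerDist
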