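import Mathlib

/-!
# Pseudomonotone maps and weak differentials: definitions
-/

set_option autoImplicit false

open MeasureTheory

namespace Pool.Agent.Helper795.PMDefs

/-- The Euclidean space `ℝⁿ`. -/
abbrev E (n : ℕ) : Type := EuclideanSpace ℝ (Fin n)

/-- `D` is the weak differential of the continuous map `f` on `Ω`: it is locally integrable on `Ω`
and `∫ fᵢ ∂ᵥφ = - ∫ (D v)ᵢ φ` for smooth `φ` with compact support in `Ω`, every vector `v` and
every coordinate `i`. -/
def IsWeakDifferential {n : ℕ} (Ω : Set (E n)) (f : E n → E n) (D : E n → (E n →L[ℝ] E n)) :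
    Prop :=
  LocallyIntegrableOn D Ω ∧
  ∀ φ : E n → ℝ, ContDiff ℝ ((⊤ : ℕ∞) : WithTop ℕ∞) φ → HasCompactSupport φ → tsupport φ ⊆ Ω →
    ∀ (v : E n) (i : Fin n), ∫ x, f x i * fderiv ℝ φ x v = - ∫ x, D x v i * φ x

/-- `f` is `κ`-pseudomonotone on `Ω`: the diameter of the image of a closed ball in `Ω` is at most
`κ` times the diameter of the image of its boundary sphere. For `κ = 1` this is monotonicity. -/
def IsPseudomonotone {n : ℕ} (κ : ℝ) (Ω : Set (E n)) (f : E n → E n) : Prop :=
  ∀ (x : E n) (r : ℝ), 0 < r → Metric.closedBall x r ⊆ Ω →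
    Metric.diam (f '' Metric.closedBall x r) ≤ κ * Metric.diam (f '' Metric.sphere x r)

end Pool.Agent.Helper795.PMDefs
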