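import Pool.Agent.Helper795.LusinN
import Pool.Agent.Helper795.PMDefs

/-!
# Lusin's condition (N) for continuous pseudomonotone maps in `WL^n log^{-1} L`

The proof of `LusinN.lean` with `osc_B f ≤ κ osc_{∂B} f` in place of `osc_B f ≤ osc_{∂B} f`, and
with a weak differential given by linear maps and measured by the operator norm.
-/

set_option autoImplicit false
set_option linter.all false

open MeasureTheory Metric Set Module Submodule
open scoped ENNReal NNReal RealInnerProductSpace Topology Convolution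

namespace Pool.Agent.Helper795.LusinPM

open Pool.Agent.Helper795.LusinN (morrey_abstract level_sum averaged_bound mollify norm_le_sum
  GG GG_measurable GG_nonneg enorm_le_GG exists_small lipschitz_null image_null_of_locally)

section part6
open ContinuousLinearMap

variable {n : ℕ}

/-- The standing hypotheses. -/
structure Data (κ : ℝ) (Ω : Set (EuclideanSpace ℝ (Fin n)))
    (f : EuclideanSpace ℝ (Fin n) → EuclideanSpace ℝ (Fin n))
    (g : Fin n → Fin n → EuclideanSpace ℝ (Fin n) → ℝ) : Prop where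
  cont : ContinuousOn f Ω
  mono : ∀ (x : EuclideanSpace ℝ (Fin n)) (r : ℝ), 0 < r → closedBall x r ⊆ Ω →
        Metric.diam (f '' closedBall x r) ≤ κ * Metric.diam (f '' sphere x r)
  meas : ∀ i j, Measurable (g i j)
  weak : ∀ (i j : Fin n) (φ : EuclideanSpace ℝ (Fin n) → ℝ),
        ContDiff ℝ ((⊤ : ℕ∞) : WithTop ℕ∞) φ → HasCompactSupport φ → tsupport φ ⊆ Ω →
        ∫ x, EuclideanSpace.proj i (f x) * fderiv ℝ φ x (EuclideanSpace.single j (1 : ℝ))
          = - ∫ x, g i j x * φ x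

theorem osc_bound (hn : 2 ≤ n) {κ : ℝ} (hκ : 0 < κ) {p : ℝ} (hp : (n : ℝ) - 1 < p) :
    ∃ C : ℝ≥0∞, C ≠ ⊤ ∧ ∀ (Ω : Set (EuclideanSpace ℝ (Fin n)))
      (f : EuclideanSpace ℝ (Fin n) → EuclideanSpace ℝ (Fin n))
      (g : Fin n → Fin n → EuclideanSpace ℝ (Fin n) → ℝ), Data κ Ω f g →
      ∀ (x₀ : EuclideanSpace ℝ (Fin n)) (r : ℝ), 0 < r → closedBall x₀ (2 * r) ⊆ Ω →
        ENNReal.ofReal (diam (f '' closedBall x₀ r)) ^ p * ENNReal.ofReal (r ^ n) ≤
          C * ENNReal.ofReal r ^ p * ∑ i, ∑ j, ∫⁻ y in closedBall x₀ (2 * r), ‖g i j y‖ₑ ^ p := by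
  have hn2 : (2 : ℝ) ≤ n := by exact_mod_cast hn
  have hn0 : (0 : ℝ) < n := by linarith
  have hp1 : 1 < p := by linarith
  have hp0 : 0 < p := by linarith
  obtain ⟨C, hC, hCb⟩ := averaged_bound hn hp
  set c1 : ℝ≥0∞ := ENNReal.ofReal ((4 : ℝ) ^ n) with hc1
  refine ⟨ENNReal.ofReal κ ^ p * (c1 * (C * ENNReal.ofReal (3 / 2) ^ p * (n : ℝ≥0∞) ^ (p - 1))),
    ENNReal.mul_ne_top (ENNReal.rpow_ne_top_of_nonneg hp0.le ENNReal.ofReal_ne_top) ?_, ?_⟩
  · refine ENNReal.mul_ne_top ENNReal.ofReal_ne_top (ENNReal.mul_ne_top (ENNReal.mul_ne_top hC ?_) ?_)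
    · exact ENNReal.rpow_ne_top_of_nonneg hp0.le ENNReal.ofReal_ne_top
    · exact ENNReal.rpow_ne_top_of_nonneg (by linarith) (ENNReal.natCast_ne_top _)
  intro Ω f g hD x₀ r hr hball
  set D : ℝ := diam (f '' closedBall x₀ r) / κ with hDdef
  set I : ℝ≥0∞ := ∑ i, ∑ j, ∫⁻ y in closedBall x₀ (2 * r), ‖g i j y‖ₑ ^ p with hI
  have hfc : ∀ i, ContinuousOn (fun x => f x i) (closedBall x₀ (2 * r)) := by
    intro i
    exact (EuclideanSpace.proj (𝕜 := ℝ) i).continuous.comp_continuousOn (hD.cont.mono hball)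
  have key : ∀ η : ℝ, 0 < η → ENNReal.ofReal (D - (2 * n + 1) * η) ^ p * ENNReal.ofReal ((r / 4) ^ n) ≤
      C * ENNReal.ofReal (3 * r / 2) ^ p * ((n : ℝ≥0∞) ^ (p - 1) * I) := by
    intro η hη
    have hmol := fun i : Fin n => mollify hp1 (f := fun x => f x i) (g := g i) (hD.meas i)
      (x₀ := x₀) (R' := r / 4 + 3 * r / 2) (R := 2 * r) (by linarith) (hfc i)
      (fun j φ h1 h2 h3 => by
        have := hD.weak i j φ h1 h2 (h3.trans hball)
        simpa using this) hη
    choose φ hφs hφf hφp using hmol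
    have hav := hCb φ hφs x₀ (3 * r / 2) (r / 4) (by positivity) (by positivity)
      (ENNReal.ofReal (D - (2 * n + 1) * η)) ?_
    · refine hav.trans ?_
      gcongr
      rw [hI, Finset.mul_sum]
      exact Finset.sum_le_sum fun i _ => hφp i
    · intro z hz
      rw [mem_closedBall] at hz
      have hsub1 : closedBall z (3 * r / 2) ⊆ closedBall x₀ (r / 4 + 3 * r / 2) :=
        closedBall_subset_closedBall' (by linarith)
      have hsub2 : closedBall x₀ r ⊆ closedBall z (3 * r / 2) :=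
        closedBall_subset_closedBall' (by rw [dist_comm]; linarith)
      have hsub3 : closedBall x₀ (r / 4 + 3 * r / 2) ⊆ closedBall x₀ (2 * r) :=
        closedBall_subset_closedBall (by linarith)
      have hsubΩ : closedBall z (3 * r / 2) ⊆ Ω := (hsub1.trans hsub3).trans hball
      have hbd : Bornology.IsBounded (f '' closedBall z (3 * r / 2)) :=
        ((isCompact_closedBall z (3 * r / 2)).image_of_continuousOn (hD.cont.mono hsubΩ)).isBounded
      have hD1 : D ≤ diam (f '' sphere z (3 * r / 2)) := by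
        rw [hDdef, div_le_iff₀' hκ]
        exact (diam_mono (image_mono hsub2) hbd).trans (hD.mono z (3 * r / 2) (by positivity) hsubΩ)
      obtain ⟨a, ha, b, hb, hab⟩ : ∃ a ∈ sphere z (3 * r / 2), ∃ b ∈ sphere z (3 * r / 2),
          D - η ≤ dist (f a) (f b) := by
        by_contra hcon
        push Not at hcon
        have hne : (sphere z (3 * r / 2)).Nonempty := by
          have : Nontrivial (EuclideanSpace ℝ (Fin n)) := by
            have : Nonempty (Fin n) := ⟨⟨0, by omega⟩⟩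
            infer_instance
          exact (NormedSpace.sphere_nonempty).2 (by positivity)
        obtain ⟨a, ha⟩ := hne
        have h0 : 0 ≤ D - η := by
          have := hcon a ha a ha
          rw [dist_self] at this
          exact this.le
        have : diam (f '' sphere z (3 * r / 2)) ≤ D - η := by
          refine diam_le_of_forall_dist_le h0 ?_
          rintro _ ⟨a, ha, rfl⟩ _ ⟨b, hb, rfl⟩
          exact (hcon a ha b hb).le
        linarith
      refine ⟨a, ha, b, hb, ?_⟩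
      have ha' : a ∈ closedBall x₀ (r / 4 + 3 * r / 2) := hsub1 (sphere_subset_closedBall ha)
      have hb' : b ∈ closedBall x₀ (r / 4 + 3 * r / 2) := hsub1 (sphere_subset_closedBall hb)
      have h1 : dist (f a) (f b) ≤ ∑ i, |f a i - f b i| := by
        rw [dist_eq_norm]
        exact norm_le_sum _
      have h2 : ∀ i, |f a i - f b i| ≤ |φ i a - φ i b| + 2 * η := by
        intro i
        have e1 := abs_le.1 (hφf i a ha')
        have e2 := abs_le.1 (hφf i b hb')
        rw [abs_le]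
        have e3 := le_abs_self (φ i a - φ i b)
        have e4 := neg_abs_le (φ i a - φ i b)
        constructor <;> linarith [e1.1, e1.2, e2.1, e2.2]
      have h3 : D - (2 * n + 1) * η ≤ ∑ i, |φ i a - φ i b| := by
        have : ∑ i, |f a i - f b i| ≤ ∑ i, (|φ i a - φ i b| + 2 * η) :=
          Finset.sum_le_sum fun i _ => h2 i
        rw [Finset.sum_add_distrib, Finset.sum_const, Finset.card_univ, Fintype.card_fin,
          nsmul_eq_mul] at this
        linarith
      refine (ENNReal.ofReal_le_ofReal h3).trans (le_of_eq ?_)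
      rw [ENNReal.ofReal_sum_of_nonneg (fun _ _ => abs_nonneg _)]
      refine Finset.sum_congr rfl fun i _ => ?_
      rw [← ofReal_norm, Real.norm_eq_abs]
  -- the limit
  have hlim : ENNReal.ofReal D ^ p * ENNReal.ofReal ((r / 4) ^ n) ≤
      C * ENNReal.ofReal (3 * r / 2) ^ p * ((n : ℝ≥0∞) ^ (p - 1) * I) := by
    have hcont : Filter.Tendsto (fun η : ℝ => ENNReal.ofReal (D - (2 * n + 1) * η) ^ p *
        ENNReal.ofReal ((r / 4) ^ n)) (𝓝[>] 0) (𝓝 (ENNReal.ofReal D ^ p * ENNReal.ofReal ((r / 4) ^ n))) := by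
      have h1 : Continuous fun η : ℝ => ENNReal.ofReal (D - (2 * n + 1) * η) ^ p :=
        ENNReal.continuous_rpow_const.comp (ENNReal.continuous_ofReal.comp (by fun_prop))
      have h2 := (ENNReal.continuous_mul_const (a := ENNReal.ofReal ((r / 4) ^ n)) ENNReal.ofReal_ne_top).comp h1
      have h3 := (h2.tendsto 0).mono_left (nhdsWithin_le_nhds (s := Ioi 0))
      simpa [Function.comp_def] using h3
    refine le_of_tendsto hcont ?_
    filter_upwards [self_mem_nhdsWithin] with η hη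
    exact key η hη
  have hr4 : ENNReal.ofReal (r ^ n) = c1 * ENNReal.ofReal ((r / 4) ^ n) := by
    rw [hc1, ← ENNReal.ofReal_mul (by positivity), ← mul_pow]
    congr 2
    ring
  have h32 : ENNReal.ofReal (3 * r / 2) = ENNReal.ofReal (3 / 2) * ENNReal.ofReal r := by
    rw [← ENNReal.ofReal_mul (by positivity)]
    congr 1
    ring
  have hdk : diam (f '' closedBall x₀ r) = κ * D := by
    rw [hDdef]; field_simp
  calc ENNReal.ofReal (diam (f '' closedBall x₀ r)) ^ p * ENNReal.ofReal (r ^ n) =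
      ENNReal.ofReal κ ^ p * (c1 * (ENNReal.ofReal D ^ p * ENNReal.ofReal ((r / 4) ^ n))) := by
        rw [hr4, hdk, ENNReal.ofReal_mul hκ.le, ENNReal.mul_rpow_of_nonneg _ _ hp0.le]; ring
    _ ≤ ENNReal.ofReal κ ^ p * (c1 * (C * ENNReal.ofReal (3 * r / 2) ^ p *
        ((n : ℝ≥0∞) ^ (p - 1) * I))) := by gcongr
    _ = _ := by
        rw [h32, ENNReal.mul_rpow_of_nonneg _ _ hp0.le]
        ring

end part6

section part8


variable {n : ℕ}

theorem single_ball (hn : 2 ≤ n) {κ : ℝ} (hκ : 0 < κ) :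
    ∃ C : ℝ≥0∞, C ≠ ⊤ ∧ ∃ ε : ℝ, 0 < ε ∧ ε ≤ 1 ∧ ∀ (Ω : Set (EuclideanSpace ℝ (Fin n)))
      (f : EuclideanSpace ℝ (Fin n) → EuclideanSpace ℝ (Fin n))
      (g : Fin n → Fin n → EuclideanSpace ℝ (Fin n) → ℝ), Data κ Ω f g →
      ∀ (x₀ : EuclideanSpace ℝ (Fin n)) (r L : ℝ), 0 < r → 0 < L → closedBall x₀ (2 * r) ⊆ Ω →
        L * r ≤ diam (f '' closedBall x₀ r) →
        ENNReal.ofReal (L ^ ((n : ℝ) - 1 / 2)) * ENNReal.ofReal (r ^ n) ≤
          C * ∫⁻ y in closedBall x₀ (2 * r) ∩ {y | ε * L < GG g y},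
            ENNReal.ofReal (GG g y ^ ((n : ℝ) - 1 / 2)) := by
  have hn2 : (2 : ℝ) ≤ n := by exact_mod_cast hn
  have hn0 : (0 : ℝ) < n := by linarith
  set p : ℝ := (n : ℝ) - 1 / 2 with hp
  have hp1 : 1 < p := by linarith
  have hp0 : 0 < p := by linarith
  obtain ⟨C, hC, hCb⟩ := osc_bound hn hκ (p := p) (by linarith)
  set C1 : ℝ≥0∞ := C * (n * n) with hC1
  have hC1t : C1 ≠ ⊤ := ENNReal.mul_ne_top hC (ENNReal.mul_ne_top (ENNReal.natCast_ne_top _)
    (ENNReal.natCast_ne_top _))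
  set ω : ℝ≥0∞ := volume (closedBall (0 : EuclideanSpace ℝ (Fin n)) 1) with hω
  have hωt : ω ≠ ⊤ := measure_closedBall_lt_top.ne
  obtain ⟨ε, hε, hε1, hεB⟩ := exists_small (B := C1 * (ENNReal.ofReal (2 ^ n) * ω))
    (ENNReal.mul_ne_top hC1t (ENNReal.mul_ne_top ENNReal.ofReal_ne_top hωt)) hp1.le
  refine ⟨2 * C1, ENNReal.mul_ne_top (by norm_num) hC1t, ε, hε, hε1, ?_⟩
  intro Ω f g hD x₀ r L hr hL hball hLr
  have hGm := GG_measurable hD.meas
  set B2 := closedBall x₀ (2 * r) with hB2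
  have hB2m : MeasurableSet B2 := measurableSet_closedBall
  set S : Set (EuclideanSpace ℝ (Fin n)) := {y | ε * L < GG g y} with hS
  have hSm : MeasurableSet S := measurableSet_lt measurable_const hGm
  set P : EuclideanSpace ℝ (Fin n) → ℝ≥0∞ := fun y => ENNReal.ofReal (GG g y ^ p) with hP
  have hPm : Measurable P := (hGm.pow_const p).ennreal_ofReal
  have hPe : ∀ i j y, ‖g i j y‖ₑ ^ p ≤ P y := by
    intro i j y
    rw [hP]
    simp only
    rw [← ENNReal.ofReal_rpow_of_nonneg (GG_nonneg g y) hp0.le]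
    exact ENNReal.rpow_le_rpow (enorm_le_GG g i j y) hp0.le
  -- step a
  have ha : ENNReal.ofReal (L ^ p) * ENNReal.ofReal (r ^ n) ≤ C1 * ∫⁻ y in B2, P y := by
    have h1 := hCb Ω f g hD x₀ r hr hball
    have h2 : ENNReal.ofReal (L ^ p) * ENNReal.ofReal r ^ p ≤ ENNReal.ofReal (diam (f '' closedBall x₀ r)) ^ p := by
      rw [← ENNReal.ofReal_rpow_of_nonneg hL.le hp0.le, ← ENNReal.mul_rpow_of_nonneg _ _ hp0.le,
        ← ENNReal.ofReal_mul hL.le]
      exact ENNReal.rpow_le_rpow (ENNReal.ofReal_le_ofReal hLr) hp0.le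
    have h3 : ∑ i, ∑ j, ∫⁻ y in closedBall x₀ (2 * r), ‖g i j y‖ₑ ^ p ≤ (n * n) * ∫⁻ y in B2, P y := by
      calc ∑ i, ∑ j, ∫⁻ y in closedBall x₀ (2 * r), ‖g i j y‖ₑ ^ p ≤ ∑ i : Fin n, ∑ j : Fin n, ∫⁻ y in B2, P y :=
            Finset.sum_le_sum fun i _ => Finset.sum_le_sum fun j _ => lintegral_mono fun y => hPe i j y
        _ = _ := by
            simp only [Finset.sum_const, Finset.card_univ, Fintype.card_fin, nsmul_eq_mul]
            ring
    have hr0 : ENNReal.ofReal r ^ p ≠ 0 := by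
      have : 0 < ENNReal.ofReal r := ENNReal.ofReal_pos.2 hr
      exact (ENNReal.rpow_pos this ENNReal.ofReal_ne_top).ne'
    have hrt : ENNReal.ofReal r ^ p ≠ ⊤ := ENNReal.rpow_ne_top_of_nonneg hp0.le ENNReal.ofReal_ne_top
    have h4 : ENNReal.ofReal r ^ p * (ENNReal.ofReal (L ^ p) * ENNReal.ofReal (r ^ n)) ≤
        ENNReal.ofReal r ^ p * (C1 * ∫⁻ y in B2, P y) := by
      calc ENNReal.ofReal r ^ p * (ENNReal.ofReal (L ^ p) * ENNReal.ofReal (r ^ n))
          = (ENNReal.ofReal (L ^ p) * ENNReal.ofReal r ^ p) * ENNReal.ofReal (r ^ n) := by ring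
        _ ≤ ENNReal.ofReal (diam (f '' closedBall x₀ r)) ^ p * ENNReal.ofReal (r ^ n) := by gcongr
        _ ≤ _ := h1
        _ ≤ C * ENNReal.ofReal r ^ p * ((n * n) * ∫⁻ y in B2, P y) := by gcongr
        _ = _ := by rw [hC1]; ring
    exact (ENNReal.mul_le_mul_iff_right hr0 hrt).1 h4
  -- step b
  have hvol : volume B2 = ENNReal.ofReal (2 ^ n) * ENNReal.ofReal (r ^ n) * ω := by
    rw [hB2, Measure.addHaar_closedBall' volume x₀ (by positivity), finrank_euclideanSpace_fin,
      mul_pow, ENNReal.ofReal_mul (by positivity)]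
  have hb : ∫⁻ y in B2, P y ≤ ENNReal.ofReal (L ^ p) * ENNReal.ofReal ε ^ p * volume B2 +
      ∫⁻ y in B2 ∩ S, P y := by
    have h1 : ∫⁻ y in B2, P y = (∫⁻ y in B2 ∩ S, P y) + ∫⁻ y in B2 \ S, P y :=
      (lintegral_inter_add_sdiff (μ := volume) P B2 hSm).symm
    rw [h1, add_comm]
    gcongr
    calc ∫⁻ y in B2 \ S, P y ≤ ∫⁻ y in B2 \ S, ENNReal.ofReal (L ^ p) * ENNReal.ofReal ε ^ p := by
          refine setLIntegral_mono' (hB2m.diff hSm) fun y hy => ?_
          have hy2 : GG g y ≤ ε * L := not_lt.1 hy.2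
          rw [ENNReal.ofReal_rpow_of_nonneg hε.le hp0.le, ← ENNReal.ofReal_mul (by positivity),
            ← Real.mul_rpow hL.le hε.le, mul_comm L ε]
          exact ENNReal.ofReal_le_ofReal (Real.rpow_le_rpow (GG_nonneg g y) hy2 hp0.le)
      _ = ENNReal.ofReal (L ^ p) * ENNReal.ofReal ε ^ p * volume (B2 \ S) := by
          rw [lintegral_const, Measure.restrict_apply_univ]
      _ ≤ _ := by gcongr; exact sdiff_subset
  set X : ℝ≥0∞ := ENNReal.ofReal (L ^ p) * ENNReal.ofReal (r ^ n) with hX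
  have hXt : X ≠ ⊤ := ENNReal.mul_ne_top ENNReal.ofReal_ne_top ENNReal.ofReal_ne_top
  set J : ℝ≥0∞ := ∫⁻ y in B2 ∩ S, P y with hJ
  have hXle : X ≤ 1 / 2 * X + C1 * J := by
    calc X ≤ C1 * ∫⁻ y in B2, P y := ha
      _ ≤ C1 * (ENNReal.ofReal (L ^ p) * ENNReal.ofReal ε ^ p * volume B2 + J) := by gcongr
      _ = (C1 * (ENNReal.ofReal (2 ^ n) * ω) * ENNReal.ofReal ε ^ p) * X + C1 * J := by
          rw [hvol, hX]; ring
      _ ≤ 1 / 2 * X + C1 * J := by gcongr
  have hhalf : X = 1 / 2 * X + 1 / 2 * X := by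
    rw [← add_mul]
    rw [ENNReal.add_halves, one_mul]
  have hfin : 1 / 2 * X ≠ ⊤ := ENNReal.mul_ne_top (by norm_num) hXt
  have h5 : 1 / 2 * X ≤ C1 * J := by
    have : 1 / 2 * X + 1 / 2 * X ≤ 1 / 2 * X + C1 * J := by rw [← hhalf]; exact hXle
    exact (ENNReal.add_le_add_iff_left hfin).1 this
  calc X = 1 / 2 * X + 1 / 2 * X := hhalf
    _ ≤ C1 * J + C1 * J := add_le_add h5 h5
    _ = _ := by ring

theorem level_bound (hn : 2 ≤ n) {κ : ℝ} (hκ : 0 < κ) :
    ∃ C : ℝ≥0∞, C ≠ ⊤ ∧ ∃ ε : ℝ, 0 < ε ∧ ε ≤ 1 ∧ ∀ (Ω : Set (EuclideanSpace ℝ (Fin n)))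
      (f : EuclideanSpace ℝ (Fin n) → EuclideanSpace ℝ (Fin n))
      (g : Fin n → Fin n → EuclideanSpace ℝ (Fin n) → ℝ), Data κ Ω f g →
      ∀ (A K : Set (EuclideanSpace ℝ (Fin n))) (L R : ℝ), 0 < L → MeasurableSet K → K ⊆ Ω →
        (∀ x ∈ A, ∃ r, 0 < r ∧ r ≤ R ∧ closedBall x (10 * r) ⊆ K ∧
          L * r ≤ diam (f '' closedBall x r) ∧ diam (f '' closedBall x (10 * r)) ≤ 10 * L * r) →
        volume (f '' A) ≤ C * ENNReal.ofReal (Real.sqrt L) *
          ∫⁻ y in K ∩ {y | ε * L < GG g y}, ENNReal.ofReal (GG g y ^ ((n : ℝ) - 1 / 2)) := by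
  have hn2 : (2 : ℝ) ≤ n := by exact_mod_cast hn
  have hn0 : (0 : ℝ) < n := by linarith
  obtain ⟨C, hC, ε, hε, hε1, hCb⟩ := single_ball hn hκ
  set ω : ℝ≥0∞ := volume (closedBall (0 : EuclideanSpace ℝ (Fin n)) 1) with hω
  have hωt : ω ≠ ⊤ := measure_closedBall_lt_top.ne
  refine ⟨ENNReal.ofReal (10 ^ n) * ω * C, ENNReal.mul_ne_top (ENNReal.mul_ne_top
    ENNReal.ofReal_ne_top hωt) hC, ε, hε, hε1, ?_⟩
  intro Ω f g hD A K L R hL hKm hKΩ hA
  choose! r hr0 hrR hrK hrL hr10 using hA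
  have hGm := GG_measurable hD.meas
  set S : Set (EuclideanSpace ℝ (Fin n)) := {y | ε * L < GG g y} with hS
  have hSm : MeasurableSet S := measurableSet_lt measurable_const hGm
  set P : EuclideanSpace ℝ (Fin n) → ℝ≥0∞ := fun y => ENNReal.ofReal (GG g y ^ ((n : ℝ) - 1 / 2)) with hP
  obtain ⟨U, hUA, hUd, hUc⟩ := Vitali.exists_disjoint_subfamily_covering_enlargement_closedBall A
    (fun x => x) (fun x => 2 * r x) (2 * R) (fun a ha => by linarith [hrR a ha]) 5 (by norm_num)
  have hUcount : U.Countable := by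
    refine hUd.countable_of_nonempty_interior fun a ha => ?_
    have := hr0 a (hUA ha)
    refine ⟨a, ?_⟩
    exact ball_subset_interior_closedBall (mem_ball_self (by positivity))
  have hcov : f '' A ⊆ ⋃ b ∈ U, f '' closedBall b (10 * r b) := by
    rintro _ ⟨a, ha, rfl⟩
    obtain ⟨b, hb, hab⟩ := hUc a ha
    have h1 : a ∈ closedBall b (10 * r b) := by
      have h2 := hab (mem_closedBall_self (by have := hr0 a ha; positivity))
      have h3 : 5 * (2 * r b) = 10 * r b := by ring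
      rwa [h3] at h2
    exact mem_biUnion hb ⟨a, h1, rfl⟩
  have hone : ∀ b ∈ U, volume (f '' closedBall b (10 * r b)) ≤
      ENNReal.ofReal (10 ^ n) * ω * C * ENNReal.ofReal (Real.sqrt L) *
        ∫⁻ y in closedBall b (2 * r b) ∩ S, P y := by
    intro b hb
    have hbA := hUA hb
    have hrb := hr0 b hbA
    have hbd : Bornology.IsBounded (f '' closedBall b (10 * r b)) :=
      ((isCompact_closedBall b (10 * r b)).image_of_continuousOn
        (hD.cont.mono ((hrK b hbA).trans hKΩ))).isBounded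
    have hsub : f '' closedBall b (10 * r b) ⊆ closedBall (f b) (10 * L * r b) := by
      rintro _ ⟨y, hy, rfl⟩
      rw [mem_closedBall]
      refine (dist_le_diam_of_mem hbd (mem_image_of_mem f hy) (mem_image_of_mem f
        (mem_closedBall_self (by positivity)))).trans (hr10 b hbA)
    have h2 : closedBall b (2 * r b) ⊆ Ω :=
      (closedBall_subset_closedBall (by linarith)).trans ((hrK b hbA).trans hKΩ)
    have h3 := hCb Ω f g hD b (r b) L hrb hL h2 (hrL b hbA)
    calc volume (f '' closedBall b (10 * r b)) ≤ volume (closedBall (f b) (10 * L * r b)) :=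
          measure_mono hsub
      _ = ENNReal.ofReal ((10 * L * r b) ^ n) * ω := by
          rw [Measure.addHaar_closedBall' volume _ (by positivity), finrank_euclideanSpace_fin]
      _ = ENNReal.ofReal (10 ^ n) * ω * ENNReal.ofReal (Real.sqrt L) *
          (ENNReal.ofReal (L ^ ((n : ℝ) - 1 / 2)) * ENNReal.ofReal (r b ^ n)) := by
          have h4 : (10 * L * r b) ^ n = 10 ^ n * (Real.sqrt L * L ^ ((n : ℝ) - 1 / 2)) * r b ^ n := by
            rw [mul_pow, mul_pow, Real.sqrt_eq_rpow, ← Real.rpow_add hL]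
            congr 2
            rw [← Real.rpow_natCast]
            congr 1
            ring
          rw [h4, ENNReal.ofReal_mul (by positivity), ENNReal.ofReal_mul (by positivity),
            ENNReal.ofReal_mul (by positivity)]
          ring
      _ ≤ ENNReal.ofReal (10 ^ n) * ω * ENNReal.ofReal (Real.sqrt L) *
          (C * ∫⁻ y in closedBall b (2 * r b) ∩ S, P y) := by gcongr
      _ = _ := by ring
  calc volume (f '' A) ≤ volume (⋃ b ∈ U, f '' closedBall b (10 * r b)) := measure_mono hcov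
    _ ≤ ∑' b : U, volume (f '' closedBall (b : EuclideanSpace ℝ (Fin n)) (10 * r b)) :=
        measure_biUnion_le _ hUcount _
    _ ≤ ∑' b : U, ENNReal.ofReal (10 ^ n) * ω * C * ENNReal.ofReal (Real.sqrt L) *
        ∫⁻ y in closedBall (b : EuclideanSpace ℝ (Fin n)) (2 * r b) ∩ S, P y :=
        ENNReal.tsum_le_tsum fun b => hone b b.2
    _ = ENNReal.ofReal (10 ^ n) * ω * C * ENNReal.ofReal (Real.sqrt L) *
        ∫⁻ y in ⋃ b ∈ U, (closedBall b (2 * r b) ∩ S), P y := by
        rw [ENNReal.tsum_mul_left, lintegral_biUnion hUcount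
          (fun b _ => measurableSet_closedBall.inter hSm)
          (hUd.mono fun b => inter_subset_left)]
    _ ≤ _ := by
        refine mul_le_mul' le_rfl (lintegral_mono_set ?_)
        refine iUnion₂_subset fun b hb => inter_subset_inter_left _ ?_
        have := hr0 b (hUA hb)
        exact (closedBall_subset_closedBall (by linarith)).trans (hrK b (hUA hb))

end part8

section part9


variable {n : ℕ}

theorem lusin_measurable (hn : 2 ≤ n) {κ : ℝ} (hκ : 0 < κ) {Ω : Set (EuclideanSpace ℝ (Fin n))} (hΩ : IsOpen Ω)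
    {f : EuclideanSpace ℝ (Fin n) → EuclideanSpace ℝ (Fin n)}
    {g : Fin n → Fin n → EuclideanSpace ℝ (Fin n) → ℝ} (hD : Data κ Ω f g)
    (hfin : ∀ K ⊆ Ω, IsCompact K →
      ∫⁻ x in K, ENNReal.ofReal (GG g x ^ n / Real.log (Real.exp 1 + GG g x)) ≠ ⊤)
    {E₀ : Set (EuclideanSpace ℝ (Fin n))} (hE : E₀ ⊆ Ω) (hE0 : volume E₀ = 0) :
    volume (f '' E₀) = 0 := by
  apply image_null_of_locally
  intro x_c hx_c
  obtain ⟨R₂, hR₂, hball₂⟩ := Metric.isOpen_iff.1 hΩ x_c (hE hx_c)
  set R : ℝ := R₂ / 4 with hR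
  have hR0 : 0 < R := by positivity
  have hball : closedBall x_c (2 * R) ⊆ Ω :=
    (closedBall_subset_ball (by rw [hR]; linarith)).trans hball₂
  refine ⟨R, hR0, ?_⟩
  set A : Set (EuclideanSpace ℝ (Fin n)) := E₀ ∩ ball x_c R with hA
  have hA0 : volume A = 0 := measure_mono_null inter_subset_left hE0
  have hAd : ∀ x ∈ A, dist x x_c < R := fun x hx => hx.2
  set K := closedBall x_c (2 * R) with hK
  have hKc : IsCompact K := isCompact_closedBall _ _
  have hbdK : Bornology.IsBounded (f '' K) :=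
    (hKc.image_of_continuousOn (hD.cont.mono hball)).isBounded
  have hsubK : ∀ x ∈ A, ∀ r ≤ R, closedBall x r ⊆ K := by
    intro x hx r hr
    refine closedBall_subset_closedBall' ?_
    have := hAd x hx
    linarith
  -- decomposition
  set A1 : ℕ → Set (EuclideanSpace ℝ (Fin n)) := fun k =>
    {x ∈ A | ∀ r, 0 < r → r < 1 / (k + 1 : ℝ) → diam (f '' closedBall x r) ≤ k * r} with hA1
  have hA1null : ∀ k, volume (f '' A1 k) = 0 := by
    intro k
    apply image_null_of_locally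
    intro x hx
    refine ⟨min (1 / (k + 1 : ℝ)) R / 2, by positivity, ?_⟩
    refine lipschitz_null (K := (k : ℝ≥0)) ?_ (measure_mono_null (fun y hy => hy.1.1) hA0)
    refine LipschitzOnWith.of_dist_le_mul fun y hy z hz => ?_
    rcases eq_or_ne y z with rfl | hyz
    · simp
    have hd0 : 0 < dist y z := dist_pos.2 hyz
    have hd1 : dist y z < min (1 / (k + 1 : ℝ)) R := by
      have e1 := mem_ball.1 hy.2
      have e2 := mem_ball.1 hz.2
      have e3 := dist_triangle_right y z x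
      linarith
    have hd2 : dist y z < 1 / (k + 1 : ℝ) := lt_of_lt_of_le hd1 (min_le_left _ _)
    have hd3 : dist y z < R := lt_of_lt_of_le hd1 (min_le_right _ _)
    have hbd : Bornology.IsBounded (f '' closedBall y (dist y z)) :=
      hbdK.subset (image_mono (hsubK y hy.1.1 _ hd3.le))
    have h1 : dist (f y) (f z) ≤ diam (f '' closedBall y (dist y z)) :=
      dist_le_diam_of_mem hbd (mem_image_of_mem f (mem_closedBall_self hd0.le))
        (mem_image_of_mem f (by rw [mem_closedBall, dist_comm]))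
    have h2 := hy.1.2 (dist y z) hd0 hd2
    simpa using h1.trans h2
  set A2 : Set (EuclideanSpace ℝ (Fin n)) := A \ ⋃ k, A1 k with hA2
  have hA2null : volume (f '' A2) = 0 := by
    obtain ⟨C, hC, ε, hε, hε1, hCb⟩ := level_bound hn hκ
    set M₀ : ℝ := diam (f '' K) with hM₀
    set m₀ : ℕ := max 4 ⌈100 * M₀ / R⌉₊ with hm₀
    have hGm := GG_measurable hD.meas
    refine level_sum (volume.restrict K) hGm (GG_nonneg g) hn hε hε1 (m₀ := m₀) (le_max_left _ _)
      (C := C) hC (hfin K hball hKc) fun k => ?_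
    set L : ℝ := Real.exp ((k + m₀ : ℕ) : ℝ) with hL
    have hL0 : 0 < L := Real.exp_pos _
    have hLM : 100 * M₀ / R ≤ L := by
      have h1 : 100 * M₀ / R ≤ (m₀ : ℝ) :=
        (Nat.le_ceil _).trans (by exact_mod_cast le_max_right _ _)
      have h2 : (m₀ : ℝ) ≤ ((k + m₀ : ℕ) : ℝ) := by exact_mod_cast Nat.le_add_left _ _
      have h3 := Real.add_one_le_exp ((k + m₀ : ℕ) : ℝ)
      linarith
    have hLM' : 100 * M₀ ≤ L * R := by rwa [div_le_iff₀ hR0] at hLM
    have hSm : MeasurableSet {x | ε * L < GG g x} := measurableSet_lt measurable_const hGm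
    have hmain := hCb Ω f g hD A2 K L R hL0 measurableSet_closedBall hball ?_
    · rw [Measure.restrict_restrict hSm, inter_comm]
      have hs : Real.sqrt L = Real.exp (((k + m₀ : ℕ) : ℝ) / 2) := by
        rw [hL, Real.exp_half]
      rw [← hs]
      exact hmain
    · intro x hx
      have hxA : x ∈ A := hx.1
      set T : Set ℝ := {r | 0 < r ∧ r ≤ R / 10 ∧ L * r ≤ diam (f '' closedBall x r)} with hT
      have hTne : T.Nonempty := by
        set k' : ℕ := max ⌈L⌉₊ ⌈10 / R⌉₊ with hk'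
        have hx1 : x ∉ A1 k' := fun h => hx.2 (mem_iUnion.2 ⟨k', h⟩)
        rw [hA1] at hx1
        simp only [mem_ofPred_eq, not_and, not_forall, not_le] at hx1
        obtain ⟨r, hr0, hr1, hr2⟩ := hx1 hxA
        refine ⟨r, hr0, ?_, ?_⟩
        · have h1 : 10 / R ≤ k' := (Nat.le_ceil _).trans (by exact_mod_cast le_max_right _ _)
          have h2 : 1 / (k' + 1 : ℝ) ≤ R / 10 := by
            rw [div_le_div_iff₀ (by positivity) (by norm_num)]
            rw [div_le_iff₀ hR0] at h1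
            nlinarith
          linarith
        · have h1 : L ≤ k' := (Nat.le_ceil _).trans (by exact_mod_cast le_max_left _ _)
          nlinarith
      have hTbdd : BddAbove T := ⟨R / 10, fun r hr => hr.2.1⟩
      obtain ⟨r₁, hr₁⟩ := hTne
      have hσ0 : 0 < sSup T := lt_of_lt_of_le hr₁.1 (le_csSup hTbdd hr₁)
      obtain ⟨r, hrT, hrσ⟩ := exists_lt_of_lt_csSup ⟨r₁, hr₁⟩ (half_lt_self hσ0)
      obtain ⟨hr0, hrR, hrL⟩ := hrT
      have hrM : L * r ≤ M₀ := hrL.trans (diam_mono (image_mono (hsubK x hxA r (by linarith))) hbdK)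
      have hr100 : 10 * r ≤ R / 10 := by
        have h1 : 100 * (L * r) ≤ L * R := by linarith
        have h2 : L * (100 * r) ≤ L * R := by linarith
        have := le_of_mul_le_mul_left h2 hL0
        linarith
      refine ⟨r, hr0, by linarith, hsubK x hxA _ (by linarith), hrL, ?_⟩
      by_contra hcon
      push Not at hcon
      have hmem : 10 * r ∈ T := ⟨by positivity, hr100, by linarith⟩
      have := le_csSup hTbdd hmem
      linarith
  have hcover : f '' A ⊆ (f '' A2) ∪ ⋃ k, f '' A1 k := by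
    rintro _ ⟨x, hx, rfl⟩
    by_cases h : ∃ k, x ∈ A1 k
    · obtain ⟨k, hk⟩ := h
      exact Or.inr (mem_iUnion.2 ⟨k, mem_image_of_mem f hk⟩)
    · refine Or.inl (mem_image_of_mem f ⟨hx, ?_⟩)
      rw [mem_iUnion]
      exact h
  refine measure_mono_null hcover ?_
  rw [measure_union_null_iff, measure_iUnion_null_iff]
  exact ⟨hA2null, hA1null⟩

theorem main_frob :
    ∀ (n : ℕ), 2 ≤ n → ∀ κ : ℝ, 0 < κ →
    ∀ (Ω : Set (EuclideanSpace ℝ (Fin n))), IsOpen Ω →
    ∀ (f : EuclideanSpace ℝ (Fin n) → EuclideanSpace ℝ (Fin n)), ContinuousOn f Ω →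
    (∀ (x : EuclideanSpace ℝ (Fin n)) (r : ℝ), 0 < r → Metric.closedBall x r ⊆ Ω →
        Metric.diam (f '' Metric.closedBall x r) ≤ κ * Metric.diam (f '' Metric.sphere x r)) →
    ∀ (g : Fin n → Fin n → EuclideanSpace ℝ (Fin n) → ℝ),
    (∀ i j, MeasureTheory.LocallyIntegrableOn (g i j) Ω MeasureTheory.volume) →
    (∀ (i j : Fin n) (φ : EuclideanSpace ℝ (Fin n) → ℝ),
        ContDiff ℝ ((⊤ : ℕ∞) : WithTop ℕ∞) φ → HasCompactSupport φ → tsupport φ ⊆ Ω →
        ∫ x, EuclideanSpace.proj i (f x) * fderiv ℝ φ x (EuclideanSpace.single j (1 : ℝ))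
          = - ∫ x, g i j x * φ x) →
    (∀ K ⊆ Ω, IsCompact K → IntegrableOn
      (fun x => (Real.sqrt (∑ i, ∑ j, g i j x ^ 2)) ^ n /
        Real.log (Real.exp 1 + Real.sqrt (∑ i, ∑ j, g i j x ^ 2))) K MeasureTheory.volume) →
    ∀ E ⊆ Ω, MeasureTheory.volume E = 0 → MeasureTheory.volume (f '' E) = 0 := by
  intro n hn κ hκ Ω hΩ f hf hmono g hg hweak hint E hE hE0
  have hgm : ∀ i j, AEStronglyMeasurable (g i j) (volume.restrict Ω) := fun i j =>
    (hg i j).aestronglyMeasurable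
  set g' : Fin n → Fin n → EuclideanSpace ℝ (Fin n) → ℝ := fun i j => (hgm i j).mk (g i j) with hg'
  have hg'm : ∀ i j, Measurable (g' i j) := fun i j => (hgm i j).stronglyMeasurable_mk.measurable
  have hg'e : ∀ᵐ x ∂(volume.restrict Ω), ∀ i j, g i j x = g' i j x := by
    rw [ae_all_iff]; intro i
    rw [ae_all_iff]; intro j
    exact (hgm i j).ae_eq_mk
  have hD : Data κ Ω f g' := by
    refine ⟨hf, hmono, hg'm, fun i j φ h1 h2 h3 => ?_⟩
    rw [hweak i j φ h1 h2 h3]
    congr 1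
    refine integral_congr_ae ?_
    have h4 := (ae_restrict_iff' hΩ.measurableSet).1 hg'e
    filter_upwards [h4] with x hx
    by_cases hxΩ : x ∈ Ω
    · rw [hx hxΩ i j]
    · have : φ x = 0 := by
        by_contra hne
        exact hxΩ (h3 (subset_tsupport φ hne))
      rw [this]; simp
  refine lusin_measurable hn hκ hΩ hD ?_ hE hE0
  intro K hK hKc
  have h1 := hint K hK hKc
  have h2 : IntegrableOn (fun x => GG g' x ^ n / Real.log (Real.exp 1 + GG g' x)) K := by
    refine Integrable.congr h1 ?_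
    have h3 : ∀ᵐ x ∂(volume.restrict K), ∀ i j, g i j x = g' i j x :=
      ae_mono (Measure.restrict_mono hK le_rfl) hg'e
    filter_upwards [h3] with x hx
    unfold GG
    simp only [hx]
  exact h2.lintegral_lt_top.ne

section oper
variable {n : ℕ}

open Pool.Agent.Helper795.PMDefs

/-- the matrix entries of the weak differential -/
noncomputable def ent (D : E n → (E n →L[ℝ] E n)) (i j : Fin n) (x : E n) : ℝ :=
  D x (EuclideanSpace.single j (1 : ℝ)) i

lemma ent_sum (A : E n →L[ℝ] E n) (v : E n) (i : Fin n) :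
    A v i = ∑ j, A (EuclideanSpace.single j (1 : ℝ)) i * v j := by
  have hv : v = ∑ j, v j • (EuclideanSpace.single j (1 : ℝ) : EuclideanSpace ℝ (Fin n)) := by
    ext k
    simp [Finset.sum_apply, Pi.single_apply]
  conv_lhs => rw [hv]
  rw [map_sum]
  have h1 : (∑ j, A (v j • (EuclideanSpace.single j (1 : ℝ) : EuclideanSpace ℝ (Fin n)))) i =
      ∑ j, (A (v j • (EuclideanSpace.single j (1 : ℝ) : EuclideanSpace ℝ (Fin n)))) i := by
    simp [Finset.sum_apply]
  rw [h1]
  refine Finset.sum_congr rfl fun j _ => ?_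
  rw [map_smul, PiLp.smul_apply, smul_eq_mul, mul_comm]

lemma opNorm_le_frob (A : E n →L[ℝ] E n) :
    ‖A‖ ≤ Real.sqrt (∑ i, ∑ j, (A (EuclideanSpace.single j (1 : ℝ)) i) ^ 2) := by
  refine ContinuousLinearMap.opNorm_le_bound _ (Real.sqrt_nonneg _) fun x => ?_
  rw [EuclideanSpace.norm_eq, EuclideanSpace.norm_eq, ← Real.sqrt_mul
    (Finset.sum_nonneg fun i _ => Finset.sum_nonneg fun j _ => sq_nonneg _)]
  apply Real.sqrt_le_sqrt
  rw [Finset.sum_mul]
  apply Finset.sum_le_sum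
  intro i _
  rw [ent_sum A x i]
  simp only [Real.norm_eq_abs, sq_abs]
  exact Finset.sum_mul_sq_le_sq_mul_sq _ _ _

lemma frob_le_opNorm (A : E n →L[ℝ] E n) :
    Real.sqrt (∑ i, ∑ j, (A (EuclideanSpace.single j (1 : ℝ)) i) ^ 2) ≤ n * ‖A‖ := by
  apply Real.sqrt_le_iff.2
  refine ⟨by positivity, ?_⟩
  have h1 : ∀ i j, (A (EuclideanSpace.single j (1 : ℝ)) i) ^ 2 ≤ ‖A‖ ^ 2 := by
    intro i j
    rw [← sq_abs]
    refine pow_le_pow_left₀ (abs_nonneg _) ?_ 2
    have h2 := PiLp.norm_apply_le (A (EuclideanSpace.single j (1 : ℝ))) i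
    have h3 := A.le_opNorm (EuclideanSpace.single j (1 : ℝ))
    rw [PiLp.norm_single, norm_one, mul_one] at h3
    rw [← Real.norm_eq_abs]
    exact h2.trans h3
  calc ∑ i, ∑ j, (A (EuclideanSpace.single j (1 : ℝ)) i) ^ 2
      ≤ ∑ i : Fin n, ∑ j : Fin n, ‖A‖ ^ 2 :=
        Finset.sum_le_sum fun i _ => Finset.sum_le_sum fun j _ => h1 i j
    _ = (n * ‖A‖) ^ 2 := by
        simp only [Finset.sum_const, Finset.card_univ, Fintype.card_fin, nsmul_eq_mul]
        ring

theorem main_op (hn : 2 ≤ n) (κ : ℝ) (Ω : Set (E n)) (hΩ : IsOpen Ω)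
    (f : E n → E n) (D : E n → (E n →L[ℝ] E n)) (hf : ContinuousOn f Ω)
    (hmono : IsPseudomonotone κ Ω f) (hD : IsWeakDifferential Ω f D)
    (hint : ∀ K ⊆ Ω, IsCompact K → IntegrableOn
      (fun x => ‖D x‖ ^ n / Real.log (Real.exp 1 + ‖D x‖)) K) :
    ∀ S ⊆ Ω, volume S = 0 → volume (f '' S) = 0 := by
  set κ' : ℝ := max κ 1 with hκ'
  have hκ0 : 0 < κ' := lt_of_lt_of_le one_pos (le_max_right _ _)
  refine main_frob n hn κ' hκ0 Ω hΩ f hf ?_ (ent D) ?_ ?_ ?_
  · intro x r hr hb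
    exact (hmono x r hr hb).trans (mul_le_mul_of_nonneg_right (le_max_left _ _) diam_nonneg)
  · intro i j
    have h1 := hD.1
    have h2 : Continuous fun A : E n →L[ℝ] E n => A (EuclideanSpace.single j (1 : ℝ)) i :=
      ((EuclideanSpace.proj (𝕜 := ℝ) i).continuous).comp
        (ContinuousLinearMap.apply ℝ (E n) (EuclideanSpace.single j (1 : ℝ))).continuous
    intro x hx
    obtain ⟨U, hU, hUi⟩ := h1 x hx
    refine ⟨U, hU, ?_⟩
    let T : (E n →L[ℝ] E n) →L[ℝ] ℝ :=
      (EuclideanSpace.proj (𝕜 := ℝ) i : E n →L[ℝ] ℝ).comp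
        (ContinuousLinearMap.apply ℝ (E n) (EuclideanSpace.single j (1 : ℝ)))
    exact T.integrable_comp hUi
  · intro i j φ h1 h2 h3
    exact hD.2 φ h1 h2 h3 (EuclideanSpace.single j (1 : ℝ)) i
  · intro K hK hKc
    have h0 := hint K hK hKc
    have hm : AEStronglyMeasurable D (volume.restrict K) := by
      exact ((hD.1).integrableOn_compact_subset hK hKc).aestronglyMeasurable
    have hent : ∀ i j, AEStronglyMeasurable (ent D i j) (volume.restrict K) := by
      intro i j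
      let T : (E n →L[ℝ] E n) →L[ℝ] ℝ :=
        (EuclideanSpace.proj (𝕜 := ℝ) i : E n →L[ℝ] ℝ).comp
          (ContinuousLinearMap.apply ℝ (E n) (EuclideanSpace.single j (1 : ℝ)))
      exact T.continuous.comp_aestronglyMeasurable hm
    have hG : AEMeasurable (fun x => Real.sqrt (∑ i, ∑ j, ent D i j x ^ 2)) (volume.restrict K) := by
      refine Real.continuous_sqrt.measurable.comp_aemeasurable ?_
      exact Finset.aemeasurable_fun_sum _ fun i _ => Finset.aemeasurable_fun_sum _ fun j _ =>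
        (hent i j).aemeasurable.pow_const 2
    refine (h0.const_mul ((n : ℝ) ^ n)).mono' ?_ ?_
    · exact ((hG.pow_const n).div (Real.measurable_log.comp_aemeasurable
        (hG.const_add _))).aestronglyMeasurable
    · filter_upwards with x
      set G : ℝ := Real.sqrt (∑ i, ∑ j, ent D i j x ^ 2) with hGd
      have g0 : 0 ≤ G := Real.sqrt_nonneg _
      have g1 : ‖D x‖ ≤ G := opNorm_le_frob (D x)
      have g2 : G ≤ n * ‖D x‖ := frob_le_opNorm (D x)
      have e1 : 1 ≤ Real.exp 1 := Real.one_le_exp (by norm_num)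
      have l1 : 0 < Real.log (Real.exp 1 + ‖D x‖) := by
        apply Real.log_pos
        have := Real.add_one_le_exp (1 : ℝ)
        linarith [norm_nonneg (D x)]
      have l2 : Real.log (Real.exp 1 + ‖D x‖) ≤ Real.log (Real.exp 1 + G) :=
        Real.log_le_log (by positivity) (by linarith)
      rw [Real.norm_of_nonneg (div_nonneg (pow_nonneg g0 _) (l1.le.trans l2))]
      calc G ^ n / Real.log (Real.exp 1 + G) ≤ (n * ‖D x‖) ^ n / Real.log (Real.exp 1 + ‖D x‖) := by
            gcongr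
        _ = (n : ℝ) ^ n * (‖D x‖ ^ n / Real.log (Real.exp 1 + ‖D x‖)) := by
            rw [mul_pow, mul_div_assoc]

end oper

end part9

end Pool.Agent.Helper795.LusinPM
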