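import Mathlib

/-!
# Weak and strong `W^{1,p}` closures of homeomorphisms: definitions
-/

set_option autoImplicit false

open MeasureTheory Set Filter Topology Metric
open scoped ENNReal NNReal InnerProductSpace

namespace Pool.Agent.Helper795.SobDefs

noncomputable section

/-- The Euclidean space `ℝⁿ`. -/
abbrev Eu (n : ℕ) : Type := EuclideanSpace ℝ (Fin n)

/-- `G` is the weak (distributional) differential of `f` on the open set `Ω`: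
integration by parts against all scalar test functions, in all directions `v`. -/
def IsWeakDiff {n : ℕ} (Ω : Set (Eu n)) (f : Eu n → Eu n) (G : Eu n → (Eu n →L[ℝ] Eu n)) : Prop :=
  ∀ φ : Eu n → ℝ, ContDiff ℝ ((⊤ : ℕ∞) : WithTop ℕ∞) φ → HasCompactSupport φ → tsupport φ ⊆ Ω →
    ∀ v : Eu n, ∫ x in Ω, (fderiv ℝ φ x v) • f x = - ∫ x in Ω, φ x • (G x v)

/-- `f ∈ W^{1,p}(Ω, ℝⁿ)`, with weak differential `G`. -/
def IsSobolev {n : ℕ} (p : ℝ≥0∞) (Ω : Set (Eu n)) (f : Eu n → Eu n)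
    (G : Eu n → (Eu n →L[ℝ] Eu n)) : Prop :=
  MemLp f p (volume.restrict Ω) ∧ MemLp G p (volume.restrict Ω) ∧ IsWeakDiff Ω f G

/-- `u k ⇀ v` weakly in `L^p(Ω, ℝⁿ)`: convergence of the pairings with every element of the dual
space `L^q(Ω, ℝⁿ)`, `1/p + 1/q = 1`. -/
def WeakLp {n : ℕ} (p : ℝ≥0∞) (Ω : Set (Eu n)) (u : ℕ → Eu n → Eu n) (v : Eu n → Eu n) : Prop :=
  ∀ q : ℝ≥0∞, p⁻¹ + q⁻¹ = 1 → ∀ h : Eu n → Eu n, MemLp h q (volume.restrict Ω) →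
    Tendsto (fun k => ∫ x in Ω, ⟪h x, u k x⟫_ℝ) atTop (𝓝 (∫ x in Ω, ⟪h x, v x⟫_ℝ))

/-- `F k ⇀ f` weakly in `W^{1,p}(Ω, ℝⁿ)`: the maps and all their directional weak derivatives
converge weakly in `L^p`. -/
def WeakConv {n : ℕ} (p : ℝ≥0∞) (Ω : Set (Eu n)) (F : ℕ → Eu n → Eu n)
    (DF : ℕ → Eu n → (Eu n →L[ℝ] Eu n)) (f : Eu n → Eu n) (Df : Eu n → (Eu n →L[ℝ] Eu n)) : Prop :=
  WeakLp p Ω F f ∧ ∀ v : Eu n, WeakLp p Ω (fun k x => DF k x v) (fun x => Df x v)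

/-- `F k → f` in the norm of `W^{1,p}(Ω, ℝⁿ)`. -/
def StrongConv {n : ℕ} (p : ℝ≥0∞) (Ω : Set (Eu n)) (F : ℕ → Eu n → Eu n)
    (DF : ℕ → Eu n → (Eu n →L[ℝ] Eu n)) (f : Eu n → Eu n) (Df : Eu n → (Eu n →L[ℝ] Eu n)) : Prop :=
  Tendsto (fun k => eLpNorm (fun x => F k x - f x) p (volume.restrict Ω) +
    eLpNorm (fun x => DF k x - Df x) p (volume.restrict Ω)) atTop (𝓝 0)

/-- `f` is a homeomorphism of `Ω` onto `Ω'`. -/
def IsHomeo {n : ℕ} (Ω Ω' : Set (Eu n)) (f : Eu n → Eu n) : Prop :=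
  BijOn f Ω Ω' ∧ ContinuousOn f Ω ∧ ∃ g : Eu n → Eu n, InvOn g f Ω Ω' ∧ ContinuousOn g Ω'

/-- The weak `W^{1,p}` closure of the homeomorphisms of `Ω` onto `Ω'`: all `f ∈ W^{1,p}(Ω, ℝⁿ)`
with values in the closure of `Ω'` which are weak limits of homeomorphisms `F k ∈ W^{1,p}` of `Ω`
onto `Ω'`. -/
def weakClosureHom {n : ℕ} (p : ℝ≥0∞) (Ω Ω' : Set (Eu n)) : Set (Eu n → Eu n) :=
  {f | (∀ᵐ x ∂(volume.restrict Ω), f x ∈ closure Ω') ∧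
    ∃ (Df : Eu n → (Eu n →L[ℝ] Eu n)) (F : ℕ → Eu n → Eu n) (DF : ℕ → Eu n → (Eu n →L[ℝ] Eu n)),
      IsSobolev p Ω f Df ∧ (∀ k, IsHomeo Ω Ω' (F k) ∧ IsSobolev p Ω (F k) (DF k)) ∧
      WeakConv p Ω F DF f Df}

/-- The strong `W^{1,p}` closure of the homeomorphisms of `Ω` onto `Ω'`. -/
def strongClosureHom {n : ℕ} (p : ℝ≥0∞) (Ω Ω' : Set (Eu n)) : Set (Eu n → Eu n) :=
  {f | (∀ᵐ x ∂(volume.restrict Ω), f x ∈ closure Ω') ∧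
    ∃ (Df : Eu n → (Eu n →L[ℝ] Eu n)) (F : ℕ → Eu n → Eu n) (DF : ℕ → Eu n → (Eu n →L[ℝ] Eu n)),
      IsSobolev p Ω f Df ∧ (∀ k, IsHomeo Ω Ω' (F k) ∧ IsSobolev p Ω (F k) (DF k)) ∧
      StrongConv p Ω F DF f Df}

end

end Pool.Agent.Helper795.SobDefs
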