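import Mathlib

set_option autoImplicit false

namespace Pool.Agent.H795TG

open RegularWreathProduct

section core

variable {G : Type*} [Group G]

/-- the element of the wreath product attached to a rational function and a group element -/
def wr (x : G → ℚ) (g : G) : RegularWreathProduct (Multiplicative ℚ) G :=
  ⟨fun ω => Multiplicative.ofAdd (x ω), g⟩

/-- norm operator -/
def normOp (g : G) (r : ℕ) : (G → ℚ) →ₗ[ℚ] (G → ℚ) where
  toFun x := fun ω => ∑ i ∈ Finset.range r, x ((g⁻¹) ^ i * ω)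
  map_add' x y := by
    funext ω
    simp [Finset.sum_add_distrib]
  map_smul' c x := by
    funext ω
    simp [Finset.mul_sum]

theorem normOp_apply (g : G) (r : ℕ) (x : G → ℚ) (ω : G) :
    normOp g r x ω = ∑ i ∈ Finset.range r, x ((g⁻¹) ^ i * ω) := rfl

theorem wr_pow (x : G → ℚ) (g : G) (r : ℕ) :
    (wr x g) ^ r = wr (normOp g r x) (g ^ r) := by
  induction r with
  | zero =>
    ext <;> simp [wr, normOp]
  | succ n ih =>
    rw [pow_succ', ih]
    ext ω
    · simp only [wr, mul_left, Pi.mul_apply, normOp_apply]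
      rw [← ofAdd_add]
      rw [Finset.sum_range_succ' (fun i => x ((g⁻¹) ^ i * ω))]
      simp only [pow_zero, one_mul]
      have h1 : ∀ i : ℕ, (g⁻¹) ^ i * (g⁻¹ * ω) = (g⁻¹) ^ (i + 1) * ω := by
        intro i
        rw [pow_succ, mul_assoc]
      simp only [h1]
      rw [add_comm]
    · simp only [wr, mul_right, pow_succ']

theorem wr_mul (x y : G → ℚ) (g h : G) :
    wr x g * wr y h = wr (fun ω => x ω + y (g⁻¹ * ω)) (g * h) := by
  ext ω
  · simp [wr, ofAdd_add]
  · simp [wr]

theorem normOp_inv (g : G) (r : ℕ) (hg : g ^ r = 1) (x : G → ℚ) (ω : G) :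
    normOp g r x (g⁻¹ * ω) = normOp g r x ω := by
  simp only [normOp_apply]
  have h1 : ∀ i : ℕ, (g⁻¹) ^ i * (g⁻¹ * ω) = (g⁻¹) ^ (i + 1) * ω := by
    intro i
    rw [pow_succ, mul_assoc]
  simp only [h1]
  have h2 := Finset.sum_range_succ' (fun i => x ((g⁻¹) ^ i * ω)) r
  have h3 := Finset.sum_range_succ (fun i => x ((g⁻¹) ^ i * ω)) r
  have h4 : (g⁻¹) ^ r = 1 := by rw [inv_pow, hg, inv_one]
  simp only [h4, pow_zero, one_mul] at h2 h3
  linarith

/-- pull back of a function on the left cosets, through inversion -/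
def pull (H : Subgroup G) : ((G ⧸ H) → ℚ) →ₗ[ℚ] (G → ℚ) where
  toFun f := fun ω => f ((ω⁻¹ : G) : G ⧸ H)
  map_add' _ _ := rfl
  map_smul' _ _ := rfl

theorem normOp_mem (g : G) (r : ℕ) (hg : g ^ r = 1) (x : G → ℚ) :
    normOp g r x ∈ LinearMap.range (pull (Subgroup.zpowers g)) := by
  set N := normOp g r x with hN
  have hz : ∀ k : ℤ, ∀ ω : G, N (g ^ k * ω) = N ω := by
    intro k
    induction k using Int.induction_on with
    | zero => intro ω; simp
    | succ i ih =>
      intro ω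
      have := normOp_inv g r hg x (g ^ ((i : ℤ) + 1) * ω)
      rw [← hN] at this
      rw [← this, ← mul_assoc]
      have h5 : g⁻¹ * g ^ ((i : ℤ) + 1) = g ^ (i : ℤ) := by
        rw [add_comm, zpow_add, zpow_one, ← mul_assoc, inv_mul_cancel, one_mul]
      rw [h5, ih]
    | pred i ih =>
      intro ω
      have := normOp_inv g r hg x (g ^ (-(i : ℤ)) * ω)
      rw [← hN] at this
      have h5 : g ^ (-(i : ℤ) - 1) = g⁻¹ * g ^ (-(i : ℤ)) := by
        rw [sub_eq_add_neg, add_comm, zpow_add, zpow_neg_one]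
      rw [h5, mul_assoc, this, ih]
  refine ⟨fun c => Quotient.liftOn' c (fun w => N (w⁻¹)) ?_, ?_⟩
  · intro a b hab
    rw [QuotientGroup.leftRel_apply] at hab
    obtain ⟨k, hk⟩ := Subgroup.mem_zpowers_iff.1 hab
    have hb : b⁻¹ = g ^ (-k) * a⁻¹ := by
      rw [zpow_neg, hk]
      group
    show N (a⁻¹) = N (b⁻¹)
    rw [hb, hz]
  · funext ω
    show N ((ω⁻¹)⁻¹) = N ω
    rw [inv_inv]

variable [Fintype G]

theorem finrank_range_normOp (g : G) (r : ℕ) (hg : g ^ r = 1) :
    Module.finrank ℚ (LinearMap.range (normOp g r)) ≤ Nat.card (G ⧸ Subgroup.zpowers g) := by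
  classical
  have h1 : LinearMap.range (normOp g r) ≤ LinearMap.range (pull (Subgroup.zpowers g)) := by
    rintro _ ⟨x, rfl⟩
    exact normOp_mem g r hg x
  let _ : Fintype (G ⧸ Subgroup.zpowers g) := Fintype.ofFinite _
  calc Module.finrank ℚ (LinearMap.range (normOp g r))
      ≤ Module.finrank ℚ (LinearMap.range (pull (Subgroup.zpowers g))) :=
        Submodule.finrank_mono h1
    _ ≤ Module.finrank ℚ ((G ⧸ Subgroup.zpowers g) → ℚ) := LinearMap.finrank_range_le _
    _ = Nat.card (G ⧸ Subgroup.zpowers g) := by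
        rw [Module.finrank_fintype_fun_eq_card, Nat.card_eq_fintype_card]

/-- the map `(x,y) ↦ x + A y` -/
def comb (A : G) : (G → ℚ) × (G → ℚ) →ₗ[ℚ] (G → ℚ) where
  toFun xy := fun ω => xy.1 ω + xy.2 (A⁻¹ * ω)
  map_add' u v := by
    funext ω
    simp only [Prod.fst_add, Prod.snd_add, Pi.add_apply]
    ring
  map_smul' c u := by
    funext ω
    simp only [Prod.smul_fst, Prod.smul_snd, Pi.smul_apply, smul_eq_mul, RingHom.id_apply]
    ring

/-- the coboundary map -/
def cob (A B : G) : (G → ℚ) →ₗ[ℚ] (G → ℚ) × (G → ℚ) where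
  toFun F := (fun ω => F ω - F (A⁻¹ * ω), fun ω => F ω - F (B⁻¹ * ω))
  map_add' u v := by
    ext ω <;> simp only [Pi.add_apply, Prod.mk_add_mk] <;> ring
  map_smul' c u := by
    ext ω <;> simp only [Pi.smul_apply, smul_eq_mul, RingHom.id_apply, Prod.smul_mk] <;> ring

theorem exists_cocycle (A B : G) (p : ℕ) (hp : 6 < p)
    (hA : A ^ p = 1) (hB : B ^ 2 = 1) (hAB : (A * B) ^ 3 = 1)
    (cA : Nat.card G = p * Nat.card (G ⧸ Subgroup.zpowers A))
    (cB : Nat.card G = 2 * Nat.card (G ⧸ Subgroup.zpowers B))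
    (cAB : Nat.card G = 3 * Nat.card (G ⧸ Subgroup.zpowers (A * B))) :
    ∃ x y : G → ℚ, normOp A p x = 0 ∧ normOp B 2 y = 0 ∧
      normOp (A * B) 3 (fun ω => x ω + y (A⁻¹ * ω)) = 0 ∧
      ¬ ∃ F : G → ℚ, (∀ ω, x ω = F ω - F (A⁻¹ * ω)) ∧ (∀ ω, y ω = F ω - F (B⁻¹ * ω)) := by
  classical
  set L1 : (G → ℚ) × (G → ℚ) →ₗ[ℚ] LinearMap.range (normOp A p) :=
    (normOp A p).rangeRestrict ∘ₗ LinearMap.fst ℚ (G → ℚ) (G → ℚ) with hL1
  set L2 : (G → ℚ) × (G → ℚ) →ₗ[ℚ] LinearMap.range (normOp B 2) :=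
    (normOp B 2).rangeRestrict ∘ₗ LinearMap.snd ℚ (G → ℚ) (G → ℚ) with hL2
  set L3 : (G → ℚ) × (G → ℚ) →ₗ[ℚ] LinearMap.range (normOp (A * B) 3) :=
    (normOp (A * B) 3).rangeRestrict ∘ₗ comb A with hL3
  set L := L1.prod (L2.prod L3) with hL
  have hdim : Module.finrank ℚ (G → ℚ) = Nat.card G := by
    rw [Module.finrank_fintype_fun_eq_card, Nat.card_eq_fintype_card]
  have hrn := LinearMap.finrank_range_add_finrank_ker L
  have hVV : Module.finrank ℚ ((G → ℚ) × (G → ℚ)) = 2 * Nat.card G := by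
    rw [Module.finrank_prod, hdim]; ring
  have hrange : Module.finrank ℚ (LinearMap.range L) ≤
      Nat.card (G ⧸ Subgroup.zpowers A) + (Nat.card (G ⧸ Subgroup.zpowers B) +
        Nat.card (G ⧸ Subgroup.zpowers (A * B))) := by
    refine (Submodule.finrank_le _).trans ?_
    rw [Module.finrank_prod, Module.finrank_prod]
    have h1 := finrank_range_normOp A p hA
    have h2 := finrank_range_normOp B 2 hB
    have h3 := finrank_range_normOp (A * B) 3 hAB
    omega
  have hGpos : 0 < Nat.card (G ⧸ Subgroup.zpowers A) := Nat.card_pos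
  have hker : Nat.card G < Module.finrank ℚ (LinearMap.ker L) := by
    rw [hVV] at hrn
    have h6 : 6 * Nat.card (G ⧸ Subgroup.zpowers A) < Nat.card G := by
      rw [cA]
      exact Nat.mul_lt_mul_of_pos_right hp hGpos
    omega
  by_contra hcon
  push Not at hcon
  have hle : LinearMap.ker L ≤ LinearMap.range (cob A B) := by
    intro xy hxy
    have hxy' : L xy = 0 := hxy
    have e1 : normOp A p xy.1 = 0 := by
      have := congrArg (fun t => ((t.1 : LinearMap.range (normOp A p)) : G → ℚ)) hxy'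
      exact this
    have e2 : normOp B 2 xy.2 = 0 := by
      have := congrArg (fun t => ((t.2.1 : LinearMap.range (normOp B 2)) : G → ℚ)) hxy'
      exact this
    have e3 : normOp (A * B) 3 (comb A xy) = 0 := by
      have := congrArg (fun t => ((t.2.2 : LinearMap.range (normOp (A * B) 3)) : G → ℚ)) hxy'
      exact this
    obtain ⟨F, hF1, hF2⟩ := hcon xy.1 xy.2 e1 e2 e3
    refine ⟨F, ?_⟩
    ext ω
    · exact (hF1 ω).symm
    · exact (hF2 ω).symm
  have h7 := Submodule.finrank_mono hle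
  have h8 := LinearMap.finrank_range_le (cob A B)
  rw [hdim] at h8
  omega

end core

/-- the degenerate relator is automatic -/
theorem rel4 {E : Type*} [Group E] (a b : E) (hb : b ^ 2 = 1) (hab : (a * b) ^ 3 = 1) :
    (a * b * (a * a) * b) ^ 2 = 1 := by
  have hb' : b * b = 1 := by rw [← pow_two]; exact hb
  have hbi : b⁻¹ = b := inv_eq_of_mul_eq_one_left hb'
  have h1 : a * b * (a * b) * (a * b) = 1 := by
    have := hab
    rw [pow_succ, pow_two] at this
    exact this
  have h2 : a * b * a = b * a⁻¹ * b := by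
    have h3 : (a * b * a) * (b * (a * b)) = 1 := by
      rw [← h1]; group
    have h4 : a * b * a = (b * (a * b))⁻¹ := eq_inv_of_mul_eq_one_left h3
    rw [h4, mul_inv_rev, mul_inv_rev, hbi]
  have h5 : a * b * (a * a) * b = b * a⁻¹ * b * a * b := by
    calc a * b * (a * a) * b = (a * b * a) * a * b := by group
      _ = _ := by rw [h2]
  rw [h5, pow_two]
  calc b * a⁻¹ * b * a * b * (b * a⁻¹ * b * a * b)
      = b * a⁻¹ * b * a * (b * b) * a⁻¹ * b * a * b := by simp only [mul_assoc]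
    _ = b * a⁻¹ * b * (a * a⁻¹) * b * a * b := by rw [hb', mul_one]; simp only [mul_assoc]
    _ = b * a⁻¹ * (b * b) * a * b := by rw [mul_inv_cancel, mul_one]; simp only [mul_assoc]
    _ = b * (a⁻¹ * a) * b := by rw [hb', mul_one]; simp only [mul_assoc]
    _ = b * b := by rw [inv_mul_cancel, mul_one]
    _ = 1 := hb'

end Pool.Agent.H795TG
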