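import Mathlib
import Pool.Agent.Helper795.TG1

set_option autoImplicit false

namespace Pool.Agent.H795TG

open Matrix

variable (p : ℕ)

/-- the unipotent generator -/
def T : Matrix.SpecialLinearGroup (Fin 2) (ZMod p) := ⟨!![1, 1; 0, 1], by simp [det_fin_two_of]⟩

/-- the Weyl element -/
def S : Matrix.SpecialLinearGroup (Fin 2) (ZMod p) := ⟨!![0, 1; -1, 0], by simp [det_fin_two_of]⟩

/-- upper unipotent -/
def Up (x : ZMod p) : Matrix.SpecialLinearGroup (Fin 2) (ZMod p) :=
  ⟨!![1, x; 0, 1], by simp [det_fin_two_of]⟩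

/-- lower unipotent -/
def Lo (x : ZMod p) : Matrix.SpecialLinearGroup (Fin 2) (ZMod p) :=
  ⟨!![1, 0; x, 1], by simp [det_fin_two_of]⟩

theorem T_coe : (T p : Matrix (Fin 2) (Fin 2) (ZMod p)) = !![1, 1; 0, 1] := rfl

theorem S_coe : (S p : Matrix (Fin 2) (Fin 2) (ZMod p)) = !![0, 1; -1, 0] := rfl

theorem Up_coe (x : ZMod p) : (Up p x : Matrix (Fin 2) (Fin 2) (ZMod p)) = !![1, x; 0, 1] := rfl

theorem Lo_coe (x : ZMod p) : (Lo p x : Matrix (Fin 2) (Fin 2) (ZMod p)) = !![1, 0; x, 1] := rfl

theorem T_pow (n : ℕ) : (((T p) ^ n : Matrix.SpecialLinearGroup (Fin 2) (ZMod p)) :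
    Matrix (Fin 2) (Fin 2) (ZMod p)) = !![1, (n : ZMod p); 0, 1] := by
  induction n with
  | zero =>
    ext i j
    fin_cases i <;> fin_cases j <;> simp
  | succ n ih =>
    rw [pow_succ, Matrix.SpecialLinearGroup.coe_mul, ih, T_coe]
    ext i j
    fin_cases i <;> fin_cases j <;> simp [Matrix.mul_apply, Fin.sum_univ_two, add_comm]

theorem T_pow_p : (T p) ^ p = 1 := by
  apply Matrix.SpecialLinearGroup.ext
  rw [T_pow]
  intro i j
  fin_cases i <;> fin_cases j <;> simp

theorem S_sq : (S p) ^ 2 = -1 := by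
  apply Matrix.SpecialLinearGroup.ext
  rw [pow_two, Matrix.SpecialLinearGroup.coe_mul, S_coe]
  intro i j
  fin_cases i <;> fin_cases j <;> simp [Matrix.mul_apply, Fin.sum_univ_two]

theorem TS_cube : (T p * S p) ^ 3 = 1 := by
  apply Matrix.SpecialLinearGroup.ext
  rw [pow_succ, pow_two]
  simp only [Matrix.SpecialLinearGroup.coe_mul, S_coe, T_coe]
  intro i j
  fin_cases i <;> fin_cases j <;> simp [Matrix.mul_apply, Fin.sum_univ_two]

theorem neg_one_mem : (-1 : Matrix.SpecialLinearGroup (Fin 2) (ZMod p)) ∈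
    Subgroup.center (Matrix.SpecialLinearGroup (Fin 2) (ZMod p)) := by
  rw [Subgroup.mem_center_iff]
  intro g
  simp

variable [Fact p.Prime]

theorem not_comm_TS : T p * S p ≠ S p * T p := by
  intro h
  have := congrArg (fun M : Matrix.SpecialLinearGroup (Fin 2) (ZMod p) =>
    (M : Matrix (Fin 2) (Fin 2) (ZMod p)) 0 0) h
  simp only [Matrix.SpecialLinearGroup.coe_mul, S_coe, T_coe] at this
  simp [Matrix.mul_apply, Fin.sum_univ_two] at this

theorem T_not_mem : T p ∉ Subgroup.center (Matrix.SpecialLinearGroup (Fin 2) (ZMod p)) := by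
  intro h
  rw [Subgroup.mem_center_iff] at h
  exact not_comm_TS p (h (S p)).symm

theorem S_not_mem : S p ∉ Subgroup.center (Matrix.SpecialLinearGroup (Fin 2) (ZMod p)) := by
  intro h
  rw [Subgroup.mem_center_iff] at h
  exact not_comm_TS p (h (T p))

theorem TS_not_mem : T p * S p ∉ Subgroup.center (Matrix.SpecialLinearGroup (Fin 2) (ZMod p)) := by
  intro h
  rw [Subgroup.mem_center_iff] at h
  have h1 := h (T p)
  rw [mul_assoc] at h1
  exact not_comm_TS p (mul_left_cancel h1)

theorem closure_TS :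
    Subgroup.closure ({T p, S p} : Set (Matrix.SpecialLinearGroup (Fin 2) (ZMod p))) = ⊤ := by
  set H := Subgroup.closure ({T p, S p} : Set (Matrix.SpecialLinearGroup (Fin 2) (ZMod p))) with hH
  have hT : T p ∈ H := Subgroup.subset_closure (by simp)
  have hS : S p ∈ H := Subgroup.subset_closure (by simp)
  have hU : ∀ x : ZMod p, Up p x ∈ H := by
    intro x
    have : Up p x = (T p) ^ x.val := by
      apply Matrix.SpecialLinearGroup.ext
      rw [T_pow, Up_coe]
      intro i j
      fin_cases i <;> fin_cases j <;> simp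
    rw [this]
    exact H.pow_mem hT _
  have hLow : ∀ x : ZMod p, Lo p x ∈ H := by
    intro x
    have h4 := hU (-x)
    have h5 : Lo p x = S p * S p * S p * Up p (-x) * S p := by
      apply Matrix.SpecialLinearGroup.ext
      simp only [Matrix.SpecialLinearGroup.coe_mul, S_coe, Up_coe, Lo_coe]
      intro i j
      fin_cases i <;> fin_cases j <;> simp [Matrix.mul_apply, Fin.sum_univ_two]
    rw [h5]
    exact H.mul_mem (H.mul_mem (H.mul_mem (H.mul_mem hS hS) hS) h4) hS
  have hc : ∀ M : Matrix.SpecialLinearGroup (Fin 2) (ZMod p), M 1 0 ≠ 0 → M ∈ H := by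
    intro M hM
    have hdet : M 0 0 * M 1 1 - M 0 1 * M 1 0 = 1 := by
      rw [← det_fin_two]; exact M.2
    have hprod : M = Up p ((M 0 0 - 1) / M 1 0) * Lo p (M 1 0) * Up p ((M 1 1 - 1) / M 1 0) := by
      apply Matrix.SpecialLinearGroup.ext
      simp only [Matrix.SpecialLinearGroup.coe_mul, Up_coe, Lo_coe]
      intro i j
      fin_cases i <;> fin_cases j
      · simp [Matrix.mul_apply, Fin.sum_univ_two]
        field_simp
        ring
      · simp [Matrix.mul_apply, Fin.sum_univ_two]
        field_simp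
        linear_combination -hdet
      · simp [Matrix.mul_apply, Fin.sum_univ_two]
      · simp [Matrix.mul_apply, Fin.sum_univ_two]
        field_simp
        ring
    rw [hprod]
    exact H.mul_mem (H.mul_mem (hU _) (hLow _)) (hU _)
  rw [eq_top_iff]
  intro M _
  by_cases h : M 1 0 = 0
  · have hdet : M 0 0 * M 1 1 - M 0 1 * M 1 0 = 1 := by
      rw [← det_fin_two]; exact M.2
    have hd : M 1 1 ≠ 0 := by
      intro h0
      rw [h, h0] at hdet
      simp at hdet
    have h2 := hLow 1
    have h1 : M * Lo p 1 ∈ H := by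
      apply hc
      simp only [Matrix.SpecialLinearGroup.coe_mul, Lo_coe]
      simp [Matrix.mul_apply, Fin.sum_univ_two, h, hd]
    have h3 : M = M * Lo p 1 * (Lo p 1)⁻¹ := by rw [mul_inv_cancel_right]
    rw [h3]
    exact H.mul_mem h1 (H.inv_mem h2)
  · exact hc M h

end Pool.Agent.H795TG
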