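import Mathlib
import Pool.Agent.Helper795.TG1
import Pool.Agent.Helper795.TG2

set_option autoImplicit false

namespace Pool.Agent.H795TG

open Matrix RegularWreathProduct

/-- projective special linear group -/
abbrev Q (p : ℕ) := Matrix.SpecialLinearGroup (Fin 2) (ZMod p) ⧸
            Subgroup.center (Matrix.SpecialLinearGroup (Fin 2) (ZMod p))

theorem card_eq {G : Type*} [Group G] [Finite G] (g : G) (r : ℕ) (hr : r.Prime) (hg : g ^ r = 1)
    (h1 : g ≠ 1) : Nat.card G = r * Nat.card (G ⧸ Subgroup.zpowers g) := by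
  have hF : Fact r.Prime := ⟨hr⟩
  have := Subgroup.card_eq_card_quotient_mul_card_subgroup (Subgroup.zpowers g)
  rw [Nat.card_zpowers, orderOf_eq_prime hg h1] at this
  rw [this, mul_comm]

/-- the main group-theoretic statement -/
theorem core {G : Type} [Group G] [Finite G] (A B : G) (p : ℕ) (hp : p.Prime) (h6 : 6 < p)
    (hA : A ^ p = 1) (hB : B ^ 2 = 1) (hAB : (A * B) ^ 3 = 1)
    (nA : A ≠ 1) (nB : B ≠ 1) (nAB : A * B ≠ 1)
    (P : Type) [Group P] (φ : P →* G) (hφ : Function.Surjective φ) (a b : P)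
    (ha : φ a = A) (hb : φ b = B)
    (lift : ∀ (E : Type) [Group E] (u v : E), u ^ p = 1 → v ^ 2 = 1 → (u * v) ^ 3 = 1 →
      ∃ ψ : P →* E, ψ a = u ∧ ψ b = v)
    (hext : ∀ f g : P →* G, f a = g a → f b = g b → f = g) :
    ¬ Finite (Abelianization φ.ker) := by
  intro hfin
  classical
  let _ : Fintype G := Fintype.ofFinite G
  obtain ⟨x, y, hx, hy, hxy, hno⟩ := exists_cocycle A B p h6 hA hB hAB
    (card_eq A p hp hA nA) (card_eq B 2 Nat.prime_two hB nB) (card_eq (A * B) 3 Nat.prime_three hAB nAB)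
  have hone : ∀ g : G, g = 1 → wr (0 : G → ℚ) g = 1 := by
    intro g hg
    ext <;> simp [wr, hg]
  obtain ⟨ψ, hψa, hψb⟩ := lift (RegularWreathProduct (Multiplicative ℚ) G) (wr x A) (wr y B)
    (by rw [wr_pow, hx]; exact hone _ hA)
    (by rw [wr_pow, hy]; exact hone _ hB)
    (by rw [wr_mul, wr_pow, hxy]; exact hone _ hAB)
  have hright : ∀ g : P, (ψ g).right = φ g := by
    intro g
    have := hext (rightHom.comp ψ) φ
      (by rw [MonoidHom.comp_apply, hψa, ha]; rfl) (by rw [MonoidHom.comp_apply, hψb, hb]; rfl)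
    exact DFunLike.congr_fun this g
  -- additive form of the cocycle
  have hc : ∀ g h : P, ∀ ω : G, Multiplicative.toAdd ((ψ (g * h)).left ω) =
      Multiplicative.toAdd ((ψ g).left ω) + Multiplicative.toAdd ((ψ h).left ((φ g)⁻¹ * ω)) := by
    intro g h ω
    rw [map_mul, mul_left, hright]
    rfl
  -- triviality on the kernel
  have htriv : ∀ n : P, φ n = 1 → ∀ ω : G, Multiplicative.toAdd ((ψ n).left ω) = 0 := by
    intro n hn ω
    let θ : φ.ker →* Multiplicative ℚ :=
      { toFun := fun m => (ψ m.1).left ω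
        map_one' := by simp
        map_mul' := by
          intro m₁ m₂
          have h1 : φ m₁.1 = 1 := m₁.2
          have := hc m₁.1 m₂.1 ω
          rw [h1, inv_one, one_mul] at this
          exact this }
    have h2 : θ ⟨n, hn⟩ = Abelianization.lift θ (Abelianization.of ⟨n, hn⟩) := by
      rw [Abelianization.lift_apply_of]
    have h3 : IsOfFinOrder (Abelianization.of (⟨n, hn⟩ : φ.ker)) := isOfFinOrder_of_finite _
    have h4 : IsOfFinOrder (θ ⟨n, hn⟩) := by
      rw [h2]
      exact MonoidHom.isOfFinOrder _ h3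
    rw [isOfFinOrder_iff_pow_eq_one] at h4
    obtain ⟨k, hk, hk'⟩ := h4
    have h5 := congrArg Multiplicative.toAdd hk'
    rw [toAdd_pow, toAdd_one, nsmul_eq_mul] at h5
    have hk0 : (k : ℚ) ≠ 0 := by exact_mod_cast hk.ne'
    exact (mul_eq_zero.1 h5).resolve_left hk0
  -- the potential
  apply hno
  choose s hs using hφ
  have hwd : ∀ g h : P, φ g = φ h → ∀ ω : G,
      Multiplicative.toAdd ((ψ g).left ω) = Multiplicative.toAdd ((ψ h).left ω) := by
    intro g h hgh ω
    have h1 := hc g (g⁻¹ * h) ω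
    rw [mul_inv_cancel_left] at h1
    rw [h1, htriv (g⁻¹ * h) (by rw [map_mul, map_inv, hgh, inv_mul_cancel]), add_zero]
  refine ⟨fun ω => Multiplicative.toAdd ((ψ (s ω)).left ω), ?_, ?_⟩
  · intro ω
    have h1 := hc a (s (A⁻¹ * ω)) ω
    rw [ha] at h1
    have h2 : φ (a * s (A⁻¹ * ω)) = φ (s ω) := by
      rw [map_mul, ha, hs, hs, mul_inv_cancel_left]
    rw [hwd _ _ h2, hψa] at h1
    have h3 : Multiplicative.toAdd ((wr x A).left ω) = x ω := rfl
    rw [h3] at h1
    beta_reduce
    rw [h1]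
    ring
  · intro ω
    have h1 := hc b (s (B⁻¹ * ω)) ω
    rw [hb] at h1
    have h2 : φ (b * s (B⁻¹ * ω)) = φ (s ω) := by
      rw [map_mul, hb, hs, hs, mul_inv_cancel_left]
    rw [hwd _ _ h2, hψb] at h1
    have h3 : Multiplicative.toAdd ((wr y B).left ω) = y ω := rfl
    rw [h3] at h1
    beta_reduce
    rw [h1]
    ring

/-- the relators with exponents 1 and 2 -/
abbrev rels (p : ℕ) : Set (FreeGroup (Fin 2)) :=
  {FreeGroup.of (0 : Fin 2) ^ p,
            (FreeGroup.of (0 : Fin 2) * FreeGroup.of (1 : Fin 2)) ^ 3,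
            FreeGroup.of (1 : Fin 2) ^ 2,
            (FreeGroup.of (0 : Fin 2) ^ (1 : ℤ) * FreeGroup.of (1 : Fin 2) *
              FreeGroup.of (0 : Fin 2) ^ (2 : ℤ) * FreeGroup.of (1 : Fin 2)) ^ 2}

theorem lift_ok {p : ℕ} {E : Type*} [Group E] (f : Fin 2 → E) (h0 : f 0 ^ p = 1) (h1 : f 1 ^ 2 = 1)
    (h01 : (f 0 * f 1) ^ 3 = 1) : ∀ r ∈ rels p, FreeGroup.lift f r = 1 := by
  intro r hr
  rcases hr with rfl | rfl | rfl | rfl
  · simpa using h0
  · simpa using h01
  · simpa using h1
  · have := rel4 (f 0) (f 1) h1 h01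
    simp only [map_pow, map_mul, FreeGroup.lift_apply_of, zpow_one, zpow_two]
    exact this

theorem not_fin (p : ℕ) (hp : p.Prime) (h6 : 6 < p) :
    ¬ (∀ φ : PresentedGroup (rels p) →* Q p, Function.Surjective φ → Finite (Abelianization φ.ker)) := by
  have : Fact p.Prime := ⟨hp⟩
  intro h
  set A : Q p := QuotientGroup.mk (T p) with hA
  set B : Q p := QuotientGroup.mk (S p) with hB
  have hAp : A ^ p = 1 := by
    rw [hA, ← QuotientGroup.mk_pow, T_pow_p]; rfl
  have hBp : B ^ 2 = 1 := by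
    rw [hB, ← QuotientGroup.mk_pow, S_sq]
    exact (QuotientGroup.eq_one_iff _).2 (neg_one_mem p)
  have hABp : (A * B) ^ 3 = 1 := by
    rw [hA, hB, ← QuotientGroup.mk_mul, ← QuotientGroup.mk_pow, TS_cube]; rfl
  have nA : A ≠ 1 := fun h => T_not_mem p ((QuotientGroup.eq_one_iff _).1 h)
  have nB : B ≠ 1 := fun h => S_not_mem p ((QuotientGroup.eq_one_iff _).1 h)
  have nAB : A * B ≠ 1 := by
    rw [hA, hB, ← QuotientGroup.mk_mul]
    exact fun h => TS_not_mem p ((QuotientGroup.eq_one_iff _).1 h)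
  let φ : PresentedGroup (rels p) →* Q p :=
    PresentedGroup.toGroup (f := ![A, B]) (lift_ok ![A, B] hAp hBp hABp)
  have ha : φ (PresentedGroup.of 0) = A := PresentedGroup.toGroup.of _
  have hb : φ (PresentedGroup.of 1) = B := PresentedGroup.toGroup.of _
  have hsurj : Function.Surjective φ := by
    rw [← MonoidHom.range_eq_top, eq_top_iff]
    intro q _
    obtain ⟨M, rfl⟩ := QuotientGroup.mk_surjective q
    have hM : M ∈ Subgroup.closure ({T p, S p} : Set (Matrix.SpecialLinearGroup (Fin 2) (ZMod p))) := by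
      rw [closure_TS]; trivial
    have hle : Subgroup.closure ({T p, S p} : Set (Matrix.SpecialLinearGroup (Fin 2) (ZMod p))) ≤
        Subgroup.comap (QuotientGroup.mk' _) φ.range := by
      rw [Subgroup.closure_le]
      rintro g (rfl | rfl)
      · exact ⟨_, ha⟩
      · exact ⟨_, hb⟩
    exact hle hM
  have : Finite (Q p) := inferInstance
  refine core A B p hp h6 hAp hBp hABp nA nB nAB (PresentedGroup (rels p)) φ hsurj
    (PresentedGroup.of 0) (PresentedGroup.of 1) ha hb ?_ ?_ (h φ hsurj)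
  · intro E _ u v hu hv huv
    exact ⟨PresentedGroup.toGroup (f := ![u, v]) (lift_ok ![u, v] hu hv huv),
      PresentedGroup.toGroup.of _, PresentedGroup.toGroup.of _⟩
  · intro f g h0 h1
    apply PresentedGroup.ext
    intro i
    fin_cases i
    · exact h0
    · exact h1

end Pool.Agent.H795TG
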