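import Pool.Agent.Helper795.SobDefs

/-!
# Weak versus strong `W^{1,p}` closure of homeomorphisms, all `n ≥ 3` and all `1 ≤ p < ∞`

For every `n ≥ 3` there are bounded connected open sets `Ω`, `Ω'` of `ℝⁿ` and one map `f` which, for
every exponent `p` in `[1, ∞)`, is a weak `W^{1,p}` limit of homeomorphisms of `Ω` onto `Ω'` but not
a strong `W^{1,p}` limit of such homeomorphisms.

`Ω` is a product of a planar domain with a cube. The planar domain is a square together with
straight columns with a hole hanging below the gaps of the Cantor set; in `Ω'` the columns are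
compressed vertically and zigzag, so that they become small but essential loops stay long. The
homeomorphisms act on the first coordinate by piecewise affine maps which permute the gaps of the
Cantor set and send the largest gap to smaller and smaller ones; they are uniformly Lipschitz.
-/

set_option autoImplicit false

open MeasureTheory Set Filter Topology Metric
open scoped ENNReal NNReal InnerProductSpace
open Pool.Agent.Helper795.SobDefs

namespace Pool.Agent.Helper795.Wild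

noncomputable section

section base



/-- two continuous logarithms on an interval differ by a constant -/
lemma log_diff_const {a b : ℝ} (hab : a ≤ b) {f g : ℝ → ℂ} (hf : ContinuousOn f (Icc a b))
    (hg : ContinuousOn g (Icc a b))
    (h : ∀ s ∈ Icc a b, Complex.exp (f s) = Complex.exp (g s)) :
    f b - f a = g b - g a := by
  have hd : ContinuousOn (fun s => ((f s - g s) / (2 * Real.pi * Complex.I)).re) (Icc a b) := by
    have : ContinuousOn (fun s => (f s - g s) / (2 * Real.pi * Complex.I)) (Icc a b) :=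
      (hf.sub hg).div_const _
    exact Complex.continuous_re.comp_continuousOn this
  have hne : (2 * (Real.pi : ℂ) * Complex.I) ≠ 0 := Complex.two_pi_I_ne_zero
  have hint : ∀ s ∈ Icc a b, ∃ n : ℤ, f s - g s = n * (2 * Real.pi * Complex.I) := by
    intro s hs
    have : Complex.exp (f s - g s) = 1 := by
      rw [Complex.exp_sub, h s hs, div_self (Complex.exp_ne_zero _)]
    exact Complex.exp_eq_one_iff.mp this
  have hval : ∀ s ∈ Icc a b, ∀ n : ℤ, f s - g s = n * (2 * Real.pi * Complex.I) →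
      ((f s - g s) / (2 * Real.pi * Complex.I)).re = n := by
    intro s hs n hn
    rw [hn, mul_div_assoc, div_self hne, mul_one]; simp
  obtain ⟨na, hna⟩ := hint a (left_mem_Icc.mpr hab)
  obtain ⟨nb, hnb⟩ := hint b (right_mem_Icc.mpr hab)
  have key : na = nb := by
    by_contra hne'
    -- intermediate value takes a half integer value
    set F := fun s => ((f s - g s) / (2 * Real.pi * Complex.I)).re with hF
    have hFa : F a = na := hval a (left_mem_Icc.mpr hab) na hna
    have hFb : F b = nb := hval b (right_mem_Icc.mpr hab) nb hnb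
    rcases lt_or_gt_of_ne hne' with hlt | hlt
    · have := intermediate_value_Icc hab hd
      have hmem : (na : ℝ) + 1 / 2 ∈ Icc (F a) (F b) := by
        rw [hFa, hFb]
        have : (na : ℝ) + 1 ≤ nb := by exact_mod_cast hlt
        constructor <;> linarith
      obtain ⟨s, hs, hse⟩ := this hmem
      obtain ⟨n, hn⟩ := hint s hs
      have h1 : F s = n := hval s hs n hn
      have h2 : F s = (na : ℝ) + 1 / 2 := hse
      rw [h1] at h2
      have h3 : (2 * n : ℝ) = 2 * na + 1 := by linarith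
      have h4 : 2 * n = 2 * na + 1 := by exact_mod_cast h3
      omega
    · have := intermediate_value_Icc' hab hd
      have hmem : (nb : ℝ) + 1 / 2 ∈ Icc (F b) (F a) := by
        rw [hFa, hFb]
        have : (nb : ℝ) + 1 ≤ na := by exact_mod_cast hlt
        constructor <;> linarith
      obtain ⟨s, hs, hse⟩ := this hmem
      obtain ⟨n, hn⟩ := hint s hs
      have h1 : F s = n := hval s hs n hn
      have h2 : F s = (nb : ℝ) + 1 / 2 := hse
      rw [h1] at h2
      have h3 : (2 * n : ℝ) = 2 * nb + 1 := by linarith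
      have h4 : 2 * n = 2 * nb + 1 := by exact_mod_cast h3
      omega
  have : f a - g a = f b - g b := by rw [hna, hnb, key]
  linear_combination -this

/-- a loop in the punctured plane, parametrised by `[0,4]`, has a closed logarithm -/
def ClosedLog (P : ℝ → ℂ) : Prop :=
  ∃ l : ℝ → ℂ, ContinuousOn l (Icc 0 4) ∧ (∀ s ∈ Icc (0 : ℝ) 4, Complex.exp (l s) = P s) ∧ l 0 = l 4

/-- homotopy invariance of having a closed logarithm -/
lemma closedLog_of_homotopy (K : ℝ × ℝ → ℂ) (hK : ContinuousOn K (Icc 0 4 ×ˢ Icc 0 1))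
    (h0 : ∀ p ∈ (Icc (0 : ℝ) 4) ×ˢ (Icc (0 : ℝ) 1), K p ≠ 0)
    (hper : ∀ u ∈ Icc (0 : ℝ) 1, K (0, u) = K (4, u))
    (h1 : ClosedLog fun s => K (s, 1)) : ClosedLog fun s => K (s, 0) := by
  -- extend by clamping
  set c : ℝ × ℝ → ℝ × ℝ := fun p => (max 0 (min p.1 4), max 0 (min p.2 1)) with hc
  have hcc : Continuous c := by fun_prop
  have hcm : ∀ p, c p ∈ (Icc (0 : ℝ) 4) ×ˢ (Icc (0 : ℝ) 1) := by
    intro p
    refine ⟨⟨le_max_left _ _, ?_⟩, ⟨le_max_left _ _, ?_⟩⟩
    · exact max_le (by norm_num) (min_le_right _ _)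
    · exact max_le (by norm_num) (min_le_right _ _)
  have hcid : ∀ s ∈ Icc (0 : ℝ) 4, ∀ u ∈ Icc (0 : ℝ) 1, c (s, u) = (s, u) := by
    intro s hs u hu
    simp only [hc]
    rw [min_eq_left hs.2, max_eq_right hs.1, min_eq_left hu.2, max_eq_right hu.1]
  have hKc : ContinuousOn (fun p => K (c p)) (univ : Set (ℝ × ℝ)) := by
    apply hK.comp hcc.continuousOn
    intro p _; exact hcm p
  have hsc : IsSimplyConnected (univ : Set (ℝ × ℝ)) := by
    have : ContractibleSpace (univ : Set (ℝ × ℝ)) := convex_univ.contractibleSpace ⟨0, mem_univ _⟩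
    exact (inferInstance : SimplyConnectedSpace (univ : Set (ℝ × ℝ)))
  obtain ⟨f, hf, hfe⟩ := Complex.exists_continuousOn_eqOn_exp_comp hsc isOpen_univ hKc (by
    rintro ⟨p, -, hp⟩; exact h0 _ (hcm p) hp)
  have hfc : Continuous f := continuousOn_univ.mp hf
  have hfexp : ∀ s ∈ Icc (0 : ℝ) 4, ∀ u ∈ Icc (0 : ℝ) 1, Complex.exp (f (s, u)) = K (s, u) := by
    intro s hs u hu
    have := hfe (mem_univ (s, u))
    simp only [Function.comp] at this
    rw [this, hcid s hs u hu]
  obtain ⟨l, hl, hle, hl0⟩ := h1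
  have hi0 : (0 : ℝ) ∈ Icc (0 : ℝ) 4 := by norm_num
  have hi4 : (4 : ℝ) ∈ Icc (0 : ℝ) 4 := by norm_num
  have hu0 : (0 : ℝ) ∈ Icc (0 : ℝ) 1 := by norm_num
  have hu1 : (1 : ℝ) ∈ Icc (0 : ℝ) 1 := by norm_num
  have e1 : f (4, 1) - f (0, 1) = l 4 - l 0 := by
    apply log_diff_const (f := fun s => f (s, 1)) (by norm_num) (by fun_prop) hl
    intro s hs
    rw [hfexp s hs 1 hu1, hle s hs]
  have e2 : f (4, 1) - f (4, 0) = f (0, 1) - f (0, 0) := by
    apply log_diff_const (f := fun u => f (4, u)) (g := fun u => f (0, u)) (by norm_num)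
      (by fun_prop) (by fun_prop)
    intro u hu
    rw [hfexp 4 hi4 u hu, hfexp 0 hi0 u hu, hper u hu]
  refine ⟨fun s => f (s, 0), by fun_prop, fun s hs => hfexp s hs 0 hu0, ?_⟩
  rw [hl0, sub_self] at e1
  change f (0, 0) = f (4, 0)
  linear_combination e2 - e1

lemma closedLog_const {c : ℂ} (hc : c ≠ 0) : ClosedLog fun _ => c :=
  ⟨fun _ => Complex.log c, continuousOn_const, fun _ _ => Complex.exp_log hc, rfl⟩

/-- one side of a square loop -/
lemma side_change {a b : ℝ} (hab : a ≤ b) {l : ℝ → ℂ} (hl : ContinuousOn l (Icc a b)) {w : ℂ}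
    (hw : w ≠ 0) {y : ℝ → ℝ} (hy : ContinuousOn y (Icc a b)) (hya : y a = -1) (hyb : y b = 1)
    (h : ∀ s ∈ Icc a b, Complex.exp (l s) = w * (1 - Complex.I * y s)) :
    l b - l a = Complex.log (1 - Complex.I) - Complex.log (1 + Complex.I) := by
  have hsl : ∀ s, (1 - Complex.I * (y s : ℂ)) ∈ Complex.slitPlane := by
    intro s
    left
    simp
  have h1 := log_diff_const (f := l) (g := fun s => Complex.log w + Complex.log (1 - Complex.I * y s))
    hab hl (by
      apply continuousOn_const.add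
      apply ContinuousOn.clog
      · apply continuousOn_const.sub
        exact continuousOn_const.mul (Complex.continuous_ofReal.comp_continuousOn hy)
      · intro s _; exact hsl s) (by
      intro s hs
      rw [h s hs, Complex.exp_add, Complex.exp_log hw, Complex.exp_log (Complex.slitPlane_ne_zero (hsl s))])
  rw [h1, hya, hyb]
  push_cast
  ring_nf

/-- a loop going around the boundary of the square has no closed logarithm -/
lemma not_closedLog_square {P : ℝ → ℂ} {y : ℕ → ℝ → ℝ} {w : ℕ → ℂ} (hw : ∀ k : ℕ, k < 4 → w k ≠ 0)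
    (hy : ∀ k : ℕ, k < 4 → ContinuousOn (y k) (Icc (k : ℝ) (k + 1)))
    (hya : ∀ k : ℕ, k < 4 → y k k = -1) (hyb : ∀ k : ℕ, k < 4 → y k (k + 1) = 1)
    (hP : ∀ k : ℕ, k < 4 → ∀ s ∈ Icc (k : ℝ) (k + 1), P s = w k * (1 - Complex.I * y k s)) :
    ¬ ClosedLog P := by
  rintro ⟨l, hl, hle, hl0⟩
  set κ := Complex.log (1 - Complex.I) - Complex.log (1 + Complex.I) with hκ
  have hκ0 : κ ≠ 0 := by
    intro h
    have h1 : Complex.log (1 - Complex.I) = Complex.log (1 + Complex.I) := sub_eq_zero.mp h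
    have h2 : (1 : ℂ) - Complex.I ≠ 0 := by
      intro h; have := congrArg Complex.re h; simp at this
    have h3 : (1 : ℂ) + Complex.I ≠ 0 := by
      intro h; have := congrArg Complex.re h; simp at this
    have h4 := congrArg Complex.exp h1
    rw [Complex.exp_log h2, Complex.exp_log h3] at h4
    have := congrArg Complex.im h4
    simp at this
    linarith
  have hstep : ∀ k : ℕ, k < 4 → l ((k : ℝ) + 1) - l k = κ := by
    intro k hk
    have hk' : (k : ℝ) + 1 ≤ 4 := by exact_mod_cast hk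
    have hsub : Icc (k : ℝ) (k + 1) ⊆ Icc 0 4 := Icc_subset_Icc (by positivity) hk'
    apply side_change (by linarith) (hl.mono hsub) (hw k hk) (hy k hk) (hya k hk) (hyb k hk)
    intro s hs
    rw [hle s (hsub hs), hP k hk s hs]
  have h0 := hstep 0 (by norm_num)
  have h1 := hstep 1 (by norm_num)
  have h2 := hstep 2 (by norm_num)
  have h3 := hstep 3 (by norm_num)
  norm_num at h0 h1 h2 h3
  have : 4 * κ = 0 := by
    have : l 4 - l 0 = 4 * κ := by linear_combination h0 + h1 + h2 + h3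
    rw [← this, hl0, sub_self]
  exact hκ0 (by simpa using this)

/-- variation of a continuous logarithm along a curve of controlled variation -/
lemma log_variation {a b ρ : ℝ} (hab : a ≤ b) (hρ : 0 < ρ) {z l : ℝ → ℂ} {V : ℝ → ℝ}
    (hl : ContinuousOn l (Icc a b)) (hV : ContinuousOn V (Icc a b))
    (hz : ∀ s ∈ Icc a b, ρ ≤ ‖z s‖)
    (hzV : ∀ s ∈ Icc a b, ∀ t ∈ Icc a b, s ≤ t → ‖z t - z s‖ ≤ V t - V s)
    (hle : ∀ s ∈ Icc a b, Complex.exp (l s) = z s) :
    ‖l b - l a‖ ≤ 2 / ρ * (V b - V a) := by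
  set S : Set ℝ := {s | s ∈ Icc a b ∧ ‖l s - l a‖ ≤ 2 / ρ * (V s - V a)} with hS
  have hclosed : IsClosed (S ∩ Icc a b) := by
    have : S ∩ Icc a b = Icc a b ∩ (fun s => 2 / ρ * (V s - V a) - ‖l s - l a‖) ⁻¹' Ici 0 := by
      ext s
      simp only [hS, mem_inter_iff, mem_preimage, mem_Ici, sub_nonneg]
      constructor
      · rintro ⟨⟨h1, h2⟩, h3⟩; exact ⟨h1, h2⟩
      · rintro ⟨h1, h2⟩; exact ⟨⟨h1, h2⟩, h1⟩
    rw [this]
    apply ContinuousOn.preimage_isClosed_of_isClosed _ isClosed_Icc isClosed_Ici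
    apply ContinuousOn.sub
    · exact continuousOn_const.mul (hV.sub continuousOn_const)
    · exact (hl.sub continuousOn_const).norm
  have hsub : Icc a b ⊆ S := by
    apply IsClosed.Icc_subset_of_forall_mem_nhdsWithin hclosed
    · exact ⟨left_mem_Icc.mpr hab, by simp⟩
    · rintro s ⟨⟨hs, hsle⟩, hsb⟩
      have hcont : ContinuousWithinAt l (Icc a b) s := hl s hs
      have h1 : ∀ᶠ t in 𝓝[Icc a b] s, ‖l t - l s‖ < 1 / 2 := by
        have := hcont.tendsto
        have h2 : Tendsto (fun t => ‖l t - l s‖) (𝓝[Icc a b] s) (𝓝 ‖l s - l s‖) :=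
          (this.sub tendsto_const_nhds).norm
        rw [sub_self, norm_zero] at h2
        exact h2.eventually_lt_const (by norm_num)
      have h2 : 𝓝[>] s ≤ 𝓝[Icc a b] s := by
        have : 𝓝[>] s = 𝓝[Ioc s b] s := (nhdsWithin_Ioc_eq_nhdsGT hsb.2).symm
        rw [this]
        exact nhdsWithin_mono s fun t ht => ⟨hs.1.trans ht.1.le, ht.2⟩
      have h3 : ∀ᶠ t in 𝓝[>] s, t ∈ Ioc s b := Ioc_mem_nhdsGT hsb.2
      filter_upwards [h2 h1, h3] with t ht1 ht2
      have htm : t ∈ Icc a b := ⟨hs.1.trans ht2.1.le, ht2.2⟩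
      refine ⟨htm, ?_⟩
      set u := l t - l s with hu
      have hu2 : ‖u‖ ≤ 2 * ‖Complex.exp u - 1‖ := by
        have h4 := Complex.norm_exp_sub_one_sub_id_le (x := u) (by linarith)
        have h5 : ‖u‖ ≤ ‖Complex.exp u - 1‖ + ‖Complex.exp u - 1 - u‖ := by
          calc ‖u‖ = ‖(Complex.exp u - 1) - (Complex.exp u - 1 - u)‖ := by congr 1; ring
            _ ≤ _ := norm_sub_le _ _
        nlinarith [norm_nonneg u]
      have hzs : z s ≠ 0 := by
        intro h0
        have := hz s hs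
        rw [h0, norm_zero] at this
        linarith
      have hexp : Complex.exp u - 1 = (z t - z s) / z s := by
        rw [hu, Complex.exp_sub, hle t htm, hle s hs]
        field_simp
      have hb : ‖Complex.exp u - 1‖ ≤ (V t - V s) / ρ := by
        rw [hexp, norm_div]
        have := hzV s hs t htm ht2.1.le
        calc ‖z t - z s‖ / ‖z s‖ ≤ (V t - V s) / ‖z s‖ := by gcongr
          _ ≤ (V t - V s) / ρ := by
              apply div_le_div_of_nonneg_left _ hρ (hz s hs)
              exact (norm_nonneg _).trans this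
      calc ‖l t - l a‖ = ‖u + (l s - l a)‖ := by rw [hu]; congr 1; ring
        _ ≤ ‖u‖ + ‖l s - l a‖ := norm_add_le _ _
        _ ≤ 2 * ((V t - V s) / ρ) + 2 / ρ * (V s - V a) := by
            have := hu2.trans (mul_le_mul_of_nonneg_left hb (by norm_num : (0:ℝ) ≤ 2))
            linarith
        _ = 2 / ρ * (V t - V a) := by ring
  exact (hsub (right_mem_Icc.mpr hab)).2




variable {n : ℕ}

lemma int_bdd_smul {α F : Type*} {mα : MeasurableSpace α} {μ : Measure α} [NormedAddCommGroup F]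
    [NormedSpace ℝ F] {f : α → F} {φ : α → ℝ} (hf : Integrable f μ) (C : ℝ)
    (h1 : AEStronglyMeasurable φ μ) (h2 : ∀ a, ‖φ a‖ ≤ C) :
    Integrable (fun x => φ x • f x) μ :=
  hf.bdd_smul C h1 (Filter.Eventually.of_forall h2)

/-- joint integrability of the translated differential -/
lemma integrable_shear {G : Eu n → (Eu n →L[ℝ] Eu n)} (hGm : StronglyMeasurable G)
    (hGi : Integrable G) (v : Eu n) (s : Set ℝ) (hs : volume s ≠ ⊤) :
    Integrable (fun p : Eu n × ℝ => G (p.1 + p.2 • v) v) (volume.prod (volume.restrict s)) := by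
  have : IsFiniteMeasure ((volume : Measure ℝ).restrict s) :=
    ⟨by rw [Measure.restrict_apply_univ]; exact lt_top_iff_ne_top.mpr hs⟩
  have hm : AEStronglyMeasurable (fun p : Eu n × ℝ => G (p.1 + p.2 • v) v)
      ((volume : Measure (Eu n)).prod (volume.restrict s)) := by
    have h1 : StronglyMeasurable (fun p : Eu n × ℝ => G (p.1 + p.2 • v)) :=
      hGm.comp_measurable (by fun_prop)
    exact (h1.aestronglyMeasurable).apply_continuousLinearMap v
  rw [integrable_prod_iff' hm]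
  have hGv : Integrable (fun x => G x v) := hGi.apply_continuousLinearMap v
  constructor
  · filter_upwards with t
    exact hGv.comp_add_right (t • v)
  · have : (fun y : ℝ => ∫ x : Eu n, ‖G ((x, y).1 + (x, y).2 • v) v‖) = fun _ => ∫ x : Eu n, ‖G x v‖ := by
      ext y
      exact integral_add_right_eq_self (μ := (volume : Measure (Eu n))) (fun x => ‖G x v‖) (y • v)
    rw [this]
    exact integrable_const _

/-- tested version of absolute continuity along lines -/
lemma acl_test {Ω B : Set (Eu n)} {g : Eu n → Eu n}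
    (hg : ContinuousOn g Ω) {G : Eu n → (Eu n →L[ℝ] Eu n)} (hGm : StronglyMeasurable G)
    (hGi : Integrable G) (hw : IsWeakDiff Ω g G) (v : Eu n)
    (hBv : ∀ x ∈ B, ∀ t ∈ Icc (0 : ℝ) 1, x + t • v ∈ Ω) {h : ℝ} (hh : h ∈ Icc (0 : ℝ) 1)
    {φ : Eu n → ℝ} (hφ : ContDiff ℝ ((⊤ : ℕ∞) : WithTop ℕ∞) φ) (hc : HasCompactSupport φ)
    (hs : tsupport φ ⊆ B) :
    (∫ x, φ x • g (x + h • v)) - (∫ x, φ x • g x) =
      ∫ x, φ x • ∫ t in Ioc 0 h, G (x + t • v) v := by
  -- compact sweep
  set K : Set (Eu n) := (fun p : Eu n × ℝ => p.1 + p.2 • v) '' (tsupport φ ×ˢ Icc (0 : ℝ) 1) with hK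
  have hKc : IsCompact K := by
    apply IsCompact.image
    · exact hc.isCompact.prod isCompact_Icc
    · fun_prop
  have hKΩ : K ⊆ Ω := by
    rintro _ ⟨⟨x, t⟩, ⟨hx, ht⟩, rfl⟩
    exact hBv x (hs hx) t ht
  have hmem : ∀ x ∈ tsupport φ, ∀ t ∈ Icc (0 : ℝ) 1, x + t • v ∈ K := fun x hx t ht =>
    ⟨(x, t), ⟨hx, ht⟩, rfl⟩
  set g0 : Eu n → Eu n := K.indicator g with hg0
  have hg0i : Integrable g0 := by
    rw [hg0, integrable_indicator_iff hKc.measurableSet]
    exact (hg.mono hKΩ).integrableOn_compact hKc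
  have hφz : ∀ x, x ∉ tsupport φ → φ x = 0 := fun x hx => image_eq_zero_of_notMem_tsupport hx
  -- first identity
  have e1 : ∀ t ∈ Icc (0 : ℝ) 1, ∫ x, φ x • g (x + t • v) = ∫ x, φ (x - t • v) • g0 x := by
    intro t ht
    have a1 : ∫ x, φ x • g (x + t • v) = ∫ x, φ x • g0 (x + t • v) := by
      congr 1; ext1 x
      by_cases hx : x ∈ tsupport φ
      · rw [hg0, indicator_of_mem (hmem x hx t ht)]
      · rw [hφz x hx, zero_smul, zero_smul]
    rw [a1]
    have a2 := integral_add_right_eq_self (μ := (volume : Measure (Eu n)))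
      (fun x => φ (x - t • v) • g0 x) (t • v)
    rw [← a2]
    simp
  have e10 := e1 0 (by norm_num)
  simp only [zero_smul, add_zero, sub_zero] at e10
  have hφb : ∃ C, ∀ x, ‖φ x‖ ≤ C := hc.exists_bound_of_continuous hφ.continuous
  obtain ⟨C, hC⟩ := hφb
  have hφ'c : Continuous (fun x => fderiv ℝ φ x v) :=
    (hφ.continuous_fderiv (by simp)).clm_apply continuous_const
  have hφ's : HasCompactSupport (fun x => fderiv ℝ φ x v) := hc.fderiv_apply (𝕜 := ℝ) v
  obtain ⟨C', hC'⟩ := hφ's.exists_bound_of_continuous hφ'c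
  have hint : ∀ t : ℝ, Integrable (fun x => φ (x - t • v) • g0 x) := by
    intro t
    exact int_bdd_smul hg0i C
      (hφ.continuous.comp (by fun_prop : Continuous fun x : Eu n => x - t • v)).aestronglyMeasurable
      (fun x => hC _)
  have ftc : ∀ x : Eu n, φ (x - h • v) - φ x = - ∫ t in Ioc 0 h, fderiv ℝ φ (x - t • v) v := by
    intro x
    have hd : ∀ t ∈ uIcc 0 h, HasDerivAt (fun t : ℝ => φ (x - t • v)) (-(fderiv ℝ φ (x - t • v) v)) t := by
      intro t _
      have a1 : HasDerivAt (fun t : ℝ => x - t • v) (-v) t := by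
        simpa using ((hasDerivAt_id t).smul_const v).const_sub x
      have a2 : HasFDerivAt φ (fderiv ℝ φ (x - t • v)) (x - t • v) :=
        (hφ.differentiable (by simp) _).hasFDerivAt
      have a3 := a2.comp_hasDerivAt t a1
      rw [map_neg] at a3
      exact a3
    have hi : IntervalIntegrable (fun t : ℝ => -(fderiv ℝ φ (x - t • v) v)) volume 0 h := by
      apply Continuous.intervalIntegrable
      exact (hφ'c.comp (by fun_prop : Continuous fun t : ℝ => x - t • v)).neg
    have := intervalIntegral.integral_eq_sub_of_hasDerivAt hd hi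
    rw [intervalIntegral.integral_of_le hh.1] at this
    simp only [zero_smul, sub_zero, integral_neg] at this
    rw [← this]
  rw [e1 h hh, e10, ← integral_sub (hint h) (by simpa using hint 0)]
  have e2 : ∀ x, φ (x - h • v) • g0 x - φ x • g0 x =
      - ∫ t in Ioc 0 h, (fderiv ℝ φ (x - t • v) v) • g0 x := by
    intro x
    rw [← sub_smul, ftc x, neg_smul, integral_smul_const]
  simp only [e2]
  rw [integral_neg]
  have hfin : IsFiniteMeasure ((volume : Measure ℝ).restrict (Ioc 0 h)) := by infer_instance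
  have hprod1 : Integrable (fun p : Eu n × ℝ => (fderiv ℝ φ (p.1 - p.2 • v) v) • g0 p.1)
      ((volume : Measure (Eu n)).prod (volume.restrict (Ioc 0 h))) := by
    have a1 : Integrable (fun p : Eu n × ℝ => g0 p.1)
      ((volume : Measure (Eu n)).prod (volume.restrict (Ioc 0 h))) := hg0i.comp_fst _
    exact int_bdd_smul a1 C'
      (hφ'c.comp (by fun_prop : Continuous fun p : Eu n × ℝ => p.1 - p.2 • v)).aestronglyMeasurable
      (fun p => hC' _)
  rw [integral_integral_swap (f := fun x t => (fderiv ℝ φ (x - t • v) v) • g0 x) hprod1]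
  have e3 : ∀ t ∈ Ioc 0 h, ∫ x, (fderiv ℝ φ (x - t • v) v) • g0 x = - ∫ x, φ x • (G (x + t • v) v) := by
    intro t ht
    have ht1 : t ∈ Icc (0 : ℝ) 1 := ⟨ht.1.le, ht.2.trans hh.2⟩
    set ψ : Eu n → ℝ := fun x => φ (x - t • v) with hψ
    have hψc : ContDiff ℝ ((⊤ : ℕ∞) : WithTop ℕ∞) ψ := hφ.comp (by fun_prop)
    have hψd : ∀ x, fderiv ℝ ψ x = fderiv ℝ φ (x - t • v) := by
      intro x
      have a1 : HasFDerivAt φ (fderiv ℝ φ (x - t • v)) (x - t • v) :=
        (hφ.differentiable (by simp) _).hasFDerivAt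
      have a2 : HasFDerivAt (fun x : Eu n => x - t • v) (ContinuousLinearMap.id ℝ (Eu n)) x :=
        (hasFDerivAt_id x).sub_const _
      have a3 := a1.comp x a2
      rw [ContinuousLinearMap.comp_id] at a3
      exact a3.fderiv
    have htsub : tsupport ψ ⊆ K := by
      have : tsupport ψ ⊆ (fun x => x + t • v) '' tsupport φ := by
        have hcl : IsClosed ((fun x => x + t • v) '' tsupport φ) :=
          (hc.isCompact.image (by fun_prop)).isClosed
        apply closure_minimal _ hcl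
        intro x hx
        exact ⟨x - t • v, subset_tsupport _ hx, by simp⟩
      exact this.trans (by rintro _ ⟨x, hx, rfl⟩; exact hmem x hx t ht1)
    have hψcs : HasCompactSupport ψ := hKc.of_isClosed_subset (isClosed_tsupport _) htsub
    have a1 := hw ψ hψc hψcs (htsub.trans hKΩ) v
    have a2 : ∫ x in Ω, (fderiv ℝ ψ x v) • g x = ∫ x, (fderiv ℝ ψ x v) • g0 x := by
      have b1 : ∀ x, (fderiv ℝ ψ x v) • g0 x = K.indicator (fun x => (fderiv ℝ ψ x v) • g x) x := by
        intro x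
        by_cases hx : x ∈ K
        · rw [indicator_of_mem hx, hg0, indicator_of_mem hx]
        · rw [indicator_of_notMem hx, hg0, indicator_of_notMem hx, smul_zero]
      simp only [b1]
      rw [integral_indicator hKc.measurableSet]
      have b2 : ∀ x, x ∉ K → fderiv ℝ ψ x v = 0 := by
        intro x hx
        have : x ∉ tsupport (fun x => fderiv ℝ ψ x v) := fun h' =>
          hx (htsub (tsupport_fderiv_apply_subset ℝ v h'))
        exact image_eq_zero_of_notMem_tsupport (f := fun x => fderiv ℝ ψ x v) this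
      rw [setIntegral_eq_integral_of_forall_compl_eq_zero, setIntegral_eq_integral_of_forall_compl_eq_zero]
      · intro x hx; rw [b2 x hx, zero_smul]
      · intro x hx; rw [b2 x (fun h' => hx (hKΩ h')), zero_smul]
    have a3 : ∫ x in Ω, ψ x • (G x v) = ∫ x, ψ x • (G x v) := by
      apply setIntegral_eq_integral_of_forall_compl_eq_zero
      intro x hx
      have : x ∉ tsupport ψ := fun h' => hx (hKΩ (htsub h'))
      rw [image_eq_zero_of_notMem_tsupport this, zero_smul]
    have a4 : ∫ x, ψ x • (G x v) = ∫ x, φ x • (G (x + t • v) v) := by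
      have := integral_add_right_eq_self (μ := (volume : Measure (Eu n)))
        (fun x => ψ x • (G x v)) (t • v)
      rw [← this]
      simp [hψ]
    simp only [← hψd]
    rw [← a2, a1, a3, a4]
  rw [setIntegral_congr_fun measurableSet_Ioc e3, integral_neg, neg_neg]
  have hprod2 : Integrable (fun p : Eu n × ℝ => φ p.1 • (G (p.1 + p.2 • v) v))
      ((volume : Measure (Eu n)).prod (volume.restrict (Ioc 0 h))) := by
    have a1 := integrable_shear hGm hGi v (Ioc 0 h) (by simp)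
    exact int_bdd_smul a1 C (hφ.continuous.comp continuous_fst).aestronglyMeasurable
      (fun p => hC _)
  rw [← integral_integral_swap (f := fun x t => φ x • (G (x + t • v) v)) hprod2]
  congr 1; ext1 x
  rw [integral_smul]

lemma integrable_smul_of_locallyIntegrableOn {Ω : Set (Eu n)} {G : Type*} [NormedAddCommGroup G]
    [NormedSpace ℝ G] {g : Eu n → G} (hg : LocallyIntegrableOn g Ω) {φ : Eu n → ℝ}
    (hφ : Continuous φ) (hc : HasCompactSupport φ) (hs : tsupport φ ⊆ Ω) :
    Integrable (fun x => φ x • g x) := by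
  have h1 : IntegrableOn g (tsupport φ) := hg.integrableOn_compact_subset hs hc
  have h2 : IntegrableOn (fun x => φ x • g x) (tsupport φ) :=
    h1.continuousOn_smul hφ.continuousOn hc
  rwa [integrableOn_iff_integrable_of_support_subset] at h2
  intro x hx
  by_contra h
  exact hx (by simp [image_eq_zero_of_notMem_tsupport h])

/-- Absolute continuity along almost every segment in direction `v`. -/
lemma acl {Ω B : Set (Eu n)} (hB : IsOpen B) {g : Eu n → Eu n}
    (hg : ContinuousOn g Ω) {G : Eu n → (Eu n →L[ℝ] Eu n)} (hGm : StronglyMeasurable G)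
    (hGi : Integrable G) (hw : IsWeakDiff Ω g G) (v : Eu n)
    (hBv : ∀ x ∈ B, ∀ t ∈ Icc (0 : ℝ) 1, x + t • v ∈ Ω) :
    ∀ᵐ x : Eu n, x ∈ B → (IntegrableOn (fun t : ℝ => G (x + t • v) v) (Ioc 0 1) ∧
      ∀ h ∈ Icc (0 : ℝ) 1, g (x + h • v) - g x = ∫ t in Ioc 0 h, G (x + t • v) v) := by
  -- fixed `h`
  have hfix : ∀ h ∈ Icc (0 : ℝ) 1, ∀ᵐ x : Eu n, x ∈ B →
      g (x + h • v) - g x - ∫ t in Ioc 0 h, G (x + t • v) v = 0 := by
    intro h hh
    have c1 : ContinuousOn (fun x => g (x + h • v)) B := by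
      apply hg.comp (by fun_prop)
      intro x hx; exact hBv x hx h hh
    have c2 : ContinuousOn g B := hg.mono fun x hx => by simpa using hBv x hx 0 (by norm_num)
    have i1 := c1.locallyIntegrableOn (μ := volume) hB.measurableSet
    have i2 := c2.locallyIntegrableOn (μ := volume) hB.measurableSet
    have i3 : Integrable (fun x => ∫ t in Ioc 0 h, G (x + t • v) v) :=
      (integrable_shear hGm hGi v (Ioc 0 h) (by simp)).integral_prod_left
    have i3' : LocallyIntegrableOn (fun x => ∫ t in Ioc 0 h, G (x + t • v) v) B :=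
      i3.locallyIntegrable.locallyIntegrableOn B
    apply hB.ae_eq_zero_of_integral_contDiff_smul_eq_zero ((i1.sub i2).sub i3')
    intro φ hφ hc hs
    have key := acl_test hg hGm hGi hw v hBv hh hφ hc hs
    have j1 := integrable_smul_of_locallyIntegrableOn i1 hφ.continuous hc hs
    have j2 := integrable_smul_of_locallyIntegrableOn i2 hφ.continuous hc hs
    have j3 := integrable_smul_of_locallyIntegrableOn i3' hφ.continuous hc hs
    simp only [Pi.sub_apply, smul_sub]
    rw [integral_sub (f := fun x => φ x • g (x + h • v) - φ x • g x) (j1.sub j2) j3,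
      integral_sub j1 j2, key, sub_self]
  -- all rational `h`
  have hrat : ∀ᵐ x : Eu n, ∀ q : ℚ, (q : ℝ) ∈ Icc (0 : ℝ) 1 → x ∈ B →
      g (x + (q : ℝ) • v) - g x - ∫ t in Ioc 0 (q : ℝ), G (x + t • v) v = 0 := by
    rw [ae_all_iff]
    intro q
    by_cases hq : (q : ℝ) ∈ Icc (0 : ℝ) 1
    · filter_upwards [hfix q hq] with x hx _ using hx
    · filter_upwards with x h; exact absurd h hq
  have hae : ∀ᵐ x : Eu n, Integrable (fun t : ℝ => G (x + t • v) v) (volume.restrict (Ioc 0 1)) :=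
    (integrable_shear hGm hGi v (Ioc 0 1) (by simp)).prod_right_ae
  filter_upwards [hrat, hae] with x hx hxi hxB
  refine ⟨hxi, ?_⟩
  -- continuity in `h`
  have hii : IntegrableOn (fun t : ℝ => G (x + t • v) v) (Icc 0 1) :=
    (integrableOn_Icc_iff_integrableOn_Ioc).mpr hxi
  have c1 : ContinuousOn (fun h : ℝ => g (x + h • v) - g x) (Icc 0 1) := by
    apply ContinuousOn.sub _ continuousOn_const
    apply hg.comp (by fun_prop)
    intro h hh; exact hBv x hxB h hh
  have c2 : ContinuousOn (fun h : ℝ => ∫ t in Ioc 0 h, G (x + t • v) v) (Icc 0 1) := by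
    have := intervalIntegral.continuousOn_primitive (f := fun t : ℝ => G (x + t • v) v) hii
    exact this
  have heq : EqOn (fun h : ℝ => g (x + h • v) - g x) (fun h : ℝ => ∫ t in Ioc 0 h, G (x + t • v) v)
      (Icc 0 1) := by
    have hcl : Icc (0 : ℝ) 1 ⊆ closure (Ioo (0 : ℝ) 1 ∩ range ((↑) : ℚ → ℝ)) := by
      have h1 : Ioo (0 : ℝ) 1 ⊆ closure (Ioo (0 : ℝ) 1 ∩ range ((↑) : ℚ → ℝ)) :=
        Dense.open_subset_closure_inter (Rat.denseRange_cast (𝕜 := ℝ)) isOpen_Ioo
      rw [← closure_Ioo (zero_ne_one' ℝ)]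
      exact closure_minimal h1 isClosed_closure
    refine EqOn.of_subset_closure ?_ c1 c2 (inter_subset_left.trans Ioo_subset_Icc_self) hcl
    rintro h ⟨hh, ⟨q, rfl⟩⟩
    have := hx q (Ioo_subset_Icc_self hh) hxB
    exact sub_eq_zero.mp this
  exact heq

/-- clamping to `[0,1]` -/
def cl (s : ℝ) : ℝ := max 0 (min s 1)

lemma cl_continuous : Continuous cl := by unfold cl; fun_prop

lemma cl_mem (s : ℝ) : cl s ∈ Icc (0 : ℝ) 1 :=
  ⟨le_max_left _ _, max_le (by norm_num) (min_le_right _ _)⟩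

lemma cl_mono {s t : ℝ} (h : s ≤ t) : cl s ≤ cl t := by
  unfold cl; gcongr

lemma cl_of_mem {s : ℝ} (h0 : 0 ≤ s) (h1 : s ≤ 1) : cl s = s := by
  unfold cl; rw [min_eq_left h1, max_eq_right h0]

lemma cl_of_nonpos {s : ℝ} (h0 : s ≤ 0) : cl s = 0 := by
  unfold cl
  rw [min_eq_left (by linarith), max_eq_left h0]

lemma cl_of_one_le {s : ℝ} (h1 : 1 ≤ s) : cl s = 1 := by
  unfold cl; rw [min_eq_right h1, max_eq_right (by norm_num)]

/-- the rectangular loop based at `x` -/
def rloop (v1 v2 x : Eu n) (s : ℝ) : Eu n :=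
  x + cl s • v2 + cl (s - 1) • v1 + cl (s - 2) • (-v2) + cl (s - 3) • (-v1)

lemma rloop_continuous (v1 v2 x : Eu n) : Continuous (rloop v1 v2 x) := by
  have := cl_continuous
  unfold rloop; fun_prop

lemma rloop_0 (v1 v2 x : Eu n) {s : ℝ} (h0 : 0 ≤ s) (h1 : s ≤ 1) :
    rloop v1 v2 x s = x + s • v2 := by
  unfold rloop
  rw [cl_of_mem h0 h1, cl_of_nonpos (by linarith : s - 1 ≤ 0), cl_of_nonpos (by linarith : s - 2 ≤ 0),
    cl_of_nonpos (by linarith : s - 3 ≤ 0)]
  simp

lemma rloop_1 (v1 v2 x : Eu n) {s : ℝ} (h0 : 1 ≤ s) (h1 : s ≤ 2) :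
    rloop v1 v2 x s = (x + v2) + (s - 1) • v1 := by
  unfold rloop
  rw [cl_of_one_le h0, cl_of_mem (by linarith) (by linarith), cl_of_nonpos (by linarith : s - 2 ≤ 0),
    cl_of_nonpos (by linarith : s - 3 ≤ 0)]
  simp

lemma rloop_2 (v1 v2 x : Eu n) {s : ℝ} (h0 : 2 ≤ s) (h1 : s ≤ 3) :
    rloop v1 v2 x s = (x + v2 + v1) + (s - 2) • (-v2) := by
  unfold rloop
  rw [cl_of_one_le (by linarith : 1 ≤ s), cl_of_one_le (by linarith : 1 ≤ s - 1),
    cl_of_mem (by linarith) (by linarith), cl_of_nonpos (by linarith : s - 3 ≤ 0)]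
  simp

lemma rloop_3 (v1 v2 x : Eu n) {s : ℝ} (h0 : 3 ≤ s) (h1 : s ≤ 4) :
    rloop v1 v2 x s = (x + v1) + (s - 3) • (-v1) := by
  unfold rloop
  rw [cl_of_one_le (by linarith : 1 ≤ s), cl_of_one_le (by linarith : 1 ≤ s - 1),
    cl_of_one_le (by linarith : 1 ≤ s - 2), cl_of_mem (by linarith) (by linarith)]
  simp
  abel

/-- one side: increment bound -/
lemma side_bound {g : Eu n → Eu n} {G : Eu n → (Eu n →L[ℝ] Eu n)} {y d : Eu n}
    (hi : IntegrableOn (fun t : ℝ => G (y + t • d) d) (Ioc 0 1))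
    (he : ∀ h ∈ Icc (0 : ℝ) 1, g (y + h • d) - g y = ∫ t in Ioc 0 h, G (y + t • d) d)
    {a b : ℝ} (ha : 0 ≤ a) (hab : a ≤ b) (hb : b ≤ 1) :
    ‖g (y + b • d) - g (y + a • d)‖ ≤
      (∫ t in Ioc 0 b, ‖G (y + t • d) d‖) - ∫ t in Ioc 0 a, ‖G (y + t • d) d‖ := by
  have ii : ∀ u v : ℝ, 0 ≤ u → u ≤ 1 → 0 ≤ v → v ≤ 1 →
      IntervalIntegrable (fun t : ℝ => G (y + t • d) d) volume u v := by
    intro u v hu0 hu1 hv0 hv1
    rw [intervalIntegrable_iff]
    apply hi.mono_set
    intro t ht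
    rcases le_total u v with h | h
    · rw [uIoc_of_le h] at ht; exact ⟨lt_of_le_of_lt hu0 ht.1, ht.2.trans hv1⟩
    · rw [uIoc_of_ge h] at ht; exact ⟨lt_of_le_of_lt hv0 ht.1, ht.2.trans hu1⟩
  have hb0 : 0 ≤ b := ha.trans hab
  have ha1 : a ≤ 1 := hab.trans hb
  have h1 : g (y + b • d) - g (y + a • d) =
      (∫ t in (0 : ℝ)..b, G (y + t • d) d) - ∫ t in (0 : ℝ)..a, G (y + t • d) d := by
    rw [intervalIntegral.integral_of_le hb0, intervalIntegral.integral_of_le ha,
      ← he b ⟨hb0, hb⟩, ← he a ⟨ha, ha1⟩]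
    abel
  rw [h1, intervalIntegral.integral_interval_sub_left (ii 0 b le_rfl zero_le_one hb0 hb)
    (ii 0 a le_rfl zero_le_one ha ha1)]
  rw [← intervalIntegral.integral_of_le hb0, ← intervalIntegral.integral_of_le ha,
    intervalIntegral.integral_interval_sub_left (ii 0 b le_rfl zero_le_one hb0 hb).norm
    (ii 0 a le_rfl zero_le_one ha ha1).norm]
  exact intervalIntegral.norm_integral_le_integral_norm hab

/-- the good event along one side -/
def Good (g : Eu n → Eu n) (G : Eu n → (Eu n →L[ℝ] Eu n)) (y d : Eu n) : Prop :=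
  IntegrableOn (fun t : ℝ => G (y + t • d) d) (Ioc 0 1) ∧
    ∀ h ∈ Icc (0 : ℝ) 1, g (y + h • d) - g y = ∫ t in Ioc 0 h, G (y + t • d) d

lemma good_ae {Ω B : Set (Eu n)} (hB : IsOpen B) {g : Eu n → Eu n}
    (hg : ContinuousOn g Ω) {G : Eu n → (Eu n →L[ℝ] Eu n)} (hGm : StronglyMeasurable G)
    (hGi : Integrable G) (hw : IsWeakDiff Ω g G) (c d : Eu n)
    (hBv : ∀ x ∈ B, ∀ t ∈ Icc (0 : ℝ) 1, x + c + t • d ∈ Ω) :
    ∀ᵐ x : Eu n, x ∈ B → Good g G (x + c) d := by
  set B' : Set (Eu n) := (fun y => y - c) ⁻¹' B with hB'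
  have hB'o : IsOpen B' := hB.preimage (by fun_prop)
  have h := acl (Ω := Ω) hB'o hg hGm hGi hw d (by
    intro y hy t ht
    have := hBv (y - c) hy t ht
    simpa using this)
  have hq : Measure.QuasiMeasurePreserving (fun x : Eu n => x + c) volume volume :=
    (measurePreserving_add_right volume c).quasiMeasurePreserving
  filter_upwards [hq.ae h] with x hx hxB
  exact hx (by simpa [hB'] using hxB)

/-- The variation function of the loop. -/
def Vf (G : Eu n → (Eu n →L[ℝ] Eu n)) (v1 v2 x : Eu n) (s : ℝ) : ℝ :=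
  (∫ t in Ioc 0 (cl s), ‖G (x + 0 + t • v2) v2‖) + (∫ t in Ioc 0 (cl (s - 1)), ‖G (x + v2 + t • v1) v1‖) +
  (∫ t in Ioc 0 (cl (s - 2)), ‖G (x + (v2 + v1) + t • (-v2)) (-v2)‖) +
  (∫ t in Ioc 0 (cl (s - 3)), ‖G (x + v1 + t • (-v1)) (-v1)‖)

lemma Vf_continuousOn {g : Eu n → Eu n} {G : Eu n → (Eu n →L[ℝ] Eu n)} {v1 v2 x : Eu n}
    (h0 : Good g G (x + 0) v2) (h1 : Good g G (x + v2) v1) (h2 : Good g G (x + (v2 + v1)) (-v2))
    (h3 : Good g G (x + v1) (-v1)) : Continuous (Vf G v1 v2 x) := by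
  have key : ∀ (y d : Eu n) (r : ℝ), Good g G y d →
      Continuous (fun s : ℝ => ∫ t in Ioc 0 (cl (s - r)), ‖G (y + t • d) d‖) := by
    intro y d r hG
    have hii : IntegrableOn (fun t : ℝ => ‖G (y + t • d) d‖) (Icc 0 1) :=
      (integrableOn_Icc_iff_integrableOn_Ioc).mpr hG.1.norm
    have := intervalIntegral.continuousOn_primitive hii
    have hc : Continuous (fun s : ℝ => cl (s - r)) := cl_continuous.comp (by fun_prop)
    exact this.comp_continuous hc fun s => cl_mem _
  have k0 := key _ _ 0 h0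
  simp only [sub_zero] at k0
  exact ((k0.add (key _ _ 1 h1)).add (key _ _ 2 h2)).add (key _ _ 3 h3)

lemma loop_increment {g : Eu n → Eu n} {G : Eu n → (Eu n →L[ℝ] Eu n)} {v1 v2 x : Eu n}
    (h0 : Good g G (x + 0) v2) (h1 : Good g G (x + v2) v1) (h2 : Good g G (x + (v2 + v1)) (-v2))
    (h3 : Good g G (x + v1) (-v1)) {s t : ℝ} (hs : s ∈ Icc (0 : ℝ) 4) (ht : t ∈ Icc (0 : ℝ) 4)
    (hst : s ≤ t) :
    ‖g (rloop v1 v2 x t) - g (rloop v1 v2 x s)‖ ≤ Vf G v1 v2 x t - Vf G v1 v2 x s := by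
  -- telescoping representation
  have rep : ∀ r ∈ Icc (0 : ℝ) 4, g (rloop v1 v2 x r) = g x +
      (g (x + 0 + cl r • v2) - g (x + 0 + (0 : ℝ) • v2)) +
      (g (x + v2 + cl (r - 1) • v1) - g (x + v2 + (0 : ℝ) • v1)) +
      (g (x + (v2 + v1) + cl (r - 2) • (-v2)) - g (x + (v2 + v1) + (0 : ℝ) • (-v2))) +
      (g (x + v1 + cl (r - 3) • (-v1)) - g (x + v1 + (0 : ℝ) • (-v1))) := by
    intro r hr
    rcases le_total r 1 with c1 | c1
    · rw [rloop_0 _ _ _ hr.1 c1, cl_of_mem hr.1 c1, cl_of_nonpos (by linarith : r - 1 ≤ 0),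
        cl_of_nonpos (by linarith : r - 2 ≤ 0), cl_of_nonpos (by linarith : r - 3 ≤ 0)]
      simp
    · rcases le_total r 2 with c2 | c2
      · rw [rloop_1 _ _ _ c1 c2, cl_of_one_le c1, cl_of_mem (by linarith) (by linarith),
          cl_of_nonpos (by linarith : r - 2 ≤ 0), cl_of_nonpos (by linarith : r - 3 ≤ 0)]
        simp
      · rcases le_total r 3 with c3 | c3
        · rw [rloop_2 _ _ _ c2 c3, cl_of_one_le c1, cl_of_one_le (by linarith : 1 ≤ r - 1),
            cl_of_mem (by linarith) (by linarith), cl_of_nonpos (by linarith : r - 3 ≤ 0)]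
          simp [add_assoc]
        · rw [rloop_3 _ _ _ c3 hr.2, cl_of_one_le c1, cl_of_one_le (by linarith : 1 ≤ r - 1),
            cl_of_one_le (by linarith : 1 ≤ r - 2), cl_of_mem (by linarith) (by linarith [hr.2])]
          have e1 : x + (v2 + v1) + (1 : ℝ) • -v2 = x + v1 := by rw [one_smul]; abel
          rw [e1]
          simp [add_assoc]
  have b0 := side_bound h0.1 h0.2 (cl_mem s).1 (cl_mono hst) (cl_mem t).2
  have b1 := side_bound h1.1 h1.2 (cl_mem (s - 1)).1 (cl_mono (by linarith : s - 1 ≤ t - 1)) (cl_mem (t - 1)).2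
  have b2 := side_bound h2.1 h2.2 (cl_mem (s - 2)).1 (cl_mono (by linarith : s - 2 ≤ t - 2)) (cl_mem (t - 2)).2
  have b3 := side_bound h3.1 h3.2 (cl_mem (s - 3)).1 (cl_mono (by linarith : s - 3 ≤ t - 3)) (cl_mem (t - 3)).2
  rw [rep t ht, rep s hs]
  have e : (g x +
      (g (x + 0 + cl t • v2) - g (x + 0 + (0 : ℝ) • v2)) +
      (g (x + v2 + cl (t - 1) • v1) - g (x + v2 + (0 : ℝ) • v1)) +
      (g (x + (v2 + v1) + cl (t - 2) • (-v2)) - g (x + (v2 + v1) + (0 : ℝ) • (-v2))) +
      (g (x + v1 + cl (t - 3) • (-v1)) - g (x + v1 + (0 : ℝ) • (-v1)))) - (g x +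
      (g (x + 0 + cl s • v2) - g (x + 0 + (0 : ℝ) • v2)) +
      (g (x + v2 + cl (s - 1) • v1) - g (x + v2 + (0 : ℝ) • v1)) +
      (g (x + (v2 + v1) + cl (s - 2) • (-v2)) - g (x + (v2 + v1) + (0 : ℝ) • (-v2))) +
      (g (x + v1 + cl (s - 3) • (-v1)) - g (x + v1 + (0 : ℝ) • (-v1)))) =
      (g (x + 0 + cl t • v2) - g (x + 0 + cl s • v2)) +
      (g (x + v2 + cl (t - 1) • v1) - g (x + v2 + cl (s - 1) • v1)) +
      (g (x + (v2 + v1) + cl (t - 2) • (-v2)) - g (x + (v2 + v1) + cl (s - 2) • (-v2))) +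
      (g (x + v1 + cl (t - 3) • (-v1)) - g (x + v1 + cl (s - 3) • (-v1))) := by abel
  rw [e]
  have n1 := norm_add₄_le (a := g (x + 0 + cl t • v2) - g (x + 0 + cl s • v2))
    (b := g (x + v2 + cl (t - 1) • v1) - g (x + v2 + cl (s - 1) • v1))
    (c := g (x + (v2 + v1) + cl (t - 2) • (-v2)) - g (x + (v2 + v1) + cl (s - 2) • (-v2)))
    (d := g (x + v1 + cl (t - 3) • (-v1)) - g (x + v1 + cl (s - 3) • (-v1)))
  unfold Vf
  linarith

/-- total length of one side as a function of the base point -/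
def psi (G : Eu n → (Eu n →L[ℝ] Eu n)) (d y : Eu n) : ℝ := ∫ t in Ioc (0 : ℝ) 1, ‖G (y + t • d) d‖

lemma psi_integrable {G : Eu n → (Eu n →L[ℝ] Eu n)} (hGm : StronglyMeasurable G)
    (hGi : Integrable G) (d : Eu n) : Integrable (psi G d) :=
  (integrable_shear hGm hGi d (Ioc 0 1) (by simp)).norm.integral_prod_left

lemma integral_psi {G : Eu n → (Eu n →L[ℝ] Eu n)} (hGm : StronglyMeasurable G)
    (hGi : Integrable G) (d : Eu n) : ∫ y, psi G d y = ∫ x, ‖G x d‖ := by
  have h := (integrable_shear hGm hGi d (Ioc 0 1) (by simp)).norm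
  unfold psi
  rw [integral_integral_swap (f := fun (y : Eu n) (t : ℝ) => ‖G (y + t • d) d‖) h]
  have e : ∀ t : ℝ, ∫ x : Eu n, ‖G (x + t • d) d‖ = ∫ x, ‖G x d‖ := fun t =>
    integral_add_right_eq_self (μ := (volume : Measure (Eu n))) (fun x => ‖G x d‖) (t • d)
  simp only [e]
  simp

/-- a short loop exists if the differential is small -/
lemma exists_loop {Ω B : Set (Eu n)} (hB : IsOpen B) (hBfin : volume B ≠ ⊤) {g : Eu n → Eu n}
    (hg : ContinuousOn g Ω) {G : Eu n → (Eu n →L[ℝ] Eu n)} (hGm : StronglyMeasurable G)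
    (hGi : Integrable G) (hw : IsWeakDiff Ω g G) (v1 v2 : Eu n)
    (hBv : ∀ x ∈ B, ∀ s ∈ Icc (0 : ℝ) 4, rloop v1 v2 x s ∈ Ω) (ε : ℝ)
    (hsmall : 2 * (∫ x, ‖G x v1‖) + 2 * (∫ x, ‖G x v2‖) < ε * (volume B).toReal) :
    ∃ x ∈ B, (Good g G (x + 0) v2 ∧ Good g G (x + v2) v1 ∧ Good g G (x + (v2 + v1)) (-v2) ∧
      Good g G (x + v1) (-v1)) ∧ Vf G v1 v2 x 4 - Vf G v1 v2 x 0 < ε := by
  have g0 := good_ae hB hg hGm hGi hw 0 v2 (by
    intro x hx t ht
    have := hBv x hx t ⟨ht.1, by linarith [ht.2]⟩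
    rw [rloop_0 _ _ _ ht.1 ht.2] at this
    simpa using this)
  have g1 := good_ae hB hg hGm hGi hw v2 v1 (by
    intro x hx t ht
    have := hBv x hx (1 + t) ⟨by linarith [ht.1], by linarith [ht.2]⟩
    rw [rloop_1 _ _ _ (by linarith [ht.1]) (by linarith [ht.2])] at this
    simpa using this)
  have g2 := good_ae hB hg hGm hGi hw (v2 + v1) (-v2) (by
    intro x hx t ht
    have := hBv x hx (2 + t) ⟨by linarith [ht.1], by linarith [ht.2]⟩
    rw [rloop_2 _ _ _ (by linarith [ht.1]) (by linarith [ht.2])] at this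
    simpa [add_assoc] using this)
  have g3 := good_ae hB hg hGm hGi hw v1 (-v1) (by
    intro x hx t ht
    have := hBv x hx (3 + t) ⟨by linarith [ht.1], by linarith [ht.2]⟩
    rw [rloop_3 _ _ _ (by linarith [ht.1]) (by linarith [ht.2])] at this
    simpa [add_assoc] using this)
  by_contra hcon
  push Not at hcon
  have hlen : ∀ x, Vf G v1 v2 x 4 - Vf G v1 v2 x 0 =
      psi G v2 (x + 0) + psi G v1 (x + v2) + psi G (-v2) (x + (v2 + v1)) + psi G (-v1) (x + v1) := by
    intro x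
    unfold Vf psi
    rw [cl_of_one_le (by norm_num : (1 : ℝ) ≤ 4), cl_of_one_le (by norm_num : (1 : ℝ) ≤ 4 - 1),
      cl_of_one_le (by norm_num : (1 : ℝ) ≤ 4 - 2), cl_of_one_le (by norm_num : (1 : ℝ) ≤ 4 - 3),
      cl_of_nonpos (le_refl (0:ℝ)), cl_of_nonpos (by norm_num : (0 : ℝ) - 1 ≤ 0),
      cl_of_nonpos (by norm_num : (0 : ℝ) - 2 ≤ 0), cl_of_nonpos (by norm_num : (0 : ℝ) - 3 ≤ 0)]
    simp
  set L : Eu n → ℝ := fun x =>
      psi G v2 (x + 0) + psi G v1 (x + v2) + psi G (-v2) (x + (v2 + v1)) + psi G (-v1) (x + v1) with hL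
  have i0 : Integrable (fun x => psi G v2 (x + 0)) := (psi_integrable hGm hGi v2).comp_add_right 0
  have i1 : Integrable (fun x => psi G v1 (x + v2)) := (psi_integrable hGm hGi v1).comp_add_right v2
  have i2 : Integrable (fun x => psi G (-v2) (x + (v2 + v1))) :=
    (psi_integrable hGm hGi (-v2)).comp_add_right (v2 + v1)
  have i3 : Integrable (fun x => psi G (-v1) (x + v1)) := (psi_integrable hGm hGi (-v1)).comp_add_right v1
  have i01 : Integrable (fun x => psi G v2 (x + 0) + psi G v1 (x + v2)) := i0.add i1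
  have i012 : Integrable (fun x => psi G v2 (x + 0) + psi G v1 (x + v2) + psi G (-v2) (x + (v2 + v1))) :=
    i01.add i2
  have hLi : Integrable L := i012.add i3
  have hLint : ∫ x, L x = 2 * (∫ x, ‖G x v1‖) + 2 * (∫ x, ‖G x v2‖) := by
    have t : ∀ (d c : Eu n), ∫ x, psi G d (x + c) = ∫ x, ‖G x d‖ := by
      intro d c
      rw [integral_add_right_eq_self (μ := (volume : Measure (Eu n))) (fun x => psi G d x) c,
        integral_psi hGm hGi d]
    simp only [hL]
    rw [integral_add i012 i3, integral_add i01 i2, integral_add i0 i1, t, t, t, t]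
    simp only [map_neg, norm_neg]
    ring
  have hLnn : ∀ x, 0 ≤ L x := by
    intro x
    have : ∀ d y, 0 ≤ psi G d y := fun d y => integral_nonneg fun _ => norm_nonneg _
    simp only [hL]
    linarith [this v2 (x + 0), this v1 (x + v2), this (-v2) (x + (v2 + v1)), this (-v1) (x + v1)]
  have hge : ∀ᵐ x : Eu n, x ∈ B → ε ≤ L x := by
    filter_upwards [g0, g1, g2, g3] with x h0 h1 h2 h3 hx
    have := hcon x hx ⟨h0 hx, h1 hx, h2 hx, h3 hx⟩
    rw [hlen x] at this
    exact this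
  have h1 : ε * (volume B).toReal ≤ ∫ x in B, L x := by
    have : ∫ x in B, ε ≤ ∫ x in B, L x := by
      apply setIntegral_mono_on_ae (integrableOn_const hBfin) hLi.integrableOn hB.measurableSet
      exact hge
    rw [setIntegral_const, smul_eq_mul, mul_comm] at this
    exact this
  have h2 : ∫ x in B, L x ≤ ∫ x, L x := setIntegral_le_integral hLi (Filter.Eventually.of_forall hLnn)
  linarith






lemma exists_cutoff {K Ω : Set (Eu n)} (hK : IsCompact K) (hΩ : IsOpen Ω) (hKΩ : K ⊆ Ω) :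
    ∃ χ : Eu n → ℝ, ContDiff ℝ ((⊤ : ℕ∞) : WithTop ℕ∞) χ ∧ HasCompactSupport χ ∧ tsupport χ ⊆ Ω ∧
      (∀ x, 0 ≤ χ x ∧ χ x ≤ 1) ∧ ∀ x ∈ K, χ x = 1 := by
  obtain ⟨δ, hδ, hδs⟩ := hK.exists_cthickening_subset_open hΩ hKΩ
  have hcomp : IsCompact (cthickening δ K) := by
    apply Metric.isCompact_of_isClosed_isBounded isClosed_cthickening
    exact hK.isBounded.cthickening
  obtain ⟨g, g_smooth, g_range, g_supp, hg⟩ :=
    exists_contMDiff_support_eq_eq_one_iff (modelWithCornersSelf ℝ (Eu n)) (isOpen_thickening (δ := δ) (E := K)) hK.isClosed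
      (self_subset_thickening hδ K)
  have hts : tsupport g ⊆ cthickening δ K := by
    rw [tsupport, g_supp]
    exact closure_thickening_subset_cthickening δ K
  refine ⟨g, g_smooth.contDiff, hcomp.of_isClosed_subset (isClosed_tsupport _) hts,
    hts.trans hδs, fun x => g_range (mem_range_self x), fun x hx => (hg x).1 hx⟩

/-- Smooth compactly supported fields in `Ω` are dense in `L¹(Ω)`. -/
lemma dense_test {Ω : Set (Eu n)} (hΩ : IsOpen Ω) (hfin : volume Ω ≠ ⊤) {h : Eu n → Eu n}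
    (hh : MemLp h 1 (volume.restrict Ω)) {δ : ℝ} (hδ : 0 < δ) :
    ∃ k : Eu n → Eu n, ContDiff ℝ ((⊤ : ℕ∞) : WithTop ℕ∞) k ∧ HasCompactSupport k ∧ tsupport k ⊆ Ω ∧
      ∫ x in Ω, ‖h x - k x‖ ≤ δ := by
  have hfm : IsFiniteMeasure (volume.restrict Ω) :=
    ⟨by rw [Measure.restrict_apply_univ]; exact lt_top_iff_ne_top.mpr hfin⟩
  obtain ⟨g, hgc, hgs, hgn⟩ := hh.exist_eLpNorm_sub_le ENNReal.one_ne_top le_rfl (half_pos hδ)
  obtain ⟨M, hM⟩ := hgc.exists_bound_of_continuous hgs.continuous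
  have hM0 : 0 ≤ M := (norm_nonneg _).trans (hM 0)
  -- a compact subset of almost full measure
  obtain ⟨K, hKΩ, hK, hKm⟩ : ∃ K ⊆ Ω, IsCompact K ∧ volume (Ω \ K) < ENNReal.ofReal (δ / 2 / (M + 1)) := by
    have := hΩ.measurableSet.exists_isCompact_sdiff_lt hfin (ε := ENNReal.ofReal (δ / 2 / (M + 1))) (by
      have : 0 < δ / 2 / (M + 1) := by positivity
      simpa using this)
    exact this
  obtain ⟨χ, hχ, hχc, hχs, hχr, hχ1⟩ := exists_cutoff hK hΩ hKΩ
  have hg1 : MemLp g 1 (volume.restrict Ω) := hgs.continuous.memLp_of_hasCompactSupport hgc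
  have hgi : Integrable g (volume.restrict Ω) := memLp_one_iff_integrable.mp hg1
  have hhi : Integrable h (volume.restrict Ω) := memLp_one_iff_integrable.mp hh
  set k : Eu n → Eu n := fun x => χ x • g x with hk
  have hkc : Continuous k := hχ.continuous.smul hgs.continuous
  have hkcs : HasCompactSupport k := hχc.smul_right
  have hki : Integrable k (volume.restrict Ω) :=
    (hkc.integrable_of_hasCompactSupport hkcs)
  refine ⟨k, hχ.smul hgs, hkcs, (tsupport_smul_subset_left χ g).trans hχs, ?_⟩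
  have ihg : Integrable (fun x => ‖h x - g x‖) (volume.restrict Ω) := (hhi.sub hgi).norm
  have igk : Integrable (fun x => ‖g x - k x‖) (volume.restrict Ω) := (hgi.sub hki).norm
  have ihk : Integrable (fun x => ‖h x - k x‖) (volume.restrict Ω) := (hhi.sub hki).norm
  have e1 : ∫ x in Ω, ‖h x - k x‖ ≤ (∫ x in Ω, ‖h x - g x‖) + ∫ x in Ω, ‖g x - k x‖ := by
    rw [← integral_add ihg igk]
    apply integral_mono ihk (ihg.add igk)
    intro x
    change ‖h x - k x‖ ≤ ‖h x - g x‖ + ‖g x - k x‖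
    calc ‖h x - k x‖ = ‖(h x - g x) + (g x - k x)‖ := by congr 1; abel
      _ ≤ _ := norm_add_le _ _
  have e2 : ∫ x in Ω, ‖h x - g x‖ ≤ δ / 2 := by
    have : eLpNorm (h - g) 1 (volume.restrict Ω) = ENNReal.ofReal (∫ x in Ω, ‖h x - g x‖) := by
      rw [eLpNorm_one_eq_lintegral_enorm]
      exact (ofReal_integral_norm_eq_lintegral_enorm (hhi.sub hgi)).symm
    rw [this] at hgn
    exact (ENNReal.ofReal_le_ofReal_iff (by positivity)).mp hgn
  have e3 : ∫ x in Ω, ‖g x - k x‖ ≤ δ / 2 := by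
    have b1 : ∀ x, ‖g x - k x‖ ≤ (Kᶜ).indicator (fun _ => M) x := by
      intro x
      by_cases hx : x ∈ K
      · rw [indicator_of_notMem (by simpa using hx)]
        simp [hk, hχ1 x hx]
      · rw [indicator_of_mem hx]
        have : g x - k x = (1 - χ x) • g x := by simp [hk, sub_smul]
        rw [this, norm_smul, Real.norm_eq_abs, abs_of_nonneg (by linarith [(hχr x).2])]
        calc (1 - χ x) * ‖g x‖ ≤ 1 * M := by
              gcongr
              · linarith [(hχr x).1]
              · exact hM x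
          _ = M := one_mul M
    have hmK : MeasurableSet (Kᶜ) := hK.measurableSet.compl
    calc ∫ x in Ω, ‖g x - k x‖ ≤ ∫ x in Ω, (Kᶜ).indicator (fun _ => M) x := by
          apply integral_mono (hgi.sub hki).norm _ b1
          exact (integrable_const M).indicator hmK
      _ = (volume (Ω \ K)).toReal * M := by
          rw [integral_indicator hmK, setIntegral_const, smul_eq_mul, measureReal_def,
            Measure.restrict_apply hmK, inter_comm, ← sdiff_eq]
      _ ≤ (δ / 2 / (M + 1)) * M := by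
          gcongr
          exact ENNReal.toReal_le_of_le_ofReal (by positivity) hKm.le
      _ ≤ δ / 2 := by
          rw [div_mul_eq_mul_div, div_le_iff₀ (by positivity)]
          nlinarith
  linarith

/-- Uniformly bounded fields converging in the sense of distributions converge against `L¹`. -/
lemma weak_of_test {Ω : Set (Eu n)} (hΩ : IsOpen Ω) (hfin : volume Ω ≠ ⊤)
    {u : ℕ → Eu n → Eu n} {v : Eu n → Eu n} {C : ℝ}
    (hu : ∀ k, AEStronglyMeasurable (u k) (volume.restrict Ω))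
    (hv : AEStronglyMeasurable v (volume.restrict Ω))
    (huC : ∀ k, ∀ᵐ x ∂(volume.restrict Ω), ‖u k x‖ ≤ C) (hvC : ∀ᵐ x ∂(volume.restrict Ω), ‖v x‖ ≤ C)
    (htest : ∀ φ : Eu n → ℝ, ContDiff ℝ ((⊤ : ℕ∞) : WithTop ℕ∞) φ → HasCompactSupport φ →
      tsupport φ ⊆ Ω → Tendsto (fun k => ∫ x in Ω, φ x • u k x) atTop (𝓝 (∫ x in Ω, φ x • v x)))
    {h : Eu n → Eu n} (hh : MemLp h 1 (volume.restrict Ω)) :
    Tendsto (fun k => ∫ x in Ω, ⟪h x, u k x⟫_ℝ) atTop (𝓝 (∫ x in Ω, ⟪h x, v x⟫_ℝ)) := by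
  have hfm : IsFiniteMeasure (volume.restrict Ω) :=
    ⟨by rw [Measure.restrict_apply_univ]; exact lt_top_iff_ne_top.mpr hfin⟩
  have hC0 : 0 ≤ |C| := abs_nonneg C
  -- integrability of pairings
  have hpair : ∀ (a b : Eu n → Eu n), MemLp a 1 (volume.restrict Ω) →
      AEStronglyMeasurable b (volume.restrict Ω) → (∀ᵐ x ∂(volume.restrict Ω), ‖b x‖ ≤ C) →
      Integrable (fun x => ⟪a x, b x⟫_ℝ) (volume.restrict Ω) := by
    intro a b ha hb hbC
    have hai : Integrable a (volume.restrict Ω) := memLp_one_iff_integrable.mp ha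
    refine (hai.norm.mul_const |C|).mono' (ha.1.inner hb) ?_
    filter_upwards [hbC] with x hx
    calc ‖⟪a x, b x⟫_ℝ‖ ≤ ‖a x‖ * ‖b x‖ := norm_inner_le_norm _ _
      _ ≤ ‖a x‖ * |C| := by gcongr; exact hx.trans (le_abs_self C)
  -- convergence for test fields
  have htf : ∀ k : Eu n → Eu n, ContDiff ℝ ((⊤ : ℕ∞) : WithTop ℕ∞) k → HasCompactSupport k →
      tsupport k ⊆ Ω → Tendsto (fun j => ∫ x in Ω, ⟪k x, u j x⟫_ℝ) atTop (𝓝 (∫ x in Ω, ⟪k x, v x⟫_ℝ)) := by
    intro k hk hkc hks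
    have comp : ∀ (w : Eu n → Eu n), AEStronglyMeasurable w (volume.restrict Ω) →
        (∀ᵐ x ∂(volume.restrict Ω), ‖w x‖ ≤ C) →
        ∫ x in Ω, ⟪k x, w x⟫_ℝ = ∑ i : Fin n, (∫ x in Ω, (k x i) • w x) i := by
      intro w hw hwC
      have hsm : ∀ i : Fin n, Integrable (fun x => (k x i) • w x) (volume.restrict Ω) := by
        intro i
        have hki : Continuous (fun x => k x i) := by
          have := hk.continuous
          fun_prop
        have hb : Integrable (fun x => k x i) (volume.restrict Ω) := by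
          apply hki.integrable_of_hasCompactSupport
          exact hkc.comp_left (g := fun y : Eu n => y i) rfl
        refine (hb.norm.mul_const |C|).mono' (hki.aestronglyMeasurable.smul hw) ?_
        filter_upwards [hwC] with x hx
        rw [norm_smul]
        gcongr
        exact hx.trans (le_abs_self C)
      have e1 : ∀ i : Fin n, (∫ x in Ω, (k x i) • w x) i = ∫ x in Ω, (k x i) * (w x i) := by
        intro i
        have := (EuclideanSpace.proj (𝕜 := ℝ) i).integral_comp_comm (hsm i)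
        simpa using this.symm
      simp only [e1]
      rw [← integral_finsetSum]
      · congr 1; ext1 x
        simp [PiLp.inner_apply, mul_comm]
      · intro i _
        have := (EuclideanSpace.proj (𝕜 := ℝ) i).integrable_comp (hsm i)
        simpa using this
    rw [comp v hv hvC]
    have : (fun j => ∫ x in Ω, ⟪k x, u j x⟫_ℝ) = fun j => ∑ i : Fin n, (∫ x in Ω, (k x i) • u j x) i := by
      ext j; exact comp (u j) (hu j) (huC j)
    rw [this]
    apply tendsto_finsetSum
    intro i _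
    have hki : ContDiff ℝ ((⊤ : ℕ∞) : WithTop ℕ∞) (fun x => k x i) := by
      exact (EuclideanSpace.proj (𝕜 := ℝ) i).contDiff.comp hk
    have hts : tsupport (fun x => k x i) ⊆ tsupport k := by
      apply closure_mono
      intro x hx
      simp only [Function.mem_support] at hx ⊢
      intro h0; rw [h0] at hx; simp at hx
    have h1 := htest (fun x => k x i) hki (hkc.comp_left (g := fun y : Eu n => y i) rfl) (hts.trans hks)
    exact ((EuclideanSpace.proj (𝕜 := ℝ) i).continuous.tendsto _).comp h1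
  -- approximation
  rw [Metric.tendsto_atTop]
  intro ε hε
  set δ : ℝ := ε / (4 * (|C| + 1)) with hδ
  have hδ0 : 0 < δ := by positivity
  obtain ⟨k, hk, hkc, hks, hkn⟩ := dense_test hΩ hfin hh hδ0
  have hkL : MemLp k 1 (volume.restrict Ω) := hk.continuous.memLp_of_hasCompactSupport hkc
  have hdi : Integrable (fun x => h x - k x) (volume.restrict Ω) :=
    (memLp_one_iff_integrable.mp hh).sub (memLp_one_iff_integrable.mp hkL)
  have err : ∀ (w : Eu n → Eu n), AEStronglyMeasurable w (volume.restrict Ω) →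
      (∀ᵐ x ∂(volume.restrict Ω), ‖w x‖ ≤ C) →
      |(∫ x in Ω, ⟪h x, w x⟫_ℝ) - ∫ x in Ω, ⟪k x, w x⟫_ℝ| ≤ δ * |C| := by
    intro w hw hwC
    rw [← integral_sub (hpair h w hh hw hwC) (hpair k w hkL hw hwC)]
    calc |∫ x in Ω, (⟪h x, w x⟫_ℝ - ⟪k x, w x⟫_ℝ)| ≤ ∫ x in Ω, ‖⟪h x, w x⟫_ℝ - ⟪k x, w x⟫_ℝ‖ :=
          norm_integral_le_integral_norm (fun x => ⟪h x, w x⟫_ℝ - ⟪k x, w x⟫_ℝ)
      _ ≤ ∫ x in Ω, ‖h x - k x‖ * |C| := by
          apply integral_mono_of_nonneg (Filter.Eventually.of_forall fun _ => norm_nonneg _)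
            (hdi.norm.mul_const _)
          filter_upwards [hwC] with x hx
          rw [← inner_sub_left]
          calc ‖⟪h x - k x, w x⟫_ℝ‖ ≤ ‖h x - k x‖ * ‖w x‖ := norm_inner_le_norm _ _
            _ ≤ ‖h x - k x‖ * |C| := by gcongr; exact hx.trans (le_abs_self C)
      _ = (∫ x in Ω, ‖h x - k x‖) * |C| := integral_mul_const _ _
      _ ≤ δ * |C| := by gcongr
  obtain ⟨N, hN⟩ := Metric.tendsto_atTop.mp (htf k hk hkc hks) (ε / 2) (half_pos hε)
  refine ⟨N, fun j hj => ?_⟩
  have h1 := err (u j) (hu j) (huC j)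
  have h2 := err v hv hvC
  have h3 := hN j hj
  rw [Real.dist_eq] at h3 ⊢
  have h4 : δ * |C| ≤ ε / 4 := by
    rw [hδ, div_mul_eq_mul_div, div_le_div_iff₀ (by positivity) (by norm_num)]
    nlinarith
  have h5 : (∫ x in Ω, ⟪h x, u j x⟫_ℝ) - ∫ x in Ω, ⟪h x, v x⟫_ℝ =
      ((∫ x in Ω, ⟪h x, u j x⟫_ℝ) - ∫ x in Ω, ⟪k x, u j x⟫_ℝ) +
      ((∫ x in Ω, ⟪k x, u j x⟫_ℝ) - ∫ x in Ω, ⟪k x, v x⟫_ℝ) -
      ((∫ x in Ω, ⟪h x, v x⟫_ℝ) - ∫ x in Ω, ⟪k x, v x⟫_ℝ) := by ring
  rw [h5]
  have a1 := abs_le.mp h1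
  have a2 := abs_le.mp h2
  have a3 := abs_lt.mp h3
  rw [abs_lt]
  constructor <;> linarith [a1.1, a1.2, a2.1, a2.2, a3.1, a3.2]






/-- locally Lipschitz with a uniform constant -/
def LocLip (L : ℝ≥0) (Ω : Set (Eu n)) (f : Eu n → Eu n) : Prop :=
  ∀ x ∈ Ω, ∃ s ∈ 𝓝 x, LipschitzOnWith L f s

lemma LocLip.continuousOn {L : ℝ≥0} {Ω : Set (Eu n)} {f : Eu n → Eu n} (h : LocLip L Ω f) :
    ContinuousOn f Ω := by
  intro x hx
  obtain ⟨s, hs, hl⟩ := h x hx
  exact ((hl.continuousOn).continuousAt hs).continuousWithinAt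

lemma LocLip.norm_fderiv_le {L : ℝ≥0} {Ω : Set (Eu n)} {f : Eu n → Eu n} (h : LocLip L Ω f)
    {x : Eu n} (hx : x ∈ Ω) : ‖fderiv ℝ f x‖ ≤ L := by
  obtain ⟨s, hs, hl⟩ := h x hx
  exact norm_fderiv_le_of_lipschitzOn ℝ hs hl

lemma LocLip.mono {L : ℝ≥0} {Ω Ω₁ : Set (Eu n)} {f : Eu n → Eu n} (h : LocLip L Ω f)
    (h1 : Ω₁ ⊆ Ω) : LocLip L Ω₁ f := fun x hx => h x (h1 hx)

lemma weakDiff_of_lipschitz {C : ℝ≥0} {F : Eu n → Eu n} (hF : LipschitzWith C F) {φ : Eu n → ℝ}
    (hφ : ContDiff ℝ ((⊤ : ℕ∞) : WithTop ℕ∞) φ) (hc : HasCompactSupport φ) (v : Eu n) :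
    ∫ x, (fderiv ℝ φ x v) • F x = - ∫ x, φ x • (fderiv ℝ F x v) := by
  have hφ'c : Continuous (fun x => fderiv ℝ φ x v) :=
    (hφ.continuous_fderiv (by simp)).clm_apply continuous_const
  have hφ's : HasCompactSupport (fun x => fderiv ℝ φ x v) := hc.fderiv_apply (𝕜 := ℝ) v
  have i1 : Integrable (fun x => (fderiv ℝ φ x v) • F x) :=
    (hφ'c.smul hF.continuous).integrable_of_hasCompactSupport hφ's.smul_right
  have i2 : Integrable (fun x => φ x • (fderiv ℝ F x v)) := by
    have hφi : Integrable φ := hφ.continuous.integrable_of_hasCompactSupport hc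
    refine (hφi.norm.mul_const (C * ‖v‖)).mono'
      (hφ.continuous.aestronglyMeasurable.smul (measurable_fderiv_apply_const ℝ F v).aestronglyMeasurable) ?_
    filter_upwards with x
    rw [norm_smul]
    gcongr
    exact (ContinuousLinearMap.le_opNorm _ _).trans (by
      gcongr; exact norm_fderiv_le_of_lipschitz ℝ hF)
  obtain ⟨D, hD⟩ : ∃ D, LipschitzWith D φ := by
    have := hφ.of_le (m := 1) (by exact_mod_cast le_top)
    exact this.lipschitzWith_of_hasCompactSupport hc (by norm_num)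
  ext i
  have e1 : (∫ x, (fderiv ℝ φ x v) • F x) i = ∫ x, (fderiv ℝ φ x v) * F x i := by
    have := (EuclideanSpace.proj (𝕜 := ℝ) i).integral_comp_comm i1
    simpa using this.symm
  have e2 : (∫ x, φ x • (fderiv ℝ F x v)) i = ∫ x, φ x * (fderiv ℝ F x v) i := by
    have := (EuclideanSpace.proj (𝕜 := ℝ) i).integral_comp_comm i2
    simpa using this.symm
  have hFi : LipschitzWith C (fun x => F x i) := by
    apply LipschitzWith.of_dist_le_mul
    intro x y
    calc dist (F x i) (F y i) = ‖(F x - F y) i‖ := by rw [Real.dist_eq]; simp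
      _ ≤ ‖F x - F y‖ := PiLp.norm_apply_le (F x - F y) i
      _ = dist (F x) (F y) := (dist_eq_norm _ _).symm
      _ ≤ C * dist x y := hF.dist_le_mul x y
  have key := hFi.integral_lineDeriv_mul_eq (μ := (volume : Measure (Eu n))) hD hc v
  rw [PiLp.neg_apply, e1, e2]
  have e3 : ∫ x, lineDeriv ℝ φ x (-v) * F x i = - ∫ x, (fderiv ℝ φ x v) * F x i := by
    rw [← integral_neg]
    congr 1; ext1 x
    have : lineDeriv ℝ φ x (-v) = - (fderiv ℝ φ x v) := by
      rw [(hφ.differentiable (by simp) x).lineDeriv_eq_fderiv, map_neg]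
    rw [this]; ring
  have e4 : ∫ x, lineDeriv ℝ (fun x => F x i) x v * φ x = ∫ x, φ x * (fderiv ℝ F x v) i := by
    apply integral_congr_ae
    filter_upwards [hF.ae_differentiableAt (μ := (volume : Measure (Eu n)))] with x hx
    have h1 : HasFDerivAt (fun x => F x i) ((EuclideanSpace.proj (𝕜 := ℝ) i).comp (fderiv ℝ F x)) x :=
      (EuclideanSpace.proj (𝕜 := ℝ) i).hasFDerivAt.comp x hx.hasFDerivAt
    rw [h1.differentiableAt.lineDeriv_eq_fderiv, h1.fderiv]
    simp [mul_comm]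
  rw [← e4, key, e3, neg_neg]

lemma LocLip.isWeakDiff {L : ℝ≥0} {Ω : Set (Eu n)} (hΩ : IsOpen Ω) {f : Eu n → Eu n}
    (h : LocLip L Ω f) : IsWeakDiff Ω f (fderiv ℝ f) := by
  intro φ hφ hc hs v
  obtain ⟨δ, hδ, hδs⟩ := hc.isCompact.exists_cthickening_subset_open hΩ hs
  have hcomp : IsCompact (cthickening δ (tsupport φ)) := by
    apply Metric.isCompact_of_isClosed_isBounded isClosed_cthickening
    exact hc.isCompact.isBounded.cthickening
  have hll : LocallyLipschitzOn (cthickening δ (tsupport φ)) f := by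
    intro x hx
    obtain ⟨s, hs', hl⟩ := h x (hδs hx)
    exact ⟨L, s, mem_nhdsWithin_of_mem_nhds hs', hl⟩
  obtain ⟨C, hC⟩ := hll.exists_lipschitzOnWith_of_compact hcomp
  obtain ⟨F, hF, hFe⟩ := hC.extend_finite_dimension
  have hzero : ∀ x, x ∉ tsupport φ → φ x = 0 := fun x hx => image_eq_zero_of_notMem_tsupport hx
  have hdzero : ∀ x, x ∉ tsupport φ → fderiv ℝ φ x v = 0 := by
    intro x hx
    have : x ∉ tsupport (fderiv ℝ φ) := fun h => hx (tsupport_fderiv_subset ℝ h)
    rw [image_eq_zero_of_notMem_tsupport this]; rfl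
  have hsub : tsupport φ ⊆ cthickening δ (tsupport φ) := self_subset_cthickening _
  have heq : ∀ x ∈ tsupport φ, f =ᶠ[𝓝 x] F := by
    intro x hx
    have : cthickening δ (tsupport φ) ∈ 𝓝 x := by
      refine mem_of_superset (isOpen_thickening.mem_nhds (self_subset_thickening hδ _ hx)) ?_
      exact thickening_subset_cthickening _ _
    filter_upwards [this] with y hy using hFe hy
  have e1 : ∫ x in Ω, (fderiv ℝ φ x v) • f x = ∫ x, (fderiv ℝ φ x v) • F x := by
    rw [setIntegral_eq_integral_of_forall_compl_eq_zero]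
    · congr 1; ext1 x
      by_cases hx : x ∈ tsupport φ
      · rw [hFe (hsub hx)]
      · rw [hdzero x hx, zero_smul, zero_smul]
    · intro x hx
      rw [hdzero x (fun h' => hx (hs h')), zero_smul]
  have e2 : ∫ x in Ω, φ x • (fderiv ℝ f x v) = ∫ x, φ x • (fderiv ℝ F x v) := by
    rw [setIntegral_eq_integral_of_forall_compl_eq_zero]
    · congr 1; ext1 x
      by_cases hx : x ∈ tsupport φ
      · rw [(heq x hx).fderiv_eq]
      · rw [hzero x hx, zero_smul, zero_smul]
    · intro x hx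
      rw [hzero x (fun h' => hx (hs h')), zero_smul]
  rw [e1, e2]
  exact weakDiff_of_lipschitz hF hφ hc v






/-- a bounded locally Lipschitz map is Sobolev -/
lemma LocLip.isSobolev {L : ℝ≥0} {Ω : Set (Eu n)} (hΩ : IsOpen Ω) (hfin : volume Ω ≠ ⊤)
    {f : Eu n → Eu n} (h : LocLip L Ω f) {M : ℝ} (hM : ∀ x ∈ Ω, ‖f x‖ ≤ M) (p : ℝ≥0∞) :
    IsSobolev p Ω f (fderiv ℝ f) := by
  have hfm : IsFiniteMeasure (volume.restrict Ω) :=
    ⟨by rw [Measure.restrict_apply_univ]; exact lt_top_iff_ne_top.mpr hfin⟩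
  refine ⟨?_, ?_, h.isWeakDiff hΩ⟩
  · apply MemLp.of_bound (h.continuousOn.aestronglyMeasurable hΩ.measurableSet) M
    filter_upwards [ae_restrict_mem hΩ.measurableSet] with x hx using hM x hx
  · apply MemLp.of_bound (measurable_fderiv ℝ f).aestronglyMeasurable L
    filter_upwards [ae_restrict_mem hΩ.measurableSet] with x hx using h.norm_fderiv_le hx

lemma weakConv_of_locLip {L : ℝ≥0} {Ω : Set (Eu n)} (hΩ : IsOpen Ω) (hfin : volume Ω ≠ ⊤)
    {F : ℕ → Eu n → Eu n} {f : Eu n → Eu n} (hF : ∀ k, LocLip L Ω (F k)) (hf : LocLip L Ω f)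
    {M : ℝ} (hFM : ∀ k, ∀ x ∈ Ω, ‖F k x‖ ≤ M) (hfM : ∀ x ∈ Ω, ‖f x‖ ≤ M)
    (hlim : ∀ x ∈ Ω, Tendsto (fun k => F k x) atTop (𝓝 (f x))) {p : ℝ≥0∞} :
    WeakConv p Ω F (fun k => fderiv ℝ (F k)) f (fderiv ℝ f) := by
  have hfm : IsFiniteMeasure (volume.restrict Ω) :=
    ⟨by rw [Measure.restrict_apply_univ]; exact lt_top_iff_ne_top.mpr hfin⟩
  have hmeas : ∀ {g : Eu n → Eu n}, LocLip L Ω g → AEStronglyMeasurable g (volume.restrict Ω) :=
    fun h => h.continuousOn.aestronglyMeasurable hΩ.measurableSet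
  have hq1 : ∀ q : ℝ≥0∞, p⁻¹ + q⁻¹ = 1 → 1 ≤ q := by
    intro q h
    have : q⁻¹ ≤ 1 := by rw [← h]; exact le_add_self
    exact ENNReal.inv_le_one.mp this
  -- test convergence of the maps
  have t1 : ∀ ψ : Eu n → ℝ, Continuous ψ → HasCompactSupport ψ →
      Tendsto (fun k => ∫ x in Ω, ψ x • F k x) atTop (𝓝 (∫ x in Ω, ψ x • f x)) := by
    intro ψ hψ hψc
    obtain ⟨C, hC⟩ := hψc.exists_bound_of_continuous hψ
    apply tendsto_integral_of_dominated_convergence (fun _ => C * M)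
    · intro k; exact hψ.aestronglyMeasurable.smul (hmeas (hF k))
    · exact integrable_const _
    · intro k
      filter_upwards [ae_restrict_mem hΩ.measurableSet] with x hx
      rw [norm_smul]
      have := hC x
      have := hFM k x hx
      gcongr
      exact (norm_nonneg _).trans (hC x)
    · filter_upwards [ae_restrict_mem hΩ.measurableSet] with x hx
      exact (hlim x hx).const_smul _
  constructor
  · intro q hq h hh
    have hh1 : MemLp h 1 (volume.restrict Ω) := hh.mono_exponent (hq1 q hq)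
    apply weak_of_test hΩ hfin (C := M) (fun k => hmeas (hF k)) (hmeas hf) _ _ _ hh1
    · intro k
      filter_upwards [ae_restrict_mem hΩ.measurableSet] with x hx using hFM k x hx
    · filter_upwards [ae_restrict_mem hΩ.measurableSet] with x hx using hfM x hx
    · intro φ hφ hc _
      exact t1 φ hφ.continuous hc
  · intro v q hq h hh
    have hh1 : MemLp h 1 (volume.restrict Ω) := hh.mono_exponent (hq1 q hq)
    apply weak_of_test hΩ hfin (C := L * ‖v‖) (fun k => (measurable_fderiv_apply_const ℝ (F k) v).aestronglyMeasurable)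
      ((measurable_fderiv_apply_const ℝ f v).aestronglyMeasurable) _ _ _ hh1
    · intro k
      filter_upwards [ae_restrict_mem hΩ.measurableSet] with x hx
      exact (ContinuousLinearMap.le_opNorm _ _).trans (by gcongr; exact (hF k).norm_fderiv_le hx)
    · filter_upwards [ae_restrict_mem hΩ.measurableSet] with x hx
      exact (ContinuousLinearMap.le_opNorm _ _).trans (by gcongr; exact hf.norm_fderiv_le hx)
    · intro φ hφ hc hs
      have hφ'c : Continuous (fun x => fderiv ℝ φ x v) :=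
        (hφ.continuous_fderiv (by simp)).clm_apply continuous_const
      have hφ's : HasCompactSupport (fun x => fderiv ℝ φ x v) := hc.fderiv_apply (𝕜 := ℝ) v
      have h1 := t1 _ hφ'c hφ's
      have h2 : ∀ k, ∫ x in Ω, φ x • (fderiv ℝ (F k) x v) = - ∫ x in Ω, (fderiv ℝ φ x v) • F k x := by
        intro k; rw [(hF k).isWeakDiff hΩ φ hφ hc hs v, neg_neg]
      have h3 : ∫ x in Ω, φ x • (fderiv ℝ f x v) = - ∫ x in Ω, (fderiv ℝ φ x v) • f x := by
        rw [hf.isWeakDiff hΩ φ hφ hc hs v, neg_neg]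
      simp only [h2, h3]
      exact h1.neg

end base



/-- centres of the gaps of the ternary Cantor set -/
def ctr : List Bool → ℝ
  | [] => 1 / 2
  | false :: w => ctr w / 3
  | true :: w => (2 + ctr w) / 3

/-- a tenth of the length of the gaps of the ternary Cantor set -/
def siz : List Bool → ℝ
  | [] => 1 / 30
  | _ :: w => siz w / 3

lemma siz_pos (w : List Bool) : 0 < siz w := by
  induction w with
  | nil => norm_num [siz]
  | cons b w ih => simp only [siz]; positivity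

lemma siz_le (w : List Bool) : siz w ≤ 1 / 30 := by
  induction w with
  | nil => norm_num [siz]
  | cons b w ih =>
    have := siz_pos w
    simp only [siz]; linarith

lemma gap_mem (w : List Bool) : ∀ x : ℝ, |x - ctr w| ≤ 5 * siz w → 0 < x ∧ x < 1 := by
  induction w with
  | nil =>
    intro x hx
    simp only [ctr, siz] at hx
    rw [abs_le] at hx
    constructor <;> linarith [hx.1, hx.2]
  | cons b w ih =>
    intro x hx
    cases b
    · simp only [ctr, siz] at hx
      rw [abs_le] at hx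
      have := ih (3 * x) (by rw [abs_le]; constructor <;> linarith [hx.1, hx.2])
      constructor <;> linarith [this.1, this.2]
    · simp only [ctr, siz] at hx
      rw [abs_le] at hx
      have := ih (3 * x - 2) (by rw [abs_le]; constructor <;> linarith [hx.1, hx.2])
      constructor <;> linarith [this.1, this.2]

lemma gap_false {w : List Bool} {x : ℝ} (hx : |x - ctr (false :: w)| ≤ 5 * siz (false :: w)) :
    |3 * x - ctr w| ≤ 5 * siz w ∧ 0 < x ∧ x < 1 / 3 := by
  simp only [ctr, siz] at hx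
  rw [abs_le] at hx
  have h1 : |3 * x - ctr w| ≤ 5 * siz w := by rw [abs_le]; constructor <;> linarith [hx.1, hx.2]
  have := gap_mem w _ h1
  exact ⟨h1, by linarith [this.1], by linarith [this.2]⟩

lemma gap_true {w : List Bool} {x : ℝ} (hx : |x - ctr (true :: w)| ≤ 5 * siz (true :: w)) :
    |(3 * x - 2) - ctr w| ≤ 5 * siz w ∧ 2 / 3 < x ∧ x < 1 := by
  simp only [ctr, siz] at hx
  rw [abs_le] at hx
  have h1 : |(3 * x - 2) - ctr w| ≤ 5 * siz w := by rw [abs_le]; constructor <;> linarith [hx.1, hx.2]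
  have := gap_mem w _ h1
  exact ⟨h1, by linarith [this.1], by linarith [this.2]⟩

lemma gap_nil {x : ℝ} (hx : |x - ctr []| ≤ 5 * siz []) : 1 / 3 ≤ x ∧ x ≤ 2 / 3 := by
  simp only [ctr, siz] at hx
  rw [abs_le] at hx
  constructor <;> linarith [hx.1, hx.2]

lemma gap_disj : ∀ (w v : List Bool) (x : ℝ), |x - ctr w| ≤ 5 * siz w → |x - ctr v| ≤ 5 * siz v →
    w = v := by
  intro w
  induction w with
  | nil =>
    intro v x hw hv
    have h1 := gap_nil hw
    rcases v with _ | ⟨b, v⟩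
    · rfl
    · cases b
      · have := gap_false hv; linarith [this.2.2]
      · have := gap_true hv; linarith [this.2.1]
  | cons b w ih =>
    intro v x hw hv
    rcases v with _ | ⟨b', v⟩
    · have h1 := gap_nil hv
      cases b
      · have := gap_false hw; linarith [this.2.2]
      · have := gap_true hw; linarith [this.2.1]
    · cases b <;> cases b'
      · have h1 := gap_false hw
        have h2 := gap_false hv
        rw [ih v _ h1.1 h2.1]
      · have h1 := gap_false hw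
        have h2 := gap_true hv
        linarith [h1.2.2, h2.2.1]
      · have h1 := gap_true hw
        have h2 := gap_false hv
        linarith [h1.2.1, h2.2.2]
      · have h1 := gap_true hw
        have h2 := gap_true hv
        rw [ih v _ h1.1 h2.1]

/-- adding `k` letters `false` in front -/
def Zr : ℕ → List Bool → List Bool
  | 0, u => u
  | k + 1, u => false :: Zr k u

lemma ctr_Zr (k : ℕ) (u : List Bool) : ctr (Zr k u) = ctr u * (1 / 3) ^ k := by
  induction k with
  | zero => simp [Zr]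
  | succ k ih => simp only [Zr, ctr, ih]; ring

lemma siz_Zr (k : ℕ) (u : List Bool) : siz (Zr k u) = siz u * (1 / 3) ^ k := by
  induction k with
  | zero => simp [Zr]
  | succ k ih => simp only [Zr, siz, ih]; ring

lemma gap_pos : ∀ (k : ℕ) (v : List Bool), (∃ u, v = Zr k u) ∨
    (∀ y : ℝ, |y - ctr v| ≤ 5 * siz v → (1 / 3 : ℝ) ^ k ≤ y) := by
  intro k
  induction k with
  | zero => intro v; exact Or.inl ⟨v, rfl⟩
  | succ k ih =>
    intro v
    have hk : (1 / 3 : ℝ) ^ (k + 1) ≤ 1 / 3 := by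
      calc (1 / 3 : ℝ) ^ (k + 1) = (1 / 3) ^ k * (1 / 3) := pow_succ _ _
        _ ≤ 1 * (1 / 3) := by gcongr; exact pow_le_one₀ (by norm_num) (by norm_num)
        _ = 1 / 3 := by ring
    rcases v with _ | ⟨b, v⟩
    · right; intro y hy; have := gap_nil hy; linarith [this.1]
    · cases b
      · rcases ih v with ⟨u, hu⟩ | h
        · left; exact ⟨u, by rw [hu]; rfl⟩
        · right
          intro y hy
          have h1 := h _ (gap_false hy).1
          rw [pow_succ]; linarith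
      · right; intro y hy
        have := gap_true hy
        linarith [this.2.1]

/-- the piecewise affine homeomorphisms of the line -/
def phi (ε x : ℝ) : ℝ := max (ε * x) (max (x - 2 / 3 * (1 - ε)) (3 * x - 2))

/-- their inverses -/
def psi' (ε y : ℝ) : ℝ := min (y / ε) (min (y + 2 / 3 * (1 - ε)) ((y + 2) / 3))

lemma psi_phi {ε : ℝ} (hε : 0 < ε) (x : ℝ) : psi' ε (phi ε x) = x := by
  have h1 : ε * x ≤ phi ε x := le_max_left _ _
  have h2 : x - 2 / 3 * (1 - ε) ≤ phi ε x := (le_max_left _ _).trans (le_max_right _ _)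
  have h3 : 3 * x - 2 ≤ phi ε x := (le_max_right _ _).trans (le_max_right _ _)
  have hd : phi ε x = ε * x ∨ phi ε x = x - 2 / 3 * (1 - ε) ∨ phi ε x = 3 * x - 2 := by
    unfold phi
    rcases max_choice (ε * x) (max (x - 2 / 3 * (1 - ε)) (3 * x - 2)) with h | h
    · left; exact h
    · rw [h]; right; exact max_choice _ _
  unfold psi'
  apply le_antisymm
  · rcases hd with h | h | h
    · apply (min_le_left _ _).trans
      rw [h, mul_div_assoc, mul_div_cancel₀]; exact hε.ne'
    · apply (min_le_right _ _).trans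
      apply (min_le_left _ _).trans
      rw [h]; linarith
    · apply (min_le_right _ _).trans
      apply (min_le_right _ _).trans
      rw [h]; linarith
  · apply le_min
    · rw [le_div_iff₀ hε]; linarith
    · apply le_min
      · linarith
      · linarith

lemma phi_psi {ε : ℝ} (hε : 0 < ε) (y : ℝ) : phi ε (psi' ε y) = y := by
  have h1 : psi' ε y ≤ y / ε := min_le_left _ _
  have h2 : psi' ε y ≤ y + 2 / 3 * (1 - ε) := (min_le_right _ _).trans (min_le_left _ _)
  have h3 : psi' ε y ≤ (y + 2) / 3 := (min_le_right _ _).trans (min_le_right _ _)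
  have hd : psi' ε y = y / ε ∨ psi' ε y = y + 2 / 3 * (1 - ε) ∨ psi' ε y = (y + 2) / 3 := by
    unfold psi'
    rcases min_choice (y / ε) (min (y + 2 / 3 * (1 - ε)) ((y + 2) / 3)) with h | h
    · left; exact h
    · rw [h]; right; exact min_choice _ _
  rw [le_div_iff₀ hε] at h1
  unfold phi
  apply le_antisymm
  · apply max_le
    · linarith
    · apply max_le <;> linarith
  · rcases hd with h | h | h
    · apply le_trans _ (le_max_left _ _)
      rw [h, mul_div_cancel₀ _ hε.ne']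
    · apply le_trans _ (le_max_right _ _)
      apply le_trans _ (le_max_left _ _)
      rw [h]; linarith
    · apply le_trans _ (le_max_right _ _)
      apply le_trans _ (le_max_right _ _)
      rw [h]; linarith

lemma phi_a {ε x : ℝ} (h0 : 0 ≤ ε) (h1 : ε ≤ 1) (hx : x ≤ 2 / 3) : phi ε x = ε * x := by
  unfold phi
  apply max_eq_left
  apply max_le <;> nlinarith

lemma phi_b {ε x : ℝ} (h0 : 0 ≤ ε) (h1 : ε ≤ 1) (hx : 2 / 3 ≤ x) (hx2 : x ≤ (2 + ε) / 3) :
    phi ε x = x - 2 / 3 * (1 - ε) := by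
  unfold phi
  rw [max_eq_right]
  · apply max_eq_left; linarith
  · apply le_trans _ (le_max_left _ _); nlinarith

lemma phi_c {ε x : ℝ} (h0 : 0 ≤ ε) (h1 : ε ≤ 1) (hx2 : (2 + ε) / 3 ≤ x) :
    phi ε x = 3 * x - 2 := by
  unfold phi
  rw [max_eq_right]
  · apply max_eq_right; linarith
  · apply le_trans _ (le_max_right _ _); nlinarith

/-- the gap `w` is mapped affinely onto the gap `v` by `φ` -/
def Rel (φ : ℝ → ℝ) (w v : List Bool) : Prop :=
  ∀ x : ℝ, |x - ctr w| ≤ 5 * siz w → φ x = ctr v + siz v / siz w * (x - ctr w)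

lemma rel_short {k : ℕ} {w : List Bool} (hw : ∀ x : ℝ, |x - ctr w| ≤ 5 * siz w → x ≤ 2 / 3) :
    Rel (phi ((1 / 3 : ℝ) ^ k)) w (Zr k w) := by
  intro x hx
  have hs := (siz_pos w).ne'
  rw [phi_a (by positivity) (pow_le_one₀ (by norm_num) (by norm_num)) (hw x hx), ctr_Zr, siz_Zr]
  field_simp
  ring

lemma rel_true_a {k : ℕ} {u : List Bool} :
    Rel (phi ((1 / 3 : ℝ) ^ k)) (true :: Zr k u) (Zr k (true :: u)) := by
  intro x hx
  have hs := (siz_pos u).ne'
  have h1 := gap_true hx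
  have h2 := h1.1
  rw [ctr_Zr, siz_Zr] at h2
  set ε : ℝ := (1 / 3 : ℝ) ^ k with hε
  have hε0 : 0 < ε := by positivity
  have hε1 : ε ≤ 1 := pow_le_one₀ (by norm_num) (by norm_num)
  have h3 : |(3 * x - 2) / ε - ctr u| ≤ 5 * siz u := by
    have : (3 * x - 2) / ε - ctr u = ((3 * x - 2) - ctr u * ε) / ε := by field_simp
    rw [this, abs_div, abs_of_pos hε0, div_le_iff₀ hε0]
    linarith
  have h4 := gap_mem u _ h3
  have h5 : 3 * x - 2 < ε := by
    have := h4.2
    rw [div_lt_one hε0] at this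
    exact this
  rw [phi_b hε0.le hε1 h1.2.1.le (by linarith), ctr_Zr, siz_Zr]
  simp only [ctr, siz]
  rw [ctr_Zr, siz_Zr, ← hε]
  field_simp
  ring

lemma rel_true_b {k : ℕ} {v : List Bool}
    (hv : ∀ y : ℝ, |y - ctr v| ≤ 5 * siz v → (1 / 3 : ℝ) ^ k ≤ y) :
    Rel (phi ((1 / 3 : ℝ) ^ k)) (true :: v) v := by
  intro x hx
  have hs := (siz_pos v).ne'
  have h1 := gap_true hx
  have h2 := hv _ h1.1
  rw [phi_c (by positivity) (pow_le_one₀ (by norm_num) (by norm_num)) (by linarith)]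
  simp only [ctr, siz]
  field_simp
  ring

lemma rel_exists (k : ℕ) (w : List Bool) : ∃ v, Rel (phi ((1 / 3 : ℝ) ^ k)) w v := by
  rcases w with _ | ⟨b, w⟩
  · exact ⟨_, rel_short fun x hx => (gap_nil hx).2⟩
  · cases b
    · exact ⟨_, rel_short fun x hx => by linarith [(gap_false hx).2.2]⟩
    · rcases gap_pos k w with ⟨u, hu⟩ | h
      · rw [hu]; exact ⟨_, rel_true_a⟩
      · exact ⟨_, rel_true_b h⟩

lemma rel_exists' (k : ℕ) (v : List Bool) : ∃ w, Rel (phi ((1 / 3 : ℝ) ^ k)) w v := by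
  rcases gap_pos k v with ⟨u, hu⟩ | h
  · rw [hu]
    rcases u with _ | ⟨b, u⟩
    · exact ⟨_, rel_short fun x hx => (gap_nil hx).2⟩
    · cases b
      · exact ⟨_, rel_short fun x hx => by linarith [(gap_false hx).2.2]⟩
      · exact ⟨_, rel_true_a⟩
  · exact ⟨_, rel_true_b h⟩




open Classical in
/-- the size of the gap containing `x` -/
def ell (x : ℝ) : ℝ := if h : ∃ w, |x - ctr w| < 5 * siz w then siz h.choose else 0

lemma ell_eq {w : List Bool} {x : ℝ} (h : |x - ctr w| < 5 * siz w) : ell x = siz w := by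
  have hex : ∃ w, |x - ctr w| < 5 * siz w := ⟨w, h⟩
  unfold ell
  rw [dif_pos hex, gap_disj _ _ x hex.choose_spec.le h.le]

lemma ell_zero : ell 0 = 0 := by
  unfold ell
  rw [dif_neg]
  rintro ⟨w, hw⟩
  exact lt_irrefl _ (gap_mem w 0 hw.le).1

/-- the zigzag map of size `l` -/
def th (l : ℝ) (p : ℝ × ℝ) : ℝ × ℝ :=
  (p.1 + 4 * l * Real.sin (min p.2 0 / l), max p.2 0 + l * min p.2 0)

/-- its inverse -/
def ti (l : ℝ) (p : ℝ × ℝ) : ℝ × ℝ :=
  (p.1 - 4 * l * Real.sin (min p.2 0 / l ^ 2), max p.2 0 + min p.2 0 / l)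

lemma th_of_nonneg (l : ℝ) {p : ℝ × ℝ} (h : 0 ≤ p.2) : th l p = p := by
  unfold th
  rw [min_eq_right h, max_eq_left h]
  simp

lemma ti_of_nonneg (l : ℝ) {p : ℝ × ℝ} (h : 0 ≤ p.2) : ti l p = p := by
  unfold ti
  rw [min_eq_right h, max_eq_left h]
  simp

lemma ti_th {l : ℝ} (hl : 0 < l) (p : ℝ × ℝ) : ti l (th l p) = p := by
  rcases le_total 0 p.2 with h | h
  · rw [th_of_nonneg l h, ti_of_nonneg l h]
  · unfold ti th
    have h1 : l * p.2 ≤ 0 := mul_nonpos_of_nonneg_of_nonpos hl.le h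
    ext
    · simp only [min_eq_left h, max_eq_right h, zero_add, min_eq_left h1]
      have : l * p.2 / l ^ 2 = p.2 / l := by field_simp
      rw [this]; ring
    · simp only [min_eq_left h, max_eq_right h, zero_add, min_eq_left h1, max_eq_right h1]
      field_simp

lemma th_ti {l : ℝ} (hl : 0 < l) (p : ℝ × ℝ) : th l (ti l p) = p := by
  rcases le_total 0 p.2 with h | h
  · rw [ti_of_nonneg l h, th_of_nonneg l h]
  · unfold ti th
    have h1 : p.2 / l ≤ 0 := div_nonpos_of_nonpos_of_nonneg h hl.le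
    ext
    · simp only [min_eq_left h, max_eq_right h, zero_add, min_eq_left h1]
      have : p.2 / l / l = p.2 / l ^ 2 := by field_simp
      rw [this]; ring
    · simp only [min_eq_left h, max_eq_right h, zero_add, min_eq_left h1, max_eq_right h1]
      field_simp

lemma th_fst_sub (l : ℝ) (hl : 0 ≤ l) (p : ℝ × ℝ) : |(th l p).1 - p.1| ≤ 4 * l := by
  unfold th
  simp only [add_sub_cancel_left, abs_mul]
  have := Real.abs_sin_le_one (min p.2 0 / l)
  rw [abs_of_nonneg hl, abs_of_pos (by norm_num : (0:ℝ) < 4)]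
  nlinarith

lemma ti_fst_sub (l : ℝ) (hl : 0 ≤ l) (p : ℝ × ℝ) : |(ti l p).1 - p.1| ≤ 4 * l := by
  unfold ti
  have := Real.abs_sin_le_one (min p.2 0 / l ^ 2)
  rw [sub_sub_cancel_left, abs_neg, abs_mul, abs_mul, abs_of_nonneg hl, abs_of_pos (by norm_num : (0:ℝ) < 4)]
  nlinarith

lemma th_lipschitz {l : ℝ} (hl : 0 ≤ l) (hl1 : l ≤ 1) : LipschitzWith 5 (th l) := by
  apply LipschitzWith.of_dist_le_mul
  intro p q
  have hp1 : |p.1 - q.1| ≤ dist p q := by
    rw [← Real.dist_eq]; exact le_max_left _ _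
  have hp2 : |p.2 - q.2| ≤ dist p q := by
    rw [← Real.dist_eq]; exact le_max_right _ _
  have hmin : |min p.2 0 - min q.2 0| ≤ |p.2 - q.2| := by
    have := abs_min_sub_min_le_max p.2 0 q.2 0
    simpa using this
  have hmax : |max p.2 0 - max q.2 0| ≤ |p.2 - q.2| := by
    have := abs_max_sub_max_le_max p.2 0 q.2 0
    simpa using this
  have hsin : |4 * l * Real.sin (min p.2 0 / l) - 4 * l * Real.sin (min q.2 0 / l)| ≤
      4 * |min p.2 0 - min q.2 0| := by
    rcases hl.eq_or_lt with h0 | h0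
    · rw [← h0]; simp
    · rw [← mul_sub, abs_mul, abs_of_pos (by positivity : 0 < 4 * l)]
      have h1 : |Real.sin (min p.2 0 / l) - Real.sin (min q.2 0 / l)| ≤ |min p.2 0 / l - min q.2 0 / l| := by
        have := Real.lipschitzWith_sin.dist_le_mul (min p.2 0 / l) (min q.2 0 / l)
        simpa [Real.dist_eq] using this
      rw [← sub_div, abs_div, abs_of_pos h0] at h1
      calc 4 * l * |Real.sin (min p.2 0 / l) - Real.sin (min q.2 0 / l)|
          ≤ 4 * l * (|min p.2 0 - min q.2 0| / l) := by gcongr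
        _ = 4 * |min p.2 0 - min q.2 0| := by field_simp
  have hd : 0 ≤ dist p q := dist_nonneg
  rw [Prod.dist_eq]
  apply max_le
  · rw [Real.dist_eq]
    have : (th l p).1 - (th l q).1 = (p.1 - q.1) +
        (4 * l * Real.sin (min p.2 0 / l) - 4 * l * Real.sin (min q.2 0 / l)) := by
      unfold th; ring
    rw [this]
    calc |(p.1 - q.1) + (4 * l * Real.sin (min p.2 0 / l) - 4 * l * Real.sin (min q.2 0 / l))|
        ≤ |p.1 - q.1| + |4 * l * Real.sin (min p.2 0 / l) - 4 * l * Real.sin (min q.2 0 / l)| :=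
          abs_add_le _ _
      _ ≤ dist p q + 4 * dist p q := by linarith
      _ = (5 : ℝ≥0) * dist p q := by push_cast; ring
  · rw [Real.dist_eq]
    have : (th l p).2 - (th l q).2 = (max p.2 0 - max q.2 0) + l * (min p.2 0 - min q.2 0) := by
      unfold th; ring
    rw [this]
    calc |(max p.2 0 - max q.2 0) + l * (min p.2 0 - min q.2 0)|
        ≤ |max p.2 0 - max q.2 0| + |l * (min p.2 0 - min q.2 0)| := abs_add_le _ _
      _ ≤ dist p q + 1 * dist p q := by
          rw [abs_mul, abs_of_nonneg hl]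
          have : l * |min p.2 0 - min q.2 0| ≤ 1 * dist p q := by
            gcongr; linarith
          linarith
      _ ≤ (5 : ℝ≥0) * dist p q := by push_cast; linarith

lemma ti_continuous {l : ℝ} : Continuous (ti l) := by
  unfold ti
  simp only [div_eq_mul_inv]
  fun_prop

lemma th_continuous {l : ℝ} : Continuous (th l) := by
  unfold th
  simp only [div_eq_mul_inv]
  fun_prop

/-- the tower `w`: a straight column with a hole -/
def tower (w : List Bool) : Set (ℝ × ℝ) :=
  {p | |p.1 - ctr w| < siz w ∧ -1 < p.2 ∧ p.2 < 1 ∧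
    ¬ (|p.1 - ctr w| ≤ siz w / 4 ∧ -(9 / 10) ≤ p.2 ∧ p.2 ≤ -(1 / 10))}

def hub : Set (ℝ × ℝ) := {p | 0 < p.1 ∧ p.1 < 1 ∧ 0 < p.2 ∧ p.2 < 1}

def Om : Set (ℝ × ℝ) := hub ∪ ⋃ w, tower w

def Om' : Set (ℝ × ℝ) := hub ∪ ⋃ w, ti (siz w) ⁻¹' (tower w)

lemma tower_isOpen (w : List Bool) : IsOpen (tower w) := by
  have h1 : IsOpen {p : ℝ × ℝ | |p.1 - ctr w| < siz w} := isOpen_lt (by fun_prop) continuous_const
  have h2 : IsOpen {p : ℝ × ℝ | -1 < p.2} := isOpen_lt continuous_const continuous_snd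
  have h3 : IsOpen {p : ℝ × ℝ | p.2 < 1} := isOpen_lt continuous_snd continuous_const
  have h4 : IsClosed {p : ℝ × ℝ | |p.1 - ctr w| ≤ siz w / 4} := isClosed_le (by fun_prop) continuous_const
  have h5 : IsClosed {p : ℝ × ℝ | -(9 / 10) ≤ p.2} := isClosed_le continuous_const continuous_snd
  have h6 : IsClosed {p : ℝ × ℝ | p.2 ≤ -(1 / 10)} := isClosed_le continuous_snd continuous_const
  exact h1.inter (h2.inter (h3.inter (h4.inter (h5.inter h6)).isOpen_compl))

lemma hub_isOpen : IsOpen hub := by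
  have h0 : IsOpen {p : ℝ × ℝ | 0 < p.1} := isOpen_lt continuous_const continuous_fst
  have h1 : IsOpen {p : ℝ × ℝ | p.1 < 1} := isOpen_lt continuous_fst continuous_const
  have h2 : IsOpen {p : ℝ × ℝ | 0 < p.2} := isOpen_lt continuous_const continuous_snd
  have h3 : IsOpen {p : ℝ × ℝ | p.2 < 1} := isOpen_lt continuous_snd continuous_const
  exact h0.inter (h1.inter (h2.inter h3))

lemma Om_isOpen : IsOpen Om := hub_isOpen.union (isOpen_iUnion tower_isOpen)

lemma Om'_isOpen : IsOpen Om' :=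
  hub_isOpen.union (isOpen_iUnion fun w => (tower_isOpen w).preimage ti_continuous)

lemma Om_fst {p : ℝ × ℝ} (hp : p ∈ Om) : 0 < p.1 ∧ p.1 < 1 := by
  rcases hp with hp | hp
  · exact ⟨hp.1, hp.2.1⟩
  · obtain ⟨w, hw⟩ := mem_iUnion.mp hp
    exact gap_mem w p.1 (by linarith [hw.1, siz_pos w])

lemma Om_snd {p : ℝ × ℝ} (hp : p ∈ Om) : -1 < p.2 ∧ p.2 < 1 := by
  rcases hp with hp | hp
  · exact ⟨by linarith [hp.2.2.1], hp.2.2.2⟩
  · obtain ⟨w, hw⟩ := mem_iUnion.mp hp
    exact ⟨hw.2.1, hw.2.2.1⟩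

lemma Om_nonpos {p : ℝ × ℝ} (hp : p ∈ Om) (h : p.2 ≤ 0) : ∃ w, p ∈ tower w := by
  rcases hp with hp | hp
  · linarith [hp.2.2.1]
  · exact mem_iUnion.mp hp

def Th (p : ℝ × ℝ) : ℝ × ℝ := th (ell p.1) p
def Ti (p : ℝ × ℝ) : ℝ × ℝ := ti (ell p.1) p

lemma Th_tower {w : List Bool} {p : ℝ × ℝ} (h : |p.1 - ctr w| < siz w) :
    Th p = th (siz w) p ∧ ell (Th p).1 = siz w := by
  have h0 := siz_pos w
  have h1 : ell p.1 = siz w := ell_eq (by linarith)
  have h2 : Th p = th (siz w) p := by unfold Th; rw [h1]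
  refine ⟨h2, ell_eq ?_⟩
  rw [h2]
  have h3 := th_fst_sub (siz w) h0.le p
  calc |(th (siz w) p).1 - ctr w| = |((th (siz w) p).1 - p.1) + (p.1 - ctr w)| := by congr 1; ring
    _ ≤ |(th (siz w) p).1 - p.1| + |p.1 - ctr w| := abs_add_le _ _
    _ < 5 * siz w := by linarith

lemma Th_mapsTo : MapsTo Th Om Om' := by
  intro p hp
  rcases hp with hp | hp
  · left
    have : Th p = p := th_of_nonneg _ hp.2.2.1.le
    rw [this]; exact hp
  · right
    obtain ⟨w, hw⟩ := mem_iUnion.mp hp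
    rw [mem_iUnion]
    refine ⟨w, ?_⟩
    rw [mem_preimage, (Th_tower hw.1).1, ti_th (siz_pos w)]
    exact hw

lemma Ti_Th {p : ℝ × ℝ} (hp : p ∈ Om) : Ti (Th p) = p := by
  rcases hp with hp | hp
  · have : Th p = p := th_of_nonneg _ hp.2.2.1.le
    rw [this]; exact ti_of_nonneg _ hp.2.2.1.le
  · obtain ⟨w, hw⟩ := mem_iUnion.mp hp
    have h := Th_tower hw.1
    unfold Ti
    rw [h.2, h.1, ti_th (siz_pos w)]

lemma Om'_cases {q : ℝ × ℝ} (hq : q ∈ Om') : (q ∈ hub ∧ Ti q = q) ∨
    ∃ w, |q.1 - ctr w| < 5 * siz w ∧ Ti q = ti (siz w) q ∧ ti (siz w) q ∈ tower w := by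
  rcases hq with hq | hq
  · left; exact ⟨hq, ti_of_nonneg _ hq.2.2.1.le⟩
  · right
    obtain ⟨w, hw⟩ := mem_iUnion.mp hq
    rw [mem_preimage] at hw
    have h1 : |q.1 - ctr w| < 5 * siz w := by
      have h2 := ti_fst_sub (siz w) (siz_pos w).le q
      have h3 := hw.1
      calc |q.1 - ctr w| = |((ti (siz w) q).1 - ctr w) - ((ti (siz w) q).1 - q.1)| := by congr 1; ring
        _ ≤ |(ti (siz w) q).1 - ctr w| + |(ti (siz w) q).1 - q.1| := abs_sub _ _
        _ < 5 * siz w := by linarith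
    refine ⟨w, h1, ?_, hw⟩
    unfold Ti
    rw [ell_eq h1]

lemma Ti_mapsTo : MapsTo Ti Om' Om := by
  intro q hq
  rcases Om'_cases hq with ⟨h1, h2⟩ | ⟨w, h1, h2, h3⟩
  · rw [h2]; left; exact h1
  · rw [h2]; right; exact mem_iUnion.mpr ⟨w, h3⟩

lemma Th_Ti {q : ℝ × ℝ} (hq : q ∈ Om') : Th (Ti q) = q := by
  rcases Om'_cases hq with ⟨h1, h2⟩ | ⟨w, h1, h2, h3⟩
  · rw [h2]; exact th_of_nonneg _ h1.2.2.1.le
  · rw [h2, (Th_tower h3.1).1, th_ti (siz_pos w)]

lemma Ti_continuousOn : ContinuousOn Ti Om' := by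
  intro q hq
  apply ContinuousAt.continuousWithinAt
  rcases Om'_cases hq with ⟨h1, h2⟩ | ⟨w, h1, h2, h3⟩
  · have : Ti =ᶠ[𝓝 q] id := by
      filter_upwards [(isOpen_lt continuous_const continuous_snd : IsOpen {p : ℝ × ℝ | 0 < p.2}).mem_nhds h1.2.2.1] with r hr
      have hr' : 0 < r.2 := hr
      exact ti_of_nonneg _ hr'.le
    exact continuousAt_id.congr this.symm
  · have : Ti =ᶠ[𝓝 q] ti (siz w) := by
      filter_upwards [(isOpen_lt (by fun_prop) continuous_const : IsOpen {p : ℝ × ℝ | |p.1 - ctr w| < 5 * siz w}).mem_nhds h1] with r hr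
      have hr' : |r.1 - ctr w| < 5 * siz w := hr
      unfold Ti; rw [ell_eq hr']
    exact ti_continuous.continuousAt.congr this.symm

/-- planar map attached to `φ` -/
def Gm (φ : ℝ → ℝ) (p : ℝ × ℝ) : ℝ × ℝ := Th (φ p.1, p.2)

/-- the size function is constant on the images of the gaps -/
def GoodPhi (φ : ℝ → ℝ) : Prop :=
  LipschitzWith 3 φ ∧ (∀ x, 0 < x → x < 1 → 0 ≤ φ x ∧ φ x ≤ 1) ∧
    ∀ w, ∃ l, 0 ≤ l ∧ l ≤ 1 ∧ ∀ x, |x - ctr w| < 5 * siz w → ell (φ x) = l

lemma Gm_locLip {φ : ℝ → ℝ} (hφ : GoodPhi φ) {p : ℝ × ℝ} (hp : p ∈ Om) :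
    ∃ s ∈ 𝓝 p, LipschitzOnWith 15 (Gm φ) s := by
  have h0 : LipschitzWith 3 (fun q : ℝ × ℝ => (φ q.1, q.2)) := by
    have h1 : LipschitzWith 3 (fun q : ℝ × ℝ => φ q.1) := by
      have := hφ.1.comp (LipschitzWith.prod_fst (α := ℝ) (β := ℝ))
      rw [mul_one] at this
      exact this
    have h2 : LipschitzWith 1 (fun q : ℝ × ℝ => q.2) := LipschitzWith.prod_snd
    have := h1.prodMk h2
    simpa using this
  rcases lt_or_ge 0 p.2 with h | h
  · refine ⟨{q | 0 < q.2}, (isOpen_lt continuous_const continuous_snd).mem_nhds h, ?_⟩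
    have h1 : EqOn (Gm φ) (fun q : ℝ × ℝ => (φ q.1, q.2)) {q | 0 < q.2} := by
      intro q hq
      exact th_of_nonneg _ (le_of_lt hq)
    intro q hq r hr
    rw [h1 hq, h1 hr]
    calc edist ((fun q : ℝ × ℝ => (φ q.1, q.2)) q) ((fun q : ℝ × ℝ => (φ q.1, q.2)) r) ≤ (3 : ℝ≥0) * edist q r :=
          h0 q r
      _ ≤ (15 : ℝ≥0) * edist q r := by gcongr; norm_num
  · obtain ⟨w, hw⟩ := Om_nonpos hp h
    obtain ⟨l, hl0, hl1, hl⟩ := hφ.2.2 w
    refine ⟨{q | |q.1 - ctr w| < 5 * siz w}, (isOpen_lt (by fun_prop) continuous_const).mem_nhds ?_, ?_⟩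
    · change |p.1 - ctr w| < 5 * siz w
      linarith [hw.1, siz_pos w]
    · have h1 : EqOn (Gm φ) (th l ∘ fun q : ℝ × ℝ => (φ q.1, q.2)) {q | |q.1 - ctr w| < 5 * siz w} := by
        intro q hq
        change th (ell (φ q.1)) (φ q.1, q.2) = _
        rw [hl q.1 hq]; rfl
      intro q hq r hr
      rw [h1 hq, h1 hr]
      have := (th_lipschitz hl0 hl1).comp h0 q r
      calc _ ≤ _ := this
        _ ≤ (15 : ℝ≥0) * edist q r := by gcongr; norm_num

lemma Gm_bound {φ : ℝ → ℝ} (hφ : GoodPhi φ) {p : ℝ × ℝ} (hp : p ∈ Om) : ‖Gm φ p‖ ≤ 5 := by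
  have h1 := Om_fst hp
  have h2 := Om_snd hp
  have h3 := hφ.2.1 p.1 h1.1 h1.2
  have key : ∀ l : ℝ, 0 ≤ l → l ≤ 1 → ‖th l (φ p.1, p.2)‖ ≤ 5 := by
    intro l hl0 hl1
    have h4 := th_fst_sub l hl0 (φ p.1, p.2)
    rw [abs_le] at h4
    have h5 : |(th l (φ p.1, p.2)).1| ≤ 5 := by
      rw [abs_le]; simp only at h4; constructor <;> linarith [h4.1, h4.2]
    have h6 : |(th l (φ p.1, p.2)).2| ≤ 5 := by
      unfold th
      simp only
      rcases le_total 0 p.2 with h | h
      · rw [min_eq_right h, max_eq_left h, abs_le]; constructor <;> linarith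
      · rw [min_eq_left h, max_eq_right h, abs_le]; constructor <;> nlinarith
    rw [Prod.norm_def]
    exact max_le h5 h6
  rcases lt_or_ge 0 p.2 with h | h
  · have := key 0 le_rfl zero_le_one
    have e : Gm φ p = th 0 (φ p.1, p.2) := by
      unfold Gm Th
      rw [th_of_nonneg _ (by simpa using h.le), th_of_nonneg _ (by simpa using h.le)]
    rw [e]; exact this
  · obtain ⟨w, hw⟩ := Om_nonpos hp h
    obtain ⟨l, hl0, hl1, hl⟩ := hφ.2.2 w
    have e : Gm φ p = th l (φ p.1, p.2) := by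
      unfold Gm Th
      rw [hl p.1 (by linarith [hw.1, siz_pos w])]
    rw [e]; exact key l hl0 hl1

/-- the sequence of factors -/
def ep (k : ℕ) : ℝ := (1 / 3) ^ k

lemma ep_pos (k : ℕ) : 0 < ep k := by unfold ep; positivity
lemma ep_le (k : ℕ) : ep k ≤ 1 := pow_le_one₀ (by norm_num) (by norm_num)

lemma phi_lip {ε : ℝ} (h0 : 0 ≤ ε) (h1 : ε ≤ 1) : LipschitzWith 3 (phi ε) := by
  have a1 : LipschitzWith 3 (fun x : ℝ => ε * x) := by
    apply LipschitzWith.of_dist_le_mul
    intro x y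
    rw [Real.dist_eq, Real.dist_eq, ← mul_sub, abs_mul, abs_of_nonneg h0]
    have := abs_nonneg (x - y)
    push_cast; nlinarith
  have a2 : LipschitzWith 3 (fun x : ℝ => x - 2 / 3 * (1 - ε)) := by
    apply LipschitzWith.of_dist_le_mul
    intro x y
    rw [Real.dist_eq, Real.dist_eq, sub_sub_sub_cancel_right]
    have := abs_nonneg (x - y)
    push_cast; nlinarith
  have a3 : LipschitzWith 3 (fun x : ℝ => 3 * x - 2) := by
    apply LipschitzWith.of_dist_le_mul
    intro x y
    rw [Real.dist_eq, Real.dist_eq, sub_sub_sub_cancel_right, ← mul_sub, abs_mul]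
    simp
  have := a1.max (a2.max a3)
  rw [max_self, max_self] at this
  exact this

lemma phi_mem {ε x : ℝ} (h0 : 0 ≤ ε) (h1 : ε ≤ 1) (hx0 : 0 < x) (hx1 : x < 1) :
    0 ≤ phi ε x ∧ phi ε x < 1 := by
  constructor
  · apply le_trans _ (le_max_left _ _); positivity
  · unfold phi
    apply max_lt
    · nlinarith
    · apply max_lt
      · nlinarith
      · linarith

lemma goodPhi_ep (k : ℕ) : GoodPhi (phi (ep k)) := by
  refine ⟨phi_lip (ep_pos k).le (ep_le k), fun x h0 h1 => ?_, fun w => ?_⟩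
  · have := phi_mem (ep_pos k).le (ep_le k) h0 h1
    exact ⟨this.1, this.2.le⟩
  · obtain ⟨v, hv⟩ := rel_exists k w
    refine ⟨siz v, (siz_pos v).le, by linarith [siz_le v], fun x hx => ell_eq ?_⟩
    have h1 := hv x hx.le
    change phi (ep k) x = _ at h1
    rw [h1, add_sub_cancel_left, abs_mul, abs_div, abs_of_pos (siz_pos v), abs_of_pos (siz_pos w),
      div_mul_eq_mul_div, div_lt_iff₀ (siz_pos w)]
    have := siz_pos v
    nlinarith

lemma goodPhi_zero : GoodPhi (phi 0) := by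
  refine ⟨phi_lip le_rfl zero_le_one, fun x h0 h1 => ?_, fun w => ?_⟩
  · have := phi_mem le_rfl zero_le_one h0 h1
    exact ⟨this.1, this.2.le⟩
  · have short : (∀ x : ℝ, |x - ctr w| ≤ 5 * siz w → x ≤ 2 / 3) →
        ∃ l, 0 ≤ l ∧ l ≤ 1 ∧ ∀ x, |x - ctr w| < 5 * siz w → ell (phi 0 x) = l := by
      intro hs
      refine ⟨0, le_rfl, zero_le_one, fun x hx => ?_⟩
      rw [phi_a le_rfl zero_le_one (hs x hx.le), zero_mul, ell_zero]
    rcases w with _ | ⟨b, w⟩
    · exact short fun x hx => (gap_nil hx).2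
    · cases b
      · exact short fun x hx => by linarith [(gap_false hx).2.2]
      · refine ⟨siz w, (siz_pos w).le, by linarith [siz_le w], fun x hx => ?_⟩
        have h1 := gap_true hx.le
        rw [phi_c le_rfl zero_le_one (by linarith)]
        apply ell_eq
        simp only [ctr, siz] at hx
        rw [abs_lt] at hx ⊢
        constructor <;> linarith [hx.1, hx.2]

lemma ep_tendsto : Tendsto ep atTop (𝓝 0) :=
  tendsto_pow_atTop_nhds_zero_of_lt_one (by norm_num) (by norm_num)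

lemma phi_tendsto (x : ℝ) : Tendsto (fun k => phi (ep k) x) atTop (𝓝 (phi 0 x)) := by
  have hc : Continuous (fun ε : ℝ => phi ε x) := by unfold phi; fun_prop
  exact (hc.tendsto 0).comp ep_tendsto

lemma Gm_tendsto {p : ℝ × ℝ} (hp : p ∈ Om) :
    Tendsto (fun k => Gm (phi (ep k)) p) atTop (𝓝 (Gm (phi 0) p)) := by
  rcases lt_or_ge 0 p.2 with h | h
  · have e : ∀ φ : ℝ → ℝ, Gm φ p = (φ p.1, p.2) := by
      intro φ
      unfold Gm Th
      rw [th_of_nonneg _ (by simpa using h.le)]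
    simp only [e]
    exact (phi_tendsto p.1).prodMk_nhds tendsto_const_nhds
  · obtain ⟨w, hw⟩ := Om_nonpos hp h
    have hw5 : |p.1 - ctr w| < 5 * siz w := by linarith [hw.1, siz_pos w]
    have short : (∀ x : ℝ, |x - ctr w| ≤ 5 * siz w → x ≤ 2 / 3) →
        Tendsto (fun k => Gm (phi (ep k)) p) atTop (𝓝 (Gm (phi 0) p)) := by
      intro hs
      have hx := hs p.1 hw5.le
      have hl : ∀ k, ell (phi (ep k) p.1) = siz w * ep k := by
        intro k
        rw [← show siz (Zr k w) = siz w * ep k from siz_Zr k w]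
        apply ell_eq
        have h1 := rel_short (k := k) hs p.1 hw5.le
        change phi (ep k) p.1 = _ at h1
        rw [h1, add_sub_cancel_left, abs_mul, abs_div, abs_of_pos (siz_pos _), abs_of_pos (siz_pos w),
          div_mul_eq_mul_div, div_lt_iff₀ (siz_pos w)]
        have := siz_pos (Zr k w)
        nlinarith
      have hl0 : ell (phi 0 p.1) = 0 := by
        rw [phi_a le_rfl zero_le_one hx, zero_mul, ell_zero]
      have hlt : Tendsto (fun k => siz w * ep k) atTop (𝓝 0) := by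
        simpa using ep_tendsto.const_mul (siz w)
      have e : ∀ φ : ℝ → ℝ, Gm φ p = (φ p.1 + 4 * ell (φ p.1) * Real.sin (min p.2 0 / ell (φ p.1)),
          max p.2 0 + ell (φ p.1) * min p.2 0) := fun φ => rfl
      simp only [e, hl, hl0]
      apply Tendsto.prodMk_nhds
      · apply (phi_tendsto p.1).add
        rw [mul_zero, zero_mul]
        apply squeeze_zero_norm (a := fun k => 4 * (siz w * ep k))
        · intro k
          have h0 : 0 ≤ siz w * ep k := by have := siz_pos w; have := ep_pos k; positivity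
          rw [norm_mul, Real.norm_eq_abs, Real.norm_eq_abs, abs_of_nonneg (by positivity)]
          have := Real.abs_sin_le_one (min p.2 0 / (siz w * ep k))
          nlinarith
        · simpa using hlt.const_mul 4
      · exact tendsto_const_nhds.add (hlt.mul_const _)
    rcases w with _ | ⟨b, w⟩
    · exact short fun x hx => (gap_nil hx).2
    · cases b
      · exact short fun x hx => by linarith [(gap_false hx).2.2]
      · have h1 := gap_true hw5.le
        have h2 := gap_mem w _ h1.1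
        have h3 : ∀ᶠ k in atTop, ep k < 3 * p.1 - 2 := ep_tendsto.eventually_lt_const h2.1
        apply tendsto_const_nhds.congr'
        filter_upwards [h3] with k hk
        unfold Gm
        rw [phi_c le_rfl zero_le_one (by linarith [h1.2.1] : (2 + 0) / 3 ≤ p.1),
          phi_c (ep_pos k).le (ep_le k) (by linarith)]

/-- `φ × id` maps `Om` into itself -/
lemma Phi_mapsTo (k : ℕ) : MapsTo (fun p : ℝ × ℝ => (phi (ep k) p.1, p.2)) Om Om := by
  intro p hp
  rcases hp with hp | hp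
  · left
    have h := phi_mem (ep_pos k).le (ep_le k) hp.1 hp.2.1
    refine ⟨?_, h.2, hp.2.2⟩
    have : 0 < ep k * p.1 := mul_pos (ep_pos k) hp.1
    exact this.trans_le (le_max_left _ _)
  · right
    obtain ⟨w, hw⟩ := mem_iUnion.mp hp
    obtain ⟨v, hv⟩ := rel_exists k w
    rw [mem_iUnion]
    refine ⟨v, ?_⟩
    have h0 := siz_pos w
    have h0' := siz_pos v
    have h1 := hv p.1 (by linarith [hw.1])
    change phi (ep k) p.1 = _ at h1
    have h2 : |phi (ep k) p.1 - ctr v| = siz v / siz w * |p.1 - ctr w| := by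
      rw [h1, add_sub_cancel_left, abs_mul, abs_div, abs_of_pos h0, abs_of_pos h0']
    refine ⟨?_, hw.2.1, hw.2.2.1, ?_⟩
    · change |phi (ep k) p.1 - ctr v| < siz v
      rw [h2, div_mul_eq_mul_div, div_lt_iff₀ h0]
      have := hw.1
      nlinarith
    · rintro ⟨h3, h4⟩
      apply hw.2.2.2
      refine ⟨?_, h4⟩
      change |phi (ep k) p.1 - ctr v| ≤ siz v / 4 at h3
      rw [h2, div_mul_eq_mul_div, div_le_iff₀ h0] at h3
      have h5 : siz v * |p.1 - ctr w| ≤ siz v * (siz w / 4) := by linarith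
      exact le_of_mul_le_mul_left h5 h0'

lemma Psi_mapsTo (k : ℕ) : MapsTo (fun p : ℝ × ℝ => (psi' (ep k) p.1, p.2)) Om Om := by
  intro p hp
  rcases hp with hp | hp
  · left
    refine ⟨?_, ?_, hp.2.2⟩
    · change 0 < psi' (ep k) p.1
      have := hp.1
      have := ep_pos k
      have := ep_le k
      unfold psi'
      apply lt_min
      · positivity
      · apply lt_min
        · linarith
        · linarith
    · change psi' (ep k) p.1 < 1
      have := hp.2.1
      calc psi' (ep k) p.1 ≤ (p.1 + 2) / 3 := (min_le_right _ _).trans (min_le_right _ _)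
        _ < 1 := by linarith
  · right
    obtain ⟨v, hv⟩ := mem_iUnion.mp hp
    obtain ⟨w, hw⟩ := rel_exists' k v
    rw [mem_iUnion]
    refine ⟨w, ?_⟩
    have h0 := siz_pos w
    have h0' := siz_pos v
    set x := ctr w + siz w / siz v * (p.1 - ctr v) with hx
    have hxa : |x - ctr w| = siz w / siz v * |p.1 - ctr v| := by
      rw [hx, add_sub_cancel_left, abs_mul, abs_div, abs_of_pos h0, abs_of_pos h0']
    have hx1 : |x - ctr w| < siz w := by
      rw [hxa, div_mul_eq_mul_div, div_lt_iff₀ h0']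
      have := hv.1
      nlinarith
    have h1 := hw x (by linarith)
    change phi (ep k) x = _ at h1
    have h2 : phi (ep k) x = p.1 := by
      rw [h1, hx]; field_simp; ring
    have h3 : psi' (ep k) p.1 = x := by rw [← h2, psi_phi (ep_pos k)]
    refine ⟨?_, hv.2.1, hv.2.2.1, ?_⟩
    · change |psi' (ep k) p.1 - ctr w| < siz w
      rw [h3]; exact hx1
    · rintro ⟨h4, h5⟩
      apply hv.2.2.2
      refine ⟨?_, h5⟩
      change |psi' (ep k) p.1 - ctr w| ≤ siz w / 4 at h4
      rw [h3, hxa, div_mul_eq_mul_div, div_le_iff₀ h0'] at h4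
      have h6 : siz w * |p.1 - ctr v| ≤ siz w * (siz v / 4) := by linarith
      exact le_of_mul_le_mul_left h6 h0


section lifts


section uniq
variable {n : ℕ}

/-- uniqueness of the weak differential -/
lemma weakDiff_unique {Ω : Set (Eu n)} (hΩ : IsOpen Ω) {f : Eu n → Eu n}
    {G H : Eu n → (Eu n →L[ℝ] Eu n)} (hG : IsWeakDiff Ω f G) (hH : IsWeakDiff Ω f H)
    (hGl : LocallyIntegrableOn G Ω) (hHl : LocallyIntegrableOn H Ω) :
    ∀ᵐ x ∂(volume.restrict Ω), G x = H x := by
  have key : ∀ v : Eu n, ∀ᵐ x ∂(volume : Measure (Eu n)), x ∈ Ω → G x v - H x v = 0 := by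
    intro v
    have hGv : LocallyIntegrableOn (fun x => G x v) Ω := by
      intro x hx
      obtain ⟨t, ht, hti⟩ := hGl x hx
      exact ⟨t, ht, hti.apply_continuousLinearMap v⟩
    have hfv : LocallyIntegrableOn (fun x => H x v) Ω := by
      intro x hx
      obtain ⟨t, ht, hti⟩ := hHl x hx
      exact ⟨t, ht, hti.apply_continuousLinearMap v⟩
    apply hΩ.ae_eq_zero_of_integral_contDiff_smul_eq_zero (hGv.sub hfv)
    intro φ hφ hc hs
    have hzero : ∀ x, x ∉ Ω → φ x = 0 := fun x hx =>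
      image_eq_zero_of_notMem_tsupport fun h => hx (hs h)
    have e1 := hG φ hφ hc hs v
    have e2 := hH φ hφ hc hs v
    rw [e1] at e2
    have e3 : ∫ x in Ω, φ x • (G x v) = ∫ x in Ω, φ x • (H x v) := neg_inj.mp e2
    have hi : ∀ (g : Eu n → Eu n), LocallyIntegrableOn g Ω →
        Integrable (fun x => φ x • g x) := by
      intro g hg
      exact integrable_smul_of_locallyIntegrableOn hg hφ.continuous hc hs
    have e4 : ∀ (g : Eu n → Eu n), ∫ x in Ω, φ x • g x = ∫ x, φ x • g x := by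
      intro g
      apply setIntegral_eq_integral_of_forall_compl_eq_zero
      intro x hx; simp [hzero x hx]
    rw [e4 (fun x => G x v), e4 (fun x => H x v)] at e3
    simp only [Pi.sub_apply, smul_sub]
    rw [integral_sub (hi _ hGv) (hi _ hfv), e3, sub_self]
  rw [ae_restrict_iff' hΩ.measurableSet]
  have hall : ∀ᵐ x ∂(volume : Measure (Eu n)), ∀ i : Fin n,
      x ∈ Ω → G x (EuclideanSpace.single i 1) - H x (EuclideanSpace.single i 1) = 0 :=
    ae_all_iff.mpr fun i => key _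
  filter_upwards [hall] with x hx hxΩ
  apply ContinuousLinearMap.coe_injective
  apply (EuclideanSpace.basisFun (Fin n) ℝ).toBasis.ext
  intro i
  have := hx i hxΩ
  simpa [sub_eq_zero] using this

end uniq

variable {m : ℕ}

/-- projection to the first two coordinates -/
def Pm (m : ℕ) : Eu (m + 2) →L[ℝ] ℝ × ℝ :=
  (EuclideanSpace.proj (0 : Fin (m + 2))).prod (EuclideanSpace.proj (1 : Fin (m + 2)))

lemma Pm_apply (x : Eu (m + 2)) : Pm m x = (x 0, x 1) := rfl

/-- inclusion of the first two coordinates -/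
def im (m : ℕ) : ℝ × ℝ →L[ℝ] Eu (m + 2) :=
  (ContinuousLinearMap.fst ℝ ℝ ℝ).smulRight (EuclideanSpace.single 0 1) +
    (ContinuousLinearMap.snd ℝ ℝ ℝ).smulRight (EuclideanSpace.single 1 1)

lemma im_apply (p : ℝ × ℝ) (i : Fin (m + 2)) :
    (im m p) i = if i = 0 then p.1 else if i = 1 then p.2 else 0 := by
  unfold im
  by_cases h0 : i = 0
  · subst h0; simp
  · by_cases h1 : i = 1
    · subst h1; simp
    · simp [h0, h1]

lemma Pm_im (p : ℝ × ℝ) : Pm m (im m p) = p := by
  rw [Pm_apply, im_apply, im_apply]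
  simp

lemma norm_Pm_le (x : Eu (m + 2)) : ‖Pm m x‖ ≤ ‖x‖ := by
  rw [Pm_apply, Prod.norm_def]
  exact max_le (PiLp.norm_apply_le x 0) (PiLp.norm_apply_le x 1)

lemma norm_im_le (p : ℝ × ℝ) : ‖im m p‖ ≤ 2 * ‖p‖ := by
  have h1 : im m p = p.1 • EuclideanSpace.single 0 1 + p.2 • EuclideanSpace.single 1 1 := rfl
  rw [h1]
  have h2 : ‖p.1‖ ≤ ‖p‖ := norm_fst_le p
  have h3 : ‖p.2‖ ≤ ‖p‖ := norm_snd_le p
  calc ‖p.1 • EuclideanSpace.single (0 : Fin (m + 2)) (1 : ℝ) + p.2 • EuclideanSpace.single 1 1‖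
      ≤ ‖p.1 • EuclideanSpace.single (0 : Fin (m + 2)) (1 : ℝ)‖ +
        ‖p.2 • EuclideanSpace.single (1 : Fin (m + 2)) (1 : ℝ)‖ := norm_add_le _ _
    _ = ‖p.1‖ + ‖p.2‖ := by rw [norm_smul, norm_smul]; simp
    _ ≤ 2 * ‖p‖ := by linarith

/-- acting on the first two coordinates -/
def lift (A : ℝ × ℝ → ℝ × ℝ) (x : Eu (m + 2)) : Eu (m + 2) := x + im m (A (Pm m x) - Pm m x)

lemma Pm_lift (A : ℝ × ℝ → ℝ × ℝ) (x : Eu (m + 2)) : Pm m (lift A x) = A (Pm m x) := by
  unfold lift
  rw [map_add, Pm_im]; abel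

lemma lift_apply (A : ℝ × ℝ → ℝ × ℝ) (x : Eu (m + 2)) {i : Fin (m + 2)} (hi : 2 ≤ (i : ℕ)) :
    (lift A x) i = x i := by
  unfold lift
  have h0 : i ≠ 0 := by rintro rfl; simp at hi
  have h1 : i ≠ 1 := by
    rintro rfl
    simp at hi
  simp [im_apply, h0, h1]

lemma lift_lift {A B : ℝ × ℝ → ℝ × ℝ} {x : Eu (m + 2)} (h : B (A (Pm m x)) = Pm m x) :
    lift B (lift A x) = x := by
  have h1 := Pm_lift A x
  unfold lift at h1 ⊢
  rw [h1, h, map_sub, map_sub]; abel

/-- cylinder -/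
def cyl (m : ℕ) (U : Set (ℝ × ℝ)) : Set (Eu (m + 2)) :=
  {x | Pm m x ∈ U ∧ ∀ i : Fin (m + 2), 2 ≤ (i : ℕ) → 0 < x i ∧ x i < 1}

lemma cyl_isOpen {U : Set (ℝ × ℝ)} (hU : IsOpen U) : IsOpen (cyl m U) := by
  have h1 : IsOpen {x : Eu (m + 2) | Pm m x ∈ U} := hU.preimage (Pm m).continuous
  have h2 : IsOpen {x : Eu (m + 2) | ∀ i : Fin (m + 2), 2 ≤ (i : ℕ) → 0 < x i ∧ x i < 1} := by
    have : {x : Eu (m + 2) | ∀ i : Fin (m + 2), 2 ≤ (i : ℕ) → 0 < x i ∧ x i < 1} =
        ⋂ i : Fin (m + 2), {x : Eu (m + 2) | 2 ≤ (i : ℕ) → 0 < x i ∧ x i < 1} := by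
      ext x; simp
    rw [this]
    apply isOpen_iInter_of_finite
    intro i
    by_cases hi : 2 ≤ (i : ℕ)
    · simp only [hi, true_imp_iff]
      have a1 : IsOpen {x : Eu (m + 2) | 0 < x i} := isOpen_lt continuous_const (by fun_prop)
      have a2 : IsOpen {x : Eu (m + 2) | x i < 1} := isOpen_lt (by fun_prop) continuous_const
      exact a1.inter a2
    · simp [hi]
  exact h1.inter h2

lemma cyl_mono {U V : Set (ℝ × ℝ)} (h : U ⊆ V) : cyl m U ⊆ cyl m V := fun _ hx => ⟨h hx.1, hx.2⟩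

lemma norm_le_of_coord {x : Eu (m + 2)} {C : ℝ} (hC : 0 ≤ C) (h : ∀ i, |x i| ≤ C) :
    ‖x‖ ≤ Real.sqrt (m + 2) * C := by
  rw [EuclideanSpace.norm_eq]
  calc √(∑ i, ‖x i‖ ^ 2) ≤ √(∑ _i : Fin (m + 2), C ^ 2) := by
        apply Real.sqrt_le_sqrt
        apply Finset.sum_le_sum
        intro i _
        have := h i
        rw [Real.norm_eq_abs]
        gcongr
    _ = Real.sqrt (m + 2) * C := by
        rw [Finset.sum_const, Finset.card_univ, Fintype.card_fin, nsmul_eq_mul,
          Real.sqrt_mul (by positivity), Real.sqrt_sq hC]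
        push_cast; rfl

lemma cyl_coord {U : Set (ℝ × ℝ)} {C : ℝ} (hC : 1 ≤ C) (hU : ∀ p ∈ U, ‖p‖ ≤ C) {x : Eu (m + 2)}
    (hx : x ∈ cyl m U) (i : Fin (m + 2)) : |x i| ≤ C := by
  have h1 := hU _ hx.1
  rw [Pm_apply, Prod.norm_def] at h1
  by_cases hi : 2 ≤ (i : ℕ)
  · have := hx.2 i hi
    rw [abs_le]; constructor <;> linarith
  · have h2 : i = 0 ∨ i = 1 := by
      rcases i with ⟨i, hi'⟩
      simp only [not_le] at hi
      interval_cases i
      · left; rfl
      · right; rfl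
    rcases h2 with rfl | rfl
    · exact (le_max_left _ _).trans h1
    · exact (le_max_right _ _).trans h1

lemma cyl_bdd {U : Set (ℝ × ℝ)} {C : ℝ} (hC : 1 ≤ C) (hU : ∀ p ∈ U, ‖p‖ ≤ C) :
    ∀ x ∈ cyl m U, ‖x‖ ≤ Real.sqrt (m + 2) * C := fun _ hx =>
  norm_le_of_coord (by linarith) fun i => cyl_coord hC hU hx i

lemma lift_mapsTo {A : ℝ × ℝ → ℝ × ℝ} {U V : Set (ℝ × ℝ)} (h : MapsTo A U V) :
    MapsTo (lift A) (cyl m U) (cyl m V) := by
  intro x hx
  refine ⟨?_, ?_⟩
  · rw [Pm_lift]; exact h hx.1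
  · intro i hi
    rw [lift_apply A x hi]; exact hx.2 i hi

lemma lift_continuousOn {A : ℝ × ℝ → ℝ × ℝ} {U : Set (ℝ × ℝ)} (h : ContinuousOn A U) :
    ContinuousOn (lift A) (cyl m U) := by
  unfold lift
  apply continuousOn_id.add
  apply (im m).continuous.comp_continuousOn
  apply ContinuousOn.sub _ (Pm m).continuous.continuousOn
  exact h.comp (Pm m).continuous.continuousOn fun x hx => hx.1

lemma lift_isHomeo {A B : ℝ × ℝ → ℝ × ℝ} {U V : Set (ℝ × ℝ)} (hA : MapsTo A U V) (hB : MapsTo B V U)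
    (hBA : ∀ p ∈ U, B (A p) = p) (hAB : ∀ q ∈ V, A (B q) = q) (hAc : ContinuousOn A U)
    (hBc : ContinuousOn B V) : IsHomeo (cyl m U) (cyl m V) (lift A) := by
  have hinv : InvOn (lift B) (lift A) (cyl m U) (cyl m V) :=
    ⟨fun x hx => lift_lift (hBA _ hx.1), fun x hx => lift_lift (hAB _ hx.1)⟩
  exact ⟨hinv.bijOn (lift_mapsTo hA) (lift_mapsTo hB), lift_continuousOn hAc,
    lift B, hinv, lift_continuousOn hBc⟩

lemma lift_locLip {A : ℝ × ℝ → ℝ × ℝ} {U : Set (ℝ × ℝ)}
    (h : ∀ p ∈ U, ∃ s ∈ 𝓝 p, LipschitzOnWith 15 A s) : LocLip 33 (cyl m U) (lift A) := by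
  intro x hx
  obtain ⟨s, hs, hl⟩ := h _ hx.1
  refine ⟨Pm m ⁻¹' s, (Pm m).continuous.continuousAt.preimage_mem_nhds hs, ?_⟩
  apply LipschitzOnWith.of_dist_le_mul
  intro y hy z hz
  rw [dist_eq_norm, dist_eq_norm]
  have h1 : lift A y - lift A z = (y - z) + im m ((A (Pm m y) - A (Pm m z)) - Pm m (y - z)) := by
    unfold lift
    rw [map_sub, map_sub, map_sub, map_sub, map_sub, map_sub]; abel
  have h2 : ‖A (Pm m y) - A (Pm m z)‖ ≤ 15 * ‖y - z‖ := by
    have := hl.dist_le_mul _ hy _ hz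
    rw [dist_eq_norm, dist_eq_norm, ← map_sub] at this
    calc _ ≤ _ := this
      _ ≤ (15 : ℝ) * ‖y - z‖ := by
        push_cast
        gcongr; exact norm_Pm_le _
  rw [h1]
  calc ‖(y - z) + im m ((A (Pm m y) - A (Pm m z)) - Pm m (y - z))‖
      ≤ ‖y - z‖ + ‖im m ((A (Pm m y) - A (Pm m z)) - Pm m (y - z))‖ := norm_add_le _ _
    _ ≤ ‖y - z‖ + 2 * (15 * ‖y - z‖ + ‖y - z‖) := by
        have h3 := norm_im_le (m := m) ((A (Pm m y) - A (Pm m z)) - Pm m (y - z))
        have h4 := norm_sub_le (A (Pm m y) - A (Pm m z)) (Pm m (y - z))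
        have h5 := norm_Pm_le (y - z)
        linarith
    _ = (33 : ℝ≥0) * ‖y - z‖ := by push_cast; ring

/-- The maps. -/
def Fk (m k : ℕ) : Eu (m + 2) → Eu (m + 2) := lift (Gm (phi (ep k)))
def Flim (m : ℕ) : Eu (m + 2) → Eu (m + 2) := lift (Gm (phi 0))

lemma Gm_continuousOn {φ : ℝ → ℝ} (hφ : GoodPhi φ) : ContinuousOn (Gm φ) Om := by
  intro p hp
  obtain ⟨s, hs, hl⟩ := Gm_locLip hφ hp
  exact ((hl.continuousOn).continuousAt hs).continuousWithinAt

lemma Fk_isHomeo (k : ℕ) : IsHomeo (cyl m Om) (cyl m Om') (Fk m k) := by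
  refine lift_isHomeo (B := fun q => (psi' (ep k) (Ti q).1, (Ti q).2)) ?_ ?_ ?_ ?_
    (Gm_continuousOn (goodPhi_ep k)) ?_
  · intro p hp
    exact Th_mapsTo (Phi_mapsTo k hp)
  · intro q hq
    exact Psi_mapsTo k (Ti_mapsTo hq)
  · intro p hp
    have h1 := Ti_Th (Phi_mapsTo k hp)
    simp only at h1
    unfold Gm
    rw [h1]
    simp only
    rw [psi_phi (ep_pos k)]
  · intro q hq
    unfold Gm
    simp only
    rw [phi_psi (ep_pos k)]
    exact Th_Ti hq
  · have h1 : Continuous (fun p : ℝ × ℝ => (psi' (ep k) p.1, p.2)) := by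
      unfold psi'
      simp only [div_eq_mul_inv]
      fun_prop
    exact h1.comp_continuousOn Ti_continuousOn

lemma Fk_locLip (k : ℕ) : LocLip 33 (cyl m Om) (Fk m k) :=
  lift_locLip fun _ hp => Gm_locLip (goodPhi_ep k) hp

lemma Flim_locLip : LocLip 33 (cyl m Om) (Flim m) :=
  lift_locLip fun _ hp => Gm_locLip goodPhi_zero hp

lemma Om_norm {p : ℝ × ℝ} (hp : p ∈ Om) : ‖p‖ ≤ 1 := by
  have h1 := Om_fst hp
  have h2 := Om_snd hp
  rw [Prod.norm_def]
  apply max_le
  · rw [Real.norm_eq_abs, abs_le]; constructor <;> linarith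
  · rw [Real.norm_eq_abs, abs_le]; constructor <;> linarith

lemma goodPhi_id : GoodPhi id := by
  refine ⟨?_, fun x h0 h1 => ⟨h0.le, h1.le⟩, fun w => ⟨siz w, (siz_pos w).le, by linarith [siz_le w],
    fun x hx => ell_eq hx⟩⟩
  exact LipschitzWith.id.weaken (by norm_num)

lemma Om'_norm {q : ℝ × ℝ} (hq : q ∈ Om') : ‖q‖ ≤ 5 := by
  have h1 := Gm_bound goodPhi_id (Ti_mapsTo hq)
  have h2 : Gm id (Ti q) = q := by
    unfold Gm
    exact Th_Ti hq
  rwa [h2] at h1

lemma cylOm_bdd : Bornology.IsBounded (cyl m Om) := by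
  apply (Metric.isBounded_closedBall (x := (0 : Eu (m + 2))) (r := Real.sqrt (m + 2) * 1)).subset
  intro x hx
  rw [mem_closedBall_zero_iff]
  exact cyl_bdd le_rfl (fun p hp => Om_norm hp) x hx

lemma cylOm'_bdd : Bornology.IsBounded (cyl m Om') := by
  apply (Metric.isBounded_closedBall (x := (0 : Eu (m + 2))) (r := Real.sqrt (m + 2) * 5)).subset
  intro x hx
  rw [mem_closedBall_zero_iff]
  exact cyl_bdd (by norm_num) (fun p hp => Om'_norm hp) x hx

lemma lift_bound {A : ℝ × ℝ → ℝ × ℝ} (hA : ∀ p ∈ Om, ‖A p‖ ≤ 5) :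
    ∀ x ∈ cyl m Om, ‖lift A x‖ ≤ Real.sqrt (m + 2) * 5 := by
  intro x hx
  have : MapsTo A Om {q | ‖q‖ ≤ 5} := hA
  exact cyl_bdd (by norm_num) (fun p hp => hp) _ (lift_mapsTo this hx)

lemma Fk_tendsto {x : Eu (m + 2)} (hx : x ∈ cyl m Om) :
    Tendsto (fun k => Fk m k x) atTop (𝓝 (Flim m x)) := by
  unfold Fk Flim lift
  apply tendsto_const_nhds.add
  apply ((im m).continuous.tendsto _).comp
  exact (Gm_tendsto hx.1).sub_const _

lemma Flim_mem_weak (p : ℝ≥0∞) : Flim m ∈ weakClosureHom p (cyl m Om) (cyl m Om') := by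
  have hopen : IsOpen (cyl m Om) := cyl_isOpen Om_isOpen
  have hfin : volume (cyl m Om) ≠ ⊤ := cylOm_bdd.measure_lt_top.ne
  have hF : ∀ k, ∀ x ∈ cyl m Om, ‖Fk m k x‖ ≤ Real.sqrt (m + 2) * 5 := fun k =>
    lift_bound fun p hp => Gm_bound (goodPhi_ep k) hp
  have hf : ∀ x ∈ cyl m Om, ‖Flim m x‖ ≤ Real.sqrt (m + 2) * 5 :=
    lift_bound fun p hp => Gm_bound goodPhi_zero hp
  refine ⟨?_, fderiv ℝ (Flim m), Fk m, fun k => fderiv ℝ (Fk m k), ?_, ?_, ?_⟩
  · filter_upwards [ae_restrict_mem hopen.measurableSet] with x hx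
    apply mem_closure_of_tendsto (Fk_tendsto hx)
    filter_upwards with k
    exact (Fk_isHomeo k).1.mapsTo hx
  · exact Flim_locLip.isSobolev hopen hfin hf p
  · exact fun k => ⟨Fk_isHomeo k, (Fk_locLip k).isSobolev hopen hfin (hF k) p⟩
  · exact weakConv_of_locLip hopen hfin Fk_locLip Flim_locLip hF hf fun x hx => Fk_tendsto hx

end lifts

section s0


variable {m : ℕ}

/-- a continuous curve in the union of the mouths stays in one of them -/
lemma const_index {a b : ℝ} (hab : a ≤ b) {x : ℝ → ℝ} (hx : ContinuousOn x (Icc a b))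
    (h : ∀ s ∈ Icc a b, ∃ w, |x s - ctr w| < siz w) : ∃ w, ∀ s ∈ Icc a b, |x s - ctr w| < siz w := by
  obtain ⟨w, hw⟩ := h a (left_mem_Icc.mpr hab)
  refine ⟨w, fun s hs => ?_⟩
  by_contra hcon
  push Not at hcon
  have hc : ContinuousOn (fun s => |x s - ctr w|) (Icc a s) :=
    ((hx.mono (Icc_subset_Icc_right hs.2)).sub continuousOn_const).abs
  have h0 := siz_pos w
  have hbig : 5 * siz w < |x s - ctr w| := by
    obtain ⟨w', hw'⟩ := h s hs
    by_contra hle
    push Not at hle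
    have := gap_disj w w' (x s) hle (by linarith [siz_pos w'])
    subst this
    linarith
  have := intermediate_value_Icc hs.1 hc
  obtain ⟨r, hr, hre⟩ := this (show 2 * siz w ∈ Icc (|x a - ctr w|) (|x s - ctr w|) from
    ⟨by linarith, by linarith⟩)
  obtain ⟨w', hw'⟩ := h r ⟨hr.1, hr.2.trans hs.2⟩
  simp only at hre
  have := gap_disj w w' (x r) (by linarith) (by linarith [siz_pos w'])
  subst this
  linarith

/-- an interval of length at least `2π` contains a point where the sine is a given extreme value -/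
lemma exists_angle {a b c : ℝ} (h : 2 * Real.pi ≤ b - a) :
    ∃ j : ℤ, a ≤ c + j * (2 * Real.pi) ∧ c + j * (2 * Real.pi) ≤ b := by
  have hpi := Real.pi_pos
  refine ⟨⌈(a - c) / (2 * Real.pi)⌉, ?_, ?_⟩
  · have := Int.le_ceil ((a - c) / (2 * Real.pi))
    rw [div_le_iff₀ (by positivity)] at this
    linarith
  · have := Int.ceil_lt_add_one ((a - c) / (2 * Real.pi))
    have h1 : (⌈(a - c) / (2 * Real.pi)⌉ : ℝ) * (2 * Real.pi) < ((a - c) / (2 * Real.pi) + 1) * (2 * Real.pi) := by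
      gcongr
    have h2 : ((a - c) / (2 * Real.pi) + 1) * (2 * Real.pi) = a - c + 2 * Real.pi := by
      field_simp
    linarith

/-- one period of the zigzag is long -/
lemma one_period {a b : ℝ} (hab : a ≤ b) {l c : ℝ} (hl : 0 < l) {x z V : ℝ → ℝ}
    (hz : ContinuousOn z (Icc a b)) (hx : ∀ s ∈ Icc a b, |x s - c| < l)
    (hV : ∀ s ∈ Icc a b, ∀ t ∈ Icc a b, s ≤ t →
      |(x t + 4 * l * Real.sin (z t / l)) - (x s + 4 * l * Real.sin (z s / l))| ≤ V t - V s)
    (hlen : 2 * Real.pi * l ≤ |z b - z a|) : 6 * l ≤ V b - V a := by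
  have hmono : ∀ s ∈ Icc a b, ∀ t ∈ Icc a b, s ≤ t → V s ≤ V t := by
    intro s hs t ht hst
    have := (abs_nonneg _).trans (hV s hs t ht hst)
    linarith
  have hθ : ContinuousOn (fun s => z s / l) (Icc a b) := hz.div_const l
  have hsurj : ∀ y, (min (z a / l) (z b / l) ≤ y) → y ≤ max (z a / l) (z b / l) →
      ∃ s ∈ Icc a b, z s / l = y := by
    intro y h1 h2
    rcases le_total (z a / l) (z b / l) with h | h
    · rw [min_eq_left h] at h1
      rw [max_eq_right h] at h2
      exact intermediate_value_Icc hab hθ ⟨h1, h2⟩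
    · rw [min_eq_right h] at h1
      rw [max_eq_left h] at h2
      exact intermediate_value_Icc' hab hθ ⟨h1, h2⟩
  have hlen2 : 2 * Real.pi ≤ max (z a / l) (z b / l) - min (z a / l) (z b / l) := by
    rw [max_sub_min_eq_abs, ← sub_div, abs_div, abs_of_pos hl, le_div_iff₀ hl]
    exact hlen
  obtain ⟨j, hj1, hj2⟩ := exists_angle (c := Real.pi / 2) hlen2
  obtain ⟨j', hj1', hj2'⟩ := exists_angle (c := -(Real.pi / 2)) hlen2
  obtain ⟨s, hs, hse⟩ := hsurj _ hj1 hj2
  obtain ⟨t, ht, hte⟩ := hsurj _ hj1' hj2'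
  have e1 : Real.sin (z s / l) = 1 := by
    rw [hse, Real.sin_add_int_mul_two_pi, Real.sin_pi_div_two]
  have e2 : Real.sin (z t / l) = -1 := by
    rw [hte, Real.sin_add_int_mul_two_pi, Real.sin_neg, Real.sin_pi_div_two]
  have hxs := abs_lt.mp (hx s hs)
  have hxt := abs_lt.mp (hx t ht)
  have ha : a ∈ Icc a b := left_mem_Icc.mpr hab
  have hb : b ∈ Icc a b := right_mem_Icc.mpr hab
  rcases le_total s t with h | h
  · have h1 := hV s hs t ht h
    rw [e1, e2] at h1
    have h2 := (neg_abs_le _).trans' (neg_le_neg h1)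
    have h3 := hmono a ha s hs hs.1
    have h4 := hmono t ht b hb ht.2
    linarith
  · have h1 := hV t ht s hs h
    rw [e1, e2] at h1
    have h2 := (le_abs_self _).trans h1
    have h3 := hmono a ha t ht ht.1
    have h4 := hmono s hs b hb hs.2
    linarith

lemma many_periods {l c : ℝ} (hl : 0 < l) {x z V : ℝ → ℝ} (N : ℕ) : ∀ {a b : ℝ}, a ≤ b →
    ContinuousOn z (Icc a b) → (∀ s ∈ Icc a b, |x s - c| < l) →
    (∀ s ∈ Icc a b, ∀ t ∈ Icc a b, s ≤ t →
      |(x t + 4 * l * Real.sin (z t / l)) - (x s + 4 * l * Real.sin (z s / l))| ≤ V t - V s) →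
    2 * Real.pi * l * N ≤ |z b - z a| → 6 * l * N ≤ V b - V a := by
  induction N with
  | zero =>
    intro a b hab _ _ hV _
    have := (abs_nonneg _).trans (hV a (left_mem_Icc.mpr hab) b (right_mem_Icc.mpr hab) hab)
    simpa using this
  | succ N ih =>
    intro a b hab hz hx hV hlen
    have hpi := Real.pi_pos
    push_cast at hlen ⊢
    -- intermediate time
    obtain ⟨s, hs, hs1, hs2⟩ : ∃ s ∈ Icc a b, 2 * Real.pi * l * N ≤ |z s - z a| ∧
        2 * Real.pi * l ≤ |z b - z s| := by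
      have hN : 0 ≤ 2 * Real.pi * l * N := by positivity
      have h2 : 0 < 2 * Real.pi * l := by positivity
      rcases le_total (z a) (z b) with h | h
      · rw [abs_of_nonneg (by linarith)] at hlen
        obtain ⟨s, hs, hse⟩ := intermediate_value_Icc hab hz
          (show z a + 2 * Real.pi * l * N ∈ Icc (z a) (z b) from ⟨by linarith, by nlinarith⟩)
        refine ⟨s, hs, ?_, ?_⟩
        · rw [hse, add_sub_cancel_left, abs_of_nonneg hN]
        · rw [hse]
          apply le_trans _ (le_abs_self _)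
          nlinarith
      · rw [abs_sub_comm, abs_of_nonneg (by linarith)] at hlen
        obtain ⟨s, hs, hse⟩ := intermediate_value_Icc' hab hz
          (show z a - 2 * Real.pi * l * N ∈ Icc (z b) (z a) from ⟨by nlinarith, by linarith⟩)
        refine ⟨s, hs, ?_, ?_⟩
        · rw [hse, sub_sub_cancel_left, abs_neg, abs_of_nonneg hN]
        · rw [hse, abs_sub_comm]
          apply le_trans _ (le_abs_self _)
          nlinarith
    have k1 := ih hs.1 (hz.mono (Icc_subset_Icc_right hs.2))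
      (fun r hr => hx r ⟨hr.1, hr.2.trans hs.2⟩)
      (fun r hr t ht => hV r ⟨hr.1, hr.2.trans hs.2⟩ t ⟨ht.1, ht.2.trans hs.2⟩) hs1
    have k2 := one_period hs.2 hl (hz.mono (Icc_subset_Icc_left hs.1))
      (fun r hr => hx r ⟨hs.1.trans hr.1, hr.2⟩)
      (fun r hr t ht => hV r ⟨hs.1.trans hr.1, hr.2⟩ t ⟨hs.1.trans ht.1, ht.2⟩) hs2
    linarith

lemma crossing {a b : ℝ} (hab : a ≤ b) {p : ℝ → ℝ × ℝ} (hp : ContinuousOn p (Icc a b))
    (hpO : ∀ s ∈ Icc a b, p s ∈ Om) (hneg : ∀ s ∈ Icc a b, (p s).2 < 0) {V : ℝ → ℝ}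
    (hV : ∀ s ∈ Icc a b, ∀ t ∈ Icc a b, s ≤ t → ‖Th (p t) - Th (p s)‖ ≤ V t - V s)
    (hlen : 4 / 5 ≤ |(p b).2 - (p a).2|) : 1 / 2 < V b - V a := by
  obtain ⟨w, hw⟩ := const_index hab (x := fun s => (p s).1) (continuous_fst.comp_continuousOn hp) (by
    intro s hs
    obtain ⟨w, hw⟩ := Om_nonpos (hpO s hs) (hneg s hs).le
    exact ⟨w, hw.1⟩)
  have hl := siz_pos w
  have hl1 := siz_le w
  have hTh : ∀ s ∈ Icc a b, (Th (p s)).1 = (p s).1 + 4 * siz w * Real.sin ((p s).2 / siz w) := by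
    intro s hs
    rw [(Th_tower (hw s hs)).1]
    unfold th
    simp only [min_eq_left (hneg s hs).le]
  have key := many_periods (V := V) hl ⌊(4 / 5) / (2 * Real.pi * siz w)⌋₊ hab (z := fun s => (p s).2)
    (continuous_snd.comp_continuousOn hp) hw (by
      intro s hs t ht hst
      rw [← hTh s hs, ← hTh t ht, ← Prod.fst_sub]
      exact (norm_fst_le _).trans (hV s hs t ht hst)) (by
      have hpos : 0 < 2 * Real.pi * siz w := by positivity
      have := Nat.floor_le (show 0 ≤ (4 / 5) / (2 * Real.pi * siz w) by positivity)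
      rw [le_div_iff₀ hpos] at this
      linarith)
  have h1 := Nat.lt_floor_add_one ((4 / 5) / (2 * Real.pi * siz w))
  have hpi := Real.pi_lt_d2
  have hpi0 := Real.pi_pos
  have h2 : (4 / 5) / (2 * Real.pi * siz w) * (6 * siz w) = 12 / 5 / Real.pi := by
    field_simp; ring
  have h3 : 12 / 5 / Real.pi > 0.75 := by
    rw [gt_iff_lt, lt_div_iff₀ hpi0]; linarith
  have h4 : (4 / 5) / (2 * Real.pi * siz w) * (6 * siz w) <
      ((⌊(4 / 5) / (2 * Real.pi * siz w)⌋₊ : ℝ) + 1) * (6 * siz w) := by gcongr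
  rw [h2] at h4
  nlinarith

/-- a short curve does not go through a leg of a tower -/
lemma dichotomy {p : ℝ → ℝ × ℝ} (hp : ContinuousOn p (Icc 0 4)) (hpO : ∀ s ∈ Icc (0 : ℝ) 4, p s ∈ Om)
    {V : ℝ → ℝ} (hV : ∀ s ∈ Icc (0 : ℝ) 4, ∀ t ∈ Icc (0 : ℝ) 4, s ≤ t → ‖Th (p t) - Th (p s)‖ ≤ V t - V s)
    (hsmall : V 4 - V 0 < 1 / 2) :
    (∀ s ∈ Icc (0 : ℝ) 4, -(9 / 10) < (p s).2) ∨ (∀ s ∈ Icc (0 : ℝ) 4, (p s).2 < -(1 / 10)) := by
  by_contra hcon
  push Not at hcon
  obtain ⟨⟨s1, hs1, h1⟩, ⟨s2, hs2, h2⟩⟩ := hcon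
  have hmono : ∀ s ∈ Icc (0 : ℝ) 4, ∀ t ∈ Icc (0 : ℝ) 4, s ≤ t → V s ≤ V t := by
    intro s hs t ht hst
    have := (norm_nonneg _).trans (hV s hs t ht hst)
    linarith
  have hz : ContinuousOn (fun s => (p s).2) (Icc 0 4) := continuous_snd.comp_continuousOn hp
  have h04 : (0 : ℝ) ∈ Icc (0 : ℝ) 4 := by norm_num
  have h44 : (4 : ℝ) ∈ Icc (0 : ℝ) 4 := by norm_num
  rcases le_total s1 s2 with h | h
  · have hsub : Icc s1 s2 ⊆ Icc 0 4 := Icc_subset_Icc hs1.1 hs2.2
    have hS : IsCompact (Icc s1 s2 ∩ (fun s => (p s).2) ⁻¹' Ici (-(1 / 10))) :=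
      isCompact_Icc.of_isClosed_subset
        ((hz.mono hsub).preimage_isClosed_of_isClosed isClosed_Icc isClosed_Ici) inter_subset_left
    obtain ⟨b, ⟨hb, hbz⟩, hbl⟩ := hS.exists_isLeast ⟨s2, right_mem_Icc.mpr h, h2⟩
    have hbz' : -(1 / 10) ≤ (p b).2 := hbz
    have hlt : ∀ s ∈ Icc s1 b, s < b → (p s).2 < -(1 / 10) := by
      intro s hs hsb
      by_contra hge
      push Not at hge
      exact absurd (hbl ⟨⟨hs.1, hs.2.trans hb.2⟩, hge⟩) (not_le.mpr hsb)
    have hbe : (p b).2 ≤ -(1 / 10) := by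
      by_contra hgt
      push Not at hgt
      obtain ⟨r, hr, hre⟩ := intermediate_value_Icc hb.1
        (hz.mono ((Icc_subset_Icc_right hb.2).trans hsub))
        (show -(1 / 10) ∈ Icc ((p s1).2) ((p b).2) from ⟨by linarith, hgt.le⟩)
      simp only at hre
      rcases hr.2.eq_or_lt with h' | h'
      · rw [h'] at hre; linarith
      · have := hlt r hr h'; linarith
    have hsub2 : Icc s1 b ⊆ Icc 0 4 := (Icc_subset_Icc_right hb.2).trans hsub
    have := crossing hb.1 (hp.mono hsub2) (fun s hs => hpO s (hsub2 hs)) (by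
      intro s hs
      rcases hs.2.eq_or_lt with h' | h'
      · rw [h']; linarith
      · have := hlt s hs h'; linarith)
      (fun s hs t ht => hV s (hsub2 hs) t (hsub2 ht)) (by
        rw [abs_of_nonneg] <;> linarith)
    have a1 := hmono 0 h04 s1 hs1 hs1.1
    have a2 := hmono b (hsub hb) 4 h44 (hsub hb).2
    linarith
  · have hsub : Icc s2 s1 ⊆ Icc 0 4 := Icc_subset_Icc hs2.1 hs1.2
    have hS : IsCompact (Icc s2 s1 ∩ (fun s => (p s).2) ⁻¹' Ici (-(1 / 10))) :=
      isCompact_Icc.of_isClosed_subset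
        ((hz.mono hsub).preimage_isClosed_of_isClosed isClosed_Icc isClosed_Ici) inter_subset_left
    obtain ⟨b, ⟨hb, hbz⟩, hbl⟩ := hS.exists_isGreatest ⟨s2, left_mem_Icc.mpr h, h2⟩
    have hbz' : -(1 / 10) ≤ (p b).2 := hbz
    have hlt : ∀ s ∈ Icc b s1, b < s → (p s).2 < -(1 / 10) := by
      intro s hs hsb
      by_contra hge
      push Not at hge
      exact absurd (hbl ⟨⟨hb.1.trans hs.1, hs.2⟩, hge⟩) (not_le.mpr hsb)
    have hbe : (p b).2 ≤ -(1 / 10) := by
      by_contra hgt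
      push Not at hgt
      obtain ⟨r, hr, hre⟩ := intermediate_value_Icc' hb.2
        (hz.mono ((Icc_subset_Icc_left hb.1).trans hsub))
        (show -(1 / 10) ∈ Icc ((p s1).2) ((p b).2) from ⟨by linarith, hgt.le⟩)
      simp only at hre
      rcases hr.1.eq_or_lt with h' | h'
      · rw [← h'] at hre; linarith
      · have := hlt r hr h'; linarith
    have hsub2 : Icc b s1 ⊆ Icc 0 4 := (Icc_subset_Icc_left hb.1).trans hsub
    have := crossing hb.2 (hp.mono hsub2) (fun s hs => hpO s (hsub2 hs)) (by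
      intro s hs
      rcases hs.1.eq_or_lt with h' | h'
      · rw [← h']; linarith
      · have := hlt s hs h'; linarith)
      (fun s hs t ht => hV s (hsub2 hs) t (hsub2 ht)) (by
        rw [abs_sub_comm, abs_of_nonneg] <;> linarith)
    have a1 := hmono s1 hs1 4 h44 hs1.2
    have a2 := hmono 0 h04 b (hsub hb) (hsub hb).1
    linarith

/-- a point of the cylinder over `p` -/
def pt (m : ℕ) (p : ℝ × ℝ) : Eu (m + 2) :=
  WithLp.toLp 2 (fun i : Fin (m + 2) => if i = 0 then p.1 else if i = 1 then p.2 else 1 / 2)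

lemma pt_apply (p : ℝ × ℝ) (i : Fin (m + 2)) :
    (pt m p) i = if i = 0 then p.1 else if i = 1 then p.2 else 1 / 2 := rfl

lemma Pm_pt (p : ℝ × ℝ) : Pm m (pt m p) = p := by
  rw [Pm_apply, pt_apply, pt_apply]; simp

lemma pt_coord (p : ℝ × ℝ) {i : Fin (m + 2)} (hi : 2 ≤ (i : ℕ)) : (pt m p) i = 1 / 2 := by
  have h0 : i ≠ 0 := by rintro rfl; simp at hi
  have h1 : i ≠ 1 := by rintro rfl; simp at hi
  rw [pt_apply, if_neg h0, if_neg h1]

lemma im_coord (p : ℝ × ℝ) {i : Fin (m + 2)} (hi : 2 ≤ (i : ℕ)) : (im m p) i = 0 := by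
  have h0 : i ≠ 0 := by rintro rfl; simp at hi
  have h1 : i ≠ 1 := by rintro rfl; simp at hi
  rw [im_apply, if_neg h0, if_neg h1]

/-- a straight homotopy inside the cylinder over a set -/
lemma closedLog_straight {σ : ℝ → Eu (m + 2)} (hσ : ContinuousOn σ (Icc 0 4)) (h04 : σ 0 = σ 4)
    {Q : Eu (m + 2) → ℂ} (hQ : ContinuousOn Q (cyl m Om)) (hQ0 : ∀ x ∈ cyl m Om, Q x ≠ 0)
    (p : ℝ × ℝ)
    (hmem : ∀ s ∈ Icc (0 : ℝ) 4, ∀ u ∈ Icc (0 : ℝ) 1, (1 - u) • σ s + u • pt m p ∈ cyl m Om) :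
    ClosedLog (fun s => Q (σ s)) := by
  have h1 := closedLog_of_homotopy (fun r => Q ((1 - r.2) • σ r.1 + r.2 • pt m p)) (by
    apply hQ.comp _ (fun r hr => hmem r.1 hr.1 r.2 hr.2)
    have a1 : ContinuousOn (fun r : ℝ × ℝ => σ r.1) (Icc 0 4 ×ˢ Icc 0 1) :=
      hσ.comp continuous_fst.continuousOn fun r hr => hr.1
    have a2 : ContinuousOn (fun r : ℝ × ℝ => 1 - r.2) (Icc 0 4 ×ˢ Icc 0 1) := by fun_prop
    have a3 : ContinuousOn (fun r : ℝ × ℝ => r.2 • pt m p) (Icc 0 4 ×ˢ Icc 0 1) := by fun_prop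
    exact (a2.smul a1).add a3) (fun r hr => hQ0 _ (hmem r.1 hr.1 r.2 hr.2)) (fun u hu => by rw [h04]) (by
    simp only [sub_self, zero_smul, one_smul, zero_add]
    apply closedLog_const
    have := hQ0 _ (hmem 0 (by norm_num) 1 (by norm_num))
    simpa using this)
  simpa using h1

lemma closedLog_short {σ : ℝ → Eu (m + 2)} (hσ : ContinuousOn σ (Icc 0 4)) (h04 : σ 0 = σ 4)
    (hσO : ∀ s ∈ Icc (0 : ℝ) 4, σ s ∈ cyl m Om)
    {Q : Eu (m + 2) → ℂ} (hQ : ContinuousOn Q (cyl m Om)) (hQ0 : ∀ x ∈ cyl m Om, Q x ≠ 0)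
    (hd : (∀ s ∈ Icc (0 : ℝ) 4, -(9 / 10) < (Pm m (σ s)).2) ∨
      (∀ s ∈ Icc (0 : ℝ) 4, (Pm m (σ s)).2 < -(1 / 10))) :
    ClosedLog (fun s => Q (σ s)) := by
  have hz : ContinuousOn (fun s => (Pm m (σ s)).2) (Icc 0 4) :=
    continuous_snd.comp_continuousOn ((Pm m).continuous.comp_continuousOn hσ)
  rcases hd with hd | hd
  · -- push up into the hub
    set H : ℝ × ℝ → Eu (m + 2) := fun r => σ r.1 + im m (0, -(r.2 * min (Pm m (σ r.1)).2 0)) with hH
    have hPH : ∀ r, Pm m (H r) = ((Pm m (σ r.1)).1, (Pm m (σ r.1)).2 - r.2 * min (Pm m (σ r.1)).2 0) := by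
      intro r
      simp only [hH, map_add, Pm_im]
      ext <;> simp [sub_eq_add_neg]
    have hHc : ContinuousOn H (Icc 0 4 ×ˢ Icc 0 1) := by
      have a1 : ContinuousOn (fun r : ℝ × ℝ => σ r.1) (Icc 0 4 ×ˢ Icc 0 1) :=
        hσ.comp continuous_fst.continuousOn fun r hr => hr.1
      have a2 : ContinuousOn (fun r : ℝ × ℝ => (Pm m (σ r.1)).2) (Icc 0 4 ×ˢ Icc 0 1) :=
        hz.comp continuous_fst.continuousOn fun r hr => hr.1
      apply a1.add
      apply (im m).continuous.comp_continuousOn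
      apply ContinuousOn.prodMk continuousOn_const
      apply ContinuousOn.neg
      apply ContinuousOn.mul continuous_snd.continuousOn
      exact (continuous_id.min continuous_const).comp_continuousOn a2
    have hHO : ∀ r ∈ (Icc (0 : ℝ) 4) ×ˢ (Icc (0 : ℝ) 1), H r ∈ cyl m Om := by
      intro r hr
      have hs := hσO r.1 hr.1
      refine ⟨?_, ?_⟩
      · rw [hPH]
        rcases le_or_gt 0 (Pm m (σ r.1)).2 with h | h
        · rw [min_eq_right h, mul_zero, sub_zero]
          exact hs.1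
        · rw [min_eq_left h.le]
          obtain ⟨w, hw⟩ := Om_nonpos hs.1 h.le
          right
          rw [mem_iUnion]
          have h9 := hd r.1 hr.1
          have hr2 := hr.2
          have e : (Pm m (σ r.1)).2 - r.2 * (Pm m (σ r.1)).2 = (1 - r.2) * (Pm m (σ r.1)).2 := by ring
          rw [e]
          have hge : (Pm m (σ r.1)).2 ≤ (1 - r.2) * (Pm m (σ r.1)).2 := by nlinarith [hr2.1, hr2.2]
          have hle : (1 - r.2) * (Pm m (σ r.1)).2 ≤ 0 := by nlinarith [hr2.1, hr2.2]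
          refine ⟨w, hw.1, by simp only; linarith, by simp only; linarith, ?_⟩
          rintro ⟨k1, k2, k3⟩
          simp only at k1 k2 k3
          exact hw.2.2.2 ⟨k1, h9.le, by linarith⟩
      · intro i hi
        have : (H r) i = (σ r.1) i := by
          simp only [hH, PiLp.add_apply, im_coord _ hi, add_zero]
        rw [this]; exact hs.2 i hi
    have h1 := closedLog_of_homotopy (fun r => Q (H r)) (hQ.comp hHc hHO) (fun r hr => hQ0 _ (hHO r hr))
      (fun u hu => by simp only [hH, h04]) (by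
        apply closedLog_straight (σ := fun s => H (s, 1)) _ _ hQ hQ0 (1 / 2, 1 / 2)
        · intro s hs u hu
          have hs1 := hHO (s, 1) ⟨hs, by norm_num⟩
          rcases hu.1.eq_or_lt with h | h
          · rw [← h]; simpa using hs1
          · refine ⟨?_, ?_⟩
            · left
              rw [map_add, map_smul, map_smul, Pm_pt, hPH]
              have hs0 := hσO s hs
              have hx := Om_fst hs0.1
              have hz1 := Om_snd hs0.1
              have hmax : (Pm m (σ s)).2 - 1 * min (Pm m (σ s)).2 0 = max (Pm m (σ s)).2 0 := by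
                have := min_add_max (Pm m (σ s)).2 0; linarith
              have k0 : 0 ≤ max (Pm m (σ s)).2 0 := le_max_right _ _
              have k1 : max (Pm m (σ s)).2 0 < 1 := max_lt hz1.2 zero_lt_one
              simp only [hub, mem_ofPred_eq, Prod.fst_add, Prod.snd_add, Prod.smul_fst, Prod.smul_snd,
                smul_eq_mul, hmax]
              have hu2 := hu.2
              refine ⟨?_, ?_, ?_, ?_⟩ <;> nlinarith
            · intro i hi
              have k1 := hs1.2 i hi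
              simp only [PiLp.add_apply, PiLp.smul_apply, smul_eq_mul, pt_coord _ hi]
              have hu2 := hu.2
              constructor <;> nlinarith
        · exact hHc.comp (by fun_prop) fun s hs => ⟨hs, by norm_num⟩
        · simp only [hH, h04])
    have e0 : ∀ s, H (s, 0) = σ s := by
      intro s
      simp only [hH, zero_mul, neg_zero]
      rw [show ((0 : ℝ), (0 : ℝ)) = (0 : ℝ × ℝ) from rfl, map_zero, add_zero]
    simpa only [e0] using h1
  · -- push down
    obtain ⟨w, hw⟩ := const_index (by norm_num : (0:ℝ) ≤ 4) (x := fun s => (Pm m (σ s)).1)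
      (continuous_fst.comp_continuousOn ((Pm m).continuous.comp_continuousOn hσ)) (by
        intro s hs
        obtain ⟨w, hw⟩ := Om_nonpos (hσO s hs).1 (by linarith [hd s hs])
        exact ⟨w, hw.1⟩)
    have htow : ∀ s ∈ Icc (0 : ℝ) 4, Pm m (σ s) ∈ tower w := by
      intro s hs
      obtain ⟨w', hw'⟩ := Om_nonpos (hσO s hs).1 (by linarith [hd s hs])
      have := gap_disj w w' _ (by linarith [hw s hs, siz_pos w]) (by linarith [hw'.1, siz_pos w'] : |(Pm m (σ s)).1 - ctr w'| ≤ 5 * siz w')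
      rw [this]; exact hw'
    set H : ℝ × ℝ → Eu (m + 2) := fun r => σ r.1 + im m (0, r.2 * (-(19 / 20) - (Pm m (σ r.1)).2)) with hH
    have hPH : ∀ r, Pm m (H r) = ((Pm m (σ r.1)).1, (Pm m (σ r.1)).2 + r.2 * (-(19 / 20) - (Pm m (σ r.1)).2)) := by
      intro r
      simp only [hH, map_add, Pm_im]
      ext <;> simp
    have hHc : ContinuousOn H (Icc 0 4 ×ˢ Icc 0 1) := by
      have a1 : ContinuousOn (fun r : ℝ × ℝ => σ r.1) (Icc 0 4 ×ˢ Icc 0 1) :=
        hσ.comp continuous_fst.continuousOn fun r hr => hr.1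
      have a2 : ContinuousOn (fun r : ℝ × ℝ => (Pm m (σ r.1)).2) (Icc 0 4 ×ˢ Icc 0 1) :=
        hz.comp continuous_fst.continuousOn fun r hr => hr.1
      apply a1.add
      apply (im m).continuous.comp_continuousOn
      apply ContinuousOn.prodMk continuousOn_const
      apply ContinuousOn.mul continuous_snd.continuousOn
      exact continuousOn_const.sub a2
    have hHO : ∀ r ∈ (Icc (0 : ℝ) 4) ×ˢ (Icc (0 : ℝ) 1), H r ∈ cyl m Om ∧ Pm m (H r) ∈ tower w := by
      intro r hr
      have hs := hσO r.1 hr.1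
      have ht := htow r.1 hr.1
      have h1 := hd r.1 hr.1
      have hr2 := hr.2
      have hmem : Pm m (H r) ∈ tower w := by
        rw [hPH]
        have e : (Pm m (σ r.1)).2 + r.2 * (-(19 / 20) - (Pm m (σ r.1)).2) =
          (1 - r.2) * (Pm m (σ r.1)).2 + r.2 * (-(19 / 20)) := by ring
        rw [e]
        have l1 := ht.2.1
        have l2 := hr2.1
        have l3 := hr2.2
        refine ⟨ht.1, by simp only; nlinarith, by simp only; nlinarith, ?_⟩
        rintro ⟨k1, k2, k3⟩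
        simp only at k1 k2 k3
        apply ht.2.2.2
        refine ⟨k1, ?_, h1.le⟩
        by_contra hlt
        push Not at hlt
        nlinarith
      refine ⟨⟨Or.inr (mem_iUnion.mpr ⟨w, hmem⟩), ?_⟩, hmem⟩
      intro i hi
      have : (H r) i = (σ r.1) i := by
        simp only [hH, PiLp.add_apply, im_coord _ hi, add_zero]
      rw [this]; exact hs.2 i hi
    have h1 := closedLog_of_homotopy (fun r => Q (H r)) (hQ.comp hHc fun r hr => (hHO r hr).1)
      (fun r hr => hQ0 _ (hHO r hr).1)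
      (fun u hu => by simp only [hH, h04]) (by
        apply closedLog_straight (σ := fun s => H (s, 1)) _ _ hQ hQ0 (ctr w, -(19 / 20))
        · intro s hs u hu
          have hs1 := hHO (s, 1) ⟨hs, by norm_num⟩
          refine ⟨?_, ?_⟩
          · right
            rw [mem_iUnion]
            refine ⟨w, ?_⟩
            rw [map_add, map_smul, map_smul, Pm_pt, hPH]
            have k1 := hw s hs
            have k0 := siz_pos w
            have e1 : ((1 - u) • ((Pm m (σ s)).1, (Pm m (σ s)).2 + 1 * (-(19 / 20) - (Pm m (σ s)).2)) +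
              u • (ctr w, -(19 / 20 : ℝ))) = ((1 - u) * (Pm m (σ s)).1 + u * ctr w, -(19 / 20 : ℝ)) := by
              ext
              · simp
              · simp; ring
            rw [e1]
            have e2 : (1 - u) * (Pm m (σ s)).1 + u * ctr w - ctr w = (1 - u) * ((Pm m (σ s)).1 - ctr w) := by ring
            refine ⟨?_, by norm_num, by norm_num, ?_⟩
            · simp only
              rw [e2, abs_mul, abs_of_nonneg (by linarith [hu.2])]
              have := abs_nonneg ((Pm m (σ s)).1 - ctr w)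
              nlinarith [hu.1, hu.2]
            · rintro ⟨_, k2, _⟩
              norm_num at k2
          · intro i hi
            have k1 := hs1.1.2 i hi
            simp only [PiLp.add_apply, PiLp.smul_apply, smul_eq_mul, pt_coord _ hi]
            have hu1 := hu.1
            have hu2 := hu.2
            constructor <;> nlinarith
        · exact hHc.comp (by fun_prop) fun s hs => ⟨hs, by norm_num⟩
        · simp only [hH, h04])
    have e0 : ∀ s, H (s, 0) = σ s := by
      intro s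
      simp only [hH, zero_mul]
      rw [show ((0 : ℝ), (0 : ℝ)) = (0 : ℝ × ℝ) from rfl, map_zero, add_zero]
    simpa only [e0] using h1

end s0

section s1


variable {m : ℕ}

/-- clamping to `[-1,1]` -/
def c1 (t : ℝ) : ℝ := max (-1) (min t 1)

lemma c1_continuous : Continuous c1 := by unfold c1; fun_prop

lemma c1_of_le {t : ℝ} (h : t ≤ -1) : c1 t = -1 := by
  unfold c1; rw [min_eq_left (by linarith), max_eq_left h]

lemma c1_of_ge {t : ℝ} (h : 1 ≤ t) : c1 t = 1 := by
  unfold c1; rw [min_eq_right h, max_eq_right (by norm_num)]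

lemma c1_eq_zero {t : ℝ} (h : c1 t = 0) : t = 0 := by
  unfold c1 at h
  rcases le_total t (-1) with h1 | h1
  · rw [min_eq_left (by linarith), max_eq_left h1] at h; linarith
  · rcases le_total t 1 with h2 | h2
    · rw [min_eq_left h2, max_eq_right h1] at h; exact h
    · rw [min_eq_right h2, max_eq_right (by norm_num)] at h; linarith

/-- a function winding around the hole of the first tower -/
def qf (p : ℝ × ℝ) : ℂ := (c1 (120 * (p.1 - 1 / 2)) : ℂ) + (c1 (5 / 2 * (p.2 + 1 / 2)) : ℂ) * Complex.I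

lemma qf_continuous : Continuous qf := by
  have := c1_continuous
  unfold qf; fun_prop

lemma qf_ne {p : ℝ × ℝ} (hp : p ∈ Om) : qf p ≠ 0 := by
  intro h
  have h1 := congrArg Complex.re h
  have h2 := congrArg Complex.im h
  simp [qf] at h1 h2
  have h3 := c1_eq_zero h1
  have h4 := c1_eq_zero h2
  obtain ⟨w, hw⟩ := Om_nonpos hp (by linarith)
  have h5 : |p.1 - ctr []| ≤ 5 * siz [] := by
    simp only [ctr, siz]
    rw [abs_le]; constructor <;> linarith
  have := gap_disj [] w p.1 h5 (by linarith [hw.1, siz_pos w])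
  subst this
  apply hw.2.2.2
  simp only [ctr, siz]
  refine ⟨?_, by linarith, by linarith⟩
  rw [abs_le]; constructor <;> linarith

def W0 : Set (ℝ × ℝ) := tower [] ∩ {p | p.2 < 0}

lemma W0_isOpen : IsOpen W0 := (tower_isOpen []).inter (isOpen_lt continuous_snd continuous_const)

lemma W0_sub : W0 ⊆ Om := fun _ hp => Or.inr (mem_iUnion.mpr ⟨[], hp.1⟩)

def Bx : Set (ℝ × ℝ) := {p | |p.1 - (1 / 2 - 1 / 60)| < 1 / 240 ∧ |p.2 + 19 / 20| < 1 / 50}

lemma Bx_isOpen : IsOpen Bx := by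
  have h1 : IsOpen {p : ℝ × ℝ | |p.1 - (1 / 2 - 1 / 60)| < 1 / 240} := isOpen_lt (by fun_prop) continuous_const
  have h2 : IsOpen {p : ℝ × ℝ | |p.2 + 19 / 20| < 1 / 50} := isOpen_lt (by fun_prop) continuous_const
  exact h1.inter h2

def e1 (m : ℕ) : Eu (m + 2) := im m (1 / 30, 0)
def e2 (m : ℕ) : Eu (m + 2) := im m (0, 9 / 10)

lemma Pm_rloop (x : Eu (m + 2)) (s : ℝ) : Pm m (rloop (e1 m) (e2 m) x s) =
    ((Pm m x).1 + (cl (s - 1) - cl (s - 3)) / 30, (Pm m x).2 + 9 / 10 * (cl s - cl (s - 2))) := by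
  unfold rloop e1 e2
  simp only [map_add, map_smul, map_neg, Pm_im]
  ext
  · simp; ring
  · simp; ring

lemma rloop_coord (x : Eu (m + 2)) (s : ℝ) {i : Fin (m + 2)} (hi : 2 ≤ (i : ℕ)) :
    (rloop (e1 m) (e2 m) x s) i = x i := by
  unfold rloop e1 e2
  simp only [PiLp.add_apply, PiLp.smul_apply, PiLp.neg_apply, im_coord _ hi]
  simp

lemma rloop_closed (x : Eu (m + 2)) : rloop (e1 m) (e2 m) x 0 = rloop (e1 m) (e2 m) x 4 := by
  rw [rloop_0 _ _ _ le_rfl zero_le_one, rloop_3 _ _ _ (by norm_num) le_rfl]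
  have : (4 : ℝ) - 3 = 1 := by norm_num
  rw [this, one_smul, zero_smul]; abel

lemma rloop_mem {x : Eu (m + 2)} (hx : x ∈ cyl m Bx) {s : ℝ} (hs : s ∈ Icc (0 : ℝ) 4) :
    rloop (e1 m) (e2 m) x s ∈ cyl m W0 := by
  refine ⟨?_, fun i hi => by rw [rloop_coord x s hi]; exact hx.2 i hi⟩
  rw [Pm_rloop]
  obtain ⟨h1, h2⟩ := hx.1
  rw [abs_lt] at h1 h2
  set a := (Pm m x).1
  set z := (Pm m x).2
  have key : ∀ α β : ℝ, 0 ≤ α → α ≤ 1 → 0 ≤ β → β ≤ 1 → (α = 0 ∨ α = 1 ∨ β = 0 ∨ β = 1) →
      (a + α / 30, z + 9 / 10 * β) ∈ W0 := by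
    intro α β ha0 ha1 hb0 hb1 hc
    refine ⟨⟨?_, ?_, ?_, ?_⟩, ?_⟩
    · simp only [ctr, siz]
      rw [abs_lt]; constructor <;> linarith [h1.1, h1.2]
    · simp only; linarith [h2.1, h2.2]
    · simp only; linarith [h2.1, h2.2]
    · simp only [ctr, siz]
      rintro ⟨k1, k2, k3⟩
      rw [abs_le] at k1
      rcases hc with h | h | h | h
      · rw [h] at k1; linarith [h1.1, h1.2, k1.1]
      · rw [h] at k1; linarith [h1.1, h1.2, k1.2]
      · rw [h] at k2; linarith [h2.1, h2.2]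
      · rw [h] at k3; linarith [h2.1, h2.2]
    · change z + 9 / 10 * β < 0
      linarith [h2.1, h2.2]
  rcases le_total s 1 with c1 | c1
  · rw [cl_of_mem hs.1 c1, cl_of_nonpos (by linarith : s - 1 ≤ 0),
      cl_of_nonpos (by linarith : s - 2 ≤ 0), cl_of_nonpos (by linarith : s - 3 ≤ 0)]
    apply key <;> simp <;> linarith [hs.1]
  · rcases le_total s 2 with c2 | c2
    · rw [cl_of_one_le c1, cl_of_mem (by linarith) (by linarith : s - 1 ≤ 1),
        cl_of_nonpos (by linarith : s - 2 ≤ 0), cl_of_nonpos (by linarith : s - 3 ≤ 0)]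
      apply key <;> simp <;> linarith [hs.1]
    · rcases le_total s 3 with c3 | c3
      · rw [cl_of_one_le c1, cl_of_one_le (by linarith : 1 ≤ s - 1),
          cl_of_mem (by linarith) (by linarith : s - 2 ≤ 1), cl_of_nonpos (by linarith : s - 3 ≤ 0)]
        apply key <;> simp <;> linarith [hs.1]
      · rw [cl_of_one_le c1, cl_of_one_le (by linarith : 1 ≤ s - 1),
          cl_of_one_le (by linarith : 1 ≤ s - 2), cl_of_mem (by linarith) (by linarith [hs.2] : s - 3 ≤ 1)]
        apply key <;> simp <;> linarith [hs.1, hs.2]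

lemma not_closedLog_rloop {x : Eu (m + 2)} (hx : x ∈ cyl m Bx) :
    ¬ ClosedLog (fun s => qf (Pm m (rloop (e1 m) (e2 m) x s))) := by
  obtain ⟨h1, h2⟩ := hx.1
  rw [abs_lt] at h1 h2
  set a := (Pm m x).1 with ha
  set z := (Pm m x).2 with hz
  let y : ℕ → ℝ → ℝ := fun k => match k with
    | 0 => fun s => c1 (5 / 2 * (z + 9 / 10 * s + 1 / 2))
    | 1 => fun s => c1 (120 * (a + (s - 1) / 30 - 1 / 2))
    | 2 => fun s => -c1 (5 / 2 * (z + 9 / 10 * (1 - (s - 2)) + 1 / 2))
    | _ => fun s => -c1 (120 * (a + (1 - (s - 3)) / 30 - 1 / 2))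
  let w : ℕ → ℂ := fun k => match k with
    | 0 => -1
    | 1 => Complex.I
    | 2 => 1
    | _ => -Complex.I
  have hc := c1_continuous
  apply not_closedLog_square (y := y) (w := w)
  · intro k hk
    interval_cases k <;> simp [w]
  · intro k hk
    interval_cases k
    · exact (by fun_prop : Continuous fun s => c1 (5 / 2 * (z + 9 / 10 * s + 1 / 2))).continuousOn
    · exact (by fun_prop : Continuous fun s => c1 (120 * (a + (s - 1) / 30 - 1 / 2))).continuousOn
    · exact (by fun_prop : Continuous fun s => -c1 (5 / 2 * (z + 9 / 10 * (1 - (s - 2)) + 1 / 2))).continuousOn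
    · exact (by fun_prop : Continuous fun s => -c1 (120 * (a + (1 - (s - 3)) / 30 - 1 / 2))).continuousOn
  · intro k hk
    interval_cases k
    · change c1 (5 / 2 * (z + 9 / 10 * ((0 : ℕ) : ℝ) + 1 / 2)) = -1
      push_cast
      exact c1_of_le (by linarith [h2.2])
    · change c1 (120 * (a + (((1 : ℕ) : ℝ) - 1) / 30 - 1 / 2)) = -1
      push_cast
      exact c1_of_le (by linarith [h1.2])
    · change -c1 (5 / 2 * (z + 9 / 10 * (1 - (((2 : ℕ) : ℝ) - 2)) + 1 / 2)) = -1
      push_cast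
      rw [c1_of_ge (by linarith [h2.1])]
    · change -c1 (120 * (a + (1 - (((3 : ℕ) : ℝ) - 3)) / 30 - 1 / 2)) = -1
      push_cast
      rw [c1_of_ge (by linarith [h1.1])]
  · intro k hk
    interval_cases k
    · change c1 (5 / 2 * (z + 9 / 10 * (((0 : ℕ) : ℝ) + 1) + 1 / 2)) = 1
      push_cast
      exact c1_of_ge (by linarith [h2.1])
    · change c1 (120 * (a + (((1 : ℕ) : ℝ) + 1 - 1) / 30 - 1 / 2)) = 1
      push_cast
      exact c1_of_ge (by linarith [h1.1])
    · change -c1 (5 / 2 * (z + 9 / 10 * (1 - (((2 : ℕ) : ℝ) + 1 - 2)) + 1 / 2)) = 1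
      push_cast
      rw [c1_of_le (by linarith [h2.2])]; norm_num
    · change -c1 (120 * (a + (1 - (((3 : ℕ) : ℝ) + 1 - 3)) / 30 - 1 / 2)) = 1
      push_cast
      rw [c1_of_le (by linarith [h1.2])]; norm_num
  · intro k hk s hs
    rw [Pm_rloop, ← ha, ← hz]
    interval_cases k
    · simp only [Nat.cast_zero, zero_add] at hs
      change qf _ = -1 * (1 - Complex.I * (c1 (5 / 2 * (z + 9 / 10 * s + 1 / 2)) : ℂ))
      rw [cl_of_mem hs.1 hs.2, cl_of_nonpos (by linarith [hs.2] : s - 1 ≤ 0),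
        cl_of_nonpos (by linarith [hs.2] : s - 2 ≤ 0), cl_of_nonpos (by linarith [hs.2] : s - 3 ≤ 0)]
      unfold qf
      simp only [sub_zero, zero_div, add_zero]
      rw [c1_of_le (by linarith [h1.2] : 120 * (a - 1 / 2) ≤ -1)]
      push_cast; ring
    · have h01 : (1 : ℝ) ≤ s := by simpa using hs.1
      have h02 : s ≤ 2 := by have := hs.2; norm_num at this; linarith
      change qf _ = Complex.I * (1 - Complex.I * (c1 (120 * (a + (s - 1) / 30 - 1 / 2)) : ℂ))
      rw [cl_of_one_le h01, cl_of_mem (by linarith) (by linarith : s - 1 ≤ 1),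
        cl_of_nonpos (by linarith : s - 2 ≤ 0), cl_of_nonpos (by linarith : s - 3 ≤ 0)]
      unfold qf
      simp only [sub_zero]
      rw [c1_of_ge (by linarith [h2.1] : 1 ≤ 5 / 2 * (z + 9 / 10 * 1 + 1 / 2))]
      push_cast
      ring_nf
      rw [Complex.I_sq]; ring
    · have h01 : (2 : ℝ) ≤ s := by simpa using hs.1
      have h02 : s ≤ 3 := by have := hs.2; norm_num at this; linarith
      change qf _ = 1 * (1 - Complex.I * ((-c1 (5 / 2 * (z + 9 / 10 * (1 - (s - 2)) + 1 / 2)) : ℝ) : ℂ))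
      rw [cl_of_one_le (by linarith : 1 ≤ s), cl_of_one_le (by linarith : 1 ≤ s - 1),
        cl_of_mem (by linarith) (by linarith : s - 2 ≤ 1), cl_of_nonpos (by linarith : s - 3 ≤ 0)]
      unfold qf
      simp only [sub_zero]
      rw [c1_of_ge (by linarith [h1.1] : 1 ≤ 120 * (a + 1 / 30 - 1 / 2))]
      push_cast; ring
    · have h01 : (3 : ℝ) ≤ s := by simpa using hs.1
      have h02 : s ≤ 4 := by have := hs.2; norm_num at this; linarith
      change qf _ = -Complex.I * (1 - Complex.I * ((-c1 (120 * (a + (1 - (s - 3)) / 30 - 1 / 2)) : ℝ) : ℂ))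
      rw [cl_of_one_le (by linarith : 1 ≤ s), cl_of_one_le (by linarith : 1 ≤ s - 1),
        cl_of_one_le (by linarith : 1 ≤ s - 2), cl_of_mem (by linarith) (by linarith : s - 3 ≤ 1)]
      unfold qf
      simp only [sub_self, mul_zero, add_zero]
      rw [c1_of_le (by linarith [h2.2] : 5 / 2 * (z + 1 / 2) ≤ -1)]
      push_cast
      ring_nf
      rw [Complex.I_sq]; ring

/-- the topological core: images of the rectangular loops are long -/
lemma loop_long {g : Eu (m + 2) → Eu (m + 2)} (hg : IsHomeo (cyl m Om) (cyl m Om') g)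
    {x : Eu (m + 2)} (hx : x ∈ cyl m Bx) {V : ℝ → ℝ}
    (hV : ∀ s ∈ Icc (0 : ℝ) 4, ∀ t ∈ Icc (0 : ℝ) 4, s ≤ t →
      ‖g (rloop (e1 m) (e2 m) x t) - g (rloop (e1 m) (e2 m) x s)‖ ≤ V t - V s) :
    1 / 2 ≤ V 4 - V 0 := by
  by_contra hcon
  push Not at hcon
  obtain ⟨hbij, hgc, h, hinv, hhc⟩ := hg
  set γ : ℝ → Eu (m + 2) := rloop (e1 m) (e2 m) x with hγ
  have hγc : Continuous γ := rloop_continuous _ _ _
  have hγO : ∀ s ∈ Icc (0 : ℝ) 4, γ s ∈ cyl m Om := fun s hs => cyl_mono W0_sub (rloop_mem hx hs)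
  have hgγ : ContinuousOn (fun s => g (γ s)) (Icc 0 4) := hgc.comp hγc.continuousOn hγO
  have hgO : ∀ s ∈ Icc (0 : ℝ) 4, g (γ s) ∈ cyl m Om' := fun s hs => hbij.mapsTo (hγO s hs)
  set σ : ℝ → Eu (m + 2) := fun s => lift Ti (g (γ s)) with hσ
  have hσc : ContinuousOn σ (Icc 0 4) := (lift_continuousOn Ti_continuousOn).comp hgγ hgO
  have hσO : ∀ s ∈ Icc (0 : ℝ) 4, σ s ∈ cyl m Om := fun s hs => lift_mapsTo Ti_mapsTo (hgO s hs)
  have hPσ : ∀ s, Pm m (σ s) = Ti (Pm m (g (γ s))) := fun s => Pm_lift _ _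
  have hd := dichotomy (p := fun s => Pm m (σ s)) ((Pm m).continuous.comp_continuousOn hσc)
    (fun s hs => (hσO s hs).1) (V := V) (by
      intro s hs t ht hst
      rw [hPσ, hPσ, Th_Ti (hgO s hs).1, Th_Ti (hgO t ht).1, ← map_sub]
      exact (norm_Pm_le _).trans (hV s hs t ht hst)) hcon
  have hThc : ContinuousOn Th Om := by
    have := Gm_continuousOn goodPhi_id
    exact this
  have hh : MapsTo h (cyl m Om') (cyl m Om) := by
    intro y hy
    obtain ⟨z, hz, rfl⟩ := hbij.surjOn hy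
    rw [hinv.1 hz]; exact hz
  have key := closedLog_short hσc (by simp only [hσ, hγ, rloop_closed]) hσO
    (Q := fun z => qf (Pm m (h (lift Th z))))
    (by
      apply qf_continuous.comp_continuousOn
      apply (Pm m).continuous.comp_continuousOn
      exact hhc.comp (lift_continuousOn hThc) (lift_mapsTo Th_mapsTo))
    (fun z hz => qf_ne (hh (lift_mapsTo Th_mapsTo hz)).1) hd
  apply not_closedLog_rloop hx
  obtain ⟨l, hl, hle, hl0⟩ := key
  refine ⟨l, hl, fun s hs => ?_, hl0⟩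
  rw [hle s hs]
  simp only [hσ]
  rw [lift_lift (Th_Ti (hgO s hs).1), hinv.1 (hγO s hs)]

lemma Flim_eq {x : Eu (m + 2)} (hx : x ∈ cyl m W0) : Flim m x = x - im m (Pm m x) := by
  have hx1 := hx.1
  have h1 : |(Pm m x).1 - ctr []| ≤ 5 * siz [] := by linarith [hx1.1.1, siz_pos []]
  have h2 := gap_nil h1
  have h3 : (Pm m x).2 < 0 := hx1.2
  have h4 : Gm (phi 0) (Pm m x) = 0 := by
    unfold Gm Th
    simp only
    rw [phi_a le_rfl zero_le_one h2.2, zero_mul, ell_zero]
    unfold th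
    simp only [max_eq_right h3.le]
    simp
  unfold Flim lift
  rw [h4, zero_sub, map_neg]; abel

lemma Flim_fderiv {x : Eu (m + 2)} (hx : x ∈ cyl m W0) (p : ℝ × ℝ) :
    fderiv ℝ (Flim m) x (im m p) = 0 := by
  have h1 : Flim m =ᶠ[𝓝 x] fun y => y - im m (Pm m y) := by
    filter_upwards [(cyl_isOpen W0_isOpen).mem_nhds hx] with y hy using Flim_eq hy
  rw [h1.fderiv_eq]
  have h2 : HasFDerivAt (fun y : Eu (m + 2) => y - im m (Pm m y))
      (ContinuousLinearMap.id ℝ (Eu (m + 2)) - (im m).comp (Pm m)) x :=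
    (hasFDerivAt_id x).sub ((im m).comp (Pm m)).hasFDerivAt
  rw [h2.fderiv]
  simp [Pm_im]

lemma ind_int {α F : Type*} [MeasurableSpace α] {μ : Measure α} [NormedAddCommGroup F] {W : Set α}
    (hW : MeasurableSet W) {G : α → F}
    (h : IntegrableOn G W μ) : Integrable (W.indicator G) μ := h.integrable_indicator hW

lemma not_strong {p : ℝ≥0∞} (hp : 1 ≤ p) : Flim m ∉ strongClosureHom p (cyl m Om) (cyl m Om') := by
  rintro ⟨-, Df, F, DF, hf, hF, hconv⟩
  set Ω := cyl m Om with hΩ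
  set W := cyl m W0 with hW
  have hWΩ : W ⊆ Ω := cyl_mono W0_sub
  have hΩo : IsOpen Ω := cyl_isOpen Om_isOpen
  have hWo : IsOpen W := cyl_isOpen W0_isOpen
  have hfin : volume Ω ≠ ⊤ := cylOm_bdd.measure_lt_top.ne
  have hfm : IsFiniteMeasure (volume.restrict Ω) :=
    ⟨by rw [Measure.restrict_apply_univ]; exact lt_top_iff_ne_top.mpr hfin⟩
  have h1 : Tendsto (fun k => eLpNorm (fun x => DF k x - Df x) p (volume.restrict Ω)) atTop (𝓝 0) :=
    tendsto_of_tendsto_of_tendsto_of_le_of_le tendsto_const_nhds hconv (fun _ => zero_le)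
      (fun _ => le_add_self)
  set C : ℝ≥0∞ := (volume.restrict Ω) univ ^ (1 / (1 : ℝ≥0∞).toReal - 1 / p.toReal) with hC
  have hCtop : C ≠ ⊤ := by
    apply ENNReal.rpow_ne_top_of_nonneg
    · simp only [ENNReal.toReal_one]
      rcases eq_or_ne p ⊤ with h | h
      · rw [h]; simp
      · have : 1 ≤ p.toReal := by
          rw [← ENNReal.toReal_one]
          exact ENNReal.toReal_mono h hp
        have h2 : 1 / p.toReal ≤ 1 := by
          rw [div_le_one (by linarith)]; exact this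
        linarith
    · exact measure_ne_top _ _
  have hdm : ∀ k, AEStronglyMeasurable (fun x => DF k x - Df x) (volume.restrict Ω) := fun k =>
    (hF k).2.2.1.1.sub hf.2.1.1
  have h2 : Tendsto (fun k => eLpNorm (fun x => DF k x - Df x) 1 (volume.restrict Ω)) atTop (𝓝 0) := by
    have h3 : Tendsto (fun k => eLpNorm (fun x => DF k x - Df x) p (volume.restrict Ω) * C) atTop (𝓝 (0 * C)) :=
      ENNReal.Tendsto.mul_const h1 (Or.inr hCtop)
    rw [zero_mul] at h3
    exact tendsto_of_tendsto_of_tendsto_of_le_of_le tendsto_const_nhds h3 (fun _ => zero_le)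
      (fun k => eLpNorm_le_eLpNorm_mul_rpow_measure_univ hp (hdm k))
  have hDfi : Integrable Df (volume.restrict Ω) := hf.2.1.integrable hp
  have hDFi : ∀ k, Integrable (DF k) (volume.restrict Ω) := fun k => (hF k).2.2.1.integrable hp
  -- the differential of the limit
  have hDf : ∀ᵐ x ∂(volume.restrict Ω), Df x = fderiv ℝ (Flim m) x := by
    apply weakDiff_unique hΩo hf.2.2 (Flim_locLip.isWeakDiff hΩo)
      (locallyIntegrableOn_of_locallyIntegrable_restrict hDfi.locallyIntegrable)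
    apply locallyIntegrableOn_of_locallyIntegrable_restrict
    apply Integrable.locallyIntegrable
    apply Integrable.of_bound (measurable_fderiv ℝ (Flim m)).aestronglyMeasurable (33 : ℝ≥0)
    filter_upwards [ae_restrict_mem hΩo.measurableSet] with x hx
    exact Flim_locLip.norm_fderiv_le hx
  -- directional estimates
  have hdir : ∀ (k : ℕ) (q : ℝ × ℝ), ∫ x in W, ‖DF k x (im m q)‖ ≤
      ‖im m q‖ * (eLpNorm (fun x => DF k x - Df x) 1 (volume.restrict Ω)).toReal := by
    intro k q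
    have hdi : Integrable (fun x => DF k x - Df x) (volume.restrict Ω) := (hDFi k).sub hDfi
    have e1 : (eLpNorm (fun x => DF k x - Df x) 1 (volume.restrict Ω)).toReal =
        ∫ x in Ω, ‖DF k x - Df x‖ := by
      rw [eLpNorm_one_eq_lintegral_enorm, integral_norm_eq_lintegral_enorm (hdm k)]
    rw [e1]
    calc ∫ x in W, ‖DF k x (im m q)‖ ≤ ∫ x in W, ‖im m q‖ * ‖DF k x - Df x‖ := by
          apply integral_mono_ae
          · exact (((hDFi k).mono_measure (Measure.restrict_mono hWΩ le_rfl)).apply_continuousLinearMap _).norm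
          · exact ((hdi.mono_measure (Measure.restrict_mono hWΩ le_rfl)).norm).const_mul _
          · have := ae_restrict_of_ae_restrict_of_subset hWΩ hDf
            filter_upwards [this, ae_restrict_mem hWo.measurableSet] with x hx hxW
            have h3 : Df x (im m q) = 0 := by rw [hx, Flim_fderiv hxW]
            calc ‖DF k x (im m q)‖ = ‖(DF k x - Df x) (im m q)‖ := by
                  rw [sub_apply, h3, sub_zero]
              _ ≤ ‖DF k x - Df x‖ * ‖im m q‖ := ContinuousLinearMap.le_opNorm _ _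
              _ = ‖im m q‖ * ‖DF k x - Df x‖ := mul_comm _ _
      _ = ‖im m q‖ * ∫ x in W, ‖DF k x - Df x‖ := integral_const_mul _ _
      _ ≤ ‖im m q‖ * ∫ x in Ω, ‖DF k x - Df x‖ := by
          apply mul_le_mul_of_nonneg_left _ (norm_nonneg _)
          exact setIntegral_mono_set hdi.norm (Filter.Eventually.of_forall fun _ => norm_nonneg _)
            (LE.le.eventuallyLE hWΩ)
  have h4 : Tendsto (fun k => (eLpNorm (fun x => DF k x - Df x) 1 (volume.restrict Ω)).toReal) atTop (𝓝 0) := by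
    have := (ENNReal.tendsto_toReal ENNReal.zero_ne_top).comp h2
    rw [ENNReal.toReal_zero] at this
    exact this
  have hBopen : IsOpen (cyl m Bx) := cyl_isOpen Bx_isOpen
  have hBne : (cyl m Bx).Nonempty := by
    refine ⟨pt m (1 / 2 - 1 / 60, -(19 / 20)), ?_, ?_⟩
    · rw [Pm_pt]; constructor <;> simp
    · intro i hi; rw [pt_coord _ hi]; norm_num
  have hBfin : volume (cyl m Bx) ≠ ⊤ := by
    have : cyl m Bx ⊆ Ω := by
      intro x hx
      have := rloop_mem hx (s := 0) (by norm_num)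
      rw [rloop_0 _ _ _ le_rfl zero_le_one, zero_smul, add_zero] at this
      exact hWΩ this
    exact ((measure_mono this).trans_lt (lt_top_iff_ne_top.mpr hfin)).ne
  have hBpos : 0 < (volume (cyl m Bx)).toReal :=
    ENNReal.toReal_pos (hBopen.measure_pos volume hBne).ne' hBfin
  have h5 : ∀ᶠ k in atTop, (2 * ‖e1 m‖ + 2 * ‖e2 m‖) *
      (eLpNorm (fun x => DF k x - Df x) 1 (volume.restrict Ω)).toReal < 1 / 2 * (volume (cyl m Bx)).toReal := by
    have h6 := h4.const_mul (2 * ‖e1 m‖ + 2 * ‖e2 m‖)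
    rw [mul_zero] at h6
    exact h6.eventually_lt_const (by positivity)
  obtain ⟨k, hk⟩ := h5.exists
  -- measurable representative
  have hm := (hF k).2.2.1.1
  set G : Eu (m + 2) → (Eu (m + 2) →L[ℝ] Eu (m + 2)) := W.indicator (hm.mk (DF k)) with hG
  have hGm : StronglyMeasurable G := hm.stronglyMeasurable_mk.indicator hWo.measurableSet
  have haeW : ∀ᵐ x ∂(volume.restrict W), DF k x = hm.mk (DF k) x :=
    ae_restrict_of_ae_restrict_of_subset hWΩ hm.ae_eq_mk
  have hGi0 : IntegrableOn (hm.mk (DF k)) W volume :=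
    ((hDFi k).mono_measure (Measure.restrict_mono hWΩ le_rfl)).congr haeW
  have hGi : Integrable G := ind_int hWo.measurableSet hGi0
  have hGw : IsWeakDiff W (F k) G := by
    intro φ hφ hc hs v
    have e1 := (hF k).2.2.2 φ hφ hc (hs.trans hWΩ) v
    have hz : ∀ x, x ∉ W → φ x = 0 := fun x hx => image_eq_zero_of_notMem_tsupport fun h => hx (hs h)
    have hdz : ∀ x, x ∉ W → fderiv ℝ φ x = 0 := by
      intro x hx
      have : x ∉ tsupport (fderiv ℝ φ) := fun h => hx (hs (tsupport_fderiv_subset ℝ h))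
      exact image_eq_zero_of_notMem_tsupport this
    have e2 : ∫ x in W, (fderiv ℝ φ x v) • F k x = ∫ x in Ω, (fderiv ℝ φ x v) • F k x := by
      symm
      apply setIntegral_eq_of_subset_of_forall_sdiff_eq_zero hΩo.measurableSet hWΩ
      intro x hx
      rw [hdz x hx.2]; simp
    have e3 : ∫ x in W, φ x • G x v = ∫ x in Ω, φ x • DF k x v := by
      have e4 : ∫ x in W, φ x • DF k x v = ∫ x in Ω, φ x • DF k x v := by
        symm
        apply setIntegral_eq_of_subset_of_forall_sdiff_eq_zero hΩo.measurableSet hWΩ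
        intro x hx
        rw [hz x hx.2]; simp
      rw [← e4]
      apply integral_congr_ae
      filter_upwards [haeW, ae_restrict_mem hWo.measurableSet] with x hx hxW
      rw [hG, indicator_of_mem hxW, hx]
    rw [e2, e3, e1]
  have hGint : ∀ q : ℝ × ℝ, ∫ x, ‖G x (im m q)‖ = ∫ x in W, ‖DF k x (im m q)‖ := by
    intro q
    have e1 : ∀ x, ‖G x (im m q)‖ = W.indicator (fun x => ‖hm.mk (DF k) x (im m q)‖) x := by
      intro x
      by_cases hx : x ∈ W
      · rw [hG, indicator_of_mem hx, indicator_of_mem hx]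
      · rw [hG, indicator_of_notMem hx, indicator_of_notMem hx]; simp
    simp only [e1]
    rw [integral_indicator hWo.measurableSet]
    apply integral_congr_ae
    filter_upwards [haeW] with x hx
    rw [hx]
  have hgc : ContinuousOn (F k) W := (hF k).1.2.1.mono hWΩ
  obtain ⟨x, hxB, ⟨g0, g1, g2, g3⟩, hsm⟩ := exists_loop hBopen hBfin hgc hGm hGi hGw (e1 m) (e2 m)
    (fun x hx s hs => rloop_mem hx hs) (1 / 2) (by
      have d1 := hdir k (1 / 30, 0)
      have d2 := hdir k (0, 9 / 10)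
      unfold e1 e2
      rw [hGint, hGint]
      unfold e1 e2 at hk
      linarith)
  have := loop_long (hF k).1 hxB (V := Vf G (e1 m) (e2 m) x) (fun s hs t ht hst =>
    loop_increment g0 g1 g2 g3 hs ht hst)
  linarith

end s1

section final


variable {m : ℕ}

lemma cyl_convex {U : Set (ℝ × ℝ)} (hU : Convex ℝ U) : Convex ℝ (cyl m U) := by
  intro x hx y hy a b ha hb hab
  refine ⟨?_, ?_⟩
  · rw [map_add, map_smul, map_smul]
    exact hU hx.1 hy.1 ha hb hab
  · intro i hi
    have h1 := hx.2 i hi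
    have h2 := hy.2 i hi
    simp only [PiLp.add_apply, PiLp.smul_apply, smul_eq_mul]
    have hb' : b = 1 - a := by linarith
    subst hb'
    constructor
    · rcases ha.eq_or_lt with h | h
      · rw [← h]; linarith
      · nlinarith
    · rcases ha.eq_or_lt with h | h
      · rw [← h]; linarith
      · nlinarith

/-- open rectangles -/
def rect (a b c d : ℝ) : Set (ℝ × ℝ) := {p | a < p.1 ∧ p.1 < b ∧ c < p.2 ∧ p.2 < d}

lemma rect_convex (a b c d : ℝ) : Convex ℝ (rect a b c d) := by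
  have : rect a b c d = Ioo a b ×ˢ Ioo c d := by
    ext p; simp only [rect, mem_ofPred_eq, mem_prod, mem_Ioo]; tauto
  rw [this]
  exact (convex_Ioo a b).prod (convex_Ioo c d)

lemma cyl_rect_pre (a b c d : ℝ) : IsPreconnected (cyl m (rect a b c d)) :=
  (cyl_convex (rect_convex a b c d)).isPreconnected

lemma pt_mem {U : Set (ℝ × ℝ)} {p : ℝ × ℝ} (hp : p ∈ U) : pt m p ∈ cyl m U := by
  refine ⟨by rwa [Pm_pt], fun i hi => ?_⟩
  rw [pt_coord _ hi]; norm_num

lemma hub_eq : hub = rect 0 1 0 1 := rfl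

lemma tower_eq (w : List Bool) : tower w =
    rect (ctr w - siz w) (ctr w + siz w) (-(1 / 10)) 1 ∪
    rect (ctr w + siz w / 4) (ctr w + siz w) (-1) 1 ∪
    rect (ctr w - siz w) (ctr w - siz w / 4) (-1) 1 ∪
    rect (ctr w - siz w) (ctr w + siz w) (-1) (-(9 / 10)) := by
  have h0 := siz_pos w
  ext p
  simp only [tower, rect, mem_union, mem_ofPred_eq, abs_lt, abs_le]
  constructor
  · rintro ⟨⟨h1, h2⟩, h3, h4, h5⟩
    by_cases k1 : -(1 / 10) < p.2
    · left; left; left; exact ⟨by linarith, by linarith, k1, h4⟩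
    · by_cases k2 : p.2 < -(9 / 10)
      · right; exact ⟨by linarith, by linarith, h3, k2⟩
      · push Not at k1 k2
        by_cases k3 : ctr w + siz w / 4 < p.1
        · left; left; right; exact ⟨k3, by linarith, h3, h4⟩
        · by_cases k4 : p.1 < ctr w - siz w / 4
          · left; right; exact ⟨by linarith, k4, h3, h4⟩
          · exfalso
            push Not at k3 k4
            exact h5 ⟨⟨by linarith, by linarith⟩, k2, k1⟩
  · rintro (((⟨h1, h2, h3, h4⟩ | ⟨h1, h2, h3, h4⟩) | ⟨h1, h2, h3, h4⟩) | ⟨h1, h2, h3, h4⟩)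
    · refine ⟨⟨by linarith, by linarith⟩, by linarith, h4, ?_⟩
      rintro ⟨_, _, k⟩; linarith
    · refine ⟨⟨by linarith, by linarith⟩, by linarith, h4, ?_⟩
      rintro ⟨⟨_, k⟩, _, _⟩; linarith
    · refine ⟨⟨by linarith, by linarith⟩, by linarith, h4, ?_⟩
      rintro ⟨⟨k, _⟩, _, _⟩; linarith
    · refine ⟨⟨by linarith, by linarith⟩, by linarith, by linarith, ?_⟩
      rintro ⟨_, k, _⟩; linarith

lemma cylOm_connected : IsConnected (cyl m Om) := by
  have hbase : ((1 / 2 : ℝ), (1 / 2 : ℝ)) ∈ hub := by simp [hub]; norm_num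
  refine ⟨⟨pt m (1 / 2, 1 / 2), pt_mem (Or.inl hbase)⟩, ?_⟩
  apply isPreconnected_of_forall (pt m (1 / 2, 1 / 2))
  intro y hy
  rcases hy.1 with h | h
  · refine ⟨cyl m hub, cyl_mono subset_union_left, pt_mem hbase, ⟨h, hy.2⟩, ?_⟩
    rw [hub_eq]; exact cyl_rect_pre _ _ _ _
  · obtain ⟨w, hw⟩ := mem_iUnion.mp h
    have h0 := siz_pos w
    have hc := gap_mem w (ctr w) (by simp [h0.le])
    have htow : tower w ⊆ Om := fun p hp => Or.inr (mem_iUnion.mpr ⟨w, hp⟩)
    have he := tower_eq w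
    set T1 := rect (ctr w - siz w) (ctr w + siz w) (-(1 / 10)) 1 with hT1
    set T2 := rect (ctr w + siz w / 4) (ctr w + siz w) (-1) 1 with hT2
    set T3 := rect (ctr w - siz w) (ctr w - siz w / 4) (-1) 1 with hT3
    set T4 := rect (ctr w - siz w) (ctr w + siz w) (-1) (-(9 / 10)) with hT4
    refine ⟨(((cyl m hub ∪ cyl m T1) ∪ cyl m T2) ∪ cyl m T3) ∪ cyl m T4, ?_, ?_, ?_, ?_⟩
    · refine union_subset (union_subset (union_subset (union_subset ?_ ?_) ?_) ?_) ?_
      · exact cyl_mono subset_union_left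
      · exact cyl_mono (fun p hp => htow (he ▸ (Or.inl (Or.inl (Or.inl hp)))))
      · exact cyl_mono (fun p hp => htow (he ▸ (Or.inl (Or.inl (Or.inr hp)))))
      · exact cyl_mono (fun p hp => htow (he ▸ (Or.inl (Or.inr hp))))
      · exact cyl_mono (fun p hp => htow (he ▸ (Or.inr hp)))
    · left; left; left; left; exact pt_mem hbase
    · rw [he] at hw
      rcases hw with ((hw | hw) | hw) | hw
      · left; left; left; right; exact ⟨hw, hy.2⟩
      · left; left; right; exact ⟨hw, hy.2⟩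
      · left; right; exact ⟨hw, hy.2⟩
      · right; exact ⟨hw, hy.2⟩
    · have a0 : IsPreconnected (cyl m hub) := by rw [hub_eq]; exact cyl_rect_pre _ _ _ _
      have p1 : (ctr w, (1 / 2 : ℝ)) ∈ hub := ⟨hc.1, hc.2, by norm_num, by norm_num⟩
      have p1' : (ctr w, (1 / 2 : ℝ)) ∈ T1 :=
        ⟨by simp only; linarith, by simp only; linarith, by norm_num, by norm_num⟩
      have a1 := IsPreconnected.union (pt m (ctr w, 1 / 2)) (pt_mem p1) (pt_mem p1') a0
        (cyl_rect_pre _ _ _ _ : IsPreconnected (cyl m T1))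
      have p2 : (ctr w + siz w / 2, (1 / 2 : ℝ)) ∈ T1 :=
        ⟨by simp only; linarith, by simp only; linarith, by norm_num, by norm_num⟩
      have p2' : (ctr w + siz w / 2, (1 / 2 : ℝ)) ∈ T2 :=
        ⟨by simp only; linarith, by simp only; linarith, by norm_num, by norm_num⟩
      have a2 := IsPreconnected.union (pt m (ctr w + siz w / 2, 1 / 2)) (Or.inr (pt_mem p2))
        (pt_mem p2') a1 (cyl_rect_pre _ _ _ _ : IsPreconnected (cyl m T2))
      have p3 : (ctr w - siz w / 2, (1 / 2 : ℝ)) ∈ T1 :=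
        ⟨by simp only; linarith, by simp only; linarith, by norm_num, by norm_num⟩
      have p3' : (ctr w - siz w / 2, (1 / 2 : ℝ)) ∈ T3 :=
        ⟨by simp only; linarith, by simp only; linarith, by norm_num, by norm_num⟩
      have a3 := IsPreconnected.union (pt m (ctr w - siz w / 2, 1 / 2)) (Or.inl (Or.inr (pt_mem p3)))
        (pt_mem p3') a2 (cyl_rect_pre _ _ _ _ : IsPreconnected (cyl m T3))
      have p4 : (ctr w + siz w / 2, (-(19 / 20) : ℝ)) ∈ T2 :=
        ⟨by simp only; linarith, by simp only; linarith, by norm_num, by norm_num⟩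
      have p4' : (ctr w + siz w / 2, (-(19 / 20) : ℝ)) ∈ T4 :=
        ⟨by simp only; linarith, by simp only; linarith, by norm_num, by norm_num⟩
      exact IsPreconnected.union (pt m (ctr w + siz w / 2, -(19 / 20))) (Or.inl (Or.inr (pt_mem p4)))
        (pt_mem p4') a3 (cyl_rect_pre _ _ _ _ : IsPreconnected (cyl m T4))

lemma cylOm'_connected : IsConnected (cyl m Om') := by
  have h := Fk_isHomeo (m := m) 0
  have h1 : Fk m 0 '' (cyl m Om) = cyl m Om' := h.1.image_eq
  rw [← h1]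
  exact cylOm_connected.image _ h.2.1


theorem main (n : ℕ) (hn : 3 ≤ n) :
    ∃ (Ω Ω' : Set (Eu n)) (f : Eu n → Eu n),
      IsOpen Ω ∧ IsOpen Ω' ∧ Bornology.IsBounded Ω ∧ Bornology.IsBounded Ω' ∧
      IsConnected Ω ∧ IsConnected Ω' ∧
      ∀ p : ℝ≥0∞, 1 ≤ p → p ≠ ⊤ → f ∈ weakClosureHom p Ω Ω' ∧ f ∉ strongClosureHom p Ω Ω' := by
  obtain ⟨m, rfl⟩ : ∃ m, n = m + 2 := ⟨n - 2, by omega⟩
  exact ⟨cyl m Om, cyl m Om', Flim m, cyl_isOpen Om_isOpen, cyl_isOpen Om'_isOpen, cylOm_bdd,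
    cylOm'_bdd, cylOm_connected, cylOm'_connected, fun p hp _ => ⟨Flim_mem_weak p, not_strong hp⟩⟩

end final

end

end Pool.Agent.Helper795.Wild
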